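import Pool.Agent.STP.Fml

/-! # Statement: dependent choice and inaccessible Theta in L(R) without AD (definitions)

(problem MP_328cd5_lc; no sorry in this file)

All notions are those of a transitive set `N` of sets (with the true membership relation): the quantifiers
range over the elements of `N`. The other notions (ordinals, functions, ordered pairs, natural numbers) are
absolute for transitive models. -/

universe v

namespace LRS

open STP

/-- the membership relation of `W` -/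
def Em (W : Set ZFSet.{0}) : W → W → Prop := fun x y => x.1 ∈ y.1

/-- `(N, E)` is a model of the Zermelo-Fraenkel axioms -/
structure ZF {N : Type v} (E : N → N → Prop) : Prop where
  ext : ∀ x y, (∀ z, E z x ↔ E z y) → x = y
  found : ∀ x, (∃ y, E y x) → ∃ y, E y x ∧ ∀ z, E z x → ¬ E z y
  pair : ∀ x y, ∃ z, ∀ w, E w z ↔ w = x ∨ w = y
  union : ∀ x, ∃ y, ∀ z, E z y ↔ ∃ w, E w x ∧ E z w
  power : ∀ x, ∃ y, ∀ z, E z y ↔ ∀ w, E w z → E w x
  infinity : ∃ x, (∃ y, E y x ∧ ∀ z, ¬ E z y) ∧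
    ∀ y, E y x → ∃ z, E z x ∧ ∀ w, E w z ↔ E w y ∨ w = y
  separation : ∀ (φ : Fml) (v : ℕ → N) (x : N), ∃ y, ∀ z, E z y ↔ E z x ∧ sat E φ (cns z v)
  replacement : ∀ (φ : Fml) (v : ℕ → N) (x : N),
    (∀ z, E z x → ∃! w, sat E φ (cns w (cns z v))) →
      ∃ y, ∀ w, E w y ↔ ∃ z, E z x ∧ sat E φ (cns w (cns z v))

/-- `W` is a transitive model of ZFC -/
structure IsModel (W : Set ZFSet.{0}) : Prop where
  trans : ∀ x ∈ W, ∀ y ∈ x, y ∈ W
  zfc : ZFC (Em W)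

/-- `x` is a function from `ω` to `ω` (a real) -/
def IsReal (x : ZFSet.{0}) : Prop := ZFSet.IsFunc ZFSet.omega ZFSet.omega x

/-- `N ⊆ W` is a transitive model of ZF which contains all ordinals and all reals of `W` -/
structure Inner (W N : Set ZFSet.{0}) : Prop where
  sub : N ⊆ W
  trans : ∀ x ∈ N, ∀ y ∈ x, y ∈ N
  zf : ZF (Em N)
  ord : ∀ α ∈ W, α.IsOrdinal → α ∈ N
  real : ∀ x ∈ W, IsReal x → x ∈ N

/-- `N` is the model `L(ℝ)` of `W` -/
structure IsLR (W N : Set ZFSet.{0}) : Prop where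
  inner : Inner W N
  least : ∀ N', Inner W N' → N ⊆ N'

/-- the natural number `n` as a set -/
noncomputable def nat : ℕ → ZFSet.{0}
  | 0 => ∅
  | n + 1 => insert (nat n) (nat n)

/-- dependent choice in `N` -/
def DC (N : Set ZFSet.{0}) : Prop :=
  ∀ X ∈ N, ∀ R ∈ N, (∃ x, x ∈ X) → (∀ x ∈ X, ∃ y ∈ X, ZFSet.pair x y ∈ R) →
    ∃ f ∈ N, ZFSet.IsFunc ZFSet.omega X f ∧ ∀ n : ℕ, ∃ x y, ZFSet.pair (nat n) x ∈ f ∧
      ZFSet.pair (nat (n + 1)) y ∈ f ∧ ZFSet.pair x y ∈ R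

/-- there is a surjection of `A` onto `B` in `N` -/
def Surj (N : Set ZFSet.{0}) (A B : ZFSet.{0}) : Prop :=
  ∃ f ∈ N, ZFSet.IsFunc A B f ∧ ∀ y ∈ B, ∃ x ∈ A, ZFSet.pair x y ∈ f

/-- `R` is the set of all reals of `N` -/
def IsReals (N : Set ZFSet.{0}) (R : ZFSet.{0}) : Prop :=
  R ∈ N ∧ ∀ x, x ∈ R ↔ x ∈ N ∧ IsReal x

/-- `P` is the power set of `A` in `N` -/
def IsPow (N : Set ZFSet.{0}) (A P : ZFSet.{0}) : Prop :=
  P ∈ N ∧ ∀ x, x ∈ P ↔ x ∈ N ∧ x ⊆ A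

/-- `θ` is the supremum of the ordinals `α` of `N` such that there is a surjection of the set of the reals
onto `α` in `N` -/
def IsTheta (N : Set ZFSet.{0}) (θ : ZFSet.{0}) : Prop :=
  θ ∈ N ∧ θ.IsOrdinal ∧ ∃ R, IsReals N R ∧
    ∀ β, β ∈ θ ↔ ∃ α ∈ N, α.IsOrdinal ∧ Surj N R α ∧ β ∈ α

/-- the ordinal `θ` is inaccessible in `N`: uncountable, regular, and for no `α < θ` is there a surjection
of the power set of `α` onto `θ` -/
structure Inacc (N : Set ZFSet.{0}) (θ : ZFSet.{0}) : Prop where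
  inf : ZFSet.omega ∈ θ
  unc : ¬ Surj N ZFSet.omega θ
  reg : ∀ α ∈ θ, ∀ f ∈ N, ZFSet.IsFunc α θ f → ∃ β ∈ θ, ∀ x y, ZFSet.pair x y ∈ f → y ∈ β
  lim : ∀ α ∈ θ, ∃ P, IsPow N α P ∧ ¬ Surj N P θ

/-- `s` is a function from the set of all finite sequences of natural numbers to `ω` -/
def IsStrat (s : ZFSet.{0}) : Prop :=
  ∀ (n : ℕ) t, ZFSet.IsFunc (nat n) ZFSet.omega t → ∃! k, k ∈ ZFSet.omega ∧ ZFSet.pair t k ∈ s

/-- the play `x` follows the strategy `s` of player I (`i = 0`, moves `x(2n)`) or of player II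
(`i = 1`, moves `x(2n + 1)`) -/
def Fol (i : ℕ) (s x : ZFSet.{0}) : Prop :=
  ∀ (n : ℕ) t, ZFSet.IsFunc (nat (2 * n + i)) ZFSet.omega t → t ⊆ x →
    ∃ k, ZFSet.pair (nat (2 * n + i)) k ∈ x ∧ ZFSet.pair t k ∈ s

/-- the axiom of determinacy in `N`: for every payoff set `A` one of the players has a winning strategy -/
def AD (N : Set ZFSet.{0}) : Prop :=
  ∀ A ∈ N, ∃ s ∈ N, IsStrat s ∧ ((∀ x ∈ N, IsReal x → Fol 0 s x → x ∈ A) ∨
    ∀ x ∈ N, IsReal x → Fol 1 s x → x ∉ A)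

/-- There is a countable transitive model `W` of ZFC such that `L(ℝ)` of `W` satisfies dependent choice
and `Θ` is inaccessible, but the axiom of determinacy fails. -/
def Final : Prop := ∃ W N : Set ZFSet.{0}, W.Countable ∧ IsModel W ∧ IsLR W N ∧ DC N ∧
  (∃ θ, IsTheta N θ ∧ Inacc N θ) ∧ ¬ AD N

end LRS
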