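import Pool.Agent.LRM.BddB
import Pool.Agent.LRM.Stm
import Pool.Agent.WCal.Tm

/-! # LRM: conversions between sets and native objects, the model `L(ℝ)`

(library; no sorry in this file) -/

universe v w

namespace LRS

open STP ZU LRM

/-! ### Natural numbers -/

theorem nat_zn (n : ℕ) : nat n = WCal.zn n := by
  induction n with
  | zero => rfl
  | succ n ih =>
    change insert (nat n) (nat n) = insert (WCal.zn n) (WCal.zn n)
    rw [ih]

theorem nat_val {W : Set ZFSet.{0}} [TM W] (n : ℕ) : (nt n : W).1 = nat n := by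
  induction n with
  | zero => exact val_em
  | succ n ih =>
    rw [nt_succ, val_sc, ih]
    rfl

theorem mem_omega {z : ZFSet.{0}} : z ∈ ZFSet.omega ↔ ∃ n, z = nat n := by
  have h : ∀ n, nat n = ZFSet.mk (PSet.ofNat n) := by
    intro n
    induction n with
    | zero => rfl
    | succ n ih =>
      change insert (nat n) (nat n) = _
      rw [ih]
      rfl
  constructor
  · induction z using Quotient.inductionOn with
    | _ z =>
      rintro ⟨⟨n⟩, hn⟩
      exact ⟨n, (ZFSet.sound hn).trans (h n).symm⟩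
  · rintro ⟨n, rfl⟩
    rw [h]
    exact ⟨⟨n⟩, PSet.Equiv.refl _⟩

theorem nat_inj {m n : ℕ} : nat m = nat n ↔ m = n := by
  rw [nat_zn, nat_zn]
  constructor
  · intro h
    have key : ∀ a b : ℕ, a < b → WCal.zn a ∈ WCal.zn b := by
      intro a b hab
      induction b with
      | zero => omega
      | succ b ih =>
        change WCal.zn a ∈ insert (WCal.zn b) (WCal.zn b)
        rw [ZFSet.mem_insert_iff]
        rcases Nat.lt_succ_iff_lt_or_eq.1 hab with h1 | rfl
        · exact Or.inr (ih h1)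
        · exact Or.inl rfl
    rcases lt_trichotomy m n with h1 | h1 | h1
    · have := key _ _ h1
      rw [h] at this
      exact absurd this (ZFSet.mem_irrefl _)
    · exact h1
    · have := key _ _ h1
      rw [h] at this
      exact absurd this (ZFSet.mem_irrefl _)
  · rintro rfl
    rfl

/-! ### Models -/

theorem tm_of {N : Set ZFSet.{0}} (ht : ∀ x ∈ N, ∀ y ∈ x, y ∈ N) (h : ZF (Em N)) : TM N :=
  ⟨ht, ⟨h.ext, h.pair, h.union, h.power, h.infinity, h.separation, h.replacement⟩⟩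

theorem zf_of (N : Set ZFSet.{0}) [t : TM N] : ZF (Em N) where
  ext := t.ax.ext
  found := by
    rintro x ⟨y, hy⟩
    have hwf : WellFounded (Em N) := InvImage.wf Subtype.val ZFSet.mem_wf
    have hm : hwf.min {y | Em N y x} ⟨y, hy⟩ ∈ {y | Em N y x} := hwf.min_mem _ _
    refine ⟨hwf.min {y | Em N y x} ⟨y, hy⟩, hm, fun z hz hz' => ?_⟩
    exact hwf.not_lt_min _ (show z ∈ {y | Em N y x} from hz) hz'
  pair := t.ax.pair
  union := t.ax.union
  power := t.ax.power
  infinity := t.ax.infinity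
  separation := t.ax.separation
  replacement := t.ax.replacement

/-! ### Functions -/

theorem isFunc_iff {W : Set ZFSet.{0}} [TM W] {A B f : W} :
    ZFSet.IsFunc A.1 B.1 f.1 ↔ IsF f A ∧ ∀ x, x ∈ A → ap f x ∈ B := by
  constructor
  · rintro ⟨h1, h2⟩
    have h3 : ∀ z : W, z ∈ A → op z (ap f z) ∈ f ∧ ∀ w, op z w ∈ f → w = ap f z := by
      intro z hz
      obtain ⟨w, hw, hw'⟩ := h2 z.1 hz
      have hw0 : ZFSet.pair z.1 w ∈ f.1 := hw
      obtain ⟨z', w', h4, rfl, h5⟩ := CPY.mpair_ex hw0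
      have h6 : z' = z := Subtype.ext h4
      subst h6
      have h7 : ap f z' = w' := the_eq (P := fun y => op z' y ∈ f) h5 fun u hu =>
        Subtype.ext (hw' u.1 (CPY.mop_mem.1 hu))
      refine ⟨by rw [h7]; exact h5, fun u hu => ?_⟩
      rw [h7]
      exact Subtype.ext (hw' u.1 (CPY.mop_mem.1 hu))
    refine ⟨?_, fun x hx => ?_⟩
    · refine ZU.ext fun p => ?_
      rw [mem_lam (df_ap_c _)]
      constructor
      · intro hp
        obtain ⟨a, ha, b, hb, h4⟩ := ZFSet.mem_prod.1 (h1 hp)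
        have h5 : ZFSet.pair a b ∈ f.1 := by
          rw [← h4]
          exact hp
        obtain ⟨a, b, rfl, rfl, h6⟩ := CPY.mpair_ex h5
        refine ⟨a, ha, ?_⟩
        rw [← (h3 a ha).2 b h6]
        exact Subtype.ext (h4.trans val_op.symm)
      · rintro ⟨z, hz, rfl⟩
        exact (h3 z hz).1
    · have h4 := h1 (CPY.mop_mem.1 (h3 x hx).1)
      exact (ZFSet.pair_mem_prod.1 h4).2
  · rintro ⟨h1, h2⟩
    refine ⟨fun p hp => ?_, fun z hz => ?_⟩
    · obtain ⟨p, hp, rfl⟩ := ex_val hp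
      obtain ⟨x, hx, rfl⟩ := h1.mem_iff.1 hp
      rw [val_op, ZFSet.pair_mem_prod]
      exact ⟨hx, h2 x hx⟩
    · obtain ⟨z, hz, rfl⟩ := ex_val hz
      refine ⟨(ap f z).1, CPY.mop_mem.1 (h1.op_mem.2 ⟨hz, rfl⟩), fun w hw => ?_⟩
      have hw0 : ZFSet.pair z.1 w ∈ f.1 := hw
      obtain ⟨z', w', h4, rfl, h5⟩ := CPY.mpair_ex hw0
      have h6 : z' = z := Subtype.ext h4
      subst h6
      rw [(h1.op_mem.1 h5).2]

theorem isReal_iff {W : Set ZFSet.{0}} [TM W] {x : W} :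
    IsReal x.1 ↔ IsF x om ∧ ∀ n, n ∈ (om : W) → ap x n ∈ (om : W) := by
  unfold IsReal
  rw [← val_om (M := W)]
  exact isFunc_iff

/-! ### The model `L(ℝ)` -/

/-- `L(ℝ)` of `W` -/
def LRs (W : Set ZFSet.{0}) : Set ZFSet.{0} :=
  {z | ∃ (_ : TM W) (hz : z ∈ W), InL (pw (om : W)) ⟨z, hz⟩}

theorem LRs_eq {W : Set ZFSet.{0}} [t : TM W] : LRs W = LA (pw (om : W)) := by
  ext z
  constructor
  · rintro ⟨_, hz, h⟩
    exact ⟨hz, h⟩
  · rintro ⟨hz, h⟩
    exact ⟨t, hz, h⟩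

theorem tr_pwom {N : Type v} [ZM N] : Tr (pw (om : N)) := fun x hx y hy => by
  rw [mem_pw] at hx ⊢
  obtain ⟨n, rfl⟩ := mem_om.1 (hx y hy)
  exact ord_om.1 _ (nt_mem_om n)

theorem LRs_tm {W : Set ZFSet.{0}} [t : TM W] : TM (LRs W) := by
  rw [LRs_eq]
  exact LA_tm tr_pwom

theorem LRs_sub {W : Set ZFSet.{0}} [t : TM W] : LRs W ⊆ W := by
  rw [LRs_eq]
  exact LA_sub _

theorem mem_LRs {W : Set ZFSet.{0}} [t : TM W] {x : W} : x.1 ∈ LRs W ↔ InL (pw om) x := by
  rw [LRs_eq]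
  exact mem_LA

theorem LRs_pw {W : Set ZFSet.{0}} [t : TM W] : (pw (om : W)).1 ∈ LRs W := mem_LRs.2 inL_self

theorem LRs_om {W : Set ZFSet.{0}} [t : TM W] {x : W} (hx : x ⊆ om) : x.1 ∈ LRs W :=
  mem_LRs.2 ((inn_L tr_pwom).tr _ _ inL_self (mem_pw.2 hx))

theorem LRs_ord {W : Set ZFSet.{0}} [t : TM W] {α : W} (hα : ZU.Ord α) : α.1 ∈ LRs W :=
  mem_LRs.2 ((inn_L tr_pwom).ord α hα)

theorem LRs_om2 {W : Set ZFSet.{0}} [t : TM W] {x : W} (hx : x ⊆ prd om om) : x.1 ∈ LRs W := by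
  have tN := LRs_tm (W := W)
  have e : TrEmb (Set.inclusion (LRs_sub (W := W))) := emb_incl LRs_sub
  have hD : Dfn fun v : ℕ → W => enp (v 0) ∈ x := dfn_mem (df_enp (df_var 0)) (df_const _)
  have h1 : (sep om fun l => enp l ∈ x : W) ⊆ om := fun z hz => ((ZU.mem_sep hD).1 hz).1
  let x' : LRs W := ⟨(sep om fun l => enp l ∈ x : W).1, LRs_om h1⟩
  have hD' : Dfn fun v : ℕ → LRs W => ∃ l, l ∈ x' ∧ enp l = v 0 := by
    refine dfn_ex (dfn_and (dfn_mem (df_var 0) (df_const _)) (dfn_eq (df_enp (df_var 0))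
      (df_var 1)))
  have : Set.inclusion (LRs_sub (W := W)) (sep (prd om om) fun z => ∃ l, l ∈ x' ∧ enp l = z) =
      x := by
    refine ZU.ext fun z => ?_
    rw [e.mem_j]
    constructor
    · rintro ⟨y, hy, rfl⟩
      obtain ⟨hy1, l, hl, rfl⟩ := (ZU.mem_sep hD').1 hy
      rw [emb_enp e]
      have h2 : Set.inclusion (LRs_sub (W := W)) l ∈ (sep om fun l => enp l ∈ x : W) := hl
      exact ((ZU.mem_sep hD).1 h2).2
    · intro hz
      obtain ⟨a, b, ha, hb, rfl⟩ := mem_prd.1 (hx z hz)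
      obtain ⟨m, rfl⟩ := mem_om.1 ha
      obtain ⟨n, rfl⟩ := mem_om.1 hb
      obtain ⟨l, hl⟩ := enp_surj (N := W) m n
      refine ⟨op (nt m) (nt n), (ZU.mem_sep hD').2 ⟨op_mem_prd.2 ⟨nt_mem_om m, nt_mem_om n⟩,
        nt l, ?_, ?_⟩, by rw [e.op, e.nt, e.nt]⟩
      · have h3 : (nt l : W) ∈ (sep om fun l => enp l ∈ x : W) :=
          (ZU.mem_sep hD).2 ⟨nt_mem_om l, by rw [hl]; exact hz⟩
        have h4 : Set.inclusion (LRs_sub (W := W)) (nt l) = nt l := e.nt l
        rw [← h4] at h3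
        exact h3
      · rw [← e.eq_iff, emb_enp e, e.nt, e.op, e.nt, e.nt]
        exact hl
  rw [← this]
  exact (sep (prd om om) fun z => ∃ l, l ∈ x' ∧ enp l = z : LRs W).2

theorem LRs_real {W : Set ZFSet.{0}} [t : TM W] {x : ZFSet.{0}} (hx : x ∈ W) (h : IsReal x) :
    x ∈ LRs W := by
  have h1 : (⟨x, hx⟩ : W) ⊆ prd om om := by
    rw [val_sub, val_prd, val_om]
    exact h.1
  exact LRs_om2 h1

/-- the reals of an inner model which contains all functions from `ω` to `ω` -/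
theorem om_inner {W N : Set ZFSet.{0}} [TM W] [TM N] (hr : ∀ x ∈ W, IsReal x → x ∈ N)
    {x : W} (hx : x ⊆ om) : x.1 ∈ N := by
  have hD : DF fun v : ℕ → W => ife (v 0 ∈ x) (nt 1) ∅ :=
    df_ife (dfn_mem (df_var 0) (df_const _)) (df_const _) (df_const _)
  let f : W := lam om fun n => ife (n ∈ x) (nt 1) ∅
  have hf : IsF f om := isF_lam hD om
  have hfa : ∀ n, n ∈ (om : W) → ap f n = ife (n ∈ x) (nt 1) ∅ := fun n hn => ap_lam hD hn
  have hfr : IsReal f.1 := isReal_iff.2 ⟨hf, fun n hn => by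
    rw [hfa n hn]
    by_cases h : n ∈ x
    · rw [ife_pos h]
      exact nt_mem_om 1
    · rw [ife_neg h]
      exact nt_mem_om 0⟩
  let f' : N := ⟨f.1, hr _ f.2 hfr⟩
  have hD' : Dfn fun v : ℕ → N => op (v 0) (nt 1) ∈ f' :=
    dfn_mem (df_op (df_var 0) (df_const _)) (df_const _)
  have : (sep om fun n => op n (nt 1) ∈ f' : N).1 = x.1 := by
    refine val_eq (fun z hz => ?_) fun z hz => ?_
    · obtain ⟨hz1, hz2⟩ := (ZU.mem_sep hD').1 hz
      obtain ⟨n, rfl⟩ := mem_om.1 hz1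
      rw [op_mem_val, nat_val, nat_val, ← nat_val (W := W), ← nat_val (W := W)] at hz2
      have h1 : op (nt n : W) (nt 1) ∈ f := op_mem_val.2 hz2
      have h2 := (hf.op_mem.1 h1).2
      rw [hfa _ (nt_mem_om n)] at h2
      rw [nat_val, ← nat_val (W := W)]
      by_contra h3
      have h4 : ¬ (nt n : W) ∈ x := h3
      rw [ife_neg h4] at h2
      have h5 : (nt 1 : W) = nt 0 := h2
      rw [nt_inj] at h5
      omega
    · obtain ⟨z, hz1, rfl⟩ := ex_val hz
      obtain ⟨n, rfl⟩ := mem_om.1 (hx z hz1)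
      refine ⟨nt n, (ZU.mem_sep hD').2 ⟨nt_mem_om n, ?_⟩, by rw [nat_val, nat_val]⟩
      rw [op_mem_val, nat_val, nat_val, ← nat_val (W := W), ← nat_val (W := W)]
      have h1 : op (nt n : W) (nt 1) ∈ f := hf.op_mem.2 ⟨nt_mem_om n, by
        rw [hfa _ (nt_mem_om n), ife_pos hz1]⟩
      exact op_mem_val.1 h1
  rw [← this]
  exact Subtype.property _

theorem isLR_LRs {W : Set ZFSet.{0}} [TM W] : IsLR W (LRs W) where
  inner :=
    { sub := LRs_sub
      trans := (LRs_tm (W := W)).tr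
      zf := @zf_of _ LRs_tm
      ord := fun α hα h => LRs_ord (α := (⟨α, hα⟩ : W)) (CPY.mord_iff.2 h)
      real := fun x hx h => LRs_real hx h }
  least := fun N hN => by
    have tN := tm_of hN.trans hN.zf
    rw [LRs_eq]
    refine LA_min hN.sub ?_ fun α hα => hN.ord _ α.2 (CPY.mord_iff.1 hα)
    have : (pw (om : N)).1 = (pw (om : W)).1 := by
      refine val_eq (fun z hz => ?_) fun z hz => ?_
      · rw [mem_pw, val_sub, val_om] at hz
        have h1 : (⟨z.1, hN.sub z.2⟩ : W) ∈ pw (om : W) := by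
          rw [mem_pw, val_sub, val_om]
          exact hz
        exact h1
      · obtain ⟨z, hz1, rfl⟩ := ex_val hz
        have hz2 := mem_pw.1 hz1
        have h1 := om_inner (N := N) hN.real hz2
        refine ⟨⟨z.1, h1⟩, ?_, rfl⟩
        rw [mem_pw, val_sub, val_om]
        rw [val_sub, val_om] at hz2
        exact hz2
    rw [← this]
    exact Subtype.property _

end LRS
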