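import Pool.Agent.LRM.AbsA

/-! # LRM: the model `L(ℝ)` from the data: dependent choice, Theta

(library; problem MP_328cd5_lc; no sorry in this file)

`Dat M W κ Sm`: the facts about the ground model `M`, the extension `W`, the cardinal `κ` and the
intermediate models `Sm a` which are needed. -/

universe u v w

namespace LRS

open STP ZU LRM

/-- the facts about the extension -/
structure Dat (M W : Set ZFSet.{0}) (κ : ZFSet.{0}) {ι : Type u} (Sm : ι → Set ZFSet.{0}) : Prop where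
  modM : CPY.Mod M
  modW : CPY.Mod W
  sub : M ⊆ W
  ord : ∀ α ∈ W, α.IsOrdinal → α ∈ M
  ctb : W.Countable
  kM : κ ∈ M
  reg : ∀ (_ : TM W) (k : W), k.1 = κ → CPY.RegK k
  omk : ZFSet.omega ∈ κ
  mN : M ⊆ LRs W
  bdd : ∀ α ∈ κ, ∀ F ∈ LRs W, (∀ x ξ η, ZFSet.pair x ξ ∈ F → ZFSet.pair x η ∈ F → ξ = η) →
    ∃ b ∈ κ, ∀ x ∈ LRs W, x ⊆ α → ∀ ξ ∈ κ, ZFSet.pair x ξ ∈ F → ξ ∈ b
  dec : ∀ β ∈ κ, ∃ F ∈ LRs W, (∀ x ξ η, ZFSet.pair x ξ ∈ F → ZFSet.pair x η ∈ F → ξ = η) ∧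
    ∀ y ∈ β, ∃ x ∈ W, x ⊆ ZFSet.omega ∧ ZFSet.pair x y ∈ F
  smM : ∀ a, CPY.Mod (Sm a)
  sml : ∀ a, M ⊆ Sm a
  real : ∀ x ∈ W, x ⊆ ZFSet.omega → ∃ a, x ∈ Sm a
  new : ∀ a, ∃ x ∈ W, x ⊆ ZFSet.omega ∧ x ∉ Sm a
  unc : ∀ F ∈ W, ∃ z ∈ M, z ⊆ ZFSet.omega ∧ ∀ n : ℕ, ∃ i : ℕ,
    ¬ (nat i ∈ z ↔ ZFSet.pair (nat n) (nat i) ∈ F)

variable {M W : Set ZFSet.{0}} {κ : ZFSet.{0}} {ι : Type u} {Sm : ι → Set ZFSet.{0}}

theorem isFunc_fun {A B f x y z : ZFSet.{0}} (h : ZFSet.IsFunc A B f) (h1 : ZFSet.pair x y ∈ f)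
    (h2 : ZFSet.pair x z ∈ f) : y = z := by
  have h3 := (ZFSet.pair_mem_prod.1 (h.1 h1)).1
  obtain ⟨w, -, hw⟩ := h.2 x h3
  exact (hw y h1).trans (hw z h2).symm

/-! ### Dependent choice -/

theorem Dat.dc (h : Dat M W κ Sm) : DC (LRs W) := by
  have tM := h.modM.tm
  have tW := h.modW.tm
  have tN : TM (LRs W) := LRs_tm
  have eM : TrEmb (Set.inclusion h.sub) := emb_incl h.sub
  have eN : TrEmb (Set.inclusion (LRs_sub (W := W))) := emb_incl LRs_sub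
  have key : DCm (LRs W) := dc_LR (M := M) (N := LRs W) (W := W) eM eN
    (fun α hα => ⟨⟨α.1, h.ord _ α.2 (CPY.mord_iff.1 hα)⟩, Subtype.ext rfl⟩)
    (fun z => by
      constructor
      · intro hz
        exact ⟨⟨z.1, mem_LRs.2 hz⟩, Subtype.ext rfl⟩
      · rintro ⟨x, rfl⟩
        exact mem_LRs.1 x.2)
    (fun s => ⟨⟨s.1, h.mN s.2⟩, Subtype.ext rfl⟩) h.modM.woz h.modW.woz
  rintro X hX R hR ⟨x0, hx0⟩ htot
  obtain ⟨f, hf, hf0, hf1⟩ := key ⟨X, hX⟩ ⟨R, hR⟩ ⟨x0, tN.tr _ hX _ hx0⟩ hx0 (by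
    intro x hx
    obtain ⟨y, hy, hxy⟩ := htot x.1 hx
    exact ⟨⟨y, tN.tr _ hX _ hy⟩, hy, CPY.mop_mem.2 hxy⟩)
  refine ⟨f.1, f.2, ?_, fun n => ?_⟩
  · rw [← val_om (M := LRs W)]
    exact (isFunc_iff (A := (om : LRs W)) (B := ⟨X, hX⟩)).2 ⟨hf, fun n hn => (hf1 n hn).1⟩
  · refine ⟨(ap f (nt n)).1, (ap f (nt (n + 1))).1, ?_, ?_, ?_⟩
    · rw [← nat_val (W := LRs W)]
      exact CPY.mop_mem.1 (hf.op_mem.2 ⟨nt_mem_om n, rfl⟩)
    · rw [← nat_val (W := LRs W)]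
      exact CPY.mop_mem.1 (hf.op_mem.2 ⟨nt_mem_om (n + 1), rfl⟩)
    · exact CPY.mop_mem.1 (hf1 (nt n) (nt_mem_om n)).2

/-! ### Theta -/

/-- the set of the reals -/
theorem isReals_fs [TM W] : IsReals W (fs om om : W).1 := by
  refine ⟨Subtype.property _, fun x => ?_⟩
  constructor
  · intro hx
    obtain ⟨x, hx, rfl⟩ := ex_val hx
    exact ⟨x.2, isReal_iff.2 (mem_fs.1 hx)⟩
  · rintro ⟨hx, h⟩
    have h1 : (⟨x, hx⟩ : W) ∈ (fs om om : W) := mem_fs.2 ((isReal_iff (x := ⟨x, hx⟩)).1 h)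
    exact h1

theorem isPow_pw [TM W] (A : W) : IsPow W A.1 (pw A).1 := by
  refine ⟨Subtype.property _, fun x => ?_⟩
  constructor
  · intro hx
    obtain ⟨x, hx, rfl⟩ := ex_val hx
    exact ⟨x.2, val_sub.1 (mem_pw.1 hx)⟩
  · rintro ⟨hx, h⟩
    have h1 : (⟨x, hx⟩ : W) ∈ pw A := mem_pw.2 (val_sub.2 h)
    exact h1

/-- there is no surjection onto `κ` from the power set of `α ∈ κ` -/
theorem Dat.no_surj (h : Dat M W κ Sm) {α : ZFSet.{0}} (hα : α ∈ κ) {F : ZFSet.{0}}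
    (hF : F ∈ LRs W) (hfun : ∀ x ξ η, ZFSet.pair x ξ ∈ F → ZFSet.pair x η ∈ F → ξ = η)
    (hs : ∀ ξ ∈ κ, ∃ x ∈ LRs W, x ⊆ α ∧ ZFSet.pair x ξ ∈ F) : False := by
  obtain ⟨b, hb, h1⟩ := h.bdd α hα F hF hfun
  obtain ⟨x, hx, hxα, hxb⟩ := hs b hb
  exact ZFSet.mem_irrefl _ (h1 x hx hxα b hb hxb)

theorem Dat.ordk (h : Dat M W κ Sm) : κ.IsOrdinal := by
  have tW := h.modW.tm
  exact CPY.mord_iff.1 (h.reg tW ⟨κ, h.sub h.kM⟩ rfl).ord

theorem Dat.inacc (h : Dat M W κ Sm) : Inacc (LRs W) κ := by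
  have tW := h.modW.tm
  have tN : TM (LRs W) := LRs_tm
  have hreg := h.reg tW ⟨κ, h.sub h.kM⟩ rfl
  have hr : ∀ α ∈ κ, ∀ f ∈ LRs W, ZFSet.IsFunc α κ f → ∃ β ∈ κ, ∀ x y, ZFSet.pair x y ∈ f →
      y ∈ β := by
    intro α hα f hf hfun
    have hαW : α ∈ W := tW.tr _ (h.sub h.kM) _ hα
    obtain ⟨h1, h2⟩ := (isFunc_iff (W := W) (A := ⟨α, hαW⟩) (B := ⟨κ, h.sub h.kM⟩)
      (f := ⟨f, LRs_sub hf⟩)).1 hfun
    obtain ⟨b, hb, h3⟩ := hreg.reg ⟨α, hαW⟩ hα _ h1 h2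
    refine ⟨b.1, hb, fun x y hxy => ?_⟩
    obtain ⟨x, y, rfl, rfl, h4⟩ := CPY.mpair_ex (z := (⟨f, LRs_sub hf⟩ : W)) hxy
    obtain ⟨h5, h6⟩ := h1.op_mem.1 h4
    rw [h6]
    exact h3 x h5
  refine ⟨h.omk, ?_, hr, fun α hα => ?_⟩
  · rintro ⟨f, hf, hfun, hs⟩
    obtain ⟨b, hb, h1⟩ := hr _ h.omk f hf hfun
    obtain ⟨x, -, hx⟩ := hs b hb
    exact ZFSet.mem_irrefl _ (h1 x b hx)
  · have hαN : α ∈ LRs W := h.mN (h.modM.trans _ h.kM _ hα)
    refine ⟨_, isPow_pw (W := LRs W) ⟨α, hαN⟩, ?_⟩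
    rintro ⟨f, hf, hfun, hs⟩
    refine h.no_surj hα hf (fun x ξ η h1 h2 => isFunc_fun hfun h1 h2) fun ξ hξ => ?_
    obtain ⟨x, hx, hxξ⟩ := hs ξ hξ
    obtain ⟨h3, h4⟩ := ((isPow_pw (W := LRs W) ⟨α, hαN⟩).2 x).1 hx
    exact ⟨x, h3, h4, hxξ⟩

/-- `Θ = κ` -/
theorem Dat.theta (h : Dat M W κ Sm) : IsTheta (LRs W) κ := by
  have tW := h.modW.tm
  have tN : TM (LRs W) := LRs_tm
  have hk := h.ordk
  have hreg := h.reg tW ⟨κ, h.sub h.kM⟩ rfl
  refine ⟨h.mN h.kM, hk, _, isReals_fs (W := LRs W), fun β => ?_⟩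
  constructor
  · intro hβ
    have hβN : β ∈ LRs W := h.mN (h.modM.trans _ h.kM _ hβ)
    have hβW : β ∈ W := LRs_sub hβN
    let βN : LRs W := ⟨β, hβN⟩
    let βW : W := ⟨β, hβW⟩
    have hα : (sc βW).1 ∈ κ := hreg.sc βW hβ
    have hs : (sc βN).1 = (sc βW).1 := by rw [val_sc, val_sc]
    obtain ⟨F, hF, hfun, hd⟩ := h.dec _ hα
    let Fm : LRs W := ⟨F, hF⟩
    have hQ : Dfn fun v : ℕ → LRs W => op (sep om fun n => ¬ ap (v 1) n = ∅) (v 0) ∈ Fm ∧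
        v 0 ∈ sc βN := by
      refine dfn_and (dfn_mem (df_op ?_ (df_var 0)) (df_const _)) (dfn_mem (df_var 0) (df_const _))
      exact df_sep (x := fun _ => om) (R := fun n v => ¬ ap (v 1) n = ∅) (df_const _) (dfn_not (dfn_eq
        (df_ap (df_var 2) (df_var 0)) (df_const _)))
    have hz : DF fun v : ℕ → LRs W => sep om fun n => ¬ ap (v 0) n = ∅ :=
      df_sep (x := fun _ => om) (R := fun n v => ¬ ap (v 0) n = ∅) (df_const _) (dfn_not (dfn_eq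
        (df_ap (df_var 1) (df_var 0)) (df_const _)))
    let Z : LRs W → LRs W := fun g => sep om fun n => ¬ ap g n = ∅
    let P : LRs W → LRs W → Prop := fun y g => op (Z g) y ∈ Fm ∧ y ∈ sc βN
    have hP : Dfn fun v : ℕ → LRs W => P (v 0) (v 1) := hQ
    have hG : DF fun v : ℕ → LRs W => ife (∃ y, P y (v 0)) (the fun y => P y (v 0)) ∅ :=
      df_ife (dfn_ex (R := fun y v => P y (v 0)) hP) (df_the (R := fun y v => P y (v 0)) hP)
        (df_const _)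
    have hu : ∀ y y' g, P y g → P y' g → y = y' := fun y y' g h1 h2 =>
      Subtype.ext (hfun _ _ _ (CPY.mop_mem.1 h1.1) (CPY.mop_mem.1 h2.1))
    let G : LRs W → LRs W := fun g => ife (∃ y, P y g) (the fun y => P y g) ∅
    have hG1 : ∀ y g, P y g → G g = y := by
      intro y g hy
      have h1 : G g = the fun y => P y g := ife_pos ⟨y, hy⟩ _ _
      rw [h1]
      exact the_eq hy fun z hz => hu z y g hz hy
    have hG2 : ∀ g, G g ∈ sc βN := by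
      intro g
      by_cases hc : ∃ y, P y g
      · obtain ⟨y, hy⟩ := hc
        rw [hG1 y g hy]
        exact hy.2
      · have h1 : G g = ∅ := ife_neg hc _ _
        rw [h1]
        have hO : ZU.Ord (sc βN) := ord_sc (CPY.mord_iff.2 (hk.mem hβ))
        rcases ord_tri (ord_em : ZU.Ord (∅ : LRs W)) hO with h2 | h2 | h2
        · exact h2
        · have h3 : βN ∈ sc βN := mem_sc.2 (Or.inr rfl)
          rw [← h2] at h3
          exact absurd h3 (not_mem_em _)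
        · exact absurd h2 (not_mem_em _)
    have hfG : IsF (lam (fs om om) G) (fs om om : LRs W) := isF_lam (F := G) hG _
    refine ⟨(sc βN).1, (sc βN).2, ?_, ⟨(lam (fs om om) G).1, Subtype.property _, ?_, ?_⟩, ?_⟩
    · exact CPY.mord_iff.1 (ord_sc (CPY.mord_iff.2 (hk.mem hβ)))
    · refine isFunc_iff.2 ⟨hfG, fun x hx => ?_⟩
      rw [ap_lam (F := G) hG hx]
      exact hG2 x
    · intro y hy
      rw [hs] at hy
      obtain ⟨x, hx, hxo, hxy⟩ := hd y hy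
      rw [← hs] at hy
      obtain ⟨y, hy, rfl⟩ := ex_val hy
      have hxN : x ∈ LRs W := LRs_om (x := (⟨x, hx⟩ : W)) (by
        rw [val_sub, val_om]
        exact hxo)
      let xN : LRs W := ⟨x, hxN⟩
      have hxo' : xN ⊆ om := by
        rw [val_sub, val_om]
        exact hxo
      have hD : DF fun v : ℕ → LRs W => ife (v 0 ∈ xN) (nt 1) ∅ :=
        df_ife (dfn_mem (df_var 0) (df_const _)) (df_const _) (df_const _)
      let g : LRs W := lam om fun n => ife (n ∈ xN) (nt 1) ∅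
      have hga : ∀ n, n ∈ (om : LRs W) → ap g n = ife (n ∈ xN) (nt 1) ∅ := fun n hn =>
        ap_lam hD hn
      have hne : ¬ (nt 1 : LRs W) = ∅ := fun h1 => by
        have h2 : (nt 1 : LRs W) = nt 0 := h1
        rw [nt_inj] at h2
        omega
      have hgR : g ∈ (fs om om : LRs W) := mem_fs.2 ⟨isF_lam hD om, fun n hn => by
        rw [hga n hn]
        by_cases h1 : n ∈ xN
        · rw [ife_pos h1]
          exact nt_mem_om 1
        · rw [ife_neg h1]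
          exact nt_mem_om 0⟩
      have hZ : Z g = xN := by
        have hDZ : Dfn fun v : ℕ → LRs W => ¬ ap g (v 0) = ∅ :=
          dfn_not (dfn_eq (df_ap (df_const _) (df_var 0)) (df_const _))
        refine ZU.ext fun n => ?_
        have h0 : n ∈ Z g ↔ n ∈ om ∧ ¬ ap g n = ∅ := ZU.mem_sep hDZ
        rw [h0]
        constructor
        · rintro ⟨hn, h1⟩
          rw [hga n hn] at h1
          by_contra h2
          rw [ife_neg h2] at h1
          exact h1 rfl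
        · intro hn
          refine ⟨hxo' n hn, ?_⟩
          rw [hga n (hxo' n hn), ife_pos hn]
          exact hne
      have hPy : P y g := by
        refine ⟨?_, hy⟩
        rw [hZ]
        exact CPY.mop_mem.2 hxy
      refine ⟨g.1, hgR, ?_⟩
      have h5 : op g (G g) ∈ lam (fs om om) G := (op_mem_lam (F := G) hG).2 ⟨hgR, rfl⟩
      rw [hG1 y g hPy] at h5
      exact CPY.mop_mem.1 h5
    · have h6 : βN ∈ sc βN := mem_sc.2 (Or.inr rfl)
      exact h6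
  · rintro ⟨α, hα, hαO, ⟨f, hf, hfun, hs⟩, hβ⟩
    by_contra hc
    have hκα : ∀ ξ ∈ κ, ξ ∈ α := by
      intro ξ hξ
      have hβO := hαO.mem hβ
      rcases ord_tri (N := LRs W) (CPY.mord_iff.2 (show (⟨β, tN.tr _ hα _ hβ⟩ : LRs W).1.IsOrdinal
        from hβO)) (CPY.mord_iff.2 (show (⟨κ, h.mN h.kM⟩ : LRs W).1.IsOrdinal from hk)) with
        h1 | h1 | h1
      · exact absurd h1 hc
      · have h2 : β = κ := congrArg Subtype.val h1
        rw [← h2] at hξ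
        exact hαO.mem_trans hξ hβ
      · exact hαO.mem_trans (hβO.mem_trans hξ h1) hβ
    -- the induced function on the subsets of `ω`
    let fm : LRs W := ⟨f, hf⟩
    have hDe : DF fun v : ℕ → LRs W => sep (prd om om) fun z => ∃ l, l ∈ v 0 ∧ enp l = z :=
      df_sep (x := fun _ => prd om om) (R := fun z v => ∃ l, l ∈ v 0 ∧ enp l = z) (df_const _)
        (dfn_ex (dfn_and (dfn_mem (df_var 0) (df_var 2)) (dfn_eq (df_enp (df_var 0)) (df_var 1))))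
    let De : LRs W → LRs W := fun x => sep (prd om om) fun z => ∃ l, l ∈ x ∧ enp l = z
    have hR : Dfn fun v : ℕ → LRs W => op (De (fst (v 0))) (snd (v 0)) ∈ fm :=
      dfn_mem (df_op (df1 (F := De) hDe (df_fst (df_var 0))) (df_snd (df_var 0))) (df_const _)
    let kN : LRs W := ⟨κ, h.mN h.kM⟩
    let F : LRs W := sep (prd (pw om) kN) fun p => op (De (fst p)) (snd p) ∈ fm
    have hF : ∀ x ξ : LRs W, op x ξ ∈ F ↔ (x ⊆ om ∧ ξ.1 ∈ κ) ∧ op (De x) ξ ∈ fm := by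
      intro x ξ
      have h1 : op x ξ ∈ F ↔ op x ξ ∈ prd (pw om) kN ∧
          op (De (fst (op x ξ))) (snd (op x ξ)) ∈ fm := ZU.mem_sep hR
      rw [h1, op_mem_prd, mem_pw, fst_op, snd_op]
      exact Iff.rfl
    refine h.no_surj h.omk F.2 (fun x ξ η h1 h2 => ?_) fun ξ hξ => ?_
    · obtain ⟨x1, ξ1, rfl, rfl, h3⟩ := CPY.mpair_ex h1
      obtain ⟨x2, η1, h4, rfl, h5⟩ := CPY.mpair_ex h2
      have h6 : x2 = x1 := Subtype.ext h4
      subst h6
      exact isFunc_fun hfun (CPY.mop_mem.1 ((hF _ _).1 h3).2) (CPY.mop_mem.1 ((hF _ _).1 h5).2)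
    · obtain ⟨g, hg, hgξ⟩ := hs ξ (hκα ξ hξ)
      obtain ⟨hgN, hgR⟩ := ((isReals_fs (W := LRs W)).2 g).1 hg
      let gN : LRs W := ⟨g, hgN⟩
      have hDg : Dfn fun v : ℕ → LRs W => enp (v 0) ∈ gN :=
        dfn_mem (df_enp (df_var 0)) (df_const _)
      let x : LRs W := sep om fun l => enp l ∈ gN
      have hxo : x ⊆ om := fun z hz => ((ZU.mem_sep hDg).1 hz).1
      have hgp : gN ⊆ prd om om := by
        rw [val_sub, val_prd, val_om]
        exact hgR.1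
      have hDex : De x = gN := by
        have hDz : Dfn fun v : ℕ → LRs W => ∃ l, l ∈ x ∧ enp l = v 0 :=
          dfn_ex (dfn_and (dfn_mem (df_var 0) (df_const _)) (dfn_eq (df_enp (df_var 0))
            (df_var 1)))
        refine ZU.ext fun z => ?_
        have h0 : z ∈ De x ↔ z ∈ prd om om ∧ ∃ l, l ∈ x ∧ enp l = z := ZU.mem_sep hDz
        rw [h0]
        constructor
        · rintro ⟨-, l, hl, rfl⟩
          exact ((ZU.mem_sep hDg).1 hl).2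
        · intro hz
          refine ⟨hgp z hz, ?_⟩
          obtain ⟨a, b, ha, hb, rfl⟩ := mem_prd.1 (hgp z hz)
          obtain ⟨m, rfl⟩ := mem_om.1 ha
          obtain ⟨n, rfl⟩ := mem_om.1 hb
          obtain ⟨l, hl⟩ := enp_surj (N := LRs W) m n
          exact ⟨nt l, (ZU.mem_sep hDg).2 ⟨nt_mem_om l, by rw [hl]; exact hz⟩, hl⟩
      have hξN : ξ ∈ LRs W := tN.tr _ (h.mN h.kM) _ hξ
      refine ⟨x.1, x.2, ?_, ?_⟩
      · rw [← val_om (M := LRs W)]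
        exact val_sub.1 hxo
      · have h7 : op x (⟨ξ, hξN⟩ : LRs W) ∈ F := (hF _ _).2 ⟨⟨hxo, hξ⟩, by
          rw [hDex]
          exact CPY.mop_mem.2 hgξ⟩
        exact CPY.mop_mem.1 h7

end LRS
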