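import Pool.Agent.WCal.Br
import Pool.Agent.WCal.Simp

/-! # The game of Davis in models of ZFC

(library; no sorry in this file)

A play `x : ℕ → ℕ` of a game on natural numbers (player I chooses `x 0, x 2, ...`) produces the set `zz x` of
natural numbers: `i ∈ zz x` if `2 ≤ x (2 * i)`, or `x (2 * i) = 0` and `x (2 * i + 1) ≠ 0`. So player I
decides the `i`-th bit if `x (2 * i) ≠ 0` and player II decides it if `x (2 * i) = 0`. Player I has to
choose `0` infinitely often and wants to produce an element of a given set of reals. -/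

universe u v w

namespace DAV

open WCal WM

/-- the play with the moves `a n` of player I and `b n` of player II -/
def ply (a b : ℕ → ℕ) (i : ℕ) : ℕ := if i % 2 = 0 then a (i / 2) else b (i / 2)

/-- the result of a play -/
def zz (x : ℕ → ℕ) (i : ℕ) : Prop := 2 ≤ x (2 * i) ∨ (x (2 * i) = 0 ∧ x (2 * i + 1) ≠ 0)

theorem ply_even (a b : ℕ → ℕ) (n : ℕ) : ply a b (2 * n) = a n := by
  unfold ply
  rw [if_pos (by omega)]
  congr 1
  omega

theorem ply_odd (a b : ℕ → ℕ) (n : ℕ) : ply a b (2 * n + 1) = b n := by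
  unfold ply
  rw [if_neg (by omega)]
  congr 1
  omega

theorem ini_suc (x : ℕ → ℕ) (n : ℕ) : ini x (n + 1) = ini x n ++ [x n] := by
  unfold ini
  rw [List.range_succ, List.map_append]
  rfl

theorem ini_ply {a b : ℕ → ℕ} {p : ℕ → List ℕ} (h0 : p 0 = []) (hs : ∀ n, p (n + 1) = p n ++ [a n, b n])
    (n : ℕ) : ini (ply a b) (2 * n) = p n := by
  induction n with
  | zero => rw [h0]; rfl
  | succ n ih =>
    have : 2 * (n + 1) = 2 * n + 1 + 1 := by ring
    rw [this, ini_suc, ini_suc, ih, hs, ply_even, ply_odd, List.append_assoc]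
    rfl

theorem if_ite {N : Type u} [WM N] {α : Type v} {β : Type w} [WTy N α] [WTy N β] {P : α → Prop}
    {_ : ∀ a, Decidable (P a)} {f g : α → β} (hP : IP N P) (hf : IF N f) (hg : IF N g) :
    IF N (fun a => if P a then f a else g a) :=
  IF.congr (fun a => by split_ifs <;> rfl) (IF.ite hP hf hg)

theorem if_ply {N : Type u} [WM N] {a b : ℕ → ℕ} (ha : IF N a) (hb : IF N b) : IF N (ply a b) := by
  have h1 : IF N (fun i : ℕ => i / 2) := IF.div IF.id (IF.const 2)
  have h2 : IF N (fun i : ℕ => i % 2) := IF.mod IF.id (IF.const 2)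
  exact if_ite (P := fun i : ℕ => i % 2 = 0) (f := fun i => a (i / 2)) (g := fun i => b (i / 2))
    (IP.eq h2 (IF.const 0)) (ha.comp h1) (hb.comp h1)

theorem ip_zz {N : Type u} [WM N] {x : ℕ → ℕ} (hx : IF N x) : IP N (zz x) := by
  have h1 : IF N (fun i : ℕ => 2 * i) := IF.mul (IF.const 2) IF.id
  have h2 : IF N (fun i : ℕ => x (2 * i)) := hx.comp h1
  have h3 : IF N (fun i : ℕ => x (2 * i + 1)) := hx.comp (IF.succ h1)
  exact IP.or (IP.le (IF.const 2) h2) (IP.and (IP.eq h2 (IF.const 0)) (IP.not (IP.eq h3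
    (IF.const 0))))

/-! ### Player I -/

section

variable (σ : List ℕ → ℕ) (Y : ℕ → ℕ → Prop)

open Classical in
/-- one round: the position and the number of free rounds -/
noncomputable def stI (k : ℕ) (p : List ℕ × ℕ) : List ℕ × ℕ :=
  if σ p.1 = 0 then (p.1 ++ [0, if Y k p.2 then 1 else 0], p.2 + 1) else (p.1 ++ [σ p.1, 0], p.2)

/-- the positions -/
noncomputable def dI (n : ℕ) : List ℕ × ℕ := Nat.rec ([], 0) (fun k p => stI σ Y k p) n

variable {σ Y} {N : Type u} [WM N]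

theorem if_stI (hσ : IF N σ) (hY : IP N (fun p : ℕ × ℕ => Y p.1 p.2)) :
    IF N (fun p : ℕ × List ℕ × ℕ => stI σ Y p.1 p.2) := by
  have h1 : IF N (fun p : ℕ × List ℕ × ℕ => σ p.2.1) := hσ.comp IF.snd.fst'
  have h2 : IF N (fun p : ℕ × List ℕ × ℕ => p.2.1) := IF.snd.fst'
  have h3 : IF N (fun p : ℕ × List ℕ × ℕ => p.2.2) := IF.snd.snd'
  have h4 : IP N (fun p : ℕ × List ℕ × ℕ => Y p.1 p.2.2) := hY.comp2 IF.fst h3
  unfold stI
  exact if_ite (IP.eq h1 (IF.const 0)) (IF.pair (IF.append h2 (IF.cons (IF.const 0) (IF.cons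
    (if_ite h4 (IF.const 1) (IF.const 0)) (IF.const [])))) (IF.succ h3)) (IF.pair (IF.append h2
      (IF.cons h1 (IF.const [0]))) h3)

theorem if_dI (hσ : IF N σ) (hY : IP N (fun p : ℕ × ℕ => Y p.1 p.2)) : IF N (dI σ Y) := by
  have h := IF.natRec (N := N) (γ := ℕ) (β := List ℕ × ℕ) (b := fun _ => ([], 0))
    (g := fun _ k p => stI σ Y k p) (IF.const _) ((if_stI hσ hY).comp IF.snd)
  exact IF.sec (f := fun (_ : ℕ) (n : ℕ) => (Nat.rec ([], 0) (fun k p => stI σ Y k p) n :
    List ℕ × ℕ)) h 0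

end

/-- **A winning strategy of player I computes every real.** -/
theorem dav_I {V : Type u} {W : Type v} [WM V] [WM W] {σ : List ℕ → ℕ} (hV : IF V σ)
    (hW : IF W σ) {y : ℕ → Prop} (hy : IP W y) (hy' : ¬ IP V y) :
    ∃ x : ℕ → ℕ, IF W x ∧ (∀ n, x (2 * n) = σ (ini x (2 * n))) ∧
      ¬ (IP V (zz x) ∧ ∀ n, ∃ i, n ≤ i ∧ x (2 * i) = 0) := by
  classical
  have hYW : IP W (fun p : ℕ × ℕ => (fun _ c => y c) p.1 p.2) := IP.comp hy IF.snd
  have hd := if_dI (Y := fun _ c => y c) hW hYW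
  let d : ℕ → List ℕ × ℕ := dI σ fun _ c => y c
  let a : ℕ → ℕ := fun n => σ (d n).1
  let b : ℕ → ℕ := fun n => if σ (d n).1 = 0 then (if y (d n).2 then 1 else 0) else 0
  have ha : IF W a := by
    change IF W fun n => σ (dI σ (fun _ c => y c) n).1
    exact hW.comp hd.fst'
  have hb : IF W b := by
    change IF W fun n => if σ (dI σ (fun _ c => y c) n).1 = 0 then
      (if y (dI σ (fun _ c => y c) n).2 then 1 else 0) else 0
    exact if_ite (IP.eq (hW.comp hd.fst') (IF.const 0)) (if_ite (IP.comp hy hd.snd') (IF.const 1)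
      (IF.const 0)) (IF.const 0)
  have hd1 : ∀ n, d (n + 1) = stI σ (fun _ c => y c) n (d n) := fun n => rfl
  have hd2 : ∀ n, (d (n + 1)).1 = (d n).1 ++ [a n, b n] := by
    intro n
    rw [hd1]
    unfold stI
    by_cases h : σ (d n).1 = 0
    · simp [a, b, h]
    · simp [a, b, h]
  have hini : ∀ n, ini (ply a b) (2 * n) = (d n).1 := ini_ply rfl hd2
  refine ⟨ply a b, if_ply ha hb, fun n => by rw [ply_even, hini], ?_⟩
  rintro ⟨hz, hinf⟩
  -- the positions are computed in `V` from the result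
  have hzz : ∀ n, σ (d n).1 = 0 → (zz (ply a b) n ↔ y (d n).2) := by
    intro n hn
    unfold zz
    rw [ply_even, ply_odd]
    by_cases h : y (d n).2
    · simp [a, b, hn, h]
    · simp [a, b, hn, h]
  have hYV : IP V (fun p : ℕ × ℕ => (fun n _ => zz (ply a b) n) p.1 p.2) := IP.comp hz IF.fst
  have heq : ∀ n, dI σ (fun n _ => zz (ply a b) n) n = d n := by
    intro n
    induction n with
    | zero => rfl
    | succ n ih =>
      have h1 : dI σ (fun n _ => zz (ply a b) n) (n + 1) =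
        stI σ (fun n _ => zz (ply a b) n) n (dI σ (fun n _ => zz (ply a b) n) n) := rfl
      rw [h1, ih, hd1]
      unfold stI
      by_cases h : σ (d n).1 = 0
      · simp only [h, if_true, if_congr (hzz n h) rfl rfl]
      · simp only [h, if_false]
  have hdV : IF V d := IF.congr heq (if_dI (Y := fun n _ => zz (ply a b) n) hV hYV)
  have hcount : ∀ i n, n ≤ i → σ (d i).1 = 0 → ∃ m, σ (d m).1 = 0 ∧ (d m).2 = (d n).2 := by
    intro i n hni hi
    induction h : i - n generalizing n with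
    | zero =>
      have : i = n := by omega
      exact ⟨i, hi, by rw [this]⟩
    | succ k ih =>
      by_cases hn : σ (d n).1 = 0
      · exact ⟨n, hn, rfl⟩
      · obtain ⟨m, hm1, hm2⟩ := ih (n + 1) (by omega) (by omega)
        refine ⟨m, hm1, hm2.trans ?_⟩
        rw [hd1]
        unfold stI
        rw [if_neg hn]
  have hall : ∀ c, ∃ n, (d n).2 = c ∧ σ (d n).1 = 0 := by
    intro c
    induction c with
    | zero =>
      obtain ⟨i, hi, h1⟩ := hinf 0
      rw [ply_even] at h1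
      obtain ⟨m, hm1, hm2⟩ := hcount i 0 hi h1
      exact ⟨m, hm2, hm1⟩
    | succ c ih =>
      obtain ⟨n, hn, h0⟩ := ih
      obtain ⟨i, hi, h1⟩ := hinf (n + 1)
      rw [ply_even] at h1
      obtain ⟨m, hm1, hm2⟩ := hcount i (n + 1) hi h1
      refine ⟨m, hm2.trans ?_, hm1⟩
      rw [hd1]
      unfold stI
      rw [if_pos h0, hn]
  refine hy' (IP.congr (P := fun c => ∃ n, (d n).2 = c ∧ σ (d n).1 = 0 ∧ zz (ply a b) n)
    (fun c => ?_) ?_)
  · constructor
    · rintro ⟨n, h1, h2, h3⟩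
      rw [← h1]
      exact (hzz n h2).1 h3
    · intro h
      obtain ⟨n, h1, h2⟩ := hall c
      exact ⟨n, h1, h2, (hzz n h2).2 (by rw [h1]; exact h)⟩
  · refine IP.ex (P := fun c n => (d n).2 = c ∧ σ (d n).1 = 0 ∧ zz (ply a b) n) ?_
    have hs : IF V (fun p : ℕ × ℕ => d p.2) := hdV.comp IF.snd
    exact IP.and (IP.eq hs.snd' IF.fst) (IP.and (IP.eq (hV.comp hs.fst') (IF.const _))
      (IP.comp hz IF.snd))

/-! ### Player II -/

open Classical in
/-- the move of player I for a bit -/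
noncomputable def mv (b : Prop) : ℕ := if b then 2 else 1

section

variable (τ : List ℕ → ℕ)

open Classical in
/-- the move of player I at the position `p` for the target bit `b` -/
noncomputable def mI (b : Prop) (p : List ℕ) : ℕ := if (τ (p ++ [0]) ≠ 0 ↔ b) then 0 else mv b

/-- one round with the target `z` -/
noncomputable def stII (z : ℕ → Prop) (k : ℕ) (p : List ℕ) : List ℕ :=
  p ++ [mI τ (z k) p, τ (p ++ [mI τ (z k) p])]

/-- the positions with the target `z` -/
noncomputable def dII (z : ℕ → Prop) (n : ℕ) : List ℕ := Nat.rec [] (fun k p => stII τ z k p) n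

/-- one round without free bit -/
noncomputable def stE (p : List ℕ) : List ℕ :=
  p ++ [mv (τ (p ++ [0]) = 0), τ (p ++ [mv (τ (p ++ [0]) = 0)])]

/-- the positions after `p` without free bits -/
noncomputable def eE (p : List ℕ) (n : ℕ) : List ℕ := Nat.rec p (fun _ q => stE τ q) n

/-- the bit of a list -/
def rb (l : List ℕ) (i : ℕ) : Prop := ∃ u v, l[2 * i]? = some u ∧ l[2 * i + 1]? = some v ∧
  (2 ≤ u ∨ (u = 0 ∧ v ≠ 0))

/-- the real number `n` in the list of the rejected reals -/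
def rej (n i : ℕ) : Prop := ∃ l : List ℕ, Encodable.encode l = n ∧ rb (eE τ l (i + 1)) i

variable {τ} {N : Type u} [WM N]

theorem if_mv {α : Type v} [WTy N α] {b : α → Prop} (hb : IP N b) : IF N (fun a => mv (b a)) := by
  unfold mv
  exact if_ite hb (IF.const 2) (IF.const 1)

theorem if_stII (hτ : IF N τ) {z : ℕ → Prop} (hz : IP N z) :
    IF N (fun p : ℕ × List ℕ => stII τ z p.1 p.2) := by
  have h1 : IF N (fun p : ℕ × List ℕ => mI τ (z p.1) p.2) := by
    unfold mI
    refine if_ite ?_ (IF.const 0) (if_mv (IP.comp hz IF.fst))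
    exact IP.iff (IP.not (IP.eq (hτ.comp (IF.append IF.snd (IF.const [0]))) (IF.const 0)))
      (IP.comp hz IF.fst)
  have h2 : IF N (fun p : ℕ × List ℕ => τ (p.2 ++ [mI τ (z p.1) p.2])) :=
    hτ.comp (IF.append IF.snd (IF.cons h1 (IF.const [])))
  exact IF.append IF.snd (IF.cons h1 (IF.cons h2 (IF.const [])))

theorem if_dII (hτ : IF N τ) {z : ℕ → Prop} (hz : IP N z) : IF N (dII τ z) := by
  have h := IF.natRec (N := N) (γ := ℕ) (β := List ℕ) (b := fun _ => [])
    (g := fun _ k p => stII τ z k p) (IF.const _) ((if_stII hτ hz).comp IF.snd)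
  exact IF.sec (f := fun (_ : ℕ) (n : ℕ) => (Nat.rec [] (fun k p => stII τ z k p) n : List ℕ)) h 0

theorem if_eE (hτ : IF N τ) : IF N (fun p : List ℕ × ℕ => eE τ p.1 p.2) := by
  have h1 : IF N (fun p : List ℕ => mv (τ (p ++ [0]) = 0)) :=
    if_mv (IP.eq (hτ.comp (IF.append IF.id (IF.const [0]))) (IF.const 0))
  have h2 : IF N (fun p : List ℕ => τ (p ++ [mv (τ (p ++ [0]) = 0)])) :=
    hτ.comp (IF.append IF.id (IF.cons h1 (IF.const [])))
  have h3 : IF N (stE τ) := IF.append IF.id (IF.cons h1 (IF.cons h2 (IF.const [])))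
  have h4 : IF N (fun p : List ℕ × ℕ × List ℕ => stE τ p.2.2) := h3.comp IF.snd.snd'
  exact IF.natRec (N := N) (γ := List ℕ) (β := List ℕ) (b := fun p => p)
    (g := fun _ _ q => stE τ q) IF.id h4

theorem ip_rej (hτ : IF N τ) : IP N (fun p : ℕ × ℕ => rej τ p.1 p.2) := by
  unfold rej rb
  have h0 : IF N (fun q : (ℕ × ℕ) × List ℕ => q.1.2) := IF.fst.snd'
  have h0' : IF N (fun q : (ℕ × ℕ) × List ℕ => q.1.1) := IF.fst.fst'
  have h1 : IF N (fun q : (ℕ × ℕ) × List ℕ => eE τ q.2 (q.1.2 + 1)) :=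
    (if_eE hτ).comp (IF.pair IF.snd (IF.succ h0))
  have h2 : IF N (fun q : (ℕ × ℕ) × List ℕ => 2 * q.1.2) := IF.mul (IF.const 2) h0
  refine IP.ex (P := fun (p : ℕ × ℕ) (l : List ℕ) => Encodable.encode l = p.1 ∧ ∃ u v,
    (eE τ l (p.2 + 1))[2 * p.2]? = some u ∧ (eE τ l (p.2 + 1))[2 * p.2 + 1]? = some v ∧
      (2 ≤ u ∨ (u = 0 ∧ v ≠ 0))) (IP.and (IP.eq (IF.encodeList IF.snd) h0') ?_)
  refine IP.ex (P := fun (q : (ℕ × ℕ) × List ℕ) (u : ℕ) => ∃ v,
    (eE τ q.2 (q.1.2 + 1))[2 * q.1.2]? = some u ∧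
      (eE τ q.2 (q.1.2 + 1))[2 * q.1.2 + 1]? = some v ∧ (2 ≤ u ∨ (u = 0 ∧ v ≠ 0))) ?_
  refine IP.ex (P := fun (q : ((ℕ × ℕ) × List ℕ) × ℕ) (v : ℕ) =>
    (eE τ q.1.2 (q.1.1.2 + 1))[2 * q.1.1.2]? = some q.2 ∧
      (eE τ q.1.2 (q.1.1.2 + 1))[2 * q.1.1.2 + 1]? = some v ∧
        (2 ≤ q.2 ∨ (q.2 = 0 ∧ v ≠ 0))) ?_
  have h3 : IF N (fun q : (((ℕ × ℕ) × List ℕ) × ℕ) × ℕ => q.1.1) := IF.fst.fst'
  have h4 : IF N (fun q : (((ℕ × ℕ) × List ℕ) × ℕ) × ℕ => q.1.2) := IF.fst.snd'
  exact IP.and (IP.eq (IF.getElem? (h1.comp h3) (h2.comp h3)) (IF.some h4)) (IP.and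
    (IP.eq (IF.getElem? (h1.comp h3) (IF.succ (h2.comp h3))) (IF.some IF.snd))
    (IP.or (IP.le (IF.const 2) h4) (IP.and (IP.eq h4 (IF.const 0)) (IP.not (IP.eq IF.snd
      (IF.const 0))))))

end

/-- **A winning strategy of player II gives a countable set of reals.** -/
theorem dav_II {W : Type v} [WM W] {τ : List ℕ → ℕ} (hτ : IF W τ) {z : ℕ → Prop} (hz : IP W z) :
    (∃ n, z = rej τ n) ∨ ∃ x : ℕ → ℕ, IF W x ∧ (∀ n, x (2 * n + 1) = τ (ini x (2 * n + 1))) ∧
      zz x = z ∧ ∀ n, ∃ i, n ≤ i ∧ x (2 * i) = 0 := by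
  classical
  let d : ℕ → List ℕ := dII τ z
  let a : ℕ → ℕ := fun n => mI τ (z n) (d n)
  let b : ℕ → ℕ := fun n => τ (d n ++ [a n])
  have hd := if_dII hτ hz
  have ha : IF W a := by
    change IF W fun n => mI τ (z n) (dII τ z n)
    unfold mI
    refine if_ite ?_ (IF.const 0) (if_mv hz)
    exact IP.iff (IP.not (IP.eq (hτ.comp (IF.append hd (IF.const [0]))) (IF.const 0))) hz
  have hb : IF W b := hτ.comp (IF.append hd (IF.cons ha (IF.const [])))
  have hd2 : ∀ n, d (n + 1) = d n ++ [a n, b n] := fun n => rfl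
  have hini : ∀ n, ini (ply a b) (2 * n) = d n := ini_ply rfl hd2
  have hzz : zz (ply a b) = z := by
    funext n
    apply propext
    unfold zz
    rw [ply_even, ply_odd]
    change 2 ≤ mI τ (z n) (d n) ∨ (mI τ (z n) (d n) = 0 ∧ τ (d n ++ [mI τ (z n) (d n)]) ≠ 0) ↔ z n
    by_cases h : (τ (d n ++ [0]) ≠ 0 ↔ z n)
    · have h1 : mI τ (z n) (d n) = 0 := if_pos h
      rw [h1]
      simpa using h
    · have h1 : mI τ (z n) (d n) = mv (z n) := if_neg h
      rw [h1]
      unfold mv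
      by_cases h2 : z n <;> simp [h2]
  by_cases hinf : ∀ n, ∃ i, n ≤ i ∧ ply a b (2 * i) = 0
  · refine Or.inr ⟨ply a b, if_ply ha hb, fun n => ?_, hzz, hinf⟩
    rw [ply_odd, ini_suc, hini, ply_even]
  · push Not at hinf
    obtain ⟨k, hk⟩ := hinf
    refine Or.inl ⟨Encodable.encode (d k), ?_⟩
    have hk1 : ∀ j, k ≤ j → a j = mv (z j) ∧ (z j ↔ τ (d j ++ [0]) = 0) := by
      intro j hj
      have h1 := hk j hj
      rw [ply_even] at h1
      have h2 : ¬ (τ (d j ++ [0]) ≠ 0 ↔ z j) := by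
        intro h
        exact h1 (if_pos h)
      refine ⟨if_neg h2, ?_⟩
      by_cases h3 : z j <;> simp_all
    have hE : ∀ n, eE τ (d k) n = d (k + n) := by
      intro n
      induction n with
      | zero => rfl
      | succ n ih =>
        have h1 : eE τ (d k) (n + 1) = stE τ (eE τ (d k) n) := rfl
        have h2 := hk1 (k + n) (by omega)
        rw [h1, ih, ← add_assoc, hd2]
        change d (k + n) ++ [mv (τ (d (k + n) ++ [0]) = 0), τ (d (k + n) ++
          [mv (τ (d (k + n) ++ [0]) = 0)])] = d (k + n) ++ [a (k + n), τ (d (k + n) ++ [a (k + n)])]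
        rw [h2.1, propext h2.2]
    funext i
    apply propext
    have h3 : ∀ j, j < 2 * (k + (i + 1)) → (eE τ (d k) (i + 1))[j]? = some (ply a b j) := by
      intro j hj
      rw [hE, ← hini]
      unfold ini
      rw [List.getElem?_map, List.getElem?_range hj]
      rfl
    have h4 : rb (eE τ (d k) (i + 1)) i ↔ z i := by
      rw [← hzz]
      unfold rb zz
      rw [h3 (2 * i) (by omega), h3 (2 * i + 1) (by omega)]
      constructor
      · rintro ⟨u, v, hu, hv, h⟩
        rw [Option.some_inj] at hu hv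
        rw [hu, hv]
        exact h
      · exact fun h => ⟨_, _, rfl, rfl, h⟩
    constructor
    · exact fun h => ⟨d k, rfl, h4.2 h⟩
    · rintro ⟨l, hl, h⟩
      have : l = d k := Encodable.encode_injective hl
      rw [this] at h
      exact h4.1 h

end DAV
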