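import Pool.Agent.LRM.AbsB
import Pool.Agent.LRM.Dav

/-! # LRM: failure of determinacy in the model `L(ℝ)`

(library; problem MP_328cd5_lc; no sorry in this file) -/

universe u v w

namespace LRS

open STP

/-! ### Native reals, lists and sets of a transitive model -/

section

variable {V : Set ZFSet.{0}} [hV : Fact (CPY.Mod V)]

theorem ipn_iff {P : ℕ → Prop} : WCal.IP V P ↔ ∃ x ∈ V, ∀ n, P n ↔ nat n ∈ x := by
  rw [WCal.IP.iff_mem]
  refine exists_congr fun x => and_congr_right fun _ => forall_congr' fun n => ?_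
  have : (WCal.cd V n).1 = nat n := by
    rw [nat_zn]
    exact WCal.nt_val n
  rw [this]

theorem cdn (n : ℕ) : (WCal.cd V n).1 = nat n := by
  rw [nat_zn]
  exact WCal.nt_val n

theorem cdp {α : Type v} {β : Type w} [WCal.WTy V α] [WCal.WTy V β] (a : α) (b : β) :
    (WCal.cd V (a, b)).1 = ZFSet.pair (WCal.cd V a).1 (WCal.cd V b).1 := WCal.op_val _ _

/-- the set of the numbers with `P` -/
theorem exists_real {P : ℕ → Prop} (h : WCal.IP V P) :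
    ∃ x ∈ V, x ⊆ ZFSet.omega ∧ ∀ n, P n ↔ nat n ∈ x := by
  obtain ⟨x, hx⟩ := WCal.exists_sub V P h
  refine ⟨x.1, x.2, fun z hz => ?_, fun n => ?_⟩
  · have h1 : WCal.WM.E (⟨z, hV.out.trans _ x.2 _ hz⟩ : V) x := hz
    obtain ⟨n, -, hn⟩ := (hx _).1 h1
    rw [mem_omega]
    refine ⟨n, ?_⟩
    rw [← cdn (V := V), hn]
  · rw [← cdn (V := V)]
    have h1 : WCal.WM.E (WCal.cd V n) x ↔ ∃ a, P a ∧ WCal.cd V a = WCal.cd V n := hx _
    constructor
    · intro h2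
      exact h1.2 ⟨n, h2, rfl⟩
    · intro h2
      obtain ⟨a, ha, h3⟩ := h1.1 h2
      rw [WCal.cd_inj] at h3
      rwa [← h3]

theorem real_ext {x y : ZFSet.{0}} (hx : x ⊆ ZFSet.omega) (hy : y ⊆ ZFSet.omega)
    (h : ∀ n, nat n ∈ x ↔ nat n ∈ y) : x = y := by
  ext z
  constructor
  · intro hz
    obtain ⟨n, rfl⟩ := mem_omega.1 (hx hz)
    exact (h n).1 hz
  · intro hz
    obtain ⟨n, rfl⟩ := mem_omega.1 (hy hz)
    exact (h n).2 hz

/-- the graph of an internal function on the natural numbers -/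
theorem exists_graph {x : ℕ → ℕ} (h : WCal.IF V x) :
    ∃ g ∈ V, IsReal g ∧ ∀ z, z ∈ g ↔ ∃ n, z = ZFSet.pair (nat n) (nat (x n)) := by
  obtain ⟨g, hg⟩ := WCal.exists_cd_fn V ⟨x, h⟩
  have hg1 : ∀ z, z ∈ g.1 ↔ ∃ n, z = ZFSet.pair (nat n) (nat (x n)) := by
    intro z
    constructor
    · intro hz
      have h1 : WCal.WM.E (⟨z, hV.out.trans _ g.2 _ hz⟩ : V) g := hz
      obtain ⟨n, hn⟩ := (hg _).1 h1
      refine ⟨n, ?_⟩
      have h2 := congrArg Subtype.val hn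
      rw [WCal.op_val, cdn, cdn] at h2
      exact h2
    · rintro ⟨n, rfl⟩
      have h1 : WCal.WM.E (WCal.op (WCal.cd V n) (WCal.cd V (x n))) g := (hg _).2 ⟨n, rfl⟩
      have h2 : (WCal.op (WCal.cd V n) (WCal.cd V (x n))).1 ∈ g.1 := h1
      rwa [WCal.op_val, cdn, cdn] at h2
  refine ⟨g.1, g.2, ⟨fun z hz => ?_, fun z hz => ?_⟩, hg1⟩
  · obtain ⟨n, rfl⟩ := (hg1 z).1 hz
    rw [ZFSet.pair_mem_prod]
    exact ⟨mem_omega.2 ⟨n, rfl⟩, mem_omega.2 ⟨x n, rfl⟩⟩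
  · obtain ⟨n, rfl⟩ := mem_omega.1 hz
    refine ⟨nat (x n), (hg1 _).2 ⟨n, rfl⟩, fun w hw => ?_⟩
    obtain ⟨m, hm⟩ := (hg1 _).1 hw
    rw [ZFSet.pair_inj, nat_inj] at hm
    rw [hm.2, hm.1]

/-- the code of a list of natural numbers -/
theorem mem_cdl {l : List ℕ} {z : ZFSet.{0}} : z ∈ (WCal.cd V l).1 ↔
    ∃ i a, l[i]? = some a ∧ z = ZFSet.pair (nat i) (nat a) := by
  constructor
  · intro hz
    have h1 : WCal.WM.E (⟨z, hV.out.trans _ (WCal.cd V l).2 _ hz⟩ : V) (WCal.cd V l) := hz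
    obtain ⟨i, a, hi, h2⟩ := (WCal.cd_list l _).1 h1
    refine ⟨i, a, hi, ?_⟩
    have h3 := congrArg Subtype.val h2
    rw [WCal.op_val, WCal.nt_val, cdn, ← nat_zn] at h3
    exact h3
  · rintro ⟨i, a, hi, rfl⟩
    have h1 : WCal.WM.E (WCal.op (WCal.nt V i) (WCal.cd V a)) (WCal.cd V l) :=
      (WCal.cd_list l _).2 ⟨i, a, hi, rfl⟩
    have h2 : (WCal.op (WCal.nt V i) (WCal.cd V a)).1 ∈ (WCal.cd V l).1 := h1
    rwa [WCal.op_val, WCal.nt_val, cdn, ← nat_zn] at h2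

theorem mem_nat {z : ZFSet.{0}} {n : ℕ} : z ∈ nat n ↔ ∃ i, i < n ∧ z = nat i := by
  induction n with
  | zero =>
    constructor
    · intro h
      exact absurd h (ZFSet.notMem_empty _)
    · rintro ⟨i, hi, -⟩
      omega
  | succ n ih =>
    have : z ∈ nat (n + 1) ↔ z = nat n ∨ z ∈ nat n := by
      change z ∈ insert (nat n) (nat n) ↔ _
      exact ZFSet.mem_insert_iff
    rw [this, ih]
    constructor
    · rintro (rfl | ⟨i, hi, rfl⟩)
      · exact ⟨n, by omega, rfl⟩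
      · exact ⟨i, by omega, rfl⟩
    · rintro ⟨i, hi, rfl⟩
      rcases Nat.lt_succ_iff_lt_or_eq.1 hi with h | rfl
      · exact Or.inr ⟨i, h, rfl⟩
      · exact Or.inl rfl

/-- codes of lists are finite sequences -/
theorem isFunc_cdl (l : List ℕ) : ZFSet.IsFunc (nat l.length) ZFSet.omega (WCal.cd V l).1 := by
  refine ⟨fun z hz => ?_, fun z hz => ?_⟩
  · obtain ⟨i, a, hi, rfl⟩ := mem_cdl.1 hz
    rw [ZFSet.pair_mem_prod]
    obtain ⟨h, -⟩ := List.getElem?_eq_some_iff.1 hi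
    exact ⟨mem_nat.2 ⟨i, h, rfl⟩, mem_omega.2 ⟨a, rfl⟩⟩
  · obtain ⟨i, hi, rfl⟩ := mem_nat.1 hz
    refine ⟨nat l[i], mem_cdl.2 ⟨i, l[i], List.getElem?_eq_getElem hi, rfl⟩, fun w hw => ?_⟩
    obtain ⟨j, a, hj, h1⟩ := mem_cdl.1 hw
    rw [ZFSet.pair_inj, nat_inj] at h1
    obtain ⟨rfl, rfl⟩ := h1
    rw [List.getElem?_eq_getElem hi, Option.some_inj] at hj
    rw [hj]

/-- the finite initial segments of a graph are the codes of the lists `ini x n` -/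
theorem seg_eq {x : ℕ → ℕ} {g t : ZFSet.{0}} (hg : ∀ z, z ∈ g ↔ ∃ n, z = ZFSet.pair (nat n) (nat (x n)))
    {n : ℕ} (ht : ZFSet.IsFunc (nat n) ZFSet.omega t) (htg : t ⊆ g) :
    t = (WCal.cd V (WCal.ini x n)).1 := by
  have h1 : ∀ i, i < n → (WCal.ini x n)[i]? = some (x i) := by
    intro i hi
    unfold WCal.ini
    rw [List.getElem?_map, List.getElem?_range hi]
    rfl
  ext z
  rw [mem_cdl]
  constructor
  · intro hz
    obtain ⟨m, rfl⟩ := (hg z).1 (htg hz)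
    have h2 := (ZFSet.pair_mem_prod.1 (ht.1 hz)).1
    obtain ⟨i, hi, h3⟩ := mem_nat.1 h2
    rw [nat_inj] at h3
    subst h3
    exact ⟨m, x m, h1 m hi, rfl⟩
  · rintro ⟨i, a, hi, rfl⟩
    have hlt : i < n := by
      obtain ⟨h, -⟩ := List.getElem?_eq_some_iff.1 hi
      rwa [WCal.ini_length] at h
    rw [h1 i hlt, Option.some_inj] at hi
    subst hi
    obtain ⟨w, hw, -⟩ := ht.2 (nat i) (mem_nat.2 ⟨i, hlt, rfl⟩)
    have hw0 : ZFSet.pair (nat i) w ∈ t := hw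
    obtain ⟨m, hm⟩ := (hg _).1 (htg hw0)
    rw [ZFSet.pair_inj, nat_inj] at hm
    obtain ⟨rfl, rfl⟩ := hm
    exact hw0

end

/-- the function on lists given by a strategy -/
theorem exists_strat {W : Set ZFSet.{0}} [hW : Fact (CPY.Mod W)] {s : ZFSet.{0}} (hs : s ∈ W)
    (h : IsStrat s) : ∃ σ : List ℕ → ℕ, WCal.IF W σ ∧
      ∀ l, ZFSet.pair (WCal.cd W l).1 (nat (σ l)) ∈ s := by
  have h1 : ∀ l : List ℕ, ∃ k : ℕ, ZFSet.pair (WCal.cd W l).1 (nat k) ∈ s ∧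
      ∀ k', ZFSet.pair (WCal.cd W l).1 (nat k') ∈ s → k' = k := by
    intro l
    obtain ⟨k, ⟨hk, hk1⟩, hk2⟩ := h _ _ (isFunc_cdl (V := W) l)
    obtain ⟨k, rfl⟩ := mem_omega.1 hk
    exact ⟨k, hk1, fun k' hk' => nat_inj.1 (hk2 _ ⟨mem_omega.2 ⟨k', rfl⟩, hk'⟩)⟩
  choose σ hσ1 hσ2 using h1
  refine ⟨σ, ?_, hσ1⟩
  refine WCal.IP.iff_mem.2 ⟨s, hs, fun p => ?_⟩
  have : (WCal.cd W p).1 = ZFSet.pair (WCal.cd W p.1).1 (nat p.2) := by
    rw [← cdn (V := W)]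
    exact cdp p.1 p.2
  rw [this]
  constructor
  · rintro h2
    rw [← h2]
    exact hσ1 _
  · intro h2
    exact (hσ2 _ _ h2).symm

variable {M W : Set ZFSet.{0}} {κ : ZFSet.{0}} {ι : Type u} {Sm : ι → Set ZFSet.{0}}

section

open ZU LRM

variable {N : Type v} [ZM N]

/-- the result of a play as a set -/
noncomputable def zS (x : N) : N := sep om fun i => nt 1 ∈ ap x (dbl i) ∨
  (ap x (dbl i) = ∅ ∧ ¬ ap x (sc (dbl i)) = ∅)

/-- the payoff set of the game of Davis for `A` -/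
noncomputable def pay (A : N) : N := sep (fs om om) fun x => zS x ∈ A ∧
  ∀ n : N, n ∈ (om : N) → ∃ i : N, i ∈ (om : N) ∧ ¬ i ∈ n ∧ ap x (dbl i) = ∅

theorem df_zS {s : (ℕ → N) → N} (hs : DF s) : DF fun v => zS (s v) := by
  refine df1 (F := zS) ?_ hs
  unfold zS
  refine df_sep (x := fun _ => om) (R := fun i v => nt 1 ∈ ap (v 0) (dbl i) ∨
    (ap (v 0) (dbl i) = ∅ ∧ ¬ ap (v 0) (sc (dbl i)) = ∅)) (df_const _) ?_
  have h1 : DF fun v : ℕ → N => ap (v 1) (dbl (v 0)) := df_ap (df_var 1) (df_dbl (df_var 0))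
  have h2 : DF fun v : ℕ → N => ap (v 1) (sc (dbl (v 0))) :=
    df_ap (df_var 1) (df_sc (df_dbl (df_var 0)))
  exact dfn_or (dfn_mem (df_const _) h1) (dfn_and (dfn_eq h1 (df_const _)) (dfn_not (dfn_eq h2
    (df_const _))))

theorem mem_zS {x : N} {i : ℕ} : nt i ∈ zS x ↔ nt 1 ∈ ap x (nt (2 * i)) ∨
    (ap x (nt (2 * i)) = nt 0 ∧ ¬ ap x (nt (2 * i + 1)) = nt 0) := by
  have h1 : DF fun v : ℕ → N => ap x (dbl (v 0)) := df_ap (df_const _) (df_dbl (df_var 0))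
  have h2 : DF fun v : ℕ → N => ap x (sc (dbl (v 0))) :=
    df_ap (df_const _) (df_sc (df_dbl (df_var 0)))
  have hD : Dfn fun v : ℕ → N => nt 1 ∈ ap x (dbl (v 0)) ∨
      (ap x (dbl (v 0)) = ∅ ∧ ¬ ap x (sc (dbl (v 0))) = ∅) :=
    dfn_or (dfn_mem (df_const _) h1) (dfn_and (dfn_eq h1 (df_const _)) (dfn_not (dfn_eq h2
      (df_const _))))
  unfold zS
  rw [ZU.mem_sep hD, dbl_nt]
  constructor
  · exact fun h => h.2
  · exact fun h => ⟨nt_mem_om i, h⟩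

theorem zS_sub (x : N) : zS x ⊆ om := by
  have h1 : DF fun v : ℕ → N => ap x (dbl (v 0)) := df_ap (df_const _) (df_dbl (df_var 0))
  have h2 : DF fun v : ℕ → N => ap x (sc (dbl (v 0))) :=
    df_ap (df_const _) (df_sc (df_dbl (df_var 0)))
  have hD : Dfn fun v : ℕ → N => nt 1 ∈ ap x (dbl (v 0)) ∨
      (ap x (dbl (v 0)) = ∅ ∧ ¬ ap x (sc (dbl (v 0))) = ∅) :=
    dfn_or (dfn_mem (df_const _) h1) (dfn_and (dfn_eq h1 (df_const _)) (dfn_not (dfn_eq h2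
      (df_const _))))
  intro z hz
  exact ((ZU.mem_sep hD).1 hz).1

theorem mem_pay {A x : N} : x ∈ pay A ↔ x ∈ (fs om om : N) ∧ zS x ∈ A ∧
    ∀ n : ℕ, ∃ i : ℕ, n ≤ i ∧ ap x (nt (2 * i)) = nt 0 := by
  have hD : Dfn fun v : ℕ → N => zS (v 0) ∈ A ∧
      ∀ n : N, n ∈ (om : N) → ∃ i : N, i ∈ (om : N) ∧ ¬ i ∈ n ∧ ap (v 0) (dbl i) = ∅ := by
    refine dfn_and (dfn_mem (df_zS (df_var 0)) (df_const _)) (dfn_all (dfn_imp (dfn_mem (df_var 0)
      (df_const _)) (dfn_ex (dfn_and (dfn_mem (df_var 0) (df_const _)) (dfn_and (dfn_not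
      (dfn_mem (df_var 0) (df_var 1))) (dfn_eq (df_ap (df_var 2) (df_dbl (df_var 0)))
      (df_const _)))))))
  unfold pay
  rw [ZU.mem_sep hD]
  refine and_congr_right fun _ => and_congr_right fun _ => ?_
  constructor
  · intro h n
    obtain ⟨i, hi, h1, h2⟩ := h (nt n) (nt_mem_om n)
    obtain ⟨i, rfl⟩ := mem_om.1 hi
    rw [dbl_nt] at h2
    refine ⟨i, ?_, h2⟩
    by_contra h3
    exact h1 (nt_mem.2 (by omega))
  · intro h n hn
    obtain ⟨n, rfl⟩ := mem_om.1 hn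
    obtain ⟨i, hi, h1⟩ := h n
    refine ⟨nt i, nt_mem_om i, fun h2 => ?_, ?_⟩
    · have := nt_mem.1 h2
      omega
    · rw [dbl_nt]
      exact h1

end

/-- the payoff of a graph -/
theorem graph_pay {N : Set ZFSet.{0}} [ZU.TM N] {x : ℕ → ℕ} {g : N}
    (hr : IsReal g.1) (hg : ∀ z, z ∈ g.1 ↔ ∃ n, z = ZFSet.pair (nat n) (nat (x n))) (A : N) :
    g ∈ pay A ↔ (∃ z ∈ A.1, z ⊆ ZFSet.omega ∧ ∀ i, DAV.zz x i ↔ nat i ∈ z) ∧
      ∀ n, ∃ i, n ≤ i ∧ x (2 * i) = 0 := by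
  have hf := (isReal_iff.1 hr).1
  have hap : ∀ n : ℕ, ZU.ap g (ZU.nt n) = ZU.nt (x n) := by
    intro n
    have h1 : ZU.op (ZU.nt n) (ZU.nt (x n)) ∈ g := by
      rw [CPY.mop_mem, nat_val, nat_val]
      exact (hg _).2 ⟨n, rfl⟩
    exact ((hf.op_mem.1 h1).2).symm
  have hz : ∀ i : ℕ, (ZU.nt i : N) ∈ zS g ↔ DAV.zz x i := by
    intro i
    rw [mem_zS, hap, hap, ZU.nt_mem, ZU.nt_inj, ZU.nt_inj]
    unfold DAV.zz
    constructor
    · rintro (h | ⟨h, h'⟩)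
      · exact Or.inl h
      · exact Or.inr ⟨h, h'⟩
    · rintro (h | ⟨h, h'⟩)
      · exact Or.inl h
      · exact Or.inr ⟨h, h'⟩
  rw [mem_pay]
  constructor
  · rintro ⟨-, h1, h2⟩
    refine ⟨⟨(zS g).1, h1, ?_, fun i => ?_⟩, fun n => ?_⟩
    · rw [← ZU.val_om (M := N)]
      exact ZU.val_sub.1 (zS_sub g)
    · rw [← hz, ← nat_val (W := N)]
      exact Iff.rfl
    · obtain ⟨i, hi, h3⟩ := h2 n
      rw [hap, ZU.nt_inj] at h3
      exact ⟨i, hi, h3⟩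
  · rintro ⟨⟨z, hz1, hz2, hz3⟩, h2⟩
    refine ⟨ZU.mem_fs.2 (isReal_iff.1 hr), ?_, fun n => ?_⟩
    · have : (zS g).1 = z := by
        refine real_ext ?_ hz2 fun n => ?_
        · rw [← ZU.val_om (M := N)]
          exact ZU.val_sub.1 (zS_sub g)
        · rw [← hz3, ← hz, ← nat_val (W := N)]
          exact Iff.rfl
      have h4 : (zS g).1 ∈ A.1 := by
        rw [this]
        exact hz1
      exact h4
    · obtain ⟨i, hi, h3⟩ := h2 n
      exact ⟨i, hi, by rw [hap, h3]⟩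

/-- **Determinacy fails.** -/
theorem Dat.not_ad (h : Dat M W κ Sm) : ¬ AD (LRs W) := by
  intro had
  have tM := h.modM.tm
  have tW := h.modW.tm
  have tN : ZU.TM (LRs W) := LRs_tm
  have iM : Fact (CPY.Mod M) := ⟨h.modM⟩
  have iW : Fact (CPY.Mod W) := ⟨h.modW⟩
  -- the set of the reals of the ground model
  let PM : LRs W := ⟨(ZU.pw (ZU.om : M)).1, h.mN (Subtype.property _)⟩
  have hPM : ∀ z, z ∈ PM.1 ↔ z ∈ M ∧ z ⊆ ZFSet.omega := by
    intro z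
    have := (isPow_pw (W := M) (ZU.om : M)).2 z
    rw [ZU.val_om] at this
    exact this
  obtain ⟨s, hs, hst, hwin⟩ := had (pay PM).1 (pay PM).2
  have hsW : s ∈ W := LRs_sub hs
  obtain ⟨σ, hσ, hσs⟩ := exists_strat hsW hst
  -- membership of graphs in the payoff set
  have hpay : ∀ (x : ℕ → ℕ) (g : ZFSet.{0}) (hgN : g ∈ LRs W), IsReal g →
      (∀ z, z ∈ g ↔ ∃ n, z = ZFSet.pair (nat n) (nat (x n))) →
      (g ∈ (pay PM).1 ↔ WCal.IP M (DAV.zz x) ∧ ∀ n, ∃ i, n ≤ i ∧ x (2 * i) = 0) := by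
    intro x g hgN hr hg
    have h1 := graph_pay (N := LRs W) (g := ⟨g, hgN⟩) hr hg PM
    have h2 : g ∈ (pay PM).1 ↔ (⟨g, hgN⟩ : LRs W) ∈ pay PM := Iff.rfl
    rw [h2, h1]
    refine and_congr_left fun _ => ?_
    constructor
    · rintro ⟨z, hz, -, hz2⟩
      exact ipn_iff.2 ⟨z, ((hPM z).1 hz).1, hz2⟩
    · intro h3
      obtain ⟨z, hz, hz1, hz2⟩ := exists_real h3
      exact ⟨z, (hPM z).2 ⟨hz, hz1⟩, hz1, hz2⟩
  -- plays which follow the strategy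
  have hfol : ∀ (x : ℕ → ℕ) (g : ZFSet.{0}) (i : ℕ),
      (∀ z, z ∈ g ↔ ∃ n, z = ZFSet.pair (nat n) (nat (x n))) →
      (∀ n, x (2 * n + i) = σ (WCal.ini x (2 * n + i))) → Fol i s g := by
    intro x g i hg hx n t ht htg
    refine ⟨nat (x (2 * n + i)), (hg _).2 ⟨_, rfl⟩, ?_⟩
    rw [seg_eq (V := W) hg ht htg, hx]
    exact hσs _
  rcases hwin with hwin | hwin
  · -- player I
    have hP : WCal.IP W (fun n : ℕ => ∃ l : List ℕ, n = Nat.pair (Encodable.encode l) (σ l)) := by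
      refine WCal.IP.ex (P := fun (n : ℕ) (l : List ℕ) => n = Nat.pair (Encodable.encode l) (σ l))
        (WCal.IP.eq WCal.IF.fst (WCal.IF.npair (WCal.IF.encodeList WCal.IF.snd)
          (hσ.comp WCal.IF.snd)))
    obtain ⟨p, hp, hp1, hp2⟩ := exists_real hP
    obtain ⟨a, ha⟩ := h.real p hp hp1
    have ia : Fact (CPY.Mod (Sm a)) := ⟨h.smM a⟩
    have hPa : WCal.IP (Sm a) (fun n : ℕ => ∃ l : List ℕ,
        n = Nat.pair (Encodable.encode l) (σ l)) := ipn_iff.2 ⟨p, ha, hp2⟩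
    have hσa : WCal.IF (Sm a) σ := by
      refine WCal.IF.ofP (Q := fun (l : List ℕ) (k : ℕ) => (fun n : ℕ => ∃ l : List ℕ,
        n = Nat.pair (Encodable.encode l) (σ l)) (Nat.pair (Encodable.encode l) k)) ?_ ?_
      · have h1 : WCal.IF (Sm a) (fun p : List ℕ × ℕ => Nat.pair (Encodable.encode p.1) p.2) :=
          WCal.IF.npair (WCal.IF.encodeList WCal.IF.fst) WCal.IF.snd
        exact WCal.IP.comp (P := fun n : ℕ => ∃ l : List ℕ,
          n = Nat.pair (Encodable.encode l) (σ l)) hPa h1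
      · intro l k
        constructor
        · rintro ⟨l', hl'⟩
          rw [Nat.pair_eq_pair] at hl'
          have : l = l' := Encodable.encode_injective hl'.1
          rw [this]
          exact hl'.2.symm
        · rintro rfl
          exact ⟨l, rfl⟩
    obtain ⟨y, hy, hyo, hya⟩ := h.new a
    have hY : WCal.IP W (fun n : ℕ => nat n ∈ y) := ipn_iff.2 ⟨y, hy, fun n => Iff.rfl⟩
    have hY' : ¬ WCal.IP (Sm a) (fun n : ℕ => nat n ∈ y) := by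
      intro h1
      obtain ⟨z, hz, hzo, hz1⟩ := exists_real h1
      have : y = z := real_ext hyo hzo hz1
      rw [this] at hya
      exact hya hz
    obtain ⟨x, hx, hx1, hx2⟩ := DAV.dav_I hσa hσ hY hY'
    obtain ⟨g, hgW, hgr, hg⟩ := exists_graph hx
    have hgN := LRs_real hgW hgr
    have h1 := hwin g hgN hgr (hfol x g 0 hg hx1)
    have h2 := (hpay x g hgN hgr hg).1 h1
    refine hx2 ⟨?_, h2.2⟩
    obtain ⟨z, hz, hz1⟩ := ipn_iff.1 h2.1
    exact ipn_iff.2 ⟨z, h.sml a hz, hz1⟩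
  · -- player II
    have hR : WCal.IP W (fun p : ℕ × ℕ => DAV.rej σ p.1 p.2) := DAV.ip_rej hσ
    obtain ⟨F, hF, hF1⟩ := WCal.IP.iff_mem.1 hR
    obtain ⟨z, hz, hzo, hz1⟩ := h.unc F hF
    have hZM : WCal.IP M (fun n : ℕ => nat n ∈ z) := ipn_iff.2 ⟨z, hz, fun n => Iff.rfl⟩
    have hZW : WCal.IP W (fun n : ℕ => nat n ∈ z) := ipn_iff.2 ⟨z, h.sub hz, fun n => Iff.rfl⟩
    rcases DAV.dav_II hσ hZW with ⟨n, hn⟩ | ⟨x, hx, hx1, hx2, hx3⟩
    · obtain ⟨i, hi⟩ := hz1 n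
      refine hi ?_
      have h1 : (nat i ∈ z) = DAV.rej σ n i := congrFun hn i
      rw [h1, hF1 (n, i), cdp, cdn, cdn]
    · obtain ⟨g, hgW, hgr, hg⟩ := exists_graph hx
      have hgN := LRs_real hgW hgr
      refine hwin g hgN hgr (hfol x g 1 hg hx1) ((hpay x g hgN hgr hg).2 ⟨?_, hx3⟩)
      rw [hx2]
      exact hZM

/-- **The final statement from the data.** -/
theorem Dat.final (h : Dat M W κ Sm) : Final := by
  have tW := h.modW.tm
  exact ⟨W, LRs W, h.ctb, ⟨h.modW.trans, h.modW.zfc⟩, isLR_LRs, h.dc, ⟨κ, h.theta, h.inacc⟩,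
    h.not_ad⟩

end LRS
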