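import Pool.Agent.LRM.Sys

/-! # LRM: preparations for the boundedness theorem

(library; no sorry in this file)

`nvM u g`: the value of the nice name `u` for the filter `g`. `tB`: the supremum of the values below `κ` of
the functional relation `F` at the values of the nice names in `U`. -/

universe u v w

namespace CPY

open STP ZU LRM

section

variable {N : Type v} [ZM N]

/-- the value of the nice name `u` for the filter `g` -/
noncomputable def nvM (u g : N) : N := sep (ZU.dm u) fun β => ∃ p, p ∈ g ∧ op β p ∈ u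

@[simp] theorem df_nvM {s t : (ℕ → N) → N} (hs : DF s) (ht : DF t) :
    DF fun v => nvM (s v) (t v) :=
  df2 (F := nvM) (by unfold nvM; simp (maxDischargeDepth := 99)) hs ht

@[simp] theorem uf_nvM {s t : ∀ m : ZL.Mdl.{v}, (ℕ → m.N) → m.N} (hs : ZL.UF s) (ht : ZL.UF t) :
    ZL.UF fun m v => nvM (s m v) (t m v) :=
  ZL.uf2 (F := fun m => nvM (N := m.N)) (by unfold nvM; simp (maxDischargeDepth := 99)) hs ht

theorem mem_nvM {u g β : N} : β ∈ nvM u g ↔ ∃ p, p ∈ g ∧ op β p ∈ u := by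
  unfold nvM
  rw [ZU.mem_sep (by simp (maxDischargeDepth := 99))]
  constructor
  · exact fun h => h.2
  · rintro ⟨p, hp, h⟩
    exact ⟨mem_dm.2 ⟨p, h⟩, p, hp, h⟩

@[simp] theorem uf_vaM {g x : ∀ m : ZL.Mdl.{v}, (ℕ → m.N) → m.N} (hg : ZL.UF g) (hx : ZL.UF x) :
    ZL.UF fun m v => vaM (g m v) (x m v) := by
  refine ZL.uf2 (F := fun m => vaM (N := m.N)) ?_ hg hx
  unfold vaM
  refine ZL.uf_wrec (pr := fun _ x _ => ZU.dm x) (G := fun _ x f v =>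
    img (sep (ZU.dm x) fun y => ∃ p, p ∈ v 0 ∧ op y p ∈ x) (ap f)) (ZL.uf_dm (ZL.uf_var 0)) ?_
    (ZL.uf_var 1)
  exact ZL.uf_img (F := fun _ y v => ap (v 1) y) (x := fun m v => sep (ZU.dm (v 0)) fun y =>
    ∃ p, p ∈ v 2 ∧ op y p ∈ v 0) (by simp (maxDischargeDepth := 99))
    (ZL.uf_ap (ZL.uf_var 2) (ZL.uf_var 0))

/-- the supremum of the values below `κ` of `F` at the values of the nice names in `U` -/
noncomputable def tB (g U κ F : N) : N :=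
  uni (sep κ fun ξ => ∃ u, u ∈ U ∧ op (nvM u g) ξ ∈ F)

theorem uf_tB {g U κ F : ∀ m : ZL.Mdl.{v}, (ℕ → m.N) → m.N} (hg : ZL.UF g) (hU : ZL.UF U)
    (hκ : ZL.UF κ) (hF : ZL.UF F) : ZL.UF fun m v => tB (g m v) (U m v) (κ m v) (F m v) := by
  unfold tB
  exact ZL.uf_uni (ZL.uf_sep (x := κ) (R := fun m ξ v => ∃ u, u ∈ U m v ∧
    op (nvM u (g m v)) ξ ∈ F m v) hκ (ZL.ud_ex (R := fun m u v => u ∈ U m (fun i => v (i + 1)) ∧
    op (nvM u (g m fun i => v (i + 1))) (v 0) ∈ F m fun i => v (i + 1)) (ZL.ud_and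
      (ZL.ud_mem (ZL.uf_var 0) hU.wk.wk) (ZL.ud_mem (ZL.uf_op (uf_nvM (ZL.uf_var 0) hg.wk.wk)
        (ZL.uf_var 1)) hF.wk.wk))))

/-- a value of `F` is at most the supremum -/
theorem sub_tB {g U κ F u ξ : N} (hκ : ZU.Ord κ) (hu : u ∈ U) (hξ : ξ ∈ κ)
    (h : op (nvM u g) ξ ∈ F) : ∀ b : N, ZU.Ord b → tB g U κ F ∈ b → ξ ∈ b := by
  intro b hb h1
  have hD : Dfn fun v : ℕ → N => ∃ u, u ∈ U ∧ op (nvM u g) (v 0) ∈ F := by
    simp (maxDischargeDepth := 99)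
  have h2 : ξ ⊆ tB g U κ F := fun z hz => mem_uni.2 ⟨ξ, (ZU.mem_sep hD).2 ⟨hξ, u, hu, h⟩, hz⟩
  rcases ord_tri (hκ.mem hξ) hb with h3 | rfl | h3
  · exact h3
  · exact absurd (h2 _ h1) (not_mem_self _)
  · exact absurd (h2 _ ((hκ.mem hξ).1 _ h3 _ h1)) (not_mem_self _)

/-- the supremum is below a regular `κ` if the nice names have few values and `F` is functional -/
theorem tB_mem {g U κ F e f : N} (hκ : RegK κ) (he : e ∈ κ) (hf : IsF f e)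
    (hU : ∀ u, u ∈ U → nvM u g ∈ rg f) (hF : ∀ x ξ η, op x ξ ∈ F → op x η ∈ F → ξ = η) :
    tB g U κ F ∈ κ := by
  have hD : Dfn fun v : ℕ → N => ∃ u, u ∈ U ∧ op (nvM u g) (v 0) ∈ F := by
    simp (maxDischargeDepth := 99)
  have hG : DF fun v : ℕ → N => ZU.lst fun ξ => op (ap f (v 0)) ξ ∈ F :=
    ZU.df_lst (R := fun ξ v => op (ap f (v 0)) ξ ∈ F) (dfn_mem (df_op (df_ap (df_const _)
      (df_var 1)) (df_var 0)) (df_const _))
  obtain ⟨b, hb, h1⟩ := hκ.bd he (F := fun x => ZU.lst fun ξ => op (ap f x) ξ ∈ F) hG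
  have hbO := hκ.ord.mem hb
  have h2 : ∀ ξ, ξ ∈ κ → (∃ u, u ∈ U ∧ op (nvM u g) ξ ∈ F) → ξ ∈ b := by
    rintro ξ hξ ⟨u, hu, h3⟩
    obtain ⟨x, hx, h4⟩ := hf.mem_rg.1 (hU u hu)
    rw [h4] at h3
    have h5 : (ZU.lst fun ξ => op (ap f x) ξ ∈ F) = ξ := by
      have h6 := (lst_spec (P := fun ξ => op (ap f x) ξ ∈ F) ⟨ξ, hκ.ord.mem hξ, h3⟩).2.1
      exact hF _ _ _ h6 h3
    have := h1 x hx (by
      beta_reduce
      rw [h5]
      exact hξ)
    beta_reduce at this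
    rwa [h5] at this
  have hsub : tB g U κ F ⊆ b := fun z hz => by
    obtain ⟨ξ, hξ, hz⟩ := mem_uni.1 hz
    have h3 := (ZU.mem_sep hD).1 hξ
    exact hbO.1 _ (h2 ξ h3.1 h3.2) _ hz
  have hO : ZU.Ord (tB g U κ F) := by
    refine LRM.ord_uni fun x hx => ?_
    exact hκ.ord.mem ((ZU.mem_sep hD).1 hx).1
  rcases ord_tri hO hκ.ord with h3 | h3 | h3
  · exact h3
  · rw [h3] at hsub
    exact absurd (hsub b hb) (not_mem_self _)
  · exact absurd (hsub b (hO.1 _ h3 _ hb)) (not_mem_self _)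

end

section

variable {N : Type v} {N' : Type w} [ZM N] [ZM N'] {j : N → N'} (h : TrEmb j)
include h

theorem emb_nvM (u g : N) : j (nvM u g) = nvM (j u) (j g) := by
  unfold nvM
  rw [h.sep (P' := fun β => ∃ p, p ∈ j g ∧ op β p ∈ j u) (by simp (maxDischargeDepth := 99))
    (by simp (maxDischargeDepth := 99)) fun z _ => ?_, h.dm]
  constructor
  · rintro ⟨p, hp, h1⟩
    exact ⟨j p, (h.mem_iff _ _).2 hp, h.op_mem.2 h1⟩
  · rintro ⟨p, hp, h1⟩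
    obtain ⟨p, hp1, rfl⟩ := h.mem_j.1 hp
    exact ⟨p, hp1, h.op_mem.1 h1⟩

end

/-- **Nice names** of the subsets of a set of the ground model -/
theorem Mod.nice {M : Set ZFSet.{0}} {Q : Po} {G : Set ZFSet.{0}} (hM : Mod M) (h : IsPo M Q)
    (hG : Gen M Q G) (A : M) {x : ZFSet.{0}} (hx : x ∈ Ext M G) :
    ∃ u : M, (∀ β p : ZFSet.{0}, ZFSet.pair β p ∈ u.1 → β ∈ A.1 ∧ p ∈ Q.P) ∧
      (∀ z ∈ u.1, ∃ β ∈ A.1, ∃ p ∈ Q.P, z = ZFSet.pair β p) ∧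
      ∀ z ∈ A.1, z ∈ x ↔ ∃ p ∈ G, ZFSet.pair z p ∈ u.1 := by
  have tM := hM.tm
  obtain ⟨τ, hτ, rfl⟩ := hx
  obtain ⟨F, hF1, hF2, hF3⟩ := hM.ud_force h (P := fun m v => v 0 ∈ v 1)
    (ZL.ud_mem (ZL.uf_var 0) (ZL.uf_var 1))
  have hFD : Dfn fun u : ℕ → M => F (cns (chkM h.om (fst (u 0))) fun _ => ⟨τ, hτ⟩) (snd (u 0)) := by
    refine (hF1 (fun i u => match i with
      | 0 => chkM h.om (fst (u 0))
      | _ + 1 => ⟨τ, hτ⟩) (fun u => snd (u 0)) ?_ (df_snd (df_var 0))).congr fun u => ?_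
    · intro i
      rcases i with _ | n
      · exact df_chkM (df_const _) (df_fst (df_var 0))
      · exact df_const _
    · have : (fun i => (match i with
          | 0 => chkM h.om (fst (u 0))
          | _ + 1 => ⟨τ, hτ⟩ : M)) = cns (chkM h.om (fst (u 0))) fun _ => ⟨τ, hτ⟩ := by
        funext i
        rcases i with _ | n <;> rfl
      beta_reduce
      rw [this]
  let u : M := sep (prd A h.Pm) fun z => F (cns (chkM h.om (fst z)) fun _ => ⟨τ, hτ⟩) (snd z)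
  have hu : ∀ β p : M, op β p ∈ u ↔ (β ∈ A ∧ p ∈ h.Pm) ∧
      F (cns (chkM h.om β) fun _ => ⟨τ, hτ⟩) p := by
    intro β p
    have : op β p ∈ u ↔ op β p ∈ prd A h.Pm ∧
        F (cns (chkM h.om (fst (op β p))) fun _ => ⟨τ, hτ⟩) (snd (op β p)) := ZU.mem_sep hFD
    rw [this, op_mem_prd, snd_op, fst_op]
  have hu2 : ∀ z : M, z ∈ u → ∃ β p, β ∈ A ∧ p ∈ h.Pm ∧ z = op β p := fun z hz => by
    have : z ∈ prd A h.Pm := ((ZU.mem_sep hFD).1 hz).1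
    exact mem_prd.1 this
  refine ⟨u, fun β p hz => ?_, fun z hz => ?_, fun z hz => ?_⟩
  · obtain ⟨β, p, rfl, rfl, h2⟩ := mpair_ex hz
    exact ((hu β p).1 h2).1
  · obtain ⟨z, hz1, rfl⟩ := ex_val hz
    obtain ⟨β, p, hβ, hp, rfl⟩ := hu2 z hz1
    exact ⟨β.1, hβ, p.1, hp, val_op⟩
  · have hzM : z ∈ M := hM.trans _ A.2 _ hz
    let zm : M := ⟨z, hzM⟩
    have e1 : (fun (m : ZL.Mdl.{1}) (v : ℕ → m.N) => v 0 ∈ v 1) (mExt hM h hG)
        (vals G (cns (chkM h.om zm) fun _ => ⟨τ, hτ⟩)) ↔ z ∈ val G τ := by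
      have : (vals G (cns (chkM h.om zm) fun _ => (⟨τ, hτ⟩ : M)) 0).1 = z := by
        change val G (chkM h.om zm).1 = z
        rw [chkM_val (o := h.om) rfl, val_chk hG.one]
      change (vals G (cns (chkM h.om zm) fun _ => (⟨τ, hτ⟩ : M)) 0).1 ∈ val G τ ↔ _
      rw [this]
    refine e1.symm.trans ((hF2 G hG _).trans ?_)
    constructor
    · rintro ⟨p, hp, h2⟩
      exact ⟨p.1, hp, mop_mem.1 ((hu zm p).2 ⟨⟨hz, hG.sub _ hp⟩, h2⟩)⟩
    · rintro ⟨p, hp, h2⟩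
      have hpM : p ∈ M := h.in_M (hG.sub p hp)
      exact ⟨⟨p, hpM⟩, hp, ((hu zm ⟨p, hpM⟩).1 (mop_mem.2 h2)).2⟩

end CPY
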