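import Pool.Agent.LRM.BddA

/-! # LRM: functions with values below `κ` in `L(ℝ)` of a symmetric extension are bounded

(library; no sorry in this file)

`RealsIn`: every real of `M[G]` is in some `M[r a '' G]`. `PwIn`: the power set of `α ∈ κ` in `M[r a '' G]`
is covered by a function on an element of `κ`. `bdd_fun`: a function of `L(ℝ)` of `M[G]` on the subsets of
`α` with values in `κ` is bounded in `κ`. -/

universe u v w

namespace CPY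

open STP ZU LRM

variable {M : Set ZFSet.{0}} {Q : Po} {ι : Type u} {S : SD ι} {G : Set ZFSet.{0}}

/-- every real of `M[G]` is in one of the models `M[r a '' G]` -/
def RealsIn (M : Set ZFSet.{0}) {ι : Type u} (S : SD ι) (G : Set ZFSet.{0}) : Prop :=
  ∀ (_ : TM (Ext M G)) (x : Ext M G), x ⊆ (om : Ext M G) → ∃ a, x.1 ∈ Sma M S G a

/-- the power sets of elements of `κ` in `M[r a '' G]` are covered by functions on elements of `κ` -/
def PwIn (M : Set ZFSet.{0}) {ι : Type u} (S : SD ι) (G : Set ZFSet.{0}) (κ : ZFSet.{0}) : Prop :=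
  ∀ (a : ι) (_ : TM (Sma M S G a)), ∀ α ∈ κ, ∃ e f : Sma M S G a, e.1 ∈ κ ∧ IsF f e ∧
    ∀ x : Sma M S G a, (∀ z ∈ x.1, z ∈ α) → x ∈ rg f

theorem emb_inM (hM : Mod M) (h : IsPo M Q) (hG : Gen M Q G) [TM M] [TM (Ext M G)] :
    TrEmb (inM hM h hG) := emb_incl (hM.sub_ext h hG)

theorem ord_inM (hM : Mod M) (h : IsPo M Q) (hG : Gen M Q G) [TM (Ext M G)] :
    ∀ α : Ext M G, ZU.Ord α → ∃ β, α = inM hM h hG β := fun α hα =>
  ⟨⟨α.1, hM.ord α.2 (mord_iff.1 hα)⟩, Subtype.ext rfl⟩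

theorem ev_congr {W W' : Set ZFSet.{0}} (e : W = W') [TM W] [TM W'] {s r : W} {s' r' : W'}
    (hs : s.1 = s'.1) (hr : r.1 = r'.1) : (ev (pw om) s r).1 = (ev (pw om) s' r').1 := by
  subst e
  have h1 : s = s' := Subtype.ext hs
  have h2 : r = r' := Subtype.ext hr
  rw [h1, h2]

/-- subsets of sets of `M` which are in `L(ℝ)` of `M[G]` are in some `M[r a '' G]` -/
theorem lr_set (hM : Mod M) (hc : M.Countable) (h : IsPo M Q) (hS : IsSys M Q S) (hG : Gen M Q G)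
    (hP1 : RealsIn M S G) [tG : TM (Ext M G)] {A : M} {x : Ext M G} (hx : InL (pw om) x)
    (hxA : ∀ z ∈ x.1, z ∈ A.1) : ∃ a, x.1 ∈ Sma M S G a := by
  have tM := hM.tm
  obtain ⟨s, r, hr, hx1⟩ := ev_surj (emb_inM hM h hG) (ord_inM hM h hG) hx
  obtain ⟨b, hb⟩ := hP1 tG r (mem_pw.1 hr)
  obtain ⟨y, hy, hy1⟩ := sys_cap hM hc h hS hG (a := b) (s := s.1) (r := r.1) (A := A.1)
    (sys_sub hM h hS hG b s.2) hb (sys_sub hM h hS hG b A.2)
  refine ⟨b, ?_⟩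
  have : x.1 = y := by
    ext z
    rw [hy1]
    constructor
    · intro hz
      have hzW : z ∈ Ext M G := tG.tr _ x.2 _ hz
      refine ⟨hxA z hz, tG, hzW, (inM hM h hG s).2, r.2, ?_⟩
      have : (⟨z, hzW⟩ : Ext M G) ∈ x := hz
      rw [hx1] at this
      exact this
    · rintro ⟨-, _, hz, _, _, h2⟩
      have h3 : (⟨z, hz⟩ : Ext M G) ∈ x := by
        rw [hx1]
        exact h2
      exact h3
  rw [this]
  exact hy

/-- the graph of the projection `r a` as a function of `M` -/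
theorem sys_fr (hM : Mod M) (h : IsPo M Q) (hS : IsSys M Q S) [TM M] (a : ι) :
    ∃ f : M, ∀ p : M, p ∈ h.Pm → (ap f p).1 = S.r a p.1 := by
  obtain ⟨g, hg, hg1⟩ := (hS.iso a).gr
  let gm : M := ⟨g, hg⟩
  refine ⟨lam h.Pm fun p => fst (ap gm p), fun p hp => ?_⟩
  rw [ap_lam (F := fun p => fst (ap gm p)) (df_fst (df_ap (df_const _) (df_var 0))) hp]
  have h1 : ZFSet.pair (S.r a p.1) (S.c a p.1) ∈ (prodPo (S.R a) (S.C a)).P :=
    (hS.iso a).map p.1 hp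
  have h2 : ZFSet.pair (S.r a p.1) (S.c a p.1) ∈ M :=
    (prodPo_isPo (hS.poR a) (hS.poC a)).in_M h1
  have h3 : ap gm p = ⟨_, h2⟩ := the_eq (P := fun y => op p y ∈ gm)
    (mop_mem.2 ((hg1 _ _).2 ⟨hp, rfl⟩)) fun z hz => Subtype.ext ((hg1 _ _).1 (mop_mem.1 hz)).2
  have h1' := ZFSet.pair_mem_prod.1 h1
  have h4 : S.r a p.1 ∈ M := (hS.poR a).in_M h1'.1
  have h5 : S.c a p.1 ∈ M := (hS.poC a).in_M h1'.2
  have h6 : (⟨_, h2⟩ : M) = op ⟨_, h4⟩ ⟨_, h5⟩ := Subtype.ext (by rw [val_op])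
  rw [h3, h6, fst_op]

/-- the image of the generic filter -/
theorem mem_imgr (hM : Mod M) (h : IsPo M Q) (hG : Gen M Q G) [TM M] [TM (Ext M G)] {a : ι}
    {f : M} (hf : ∀ p : M, p ∈ h.Pm → (ap f p).1 = S.r a p.1) {g : Ext M G}
    (hg : ∀ p, p ∈ g.1 ↔ p ∈ G) (q : ZFSet.{0}) :
    q ∈ (img g (ap (inM hM h hG f))).1 ↔ q ∈ S.r a '' G := by
  have e := emb_inM hM h hG
  have hval : ∀ p : M, p.1 ∈ G → (ap (inM hM h hG f) (inM hM h hG p)).1 = S.r a p.1 := by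
    intro p hp
    rw [← e.ap]
    exact hf p (hG.sub _ hp)
  constructor
  · intro hq
    obtain ⟨q, hq, rfl⟩ := ex_val hq
    obtain ⟨p, hp, rfl⟩ := (ZU.mem_img (F := ap (inM hM h hG f)) (df_ap_c _)).1 hq
    have hpG := (hg p.1).1 hp
    have := hval ⟨p.1, h.in_M (hG.sub _ hpG)⟩ hpG
    exact ⟨p.1, hpG, this.symm⟩
  · rintro ⟨p, hp, rfl⟩
    have hpM : p ∈ M := h.in_M (hG.sub p hp)
    have h1 := hval ⟨p, hpM⟩ hp
    rw [← h1]
    have : ap (inM hM h hG f) (inM hM h hG ⟨p, hpM⟩) ∈ img g (ap (inM hM h hG f)) :=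
      (ZU.mem_img (F := ap (inM hM h hG f)) (df_ap_c _)).2 ⟨_, (hg p).2 hp, rfl⟩
    exact this

/-- **Boundedness.** A function of `L(ℝ)` of `M[G]` on the subsets of `α ∈ κ` with values in `κ` is
bounded in `κ`. -/
theorem bdd_fun (hM : Mod M) (hc : M.Countable) (h : IsPo M Q) (hS : IsSys M Q S) {κ : M}
    (hκ : @RegK M (@instZM M hM.tm) κ) (cc : @CcK M Q hM.tm h κ)
    (hP4 : ∀ G, Gen M Q G → PwIn M S G κ.1) (hG : Gen M Q G) (hP1 : RealsIn M S G)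
    [tG : TM (Ext M G)] {α : M} (hα : α.1 ∈ κ.1) {F : Ext M G} (hF : InL (pw om) F)
    (hfun : ∀ x ξ η, ZFSet.pair x ξ ∈ F.1 → ZFSet.pair x η ∈ F.1 → ξ = η) :
    ∃ b ∈ κ.1, ∀ x ξ : Ext M G, InL (pw om) x → (∀ z ∈ x.1, z ∈ α.1) → ξ.1 ∈ κ.1 →
      op x ξ ∈ F → ξ.1 ∈ b := by
  have tM := hM.tm
  obtain ⟨s, r, hr, hFe⟩ := ev_surj (emb_inM hM h hG) (ord_inM hM h hG) hF
  obtain ⟨a0, ρ, hρ, hρr⟩ := hP1 tG r (mem_pw.1 hr)
  obtain ⟨a1, hbig1, -⟩ := hS.dir a0 a0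
  obtain ⟨f0, hf0⟩ := sys_fr hM h hS a0
  obtain ⟨f1, hf1⟩ := sys_fr hM h hS a1
  let U : M := pw (prd α (hS.poR a1).Pm)
  have hT : ZL.UF fun (m : ZL.Mdl.{1}) (v : ℕ → m.N) =>
      tB (img (v 0) (ap (v 2))) (v 5) (v 6) (ev (pw om) (v 3)
        (vaM (img (v 0) (ap (v 1))) (v 4))) := by
    have hi : ∀ k, ZL.UF fun (m : ZL.Mdl.{1}) (v : ℕ → m.N) => img (v 0) (ap (v k)) := fun k =>
      ZL.uf_img (F := fun _ z v => ap (v k) z) (ZL.uf_var 0) (ZL.uf_ap (ZL.uf_var (k + 1))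
        (ZL.uf_var 0))
    exact uf_tB (hi 2) (ZL.uf_var 5) (ZL.uf_var 6) (uf_ev (ZL.uf_pw ZL.uf_om) (ZL.uf_var 3)
      (uf_vaM (hi 1) (ZL.uf_var 4)))
  let cn : M → M := fun x => ⟨chk Q x.1, hM.chk_mem h x.2⟩
  obtain ⟨b, hb, hb1⟩ := hM.vals_bd hc h hκ cc hT
    (cns ⟨gnm Q, hM.gnm_mem h⟩ (cns (cn f0) (cns (cn f1) (cns (cn s) (cns (cn ⟨ρ, hρ⟩)
      (cns (cn U) fun _ => cn κ))))))
  refine ⟨b.1, hb, fun x ξ hx hxα hξ hxξ => ?_⟩
  obtain ⟨c, hxc⟩ := lr_set hM hc h hS hG hP1 hx hxα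
  obtain ⟨a, hbig, ρ', hρ', hρ''⟩ := hS.dir a0 c
  have hxa : x.1 ∈ Sma M S G a := sys_mono hM h hS hG hρ' hρ'' hxc
  obtain ⟨σ, τ, hσ, hτ, h1, h2⟩ := hS.sym a0 a a1 hbig hbig1
  have hG' : Gen M Q (σ '' G) := hG.img h h hσ
  have hE : Ext M (σ '' G) = Ext M G := ext_img hG h h hσ
  have h3 : S.r a0 '' (σ '' G) = S.r a0 '' G := by
    rw [Set.image_image]
    exact Set.image_congr fun p hp => h1 p (hG.sub p hp)
  have h4 : S.r a1 '' (σ '' G) = τ '' (S.r a '' G) := by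
    rw [Set.image_image, Set.image_image]
    exact Set.image_congr fun p hp => h2 p (hG.sub p hp)
  have h5 : Sma M S (σ '' G) a1 = Sma M S G a := by
    unfold Sma
    rw [h4]
    exact ext_img (sys_gen hM h hS hG a) (hS.poR a) (hS.poR a1) hτ
  generalize σ '' G = G' at *
  have tG' : TM (Ext M G') := ext_tm hG' h
  have e := emb_inM hM h hG'
  have tS : TM (Sma M S G' a1) := (sys_mod hM h hS hG' a1).tm
  -- the generic filter and its projections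
  let gm : Ext M G' := ⟨val G' (gnm Q), gnm Q, hM.gnm_mem h, rfl⟩
  have hgm : ∀ p, p ∈ gm.1 ↔ p ∈ G' := fun p => by
    change p ∈ val G' (gnm Q) ↔ _
    rw [val_gnm hG', mem_gset hG']
  let g0 : Ext M G' := img gm (ap (inM hM h hG' f0))
  let g1 : Ext M G' := img gm (ap (inM hM h hG' f1))
  have hg0 : ∀ q, q ∈ g0.1 ↔ q ∈ S.r a0 '' G' := mem_imgr hM h hG' hf0 hgm
  have hg1 : ∀ q, q ∈ g1.1 ↔ q ∈ S.r a1 '' G' := mem_imgr hM h hG' hf1 hgm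
  let F' : Ext M G' := ev (pw om) (inM hM h hG' s) (vaM g0 (inM hM h hG' ⟨ρ, hρ⟩))
  have hF' : F'.1 = F.1 := by
    rw [hFe]
    refine ev_congr hE rfl ?_
    rw [vaM_val (G := S.r a0 '' G') hg0, h3]
    exact hρr
  -- the supremum is in `κ`
  have hκ' := hM.regK_ext hc h hκ cc hG'
  obtain ⟨e1, f, he1, hf, hf1⟩ := hP4 G' hG' a1 tS α.1 hα
  have iS := emb_incl (sys_le hM h hS hG' a1)
  let g1s : Sma M S G' a1 := ⟨gset (S.R a1) (S.r a1 '' G'), gset_ext (sys_gen hM h hS hG' a1)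
    (gnm_mem (hS.poR a1))⟩
  have hg1s : Set.inclusion (sys_le hM h hS hG' a1) g1s = g1 := by
    refine Subtype.ext (ZFSet.ext fun q => ?_)
    rw [hg1]
    exact mem_gset (sys_gen hM h hS hG' a1)
  have hnv : ∀ u : M, u ∈ U → ∀ w : Ext M G', w.1 = u.1 → nvM w g1 ∈ rg
      (Set.inclusion (sys_le hM h hS hG' a1) f) := by
    intro u hu w hw
    let us : Sma M S G' a1 := ⟨u.1, sys_sub hM h hS hG' a1 u.2⟩
    have hus : Set.inclusion (sys_le hM h hS hG' a1) us = w := Subtype.ext hw.symm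
    rw [← hus, ← hg1s, ← emb_nvM iS, ← iS.rg, iS.mem_iff]
    refine hf1 _ fun z hz => ?_
    obtain ⟨z, hz1, rfl⟩ := ex_val hz
    obtain ⟨p, hp, hzp⟩ := mem_nvM.1 hz1
    have h6 := mop_mem.1 hzp
    obtain ⟨z', p', hz', hp', h7⟩ := mpair_ex (z := u) h6
    have h8 := (mem_pw.1 hu) _ h7
    rw [← hz']
    exact (op_mem_prd.1 h8).1
  have hTκ : tB g1 (inM hM h hG' U) (inM hM h hG' κ) F' ∈ inM hM h hG' κ := by
    refine tB_mem (e := Set.inclusion (sys_le hM h hS hG' a1) e1)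
      (f := Set.inclusion (sys_le hM h hS hG' a1) f) hκ' he1 (iS.isF.2 hf) (fun w hw => ?_) ?_
    · obtain ⟨u, hu, rfl⟩ := e.mem_j.1 hw
      exact hnv u hu _ rfl
    · intro x ξ η hx1 hx2
      rw [mop_mem, hF'] at hx1 hx2
      exact Subtype.ext (hfun _ _ _ hx1 hx2)
  -- the value of the term
  have hval : ∀ y : M, (⟨val G' (cn y).1, (cn y).1, (cn y).2, rfl⟩ : Ext M G') = inM hM h hG' y :=
    fun y => Subtype.ext (val_chk hG'.one y.1)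
  let V : ℕ → Ext M G' := vals G' (cns ⟨gnm Q, hM.gnm_mem h⟩ (cns (cn f0) (cns (cn f1) (cns (cn s)
    (cns (cn ⟨ρ, hρ⟩) (cns (cn U) fun _ => cn κ))))))
  have hV1 : V 1 = inM hM h hG' f0 := hval f0
  have hV2 : V 2 = inM hM h hG' f1 := hval f1
  have hV3 : V 3 = inM hM h hG' s := hval s
  have hV4 : V 4 = inM hM h hG' ⟨ρ, hρ⟩ := hval ⟨ρ, hρ⟩
  have hV5 : V 5 = inM hM h hG' U := hval U
  have hV6 : V 6 = inM hM h hG' κ := hval κ
  have hTV : (tB (img (V 0) (ap (V 2))) (V 5) (V 6) (ev (pw om) (V 3)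
      (vaM (img (V 0) (ap (V 1))) (V 4))) : Ext M G') =
      tB g1 (inM hM h hG' U) (inM hM h hG' κ) F' := by
    rw [hV1, hV2, hV3, hV4, hV5, hV6]
    rfl
  have hb2 : (tB (img (V 0) (ap (V 2))) (V 5) (V 6) (ev (pw om) (V 3)
      (vaM (img (V 0) (ap (V 1))) (V 4))) : Ext M G').1 ∈ κ.1 →
      (tB (img (V 0) (ap (V 2))) (V 5) (V 6) (ev (pw om) (V 3)
      (vaM (img (V 0) (ap (V 1))) (V 4))) : Ext M G').1 ∈ b.1 := hb1 G' hG'
  rw [hTV] at hb2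
  have hb3 := hb2 hTκ
  -- the nice name of `x`
  rw [← h5] at hxa
  obtain ⟨u, hu1, hu2, hu3⟩ := hM.nice (hS.poR a1) (sys_gen hM h hS hG' a1) α hxa
  have huU : u ∈ U := mem_pw.2 fun z hz => by
    obtain ⟨β, hβ, p, hp, h6⟩ := hu2 z.1 hz
    have h7 : z = op ⟨β, hM.trans _ α.2 _ hβ⟩ ⟨p, (hS.poR a1).in_M hp⟩ :=
      Subtype.ext (by rw [val_op]; exact h6)
    rw [h7, op_mem_prd]
    exact ⟨hβ, hp⟩
  have hxW : x.1 ∈ Ext M G' := by
    rw [hE]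
    exact x.2
  have hξW : ξ.1 ∈ Ext M G' := by
    rw [hE]
    exact ξ.2
  have hnx : nvM (inM hM h hG' u) g1 = ⟨x.1, hxW⟩ := by
    refine Subtype.ext (ZFSet.ext fun z => ?_)
    constructor
    · intro hz
      obtain ⟨z, hz1, rfl⟩ := ex_val hz
      obtain ⟨p, hp, hzp⟩ := mem_nvM.1 hz1
      have h6 : ZFSet.pair z.1 p.1 ∈ u.1 := mop_mem.1 hzp
      exact (hu3 _ (hu1 _ _ h6).1).2 ⟨p.1, (hg1 _).1 hp, h6⟩
    · intro hz
      obtain ⟨p, hp, h6⟩ := (hu3 _ (hxα z hz)).1 hz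
      have hpG := (hg1 p).2 hp
      obtain ⟨p, hp1, rfl⟩ := ex_val hpG
      have hzW : z ∈ Ext M G' := tG'.tr _ hxW _ hz
      have : (⟨z, hzW⟩ : Ext M G') ∈ nvM (inM hM h hG' u) g1 :=
        mem_nvM.2 ⟨p, hp1, mop_mem.2 h6⟩
      exact this
  have hF2 : op (nvM (inM hM h hG' u) g1) (⟨ξ.1, hξW⟩ : Ext M G') ∈ F' := by
    rw [hnx, mop_mem, hF']
    exact mop_mem.1 hxξ
  exact sub_tB hκ'.ord ((e.mem_iff _ _).2 huU) (ξ := ⟨ξ.1, hξW⟩) hξ hF2 (inM hM h hG' b)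
    (hκ'.ord.mem ((e.mem_iff _ _).2 hb)) hb3

end CPY
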