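import Pool.Agent.LRM.Hom
import Pool.Agent.ZU.Ctb

/-! # LRM: the `κ`-chain condition

(library; no sorry in this file)

`RegK κ`: `κ` is a regular limit ordinal. `CcK h κ`: every antichain of `Q` in `M` is covered by a function on
an element of `κ`. `vals_bd`: the possible values below `κ` of a uniformly definable term with names as
parameters are bounded in `κ`; `regK_ext`: `κ` remains regular. -/

universe v

namespace CPY

open STP ZU

section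

variable {N : Type v} [ZM N]

/-- `κ` is a regular limit ordinal -/
structure RegK (κ : N) : Prop where
  ord : ZU.Ord κ
  zero : ∅ ∈ κ
  sc : ∀ e, e ∈ κ → sc e ∈ κ
  reg : ∀ e, e ∈ κ → ∀ f, IsF f e → (∀ x, x ∈ e → ap f x ∈ κ) → ∃ b, b ∈ κ ∧ ∀ x, x ∈ e → ap f x ∈ b

/-- functions given by definable functions are bounded -/
theorem RegK.bd {κ : N} (h : RegK κ) {e : N} (he : e ∈ κ) {F : N → N} (hF : DF fun v => F (v 0)) :
    ∃ b, b ∈ κ ∧ ∀ x, x ∈ e → F x ∈ κ → F x ∈ b := by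
  have hG : DF fun v : ℕ → N => ife (F (v 0) ∈ κ) (F (v 0)) ∅ :=
    df_ife (dfn_mem hF (df_const κ)) hF (df_const ∅)
  obtain ⟨b, hb, h1⟩ := h.reg e he (lam e fun x => ife (F x ∈ κ) (F x) ∅) (isF_lam hG e)
    (fun x hx => by
      rw [ap_lam hG hx]
      by_cases hc : F x ∈ κ
      · rw [ife_pos hc]
        exact hc
      · rw [ife_neg hc]
        exact h.zero)
  refine ⟨b, hb, fun x hx hc => ?_⟩
  have := h1 x hx
  rw [ap_lam hG hx, ife_pos hc] at this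
  exact this

end

variable {M : Set ZFSet.{0}} {Q : Po} {G : Set ZFSet.{0}}

section

variable [tM : TM M]

/-- every antichain of `Q` in `M` is covered by a function on an element of `κ` -/
def CcK (h : IsPo M Q) (κ : M) : Prop := ∀ A : M, A ⊆ h.Pm →
  (∀ p q, p ∈ A → q ∈ A → p ≠ q → ¬ ∃ r : M, op r p ∈ h.Lm ∧ op r q ∈ h.Lm) →
    ∃ e g : M, e ∈ κ ∧ IsF g e ∧ A ⊆ rg g

/-- a function on conditions with values in `κ` which is constant on compatible conditions is bounded -/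
theorem bound_cc (h : IsPo M Q) {κ : M} (hW : WO M) (hκ : RegK κ) (cc : CcK h κ) {R : M}
    (hR : ∀ p ξ : M, op p ξ ∈ R → p ∈ h.Pm ∧ ξ ∈ κ)
    (hc : ∀ p ξ q η r : M, op p ξ ∈ R → op q η ∈ R → op r p ∈ h.Lm → op r q ∈ h.Lm → ξ = η) :
    ∃ b : M, b ∈ κ ∧ ∀ p ξ : M, op p ξ ∈ R → ξ ∈ b := by
  have hD : Dfn fun v : ℕ → M => op (v 1) (v 0) ∈ R :=
    dfn_mem (df_op (df_var 1) (df_var 0)) (df_const _)
  obtain ⟨c, hcf, hc1⟩ := choice' hW (R := fun ξ p => op p ξ ∈ R) hD (A := rg R) fun ξ hξ => by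
    obtain ⟨p, hp⟩ := ZU.mem_rg.1 hξ
    exact ⟨p, hp⟩
  have hrefl : ∀ p ξ : M, op p ξ ∈ R → op p p ∈ h.Lm := fun p ξ hp =>
    h.leM.2 (h.refl _ (hR p ξ hp).1)
  have huniq : ∀ ξ η : M, ξ ∈ rg R → η ∈ rg R → ap c ξ = ap c η → ξ = η := by
    intro ξ η h1 h2 h3
    have h4 := hc1 ξ h1
    have h5 := hc1 η h2
    rw [← h3] at h5
    exact hc _ _ _ _ _ h4 h5 (hrefl _ _ h4) (hrefl _ _ h4)
  obtain ⟨e, g, he, hg, hAg⟩ := cc (rg c) (fun p hp => by
    obtain ⟨ξ, hξ, rfl⟩ := hcf.mem_rg.1 hp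
    exact (hR _ _ (hc1 ξ hξ)).1) (by
    rintro p q hp hq hne ⟨r, h1, h2⟩
    obtain ⟨ξ, hξ, rfl⟩ := hcf.mem_rg.1 hp
    obtain ⟨η, hη, rfl⟩ := hcf.mem_rg.1 hq
    have := hc _ _ _ _ _ (hc1 ξ hξ) (hc1 η hη) h1 h2
    exact hne (by rw [this]))
  have hF : DF fun v : ℕ → M => ZU.lst fun ξ : M => ξ ∈ rg R ∧ ap c ξ = ap g (v 0) :=
    ZU.df_lst (R := fun ξ v => ξ ∈ rg R ∧ ap c ξ = ap g (v 0)) (dfn_and
      (dfn_mem (df_var 0) (df_const _)) (dfn_eq (df_ap (df_const _) (df_var 0))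
        (df_ap (df_const _) (df_var 1))))
  obtain ⟨b, hb, h1⟩ := hκ.bd he (F := fun x => ZU.lst fun ξ : M => ξ ∈ rg R ∧ ap c ξ = ap g x) hF
  refine ⟨b, hb, fun p ξ hp => ?_⟩
  have hξ : ξ ∈ rg R := ZU.mem_rg.2 ⟨p, hp⟩
  have hξκ := (hR p ξ hp).2
  obtain ⟨x, hx, h2⟩ := hg.mem_rg.1 (hAg (ap c ξ) (hcf.mem_rg.2 ⟨ξ, hξ, rfl⟩))
  have h3 : (ZU.lst fun η : M => η ∈ rg R ∧ ap c η = ap g x) = ξ := by
    have h4 := (lst_spec (P := fun η : M => η ∈ rg R ∧ ap c η = ap g x)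
      ⟨ξ, hκ.ord.mem hξκ, hξ, h2⟩).2.1
    exact huniq _ _ h4.1 hξ (h4.2.trans h2.symm)
  have := h1 x hx (by rw [h3]; exact hξκ)
  rwa [h3] at this

end

/-- the possible values below `κ`, with a bound which depends definably on the first name -/
theorem Mod.vals_bdF (hM : Mod M) (hc : M.Countable) (h : IsPo M Q) {κ : M}
    (hκ : @RegK M (@instZM M hM.tm) κ) (cc : @CcK M Q hM.tm h κ)
    {t : ∀ m : ZL.Mdl.{1}, (ℕ → m.N) → m.N} (ht : ZL.UF t) (v : ℕ → M) :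
    ∃ B : M → M, (@DF M (@instZM M hM.tm) fun u => B (u 0)) ∧ ∀ x : M, (B x).1 ∈ κ.1 ∧
      ∀ G (hG : Gen M Q G), (t (mExt hM h hG) (vals G (cns x v))).1 ∈ κ.1 →
        (t (mExt hM h hG) (vals G (cns x v))).1 ∈ (B x).1 := by
  have tM := hM.tm
  obtain ⟨F, hF1, hF2, hF3⟩ := hM.ud_force h (P := fun m v => v 0 = t m fun i => v (i + 1)) ht
  have hFD : Dfn fun u : ℕ → M => F (cns (chkM h.om (snd (u 0))) (cns (u 1) v)) (fst (u 0)) := by
    refine (hF1 (fun i u => match i with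
      | 0 => chkM h.om (snd (u 0))
      | 1 => u 1
      | n + 2 => v n) (fun u => fst (u 0)) ?_ (df_fst (df_var 0))).congr fun u => ?_
    · intro i
      rcases i with _ | _ | n
      · exact df_chkM (df_const _) (df_snd (df_var 0))
      · exact df_var 1
      · exact df_const _
    · have : (fun i => (match i with
          | 0 => chkM h.om (snd (u 0))
          | 1 => u 1
          | n + 2 => v n : M)) = cns (chkM h.om (snd (u 0))) (cns (u 1) v) := by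
        funext i
        rcases i with _ | _ | n <;> rfl
      beta_reduce
      rw [this]
  have hFx : ∀ x : M, Dfn fun u : ℕ → M =>
      F (cns (chkM h.om (snd (u 0))) (cns x v)) (fst (u 0)) := fun x =>
    dfn2 (P := fun z x => F (cns (chkM h.om (snd z)) (cns x v)) (fst z)) hFD (df_var 0) (df_const x)
  let R : M → M := fun x => sep (prd h.Pm κ) fun z =>
    F (cns (chkM h.om (snd z)) (cns x v)) (fst z)
  have hRD : DF fun u : ℕ → M => R (u 0) :=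
    df_sep (x := fun _ => prd h.Pm κ) (R := fun z u => F (cns (chkM h.om (snd z)) (cns (u 0) v))
      (fst z)) (df_const _) hFD
  have hmem : ∀ x p ξ : M, op p ξ ∈ R x ↔
      (p ∈ h.Pm ∧ ξ ∈ κ) ∧ F (cns (chkM h.om ξ) (cns x v)) p := by
    intro x p ξ
    have : op p ξ ∈ R x ↔ op p ξ ∈ prd h.Pm κ ∧
        F (cns (chkM h.om (snd (op p ξ))) (cns x v)) (fst (op p ξ)) := ZU.mem_sep (hFx x)
    rw [this, op_mem_prd, snd_op, fst_op]
  have hval : ∀ G (hG : Gen M Q G) (ξ : M) (w : ℕ → M),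
      vals G (cns (chkM h.om ξ) w) = cns (inM hM h hG ξ) (vals G w) := by
    intro G hG ξ w
    rw [vals_cns]
    congr 1
    refine Subtype.ext ?_
    change val G (chkM h.om ξ).1 = ξ.1
    rw [chkM_val (o := h.om) rfl, val_chk hG.one]
  have hb : ∀ x : M, ∃ b : M, b ∈ κ ∧ ∀ p ξ : M, op p ξ ∈ R x → ξ ∈ b := by
    intro x
    refine bound_cc h hM.woz hκ cc (fun p ξ hp => ((hmem x p ξ).1 hp).1) ?_
    intro p ξ q η r hp hq hr1 hr2
    have hp' := ((hmem x p ξ).1 hp).2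
    have hq' := ((hmem x q η).1 hq).2
    have hrp := h.leM.1 hr1
    have hrq := h.leM.1 hr2
    obtain ⟨G, hG, hrG⟩ := gen_exists hc h (h.left_mem hrp)
    have e1 := (hF2 G hG _).2 ⟨r, hrG, hF3 _ _ _ hp' hrp⟩
    have e2 := (hF2 G hG _).2 ⟨r, hrG, hF3 _ _ _ hq' hrq⟩
    rw [hval G hG] at e1 e2
    have e3 := e1.trans e2.symm
    exact Subtype.ext (show (inM hM h hG ξ).1 = (inM hM h hG η).1 from
      congrArg (fun z : Ext M G => z.1) e3)
  have hBD : DF fun u : ℕ → M => ZU.lst fun b : M => b ∈ κ ∧ ∀ p ξ : M, op p ξ ∈ R (u 0) → ξ ∈ b := by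
    refine ZU.df_lst (R := fun b u => b ∈ κ ∧ ∀ p ξ : M, op p ξ ∈ R (u 0) → ξ ∈ b) (dfn_and
      (dfn_mem (df_var 0) (df_const _)) (dfn_all (dfn_all (dfn_imp (dfn_mem (df_op (df_var 1)
        (df_var 0)) ?_) (dfn_mem (df_var 0) (df_var 2))))))
    exact df1 hRD (df_var 3)
  refine ⟨fun x => ZU.lst fun b : M => b ∈ κ ∧ ∀ p ξ : M, op p ξ ∈ R x → ξ ∈ b, hBD, fun x => ?_⟩
  obtain ⟨b, hb1, hb2⟩ := hb x
  have h3 := (lst_spec (P := fun b : M => b ∈ κ ∧ ∀ p ξ : M, op p ξ ∈ R x → ξ ∈ b)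
    ⟨b, hκ.ord.mem hb1, hb1, hb2⟩).2.1
  refine ⟨h3.1, fun G hG ht => ?_⟩
  let ξ : M := ⟨_, tM.tr _ κ.2 _ ht⟩
  have e1 : (fun (m : ZL.Mdl.{1}) (v : ℕ → m.N) => v 0 = t m fun i => v (i + 1))
      (mExt hM h hG) (vals G (cns (chkM h.om ξ) (cns x v))) := by
    rw [hval G hG]
    exact Subtype.ext rfl
  obtain ⟨p, hp, h2⟩ := (hF2 G hG _).1 e1
  exact h3.2 p ξ ((hmem x p ξ).2 ⟨⟨hG.sub _ hp, ht⟩, h2⟩)

/-- **The possible values below `κ`** of a uniformly definable term with names as parameters are bounded. -/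
theorem Mod.vals_bd (hM : Mod M) (hc : M.Countable) (h : IsPo M Q) {κ : M}
    (hκ : @RegK M (@instZM M hM.tm) κ) (cc : @CcK M Q hM.tm h κ)
    {t : ∀ m : ZL.Mdl.{1}, (ℕ → m.N) → m.N} (ht : ZL.UF t) (v : ℕ → M) :
    ∃ b : M, b.1 ∈ κ.1 ∧ ∀ G (hG : Gen M Q G),
      (t (mExt hM h hG) (vals G v)).1 ∈ κ.1 → (t (mExt hM h hG) (vals G v)).1 ∈ b.1 := by
  obtain ⟨B, -, hB⟩ := hM.vals_bdF hc h hκ cc (t := fun m v => t m fun i => v (i + 1)) ht.wk v
  exact ⟨B κ, (hB κ).1, fun G hG h1 => (hB κ).2 G hG h1⟩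

/-- `κ` remains regular -/
theorem Mod.regK_ext (hM : Mod M) (hc : M.Countable) (h : IsPo M Q) {κ : M}
    (hκ : @RegK M (@instZM M hM.tm) κ) (cc : @CcK M Q hM.tm h κ) (hG : Gen M Q G) :
    @RegK (Ext M G) (@instZM _ (@ext_tm M hM.tm Q G hG h)) (inM hM h hG κ) := by
  have tM := hM.tm
  have tG := ext_tm hG h
  have emb : TrEmb (inM hM h hG) := emb_incl (hM.sub_ext h hG)
  refine ⟨(LRM.emb_ord emb κ).2 hκ.ord, ?_, ?_, ?_⟩
  · have := (emb.mem_iff ∅ κ).2 hκ.zero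
    rwa [emb.em] at this
  · intro e he
    obtain ⟨e, he1, rfl⟩ := emb.mem_j.1 he
    rw [← emb.sc, emb.mem_iff]
    exact hκ.sc e he1
  · intro e he f hf hfκ
    obtain ⟨e, he1, rfl⟩ := emb.mem_j.1 he
    obtain ⟨τ, rfl⟩ := vx_surj f
    obtain ⟨B, hB, hB1⟩ := hM.vals_bdF hc h hκ cc (t := fun m v => ap (v 1) (v 0))
      (ZL.uf_ap (ZL.uf_var 1) (ZL.uf_var 0)) (fun _ => τ)
    have hB' : DF fun v : ℕ → M => B (chkM h.om (v 0)) := df1 hB (df_chkM (df_const _) (df_var 0))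
    obtain ⟨b, hb, hb1⟩ := hκ.bd he1 (F := fun x => B (chkM h.om x)) hB'
    refine ⟨inM hM h hG b, (emb.mem_iff b κ).2 hb, fun x hx => ?_⟩
    obtain ⟨x, hx1, rfl⟩ := emb.mem_j.1 hx
    have h1 := hfκ _ hx
    have h2 : (vals G (cns (chkM h.om x) fun _ => τ)) 0 = inM hM h hG x := by
      refine Subtype.ext ?_
      change val G (chkM h.om x).1 = x.1
      rw [chkM_val (o := h.om) rfl, val_chk hG.one]
    have h3 : (ap (vx G τ) (inM hM h hG x) : Ext M G).1 ∈ (B (chkM h.om x)).1 := by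
      have := (hB1 (chkM h.om x)).2 G hG
      rw [h2] at this
      exact this h1
    have h4 : B (chkM h.om x) ∈ b := hb1 x hx1 (hB1 _).1
    exact (hκ.ord.mem hb).1 _ h4 ⟨_, tM.tr _ (B (chkM h.om x)).2 _ h3⟩ h3

end CPY
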