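import Pool.Agent.LRM.TyB
import Pool.Agent.COD.Gnb

/-! # LRM: decoding inside a model which contains the ground model

(problem MP_328cd5_lc; L(R) side; architect helper16, proofs helper11)

`decode`: let `M ⊆ N`, `N` a transitive model of ZF. There is a functional set `F` of `N` such that for every system `A m y`
(`y` is in the subset `D_m` of `nx m`) with the decoding equations (A1) (successor levels) and (A2) (limit levels), the real
`x = D_⊥` is mapped by `F` to the least element of `D_{m0}`.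

PROOF. Parameters (sets of `M`, hence of `N`; use `IP`, `IF` and the definition of the codes of pairs, `op_val`; `WCal.IP.iff_mem`):
`nxS = {(zc m, zc (nx m))}`, `LvS = {zc m | Lv m}`, `LLS = {zc l | LL l}`, `bS = {(zc m, (zc n, zc y)) | y ∈ D.b m n True}`,
`fS = {(zc l, (zc n, (zc k, zc (D.f l n k)))) | k ∈ D.S l}`, `κ = rg M K`. Inside `N` (class `ZU.ZM`, instance `ZU.instZM` for `[TM N]`) define
by `ZU.Rec` on the ordinal `μ`:
`Dc x μ = sep κ fun n => (μ = ∅ ∧ n ∈ x) ∨ (∃ m, m ∈ LvS ∧ op m μ ∈ nxS ∧ (∃ ν, op μ ν ∈ nxS ∧ n ∈ ν) ∧ ∃ e, e ∈ μ ∧ ∀ y,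
   op m (op n y) ∈ bS → ¬ y ∈ e → ¬ y ∈ ap f m) ∨ (μ ∈ LLS ∧ (∃ ν, op μ ν ∈ nxS ∧ n ∈ ν) ∧ ∃ e, e ∈ μ ∧
   ∀ k v, op μ (op n (op k v)) ∈ fS → ¬ k ∈ e → v ∈ ap f k)`, where `f` is the function of the previous values (`ZU.rec_eq`, definability
by `simp (maxDischargeDepth := 99)`, see `LRM/Def.lean`, `mem_Sh` for a model of this). Then for all `m` with `Lv M m` and all `n`:
`zc n ∈ Dc x (zc m) ↔ A m n`, by induction on `m` (`wellFounded_lt`; levels: `⊥`, `nx m'` with `Lv m'`, or `LL`; see `COD/Kf.lean`).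
`F = {(x, ν) | x ⊆ om, ν ∈ κ, ν ∈ Dc x (zc m0), no element of ν is in Dc x (zc m0)}`; it is functional since the elements of `κ` are
ordinals (linearly ordered by `∈`: `OrdC`). -/

set_option autoImplicit false

universe u v w

namespace LRT

namespace DecZ

open ZU

variable {N : Type u} [ZM N]

/-- the recursion step -/
noncomputable def Gd (κ R1 bS R2 fS x μ f : N) : N :=
  sep κ fun n => (μ = ∅ ∧ n ∈ x) ∨
    (∃ m, op m (op μ n) ∈ R1 ∧ ∃ e, e ∈ μ ∧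
      ∀ y, op m (op n y) ∈ bS → ¬ y ∈ e → ¬ y ∈ ap f m) ∨
    (op μ n ∈ R2 ∧ ∃ e, e ∈ μ ∧
      ∀ k v, op μ (op n (op k v)) ∈ fS → ¬ k ∈ e → v ∈ ap f k)

/-- the decoded sets -/
noncomputable def Dd (κ R1 bS R2 fS x μ : N) : N :=
  Rec (fun μ f => Gd κ R1 bS R2 fS x μ f) μ

theorem df_Dd (κ R1 bS R2 fS : N) : DF fun v : ℕ → N => Dd κ R1 bS R2 fS (v 0) (v 1) := by
  unfold Dd Gd
  simp (maxDischargeDepth := 99)

theorem df_Gd (κ R1 bS R2 fS x : N) :
    DF fun v : ℕ → N => Gd κ R1 bS R2 fS x (v 0) (v 1) := by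
  unfold Gd
  simp (maxDischargeDepth := 99)

theorem df_Dd1 (κ R1 bS R2 fS x : N) : DF fun v : ℕ → N => Dd κ R1 bS R2 fS x (v 0) := by
  unfold Dd Gd
  simp (maxDischargeDepth := 99)

theorem mem_Dd {κ R1 bS R2 fS : N} (h1 : ∀ m μ n, op m (op μ n) ∈ R1 → m ∈ μ)
    (h2 : ∀ μ n k v, op μ (op n (op k v)) ∈ fS → k ∈ μ) {x μ n : N} :
    n ∈ Dd κ R1 bS R2 fS x μ ↔ n ∈ κ ∧ ((μ = ∅ ∧ n ∈ x) ∨
      (∃ m, op m (op μ n) ∈ R1 ∧ ∃ e, e ∈ μ ∧
        ∀ y, op m (op n y) ∈ bS → ¬ y ∈ e → ¬ y ∈ Dd κ R1 bS R2 fS x m) ∨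
      (op μ n ∈ R2 ∧ ∃ e, e ∈ μ ∧
        ∀ k v, op μ (op n (op k v)) ∈ fS → ¬ k ∈ e → v ∈ Dd κ R1 bS R2 fS x k)) := by
  have h : Dd κ R1 bS R2 fS x μ = Gd κ R1 bS R2 fS x μ (lam μ (Dd κ R1 bS R2 fS x)) :=
    rec_eq (df_Gd κ R1 bS R2 fS x) μ
  have ha : ∀ m, m ∈ μ → ap (lam μ (Dd κ R1 bS R2 fS x)) m = Dd κ R1 bS R2 fS x m :=
    fun m hm => ap_lam (df_Dd1 κ R1 bS R2 fS x) hm
  rw [h]
  unfold Gd
  rw [mem_sep (by simp (maxDischargeDepth := 99))]
  refine and_congr_right fun _ => or_congr_right (or_congr ?_ ?_)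
  · refine exists_congr fun m => and_congr_right fun hm => ?_
    rw [ha m (h1 _ _ _ hm)]
  · refine and_congr_right fun _ => exists_congr fun e => and_congr_right fun _ => ?_
    refine forall_congr' fun k => forall_congr' fun v => forall_congr' fun hk => ?_
    rw [ha k (h2 _ _ _ _ hk)]

/-- the set of the pairs `(x, ν)`, `ν` the least element of the decoded set of `x` at `μ` -/
noncomputable def Fd (κ R1 bS R2 fS μ : N) : N :=
  sep (prd (pw κ) κ) fun z => snd z ∈ Dd κ R1 bS R2 fS (fst z) μ ∧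
    ∀ ν, ν ∈ snd z → ¬ ν ∈ Dd κ R1 bS R2 fS (fst z) μ

theorem mem_Fd {κ R1 bS R2 fS μ x ν : N} : op x ν ∈ Fd κ R1 bS R2 fS μ ↔
    (x ⊆ κ ∧ ν ∈ κ) ∧ ν ∈ Dd κ R1 bS R2 fS x μ ∧ ∀ ν', ν' ∈ ν → ¬ ν' ∈ Dd κ R1 bS R2 fS x μ := by
  have hD : Dfn fun v : ℕ → N => snd (v 0) ∈ Dd κ R1 bS R2 fS (fst (v 0)) μ ∧
      ∀ ν, ν ∈ snd (v 0) → ¬ ν ∈ Dd κ R1 bS R2 fS (fst (v 0)) μ := by
    refine dfn_and (dfn_mem (df_snd (df_var 0))
      (df2 (df_Dd κ R1 bS R2 fS) (df_fst (df_var 0)) (df_const μ))) ?_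
    refine dfn_all (dfn_imp (dfn_mem (df_var 0) (df_snd (df_var 1))) (dfn_not (dfn_mem
      (df_var 0) ?_)))
    exact df2 (df_Dd κ R1 bS R2 fS) (df_fst (df_var 1)) (df_const μ)
  unfold Fd
  rw [mem_sep hD, op_mem_prd, mem_pw, fst_op, snd_op]

end DecZ

open WCal CPY COD

variable {M : Set ZFSet.{0}} [hM : Fact (CPY.Mod M)] {K : Type v} [WTy M K] [KTy M K]

section

variable {T : Type w} {T' : Type u} [WTy M T] [WTy M T']

private theorem dzc_mem (p : T) : zc M p ∈ M := (cd M p).2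

private theorem dzc_pair (a : T) (b : T') : zc M (a, b) = ZFSet.pair (zc M a) (zc M b) :=
  op_val (cd M a) (cd M b)

end

private theorem nx_inj (B : Bs M K) {a b : K} (ha : Lv M a) (hb : Lv M b)
    (h : nx M a = nx M b) : a = b := by
  have key : ∀ {a b : K}, Lv M b → nx M a = nx M b → ¬ a < b := by
    intro a b hb h hab
    have hb' : Cd M b := hb.resolve_left fun h0 => by
      rw [h0] at hab
      exact not_lt_bot hab
    have h1 := nx_le B hab hb'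
    rw [h] at h1
    exact absurd (lt_nx B b) (not_lt.2 h1)
  exact le_antisymm (not_lt.1 (key ha h.symm)) (not_lt.1 (key hb h))

theorem decode {N : Set ZFSet.{0}} [ZU.TM N] (hMN : M ⊆ N) (hK : OrdC M K) (B : Bs M K)
    {D : CPD M K} (P : CPP D) {m0 : K} (hm0 : Lv M m0) :
    ∃ F ∈ N, (∀ x ξ η, ZFSet.pair x ξ ∈ F → ZFSet.pair x η ∈ F → ξ = η) ∧
      ∀ A : K → K → Prop, (∀ m y, A m y → y < nx M m) →
        (∀ m, Lv M m → ∀ n, n < nx M (nx M m) →
          (A (nx M m) n ↔ ∃ e, e < nx M m ∧ ∀ y, y ∈ D.b m n True → e ≤ y → ¬ A m y)) →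
        (∀ l, LL M l → ∀ n, n < nx M l → (A l n ↔ Ev M l (D.S l) (fun k => A k (D.f l n k)))) →
        ∀ x ∈ N, (∀ z, z ∈ x ↔ ∃ n, z = zc M n ∧ A ⊥ n) →
          ∀ ν : K, A m0 ν → (∀ ν', ν' < ν → ¬ A m0 ν') → ZFSet.pair x (zc M ν) ∈ F := by
  have hB : Fact (Bs M K) := ⟨B⟩
  have hP : Fact (CPP D) := ⟨P⟩
  -- the codes as elements of `N`
  obtain ⟨c, hc⟩ : ∃ c : K → N, ∀ k, (c k).1 = zc M k := ⟨fun k => ⟨zc M k, hMN (dzc_mem k)⟩,
    fun _ => rfl⟩
  have cinj : ∀ a b : K, c a = c b ↔ a = b := fun a b => by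
    rw [Subtype.ext_iff, hc, hc, zc_inj]
  have cmem : ∀ (y : K) (z : N), z ∈ c y ↔ ∃ x, x < y ∧ z = c x := fun y z => by
    rw [ZU.mem_val, hc, hK]
    exact exists_congr fun x => and_congr_right fun _ => by rw [Subtype.ext_iff, hc]
  have cc : ∀ a b : K, c a ∈ c b ↔ a < b := fun a b => by
    rw [cmem]
    constructor
    · rintro ⟨x, hx, h⟩
      rwa [(cinj a x).1 h]
    · exact fun h => ⟨a, h, rfl⟩
  have cbot : c ⊥ = ∅ := ZU.eq_em fun z hz => by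
    obtain ⟨x, hx, -⟩ := (cmem _ _).1 hz
    exact not_lt_bot hx
  have cbot' : ∀ m : K, c m = ∅ ↔ m = ⊥ := fun m => by rw [← cbot, cinj]
  -- the parameters
  obtain ⟨κ, hκ⟩ : ∃ κ : N, ∀ z : N, z ∈ κ ↔ ∃ k, z = c k := by
    have h : IP M (fun _ : K => True) := IP.const True
    refine ⟨⟨zst M (fun _ : K => True), hMN (zst_mem h)⟩, fun z => ?_⟩
    rw [ZU.mem_val]
    change z.1 ∈ zst M (fun _ : K => True) ↔ _
    rw [mem_zst]
    exact exists_congr fun k => by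
      rw [Subtype.ext_iff, hc]
      exact ⟨fun h => h.2, fun h => ⟨trivial, h⟩⟩
  obtain ⟨R1, hR1⟩ : ∃ R : N, ∀ a b d : N, ZU.op a (ZU.op b d) ∈ R ↔ ∃ m n, a = c m ∧
      b = c (nx M m) ∧ d = c n ∧ Lv M m ∧ n < nx M (nx M m) := by
    have h : IP M (fun p : K × K × K => Lv M p.1 ∧ p.2.1 = nx M p.1 ∧ p.2.2 < nx M (nx M p.1)) := by
      simp (maxDischargeDepth := 99)
    refine ⟨⟨zst M _, hMN (zst_mem h)⟩, fun a b d => ?_⟩
    rw [ZU.mem_val, ZU.val_op, ZU.val_op]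
    change ZFSet.pair a.1 (ZFSet.pair b.1 d.1) ∈ zst M _ ↔ _
    rw [mem_zst]
    constructor
    · rintro ⟨⟨m, m', n⟩, ⟨h1, h2, h3⟩, h4⟩
      rw [dzc_pair, dzc_pair, ZFSet.pair_inj, ZFSet.pair_inj] at h4
      simp only at h1 h2 h3
      subst h2
      exact ⟨m, n, Subtype.ext (by rw [hc]; exact h4.1), Subtype.ext (by rw [hc]; exact h4.2.1),
        Subtype.ext (by rw [hc]; exact h4.2.2), h1, h3⟩
    · rintro ⟨m, n, rfl, rfl, rfl, h1, h2⟩
      exact ⟨(m, nx M m, n), ⟨h1, rfl, h2⟩, by rw [dzc_pair, dzc_pair, hc, hc, hc]⟩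
  obtain ⟨bS, hbS⟩ : ∃ R : N, ∀ a b d : N, ZU.op a (ZU.op b d) ∈ R ↔ ∃ m n y, a = c m ∧
      b = c n ∧ d = c y ∧ y ∈ D.b m n True := by
    have h : IP M (fun p : K × K × K => p.2.2 ∈ D.b p.1 p.2.1 True) := by
      simp (maxDischargeDepth := 99)
    refine ⟨⟨zst M _, hMN (zst_mem h)⟩, fun a b d => ?_⟩
    rw [ZU.mem_val, ZU.val_op, ZU.val_op]
    change ZFSet.pair a.1 (ZFSet.pair b.1 d.1) ∈ zst M _ ↔ _
    rw [mem_zst]
    constructor
    · rintro ⟨⟨m, n, y⟩, h1, h4⟩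
      rw [dzc_pair, dzc_pair, ZFSet.pair_inj, ZFSet.pair_inj] at h4
      exact ⟨m, n, y, Subtype.ext (by rw [hc]; exact h4.1),
        Subtype.ext (by rw [hc]; exact h4.2.1), Subtype.ext (by rw [hc]; exact h4.2.2), h1⟩
    · rintro ⟨m, n, y, rfl, rfl, rfl, h1⟩
      exact ⟨(m, n, y), h1, by rw [dzc_pair, dzc_pair, hc, hc, hc]⟩
  obtain ⟨R2, hR2⟩ : ∃ R : N, ∀ a b : N, ZU.op a b ∈ R ↔ ∃ l n, a = c l ∧ b = c n ∧ LL M l ∧
      n < nx M l := by
    have h : IP M (fun p : K × K => LL M p.1 ∧ p.2 < nx M p.1) := by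
      simp (maxDischargeDepth := 99)
    refine ⟨⟨zst M _, hMN (zst_mem h)⟩, fun a b => ?_⟩
    rw [ZU.mem_val, ZU.val_op]
    change ZFSet.pair a.1 b.1 ∈ zst M _ ↔ _
    rw [mem_zst]
    constructor
    · rintro ⟨⟨l, n⟩, ⟨h1, h2⟩, h4⟩
      rw [dzc_pair, ZFSet.pair_inj] at h4
      exact ⟨l, n, Subtype.ext (by rw [hc]; exact h4.1), Subtype.ext (by rw [hc]; exact h4.2),
        h1, h2⟩
    · rintro ⟨l, n, rfl, rfl, h1, h2⟩
      exact ⟨(l, n), ⟨h1, h2⟩, by rw [dzc_pair, hc, hc]⟩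
  obtain ⟨fS, hfS⟩ : ∃ R : N, ∀ a b d e : N, ZU.op a (ZU.op b (ZU.op d e)) ∈ R ↔ ∃ l n k,
      a = c l ∧ b = c n ∧ d = c k ∧ e = c (D.f l n k) ∧ k ∈ D.S l ∧ k < l := by
    have h : IP M (fun p : K × K × K × K => p.2.2.2 = D.f p.1 p.2.1 p.2.2.1 ∧
        p.2.2.1 ∈ D.S p.1 ∧ p.2.2.1 < p.1) := by
      simp (maxDischargeDepth := 99)
    refine ⟨⟨zst M _, hMN (zst_mem h)⟩, fun a b d e => ?_⟩
    rw [ZU.mem_val, ZU.val_op, ZU.val_op, ZU.val_op]
    change ZFSet.pair a.1 (ZFSet.pair b.1 (ZFSet.pair d.1 e.1)) ∈ zst M _ ↔ _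
    rw [mem_zst]
    constructor
    · rintro ⟨⟨l, n, k, v⟩, ⟨h1, h2, h3⟩, h4⟩
      rw [dzc_pair, dzc_pair, dzc_pair, ZFSet.pair_inj, ZFSet.pair_inj, ZFSet.pair_inj] at h4
      simp only at h1 h2 h3
      subst h1
      exact ⟨l, n, k, Subtype.ext (by rw [hc]; exact h4.1), Subtype.ext (by rw [hc]; exact h4.2.1),
        Subtype.ext (by rw [hc]; exact h4.2.2.1), Subtype.ext (by rw [hc]; exact h4.2.2.2), h2, h3⟩
    · rintro ⟨l, n, k, rfl, rfl, rfl, rfl, h1, h2⟩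
      exact ⟨(l, n, k, D.f l n k), ⟨rfl, h1, h2⟩,
        by rw [dzc_pair, dzc_pair, dzc_pair, hc, hc, hc, hc]⟩
  -- the function
  refine ⟨(DecZ.Fd κ R1 bS R2 fS (c m0)).1, (DecZ.Fd κ R1 bS R2 fS (c m0)).2, ?_, ?_⟩
  · intro x ξ η h1 h2
    obtain ⟨x1, ξ1, rfl, rfl, k1⟩ := ZU.pair_mem_val.1 h1
    obtain ⟨x2, η1, hx, rfl, k2⟩ := ZU.pair_mem_val.1 h2
    obtain rfl : x2 = x1 := Subtype.ext hx
    rw [DecZ.mem_Fd] at k1 k2
    obtain ⟨⟨-, a1⟩, a2, a3⟩ := k1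
    obtain ⟨⟨-, b1⟩, b2, b3⟩ := k2
    obtain ⟨i, rfl⟩ := (hκ _).1 a1
    obtain ⟨j, rfl⟩ := (hκ _).1 b1
    rcases lt_trichotomy i j with h | h | h
    · exact absurd a2 (b3 _ ((cc _ _).2 h))
    · rw [h]
    · exact absurd b2 (a3 _ ((cc _ _).2 h))
  · intro A hA hA1 hA2 x hx hx0 ν hν hν'
    have g1 : ∀ m μ n : N, ZU.op m (ZU.op μ n) ∈ R1 → m ∈ μ := by
      intro m μ n h
      obtain ⟨m, n, rfl, rfl, -, -⟩ := (hR1 _ _ _).1 h
      exact (cc _ _).2 (lt_nx B m)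
    have g2 : ∀ μ n k v : N, ZU.op μ (ZU.op n (ZU.op k v)) ∈ fS → k ∈ μ := by
      intro μ n k v h
      obtain ⟨l, n, k, rfl, -, rfl, -, -, h1⟩ := (hfS _ _ _ _).1 h
      exact (cc _ _).2 h1
    have key : ∀ m : K, Lv M m → ∀ n : K,
        c n ∈ DecZ.Dd κ R1 bS R2 fS ⟨x, hx⟩ (c m) ↔ A m n := by
      intro m
      induction m using (wellFounded_lt (α := K)).induction with
      | _ m ih =>
        intro hm n
        rw [DecZ.mem_Dd g1 g2]
        have hnκ : c n ∈ κ := (hκ _).2 ⟨n, rfl⟩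
        rcases lv_cases hm with hm' | hm'
        · rcases hm' with rfl | ⟨m', hm', rfl⟩
          · -- `⊥`
            constructor
            · rintro ⟨-, h | ⟨a, h, -⟩ | ⟨h, -⟩⟩
              · have h1 : (c n).1 ∈ x := h.2
                rw [hc, hx0] at h1
                obtain ⟨n', h1, h2⟩ := h1
                rwa [zc_inj.1 h1]
              · obtain ⟨m', n', -, h1, -⟩ := (hR1 _ _ _).1 h
                have h2 := lt_nx B m'
                rw [← (cinj _ _).1 h1] at h2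
                exact absurd h2 not_lt_bot
              · obtain ⟨l, n', h1, -, h2, -⟩ := (hR2 _ _).1 h
                rw [← (cinj _ _).1 h1] at h2
                exact absurd rfl (cd_ne h2.1)
            · intro h
              refine ⟨hnκ, Or.inl ⟨cbot, ?_⟩⟩
              change (c n).1 ∈ x
              rw [hc, hx0]
              exact ⟨n, rfl, h⟩
          · -- successor levels
            have hlt : m' < nx M m' := lt_nx B m'
            constructor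
            · rintro ⟨-, h | ⟨a, h, e, he, h1⟩ | ⟨h, -⟩⟩
              · rw [cbot'] at h
                exact absurd h.1 (cd_ne (cd_nx B m'))
              · obtain ⟨m1, n1, rfl, h2, h3, h4, h5⟩ := (hR1 _ _ _).1 h
                obtain rfl := nx_inj B hm' h4 ((cinj _ _).1 h2)
                obtain rfl := (cinj _ _).1 h3
                obtain ⟨e, he', rfl⟩ := (cmem _ _).1 he
                rw [hA1 m' hm' n h5]
                refine ⟨e, he', fun y hy hey hAy => ?_⟩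
                refine h1 (c y) ((hbS _ _ _).2 ⟨m', n, y, rfl, rfl, rfl, hy⟩)
                  (fun h6 => absurd ((cc _ _).1 h6) (not_lt.2 hey)) ?_
                exact (ih m' hlt hm' y).2 hAy
              · obtain ⟨l, n', h1, -, h2, -⟩ := (hR2 _ _).1 h
                rw [← (cinj _ _).1 h1] at h2
                exact absurd rfl (h2.2 m' hm')
            · intro h
              have h5 := hA _ _ h
              obtain ⟨e, he, h1⟩ := (hA1 m' hm' n h5).1 h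
              refine ⟨hnκ, Or.inr (Or.inl ⟨c m', (hR1 _ _ _).2 ⟨m', n, rfl, rfl, rfl, hm', h5⟩,
                c e, (cc _ _).2 he, fun y hy hye => ?_⟩)⟩
              obtain ⟨m1, n1, y, h2, h3, rfl, h4⟩ := (hbS _ _ _).1 hy
              obtain rfl := (cinj _ _).1 h2
              obtain rfl := (cinj _ _).1 h3
              rw [ih m' hlt hm' y]
              exact h1 y h4 (not_lt.1 fun h6 => hye ((cc _ _).2 h6))
        · -- limit levels
          constructor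
          · rintro ⟨-, h | ⟨a, h, -⟩ | ⟨h, e, he, h1⟩⟩
            · rw [cbot'] at h
              exact absurd h.1 (cd_ne hm'.1)
            · obtain ⟨m1, n1, rfl, h2, h3, h4, h5⟩ := (hR1 _ _ _).1 h
              exact absurd ((cinj _ _).1 h2) (hm'.2 m1 h4)
            · obtain ⟨l, n', h2, h3, -, h4⟩ := (hR2 _ _).1 h
              obtain rfl := (cinj _ _).1 h2
              obtain rfl := (cinj _ _).1 h3
              obtain ⟨e, he', rfl⟩ := (cmem _ _).1 he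
              rw [hA2 m hm' n h4]
              refine ⟨e, he', fun k hk hek hkm => ?_⟩
              change A k (D.f m n k)
              rw [← ih k hkm (nl_lv B (P.S_lt m hm' k hk).2.1)]
              exact h1 (c k) (c (D.f m n k)) ((hfS _ _ _ _).2 ⟨m, n, k, rfl, rfl, rfl, rfl, hk,
                hkm⟩) (fun h6 => absurd ((cc _ _).1 h6) (not_lt.2 hek))
          · intro h
            have h5 := hA _ _ h
            obtain ⟨e, he, h1⟩ := (hA2 m hm' n h5).1 h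
            refine ⟨hnκ, Or.inr (Or.inr ⟨(hR2 _ _).2 ⟨m, n, rfl, rfl, hm', h5⟩, c e,
              (cc _ _).2 he, fun k v hkv hke => ?_⟩)⟩
            obtain ⟨l, n1, k, h2, h3, rfl, rfl, h4, h6⟩ := (hfS _ _ _ _).1 hkv
            obtain rfl := (cinj _ _).1 h2
            obtain rfl := (cinj _ _).1 h3
            rw [ih k h6 (nl_lv B (P.S_lt m hm' k h4).2.1)]
            exact h1 k h4 (not_lt.1 fun h7 => hke ((cc _ _).2 h7)) h6
    refine ZU.pair_mem_val.2 ⟨⟨x, hx⟩, c ν, rfl, hc ν, ?_⟩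
    rw [DecZ.mem_Fd]
    refine ⟨⟨fun z hz => ?_, (hκ _).2 ⟨ν, rfl⟩⟩, (key m0 hm0 ν).2 hν, fun z hz => ?_⟩
    · obtain ⟨n, hn, -⟩ := (hx0 z.1).1 hz
      exact (hκ _).2 ⟨n, Subtype.ext (by rw [hc]; exact hn)⟩
    · obtain ⟨ν', h1, rfl⟩ := (cmem _ _).1 hz
      rw [key m0 hm0]
      exact hν' ν' h1

end LRT
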