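import Pool.Agent.LRM.TyD

/-! # LRM: the ordinal `κ` and the chain condition

(problem MP_328cd5_lc; L(R) side, bridge; helper69; package TyK, 1.5 h; other files are black boxes)

`M` is a transitive model; `rg M K : M` is the set of the codes `zc M x` of the elements of `K`, `OrdC`: `zc M y = {zc M x | x < y}`. Use the library ZU (class calculus inside the type `↥M`, instance from `hM.out.tm`: `have tM : TM M := hM.out.tm`) only through the definitions of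
`RegK`, `CcK` (LRM/Cc.lean), `IsF`, `ap`, `rg`, `op` (comparison lemmas in CPY/B/Mz.lean: `mop_mem`, `val_ext`, ...), and TyA.lean for typed objects. PROOFS.
`regK_of`: `κ = rg M K`. Elements of `κ` are exactly the `cd x`, `x : K` (`WCal.E_rg`); elements of `cd y` are the `cd x`, `x < y` (`hK`). `ord`: transitive with transitive elements. `zero`: `cd ⊥` has no elements. `sc`: for `e = cd x` let `y` be the least element above `x` (exists: `B.unb`): `sc e = cd y`. `reg`: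
`e = cd b`; `f` a function of the model on `cd b` with values in `κ`: the native function `F x :=` the `y` with `ap f (cd x) = cd y` for `x < b`, `⊥` otherwise is internal (`IF`: its graph is `{(x, y) | (x < b ∧ op (cd x) (cd y) ∈ f) ∨ (¬ x < b ∧ y = ⊥)}`; `IP` of `op (cd x) (cd y) ∈ f`: `IP` of pairs is membership of
the code `cd (x, y) = op (cd x) (cd y)` in an element of `M`, here `f` itself); `B.reg b F` gives the bound.
`ccK_of`: let `A : M` be an antichain of codes. `A' := {p : PQ M K | cd p ∈ A}` is internal (`IP` is membership in an element of `M`); its elements are valid (`A ⊆ P`, `mem_zst`, `VI_top`), and two different elements are not compatible (`Cpt` gives `r` valid, `VI_top`, `le_iff`). `h A'` gives `c` and an internal `f : K → PQ M K`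
covering `A'` on `Iio c`. Take `e = cd c` and `g` the set of the pairs `op (cd x) (cd (f x))`, `x < c` (`zst` for the type `K × PQ M K` and the predicate `z.1 < c ∧ z.2 = f z.1`). -/

set_option autoImplicit false

universe u v w

namespace LRT

open WCal CPY COD

variable {M : Set ZFSet.{0}} [hM : Fact (CPY.Mod M)] {K : Type v} [WTy M K] [KTy M K]

/-- the two ordered pairs agree -/
private theorem zop_eq (x y : M) : @ZU.op M (@ZU.instZM M hM.out.tm) x y = WCal.op x y := by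
  have tM := hM.out.tm
  apply Subtype.ext
  rw [WCal.op_val, mop_val]

private theorem mem_kap (z : M) : z.1 ∈ (rg M K).1 ↔ ∃ x : K, cd M x = z := by
  rw [← WCal.E_rg (N := M) (α := K) (x := z)]
  exact Iff.rfl

private theorem mem_cd (hK : OrdC M K) (y : K) (z : M) : z.1 ∈ (cd M y : M).1 ↔ ∃ x, x < y ∧ cd M x = z := by
  have h := hK y z.1
  constructor
  · intro hz
    obtain ⟨x, hx, h1⟩ := h.1 hz
    exact ⟨x, hx, Subtype.ext h1.symm⟩
  · rintro ⟨x, hx, rfl⟩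
    exact h.2 ⟨x, hx, rfl⟩

theorem regK_of (B : Bs M K) (hK : OrdC M K) :
    @RegK M (@ZU.instZM M hM.out.tm) (rg M K) := by
  have tM := hM.out.tm
  have e1 : ∀ z : M, z ∈ (rg M K : M) ↔ ∃ x : K, cd M x = z := mem_kap
  have e2 : ∀ (y : K) (z : M), z ∈ (cd M y : M) ↔ ∃ x, x < y ∧ cd M x = z := mem_cd hK
  refine ⟨⟨?_, ?_⟩, ?_, ?_, ?_⟩
  · intro y hy z hz
    obtain ⟨x, rfl⟩ := (e1 y).1 hy
    obtain ⟨x', -, rfl⟩ := (e2 x z).1 hz
    exact (e1 _).2 ⟨x', rfl⟩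
  · intro y hy z hz w hw
    obtain ⟨x, rfl⟩ := (e1 y).1 hy
    obtain ⟨x', hx', rfl⟩ := (e2 x z).1 hz
    obtain ⟨x'', hx'', rfl⟩ := (e2 x' w).1 hw
    exact (e2 x _).2 ⟨x'', hx''.trans hx', rfl⟩
  · refine (e1 _).2 ⟨⊥, ZU.ext fun z => ?_⟩
    constructor
    · intro hz
      obtain ⟨x, hx, -⟩ := (e2 ⊥ z).1 hz
      exact absurd hx not_lt_bot
    · intro hz
      exact absurd hz (ZU.not_mem_em z)
  · intro e he
    obtain ⟨x, rfl⟩ := (e1 e).1 he
    obtain ⟨y, hy, -⟩ := B.unb x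
    have hne : {y | x < y}.Nonempty := ⟨y, hy⟩
    have h1 := (wellFounded_lt (α := K)).min_mem _ hne
    refine (e1 _).2 ⟨(wellFounded_lt (α := K)).min _ hne, ZU.ext fun z => ?_⟩
    rw [e2, ZU.mem_sc, e2]
    constructor
    · rintro ⟨w, hw, rfl⟩
      rcases lt_trichotomy w x with h2 | h2 | h2
      · exact Or.inl ⟨w, h2, rfl⟩
      · exact Or.inr (by rw [h2])
      · exact absurd hw ((wellFounded_lt (α := K)).not_lt_min _ (Set.mem_ofPred.2 h2))
    · rintro (⟨w, hw, rfl⟩ | rfl)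
      · exact ⟨w, hw.trans h1, rfl⟩
      · exact ⟨x, h1, rfl⟩
  · intro e he f hf hv
    obtain ⟨b, rfl⟩ := (e1 e).1 he
    have hval : ∀ x : K, x < b → ∃ y : K, cd M y = ZU.ap f (cd M x) := fun x hx =>
      (e1 _).1 (hv _ ((e2 b _).2 ⟨x, hx, rfl⟩))
    have hIP : IP M (fun z : K × K => WM.E (WCal.op (cd M z.1) (cd M z.2)) f) := ⟨f, fun _ => Iff.rfl⟩
    have hop : ∀ x y : K, x < b → (WM.E (WCal.op (cd M x) (cd M y)) f ↔ cd M y = ZU.ap f (cd M x)) := by
      intro x y hx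
      have h1 : ZU.op (cd M x : M) (cd M y) ∈ f ↔ _ := hf.op_mem
      rw [zop_eq] at h1
      have h2 : WM.E (WCal.op (cd M x : M) (cd M y)) f ↔ (cd M x : M) ∈ (cd M b : M) ∧ cd M y = ZU.ap f (cd M x) := h1
      rw [h2]
      exact ⟨fun h => h.2, fun h => ⟨(e2 b _).2 ⟨x, hx, rfl⟩, h⟩⟩
    obtain ⟨F, hF, hF'⟩ := WCal.choice' (N := M) (P := fun x y : K => WM.E (WCal.op (cd M x) (cd M y)) f) hIP (⊥ : K)
    obtain ⟨c, hc⟩ := B.reg b ⟨F, hF⟩
    refine ⟨cd M c, (e1 _).2 ⟨c, rfl⟩, fun x hx => ?_⟩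
    obtain ⟨x, hx', rfl⟩ := (e2 b x).1 hx
    obtain ⟨y, hy⟩ := hval x hx'
    have h3 := hF' x ⟨y, (hop x y hx').2 hy⟩
    have h4 := (hop x _ hx').1 h3
    rw [← h4]
    exact (e2 c _).2 ⟨F x, hc x hx', rfl⟩

/-- the typed `κ`-chain condition gives the chain condition -/
theorem ccK_of {D : CPD M K} (B : Bs M K) (P : CPP D) (hK : OrdC M K)
    (h : ∀ A : St M (PQ M K), (∀ p, p ∈ A → VQ D p) → (∀ p q, p ∈ A → q ∈ A → p ≠ q → ¬ Cpt D p q) →
      ∃ c : K, Cov M c (fun p : PQ M K => p ∈ A)) :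
    @CcK M (QA D) hM.out.tm (QP_isPo B P (allK M K)) (rg M K) := by
  have tM := hM.out.tm
  have e1 : ∀ z : M, z ∈ (rg M K : M) ↔ ∃ x : K, cd M x = z := mem_kap
  have e2 : ∀ (y : K) (z : M), z ∈ (cd M y : M) ↔ ∃ x, x < y ∧ cd M x = z := mem_cd hK
  intro A hA hanti
  have hpo : IsPo M (QA D) := QP_isPo B P (allK M K)
  -- elements of A are codes of valid families
  have hval : ∀ z : M, z ∈ A → ∃ p : PQ M K, VQ D p ∧ cd M p = z := by
    intro z hz
    have h1 : z.1 ∈ zst M (VI D (allK M K)) := hA z hz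
    obtain ⟨p, hp, h2⟩ := mem_zst.1 h1
    exact ⟨p, hp.1, Subtype.ext h2.symm⟩
  have hcdP : ∀ p : PQ M K, cd M p ∈ A → VQ D p := by
    intro p hp
    obtain ⟨q, hq, h1⟩ := hval _ hp
    rw [← WCal.cd_inj.1 h1]
    exact hq
  obtain ⟨c, f, hf, hcov⟩ := h ⟨{p | WM.E (cd M p) A}, A, fun _ => Iff.rfl⟩ (fun p hp => hcdP p hp) (by
    rintro p q hp hq hne ⟨r, hr, h1, h2⟩
    have hall : ∀ q : PQ M K, VQ D q → VI D (allK M K) q := fun q hq => ⟨hq, fun x hx => absurd trivial hx⟩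
    refine hanti (cd M p) (cd M q) hp hq (fun he => hne (WCal.cd_inj.1 he)) ⟨cd M r, ?_, ?_⟩
    · exact hpo.leM.2 (le_iff.2 ⟨hall r hr, hall p (hcdP p hp), h1⟩)
    · exact hpo.leM.2 (le_iff.2 ⟨hall r hr, hall q (hcdP q hq), h2⟩))
  -- the function of the model
  have hgi : IP M (fun z : K × PQ M K => z.1 < c ∧ z.2 = f z.1) :=
    IP.and (ip_ltK IF.fst (IF.const c)) (IP.eq IF.snd (hf.comp IF.fst))
  obtain ⟨g, hg⟩ := WCal.exists_sub M _ hgi
  have hg' : ∀ z : M, z ∈ g ↔ ∃ x, x < c ∧ z = ZU.op (cd M x) (cd M (f x)) := by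
    intro z
    have h1 := hg z
    constructor
    · intro hz
      obtain ⟨⟨x, p⟩, ⟨hx, hp⟩, rfl⟩ := h1.1 hz
      refine ⟨x, hx, ?_⟩
      rw [zop_eq]
      have hp' : p = f x := hp
      rw [hp']
      rfl
    · rintro ⟨x, hx, rfl⟩
      refine h1.2 ⟨(x, f x), ⟨hx, rfl⟩, ?_⟩
      rw [zop_eq]
      rfl
  have hgop : ∀ x y : M, ZU.op x y ∈ g ↔ ∃ a, a < c ∧ x = cd M a ∧ y = cd M (f a) := by
    intro x y
    rw [hg']
    constructor
    · rintro ⟨a, ha, h1⟩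
      obtain ⟨h2, h3⟩ := ZU.op_inj.1 h1
      exact ⟨a, ha, h2, h3⟩
    · rintro ⟨a, ha, rfl, rfl⟩
      exact ⟨a, ha, rfl⟩
  have hgF : ZU.IsF g (cd M c : M) := by
    rw [ZU.isF_iff]
    refine ⟨fun p hp => ?_, fun x hx => ?_, fun x y z hy hz => ?_⟩
    · obtain ⟨a, ha, rfl⟩ := (hg' p).1 hp
      exact ⟨cd M a, cd M (f a), (e2 c _).2 ⟨a, ha, rfl⟩, ZU.isOP_iff.2 rfl⟩
    · obtain ⟨a, ha, rfl⟩ := (e2 c x).1 hx
      exact ⟨cd M (f a), ZU.val_iff.2 ((hgop _ _).2 ⟨a, ha, rfl, rfl⟩)⟩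
    · obtain ⟨a, ha, rfl, rfl⟩ := (hgop _ _).1 (ZU.val_iff.1 hy)
      obtain ⟨b, hb, h1, rfl⟩ := (hgop _ _).1 (ZU.val_iff.1 hz)
      rw [WCal.cd_inj.1 h1]
  refine ⟨cd M c, g, (e1 _).2 ⟨c, rfl⟩, hgF, fun z hz => ?_⟩
  obtain ⟨p, -, rfl⟩ := hval z hz
  obtain ⟨x, hx, h1⟩ := hcov p hz
  rw [ZU.mem_rg]
  exact ⟨cd M x, (hgop _ _).2 ⟨x, hx, rfl, by rw [h1]⟩⟩

end LRT
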