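import Pool.Agent.LRM.TyS
import Pool.Agent.LRM.TyK

/-! # LRM: the coding poset is a symmetric system of subforcings

(problem MP_328cd5_lc; L(R) side, bridge; architect helper16, proofs helper69) -/

set_option autoImplicit false

universe u v w

namespace LRT

open WCal CPY COD

variable {M : Set ZFSet.{0}} [hM : Fact (CPY.Mod M)] {K : Type v} [WTy M K] [KTy M K]

section

variable {D : CPD M K}

theorem glu_one_mem {a : St M K} {p : PQ M K} {x : K} (h : x ∈ a) : glu a p oneQ x = p x := glu_mem _ _ h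

theorem glu_one_not {a : St M K} {p : PQ M K} {x : K} (h : x ∉ a) : glu a p oneQ x = COD.one := glu_not _ _ h

theorem one_glu_mem {a : St M K} {p : PQ M K} {x : K} (h : x ∈ a) : glu a oneQ p x = COD.one := glu_mem _ _ h

theorem one_glu_not {a : St M K} {p : PQ M K} {x : K} (h : x ∉ a) : glu a oneQ p x = p x := glu_not _ _ h

theorem fn_ext {p q : PQ M K} (h : ∀ x, p x = q x) : p = q := Fn.ext (funext h)

theorem VI.all {I : St M K} {p : PQ M K} (h : VI D I p) : VI D (allK M K) p := ⟨h.1, fun x hx => absurd trivial hx⟩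

theorem iso_split (B : Bs M K) (P : CPP D) (a : St M K) : IsIso M (QA D) (prodPo (QP D a) (QP D (cpl a)))
    fun z => ZFSet.pair (zmap M (fun q => glu a q oneQ) z) (zmap M (fun q => glu a oneQ q) z) := by
  refine isIso_prod (isT_VI B P a) (isT_VI B P (cpl a)) (isT_VI B P (allK M K))
    (if_glu (IF.const a) IF.id (IF.const oneQ)) (if_glu (IF.const a) (IF.const oneQ) IF.id) ?_ ?_ ?_
  · intro p hp
    refine ⟨VQ.res B a hp.1, VQ.glu (oneQ_val B) hp.1, fun x hx => ?_⟩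
    have hx' : x ∈ a := by
      by_contra h
      exact hx h
    exact one_glu_mem hx'
  · intro q q' hq hq'
    refine ⟨glu a q q', ⟨VQ.glu hq.1 hq'.1, fun x hx => absurd trivial hx⟩, fn_ext fun x => ?_, fn_ext fun x => ?_⟩
    · by_cases hx : x ∈ a
      · rw [glu_one_mem hx, glu_mem _ _ hx]
      · rw [glu_one_not hx, hq.2 x hx]
    · by_cases hx : x ∈ a
      · rw [one_glu_mem hx, hq'.2 x (fun h => h hx)]
      · rw [one_glu_not hx, glu_not _ _ hx]
  · intro p q hp hq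
    constructor
    · rintro ⟨h1, h2⟩ x
      by_cases hx : x ∈ a
      · have h3 := h1 x
        rwa [glu_one_mem hx, glu_one_mem hx] at h3
      · have h3 := h2 x
        rwa [one_glu_not hx, one_glu_not hx] at h3
    · intro h
      exact ⟨LeQ.glu h (LeQ.refl _), LeQ.glu (LeQ.refl _) h⟩

theorem VI_prm {a b : St M K} {π ρ : Fn M K K} (h1 : ∀ x, ρ (π x) = x) (h2 : ∀ x, π (ρ x) = x)
    (h : ∀ x, x ∉ b → π x ∉ a) {q : PQ M K} (hq : VI D a q) : VI D b (prm π q) :=
  ⟨VQ.prm h1 h2 hq.1, fun x hx => hq.2 (π x) (h x hx)⟩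

theorem iso_prm (B : Bs M K) (P : CPP D) {a b : St M K} {π ρ : Fn M K K} (h1 : ∀ x, ρ (π x) = x)
    (h2 : ∀ x, π (ρ x) = x) (h : ∀ x, x ∈ b ↔ π x ∈ a) : IsIso M (QP D a) (QP D b) (zmap M (prm π)) := by
  refine isIso_of (isT_VI B P a) (isT_VI B P b) (if_prm (IF.const π) IF.id) ?_ ?_ ?_
  · exact fun p hp => VI_prm h1 h2 (fun x hx hx' => hx ((h x).2 hx')) hp
  · intro q hq
    refine ⟨prm ρ q, VI_prm h2 h1 (fun x hx hx' => hx ?_) hq, prm_prm h1 q⟩
    have := (h (ρ x)).1 hx'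
    rwa [h2] at this
  · intro p q hp hq
    constructor
    · intro h3
      have h4 := LeQ.prm (π := ρ) h3
      rwa [prm_prm h2, prm_prm h2] at h4
    · exact fun h3 => LeQ.prm h3

theorem hmg_QP (B : Bs M K) (P : CPP D) {a : St M K} (ha : Cnt a) : Hmg M (QP D (cpl a)) := by
  intro z hz w hw
  obtain ⟨p, hp, rfl⟩ := exists_of_P hz
  obtain ⟨q, hq, rfl⟩ := exists_of_P hw
  obtain ⟨S, hS, hS'⟩ := VQ.supp hp.1
  obtain ⟨T, hT, hT'⟩ := VQ.supp hq.1
  obtain ⟨π, h1, h2, h3⟩ := exists_swap B ha hS hT (fun x hx hxa => (hS' x).1 hx (hp.2 x (fun h => h hxa)))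
  have ha' : ∀ x, x ∈ cpl a ↔ π x ∈ cpl a := by
    have h4 : ∀ x, x ∈ cpl a → π x ∈ cpl a := by
      intro x hx hx'
      have h5 := h2 _ hx'
      rw [h1] at h5
      rw [← h5] at hx'
      exact hx hx'
    intro x
    refine ⟨h4 x, fun h => ?_⟩
    have h5 := h4 _ h
    rwa [h1] at h5
  refine ⟨zmap M (prm π), iso_prm B P h1 h1 ha', zc M (glu T q (prm π p)), ?_, ?_⟩
  · rw [zmap_zc]
    refine le_iff.2 ⟨?_, ?_, ?_⟩
    · refine ⟨VQ.glu hq.1 (VQ.prm h1 h1 hp.1), fun x hx => ?_⟩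
      by_cases hxT : x ∈ T
      · rw [glu_mem _ _ hxT]
        exact hq.2 x hx
      · rw [glu_not _ _ hxT]
        exact hp.2 (π x) fun h => hx ((ha' x).2 h)
    · exact VI_prm h1 h1 (fun x hx h => hx ((ha' x).2 h)) hp
    · refine LeQ.glu_right fun x hx => ?_
      by_contra h4
      have h5 : π x ∈ S := (hS' _).2 h4
      have h6 := h3 _ h5
      rw [h1] at h6
      exact h6 hx
  · refine le_iff.2 ⟨?_, hq, ?_⟩
    · refine ⟨VQ.glu hq.1 (VQ.prm h1 h1 hp.1), fun x hx => ?_⟩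
      by_cases hxT : x ∈ T
      · rw [glu_mem _ _ hxT]
        exact hq.2 x hx
      · rw [glu_not _ _ hxT]
        exact hp.2 (π x) fun h => hx ((ha' x).2 h)
    · refine LeQ.glu_left fun x hx => ?_
      by_contra h4
      exact hx ((hT' x).2 h4)

theorem zmap_glu {a : St M K} (p : PQ M K) : zmap M (fun q => glu a q oneQ) (zc M p) = zc M (glu a p oneQ) :=
  zmap_zc _ p

/-- **the coding poset is a symmetric system** -/
theorem isSys_sdD (B : Bs M K) (P : CPP D) : IsSys M (QA D) (sdD D) where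
  poR := fun a => QP_isPo B P a.1
  poC := fun a => QP_isPo B P (cpl a.1)
  iso := fun a => iso_split B P a.1
  hmg := fun a => hmg_QP B P a.2
  dir := by
    rintro ⟨e, he⟩ ⟨b, hb⟩
    have heb : Cnt (⟨{x | x ∈ e ∨ x ∈ b}, IP.or (IP.mem IF.id (IF.const e)) (IP.mem IF.id (IF.const b))⟩ : St M K) :=
      Cnt.union he hb fun x hx => hx
    obtain ⟨Z, hZ, hZi, hZd⟩ := exists_room B heb
    have hU : IP M (fun x => (x ∈ e ∨ x ∈ b) ∨ x ∈ Z) :=
      IP.or (IP.or (IP.mem IF.id (IF.const e)) (IP.mem IF.id (IF.const b))) (IP.mem IF.id (IF.const Z))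
    refine ⟨⟨⟨{x | (x ∈ e ∨ x ∈ b) ∨ x ∈ Z}, hU⟩, Cnt.union heb hZ fun x hx => hx⟩,
      ⟨fun x hx => Or.inl (Or.inl hx), hZi.mono fun x hx => ⟨Or.inr hx, fun h => hZd x hx (Or.inl h)⟩⟩,
      zmap M (fun q => glu b q oneQ), grM_of (if_glu (IF.const b) IF.id (IF.const oneQ))
        (isT_VI B P _).iV, fun z hz => ?_⟩
    obtain ⟨p, hp, rfl⟩ := exists_of_P hz
    show zmap M (fun q => glu b q oneQ) (zc M p) = zmap M (fun q => glu b q oneQ) (zmap M (fun q => glu _ q oneQ) (zc M p))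
    rw [zmap_glu, zmap_glu, zmap_glu]
    refine congrArg (zc M) (fn_ext fun x => ?_)
    by_cases hx : x ∈ b
    · rw [glu_one_mem hx, glu_one_mem hx, glu_one_mem (show x ∈ (⟨{x | (x ∈ e ∨ x ∈ b) ∨ x ∈ Z}, hU⟩ : St M K) from
        Or.inl (Or.inr hx))]
    · rw [glu_one_not hx, glu_one_not hx]
  sym := by
    rintro ⟨e, he⟩ ⟨a, ha⟩ ⟨a', ha'⟩ ⟨h1, h2⟩ ⟨h1', h2'⟩
    obtain ⟨π, ρ, h3, h4, h5, h6⟩ := exists_conj B ha ha' h1 h1' h2 h2'
    have h5' : ∀ x, x ∈ e → ρ x = x := fun x hx => by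
      have := h4 x
      rwa [h5 x hx] at this
    have h6' : ∀ x, x ∈ a' ↔ ρ x ∈ a := fun x => by
      have := h6 (ρ x)
      rwa [h3] at this
    refine ⟨zmap M (prm ρ), zmap M (prm ρ), iso_prm B P h3 h4 (fun x => ⟨fun _ => trivial, fun _ => trivial⟩),
      iso_prm B P h3 h4 h6', fun z hz => ?_, fun z hz => ?_⟩
    · obtain ⟨p, hp, rfl⟩ := exists_of_P hz
      show zmap M (fun q => glu e q oneQ) (zmap M (prm ρ) (zc M p)) = zmap M (fun q => glu e q oneQ) (zc M p)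
      rw [zmap_zc, zmap_glu, zmap_glu]
      refine congrArg (zc M) (fn_ext fun x => ?_)
      by_cases hx : x ∈ e
      · rw [glu_one_mem hx, glu_one_mem hx]
        show p (ρ x) = p x
        rw [h5' x hx]
      · rw [glu_one_not hx, glu_one_not hx]
    · obtain ⟨p, hp, rfl⟩ := exists_of_P hz
      show zmap M (fun q => glu a' q oneQ) (zmap M (prm ρ) (zc M p)) =
        zmap M (prm ρ) (zmap M (fun q => glu a q oneQ) (zc M p))
      rw [zmap_zc, zmap_glu, zmap_glu, zmap_zc]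
      refine congrArg (zc M) (fn_ext fun x => ?_)
      by_cases hx : x ∈ a'
      · rw [glu_one_mem hx]
        show p (ρ x) = glu a p oneQ (ρ x)
        rw [glu_one_mem ((h6' x).1 hx)]
      · rw [glu_one_not hx]
        show COD.one = glu a p oneQ (ρ x)
        rw [glu_one_not fun h => hx ((h6' x).2 h)]

end

end LRT
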