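import Pool.Agent.LRM.PN
import Pool.Agent.LRM.TyB
import Pool.Agent.COD.FLe

/-! # LRM: the power sets of ordinals below `κ` in the submodels are small (P4)

(problem MP_328cd5_lc; L(R) side, bridge; helper69; no sorry in this file) -/

set_option autoImplicit false

universe u v w

namespace LRT

open WCal CPY COD ZU

variable {M : Set ZFSet.{0}} [hM : Fact (CPY.Mod M)] {K : Type v} [WTy M K] [KTy M K] {D : CPD M K}

theorem mem_kap {z : ZFSet.{0}} : z ∈ (WCal.rg M K).1 ↔ ∃ x : K, z = zc M x := by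
  constructor
  · intro hz
    obtain ⟨x, hx⟩ := (E_rg (N := M) (x := ⟨z, hM.out.trans _ (WCal.rg M K).2 z hz⟩)).1 hz
    exact ⟨x, (congrArg Subtype.val hx).symm⟩
  · rintro ⟨x, rfl⟩
    exact (cd_mem x : WM.E (cd M x) (WCal.rg M K))

/-- every element of `K` is below a nonlimit level -/
theorem exists_nl (B : Bs M K) (y : K) : ∃ m0 : K, NL M m0 ∧ m0 ≠ ⊥ ∧ y < m0 := by
  obtain ⟨b, -, hb, h⟩ := exists_lv B y
  refine ⟨nx M y, ?_, cd_ne (cd_nx B y), lt_nx B y⟩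
  rw [← h]
  exact nl_nx hb

/-- **(P4)** -/
theorem pwIn (B : Bs M K) (P : CPP D) (hA : ACL D (PQ M K × PQ M K)) (hK : OrdC M K) {G : Set ZFSet.{0}}
    (hG : Gen M (QA D) G) : PwIn M (sdD D) G (WCal.rg M K).1 := by
  intro a tS α hα
  obtain ⟨α', rfl⟩ := mem_kap.1 hα
  obtain ⟨m0, h0, h1, hα0⟩ := exists_nl B α'
  have hS := isSys_sdD B P
  have hPo := QP_isPo B P (allK M K)
  have hGa : Gen M (QP D a.1) ((sdD D).r a '' G) := sys_gen hM.out hPo hS hG a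
  have hsub : M ⊆ Sma M (sdD D) G a := sys_sub hM.out hPo hS hG a
  have fB : Fact (Bs M K) := ⟨B⟩
  have fP : Fact (CPP D) := ⟨P⟩
  obtain ⟨e, he, hlow⟩ := low B P hA h0 h1 a.2
  have hE : IP M (fun z : K × K × PQ M K => z.1 < nx M (nx M m0) ∧ z.2.1 < α' ∧ mixQ m0 z.2.2 oneQ ∈ e z.1 z.2.1) :=
    IP.and (ip_ltK IF.fst (IF.const _)) (IP.and (ip_ltK (IF.fst' IF.snd) (IF.const α'))
      (IP.mem (if_mixQ (IF.const m0) (IF.snd' IF.snd) (IF.const oneQ))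
        (IF.app (he.comp IF.fst) (IF.fst' IF.snd))))
  have hc : ∀ (y n : K) (g : PQ M K), ZFSet.pair (zc M y) (ZFSet.pair (zc M n) (zc M g)) ∈
      zst M (fun z : K × K × PQ M K => z.1 < nx M (nx M m0) ∧ z.2.1 < α' ∧ mixQ m0 z.2.2 oneQ ∈ e z.1 z.2.1) ↔
      y < nx M (nx M m0) ∧ n < α' ∧ mixQ m0 g oneQ ∈ e y n := by
    intro y n g
    rw [← zc_pair, ← zc_pair]
    exact zc_mem_zst
  obtain ⟨cm, hcm⟩ : ∃ cm : Sma M (sdD D) G a, cm.1 = zst M (fun z : K × K × PQ M K => z.1 < nx M (nx M m0) ∧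
      z.2.1 < α' ∧ mixQ m0 z.2.2 oneQ ∈ e z.1 z.2.1) := ⟨⟨_, hsub (zst_mem hE)⟩, rfl⟩
  obtain ⟨gm, hgm⟩ : ∃ gm : Sma M (sdD D) G a, ∀ p, p ∈ gm.1 ↔ p ∈ (sdD D).r a '' G :=
    ⟨⟨gset (QP D a.1) ((sdD D).r a '' G), gset_ext hGa (hM.out.gnm_mem (QP_isPo B P a.1))⟩, fun p => mem_gset hGa⟩
  obtain ⟨αm, hαm⟩ : ∃ αm : Sma M (sdD D) G a, αm.1 = zc M α' := ⟨⟨_, hsub (zc_mem α')⟩, rfl⟩
  obtain ⟨em, hem⟩ : ∃ em : Sma M (sdD D) G a, em.1 = zc M (nx M (nx M m0)) := ⟨⟨_, hsub (zc_mem _)⟩, rfl⟩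
  have hR : ∀ y : Sma M (sdD D) G a, Dfn fun v : ℕ → Sma M (sdD D) G a =>
      ∃ g, g ∈ gm ∧ ZU.op y (ZU.op (v 0) g) ∈ cm := fun y => by
    simp (maxDischargeDepth := 99) [-Subtype.exists, -Subtype.forall]
  have hF : DF fun v : ℕ → Sma M (sdD D) G a => sep αm fun n => ∃ g, g ∈ gm ∧ ZU.op (v 0) (ZU.op n g) ∈ cm := by
    simp (maxDischargeDepth := 99) [-Subtype.exists, -Subtype.forall]
  refine ⟨em, lam em fun y => sep αm fun n => ∃ g, g ∈ gm ∧ ZU.op y (ZU.op n g) ∈ cm, ?_, isF_lam hF em, ?_⟩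
  · rw [hem]
    exact mem_kap.2 ⟨_, rfl⟩
  · intro x hx
    obtain ⟨A1, hA1, hA1'⟩ := nice (isT_VI B P a.1) hGa x.2 K
    have hT := tgen (isT_VI B P a.1) hGa
    obtain ⟨y, hy, hy'⟩ := hlow _ hT A1 (neg _ _ (isT_VI B P a.1) hA1) hA1.int
      (neg_open (isT_VI B P a.1) hA1).int (fun n _ w t hw ht hwt => hA1.opn n w t hw ht hwt)
      (fun n _ w t hw ht hwt => (neg_open (isT_VI B P a.1) hA1).opn n w t hw ht hwt)
      (fun n _ w _ h3 h4 => neg_dis (isT_VI B P a.1) hA1 h3 h4)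
      (fun n _ r hr => neg_den (isT_VI B P a.1) hA1 n hr)
    rw [(isF_lam hF em).mem_rg]
    have hyE : zc M y ∈ zc M (nx M (nx M m0)) := (hK _ _).2 ⟨y, hy, rfl⟩
    obtain ⟨ym, hym⟩ : ∃ ym : Sma M (sdD D) G a, ym.1 = zc M y := ⟨⟨_, hsub (zc_mem y)⟩, rfl⟩
    have hye : ym ∈ em := by
      show ym.1 ∈ em.1
      rw [hym, hem]
      exact hyE
    refine ⟨ym, hye, ?_⟩
    rw [ap_lam hF hye]
    refine Subtype.ext (ZFSet.ext fun z => ?_)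
    constructor
    · intro hz
      obtain ⟨n, hn, rfl⟩ := (hK _ _).1 (hx z hz)
      obtain ⟨zm, hzm, hzm'⟩ := ex_val hz
      obtain ⟨g, hg, hg'⟩ := (hy' n (hn.trans hα0)).1 ((hA1' n).1 hz)
      have hgG : zc M g ∈ gm.1 := (hgm _).2 hg
      obtain ⟨g1, hg1, hg1'⟩ := ex_val hgG
      have h5 : zm ∈ sep αm fun n => ∃ g, g ∈ gm ∧ ZU.op ym (ZU.op n g) ∈ cm := by
        rw [ZU.mem_sep (hR ym)]
        refine ⟨?_, g1, hg1, ?_⟩
        · show zm.1 ∈ αm.1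
          rw [hzm', hαm]
          exact (hK _ _).2 ⟨n, hn, rfl⟩
        · rw [mop_mem, val_op, hym, hzm', hg1', hcm]
          exact (hc y n g).2 ⟨hy, hn, hg'⟩
      rw [← hzm']
      exact h5
    · intro hz
      obtain ⟨zm, hzm, rfl⟩ := ex_val hz
      obtain ⟨h5, g1, hg1, h6⟩ := (ZU.mem_sep (hR ym)).1 hzm
      have h7 : zm.1 ∈ zc M α' := by
        rw [← hαm]
        exact h5
      obtain ⟨n, hn, hn'⟩ := (hK _ _).1 h7
      have h8 : g1.1 ∈ (sdD D).r a '' G := (hgm _).1 hg1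
      obtain ⟨g, hg, hg'⟩ := exists_of_P (hGa.sub _ h8)
      rw [mop_mem, val_op, hym, hn', hg', hcm, hc] at h6
      rw [hn']
      refine (hA1' n).2 ((hy' n (hn.trans hα0)).2 ⟨g, ?_, h6.2.2⟩)
      show zc M g ∈ (sdD D).r a '' G
      rw [← hg']
      exact h8

end LRT
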