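import Pool.Agent.LRM.TyN
import Pool.Agent.LRM.TyB
import Pool.Agent.LRM.BddB
import Pool.Agent.LRM.AbsA
import Pool.Agent.COD.FLe

/-! # LRM: every real of the extension is in the extension by a countable subproduct

(problem MP_328cd5_lc; L(R) side, bridge; no sorry in this file) -/

set_option autoImplicit false

universe u v w

namespace LRT

open WCal CPY COD

variable {M : Set ZFSet.{0}} [hM : Fact (CPY.Mod M)] {K : Type v} [WTy M K] [KTy M K]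

/-- the conditions which decide `U t` -/
theorem decide {D : CPD M K} (P : CPP D) {I : St M K} {T : Type w} {U : T → PQ M K → Prop}
    (h2 : ∀ t p q, VI D I p → U t q → LeQ D p q → U t p) (t : T) :
    (∀ w p, VI D I w → (U t p ∨ (VI D I p ∧ ∀ r, VI D I r → LeQ D r p → ¬ U t r)) → LeQ D w p →
      (U t w ∨ (VI D I w ∧ ∀ r, VI D I r → LeQ D r w → ¬ U t r))) ∧
      ∀ r, VI D I r → ∃ r', VI D I r' ∧ LeQ D r' r ∧
        (U t r' ∨ (VI D I r' ∧ ∀ s, VI D I s → LeQ D s r' → ¬ U t s)) := by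
  constructor
  · rintro w p hw (h | ⟨hp, h⟩) hwp
    · exact Or.inl (h2 t w p hw h hwp)
    · exact Or.inr ⟨hw, fun r hr hrw => h r hr (LeQ.trans P hw.1 hp.1 hrw hwp)⟩
  · intro r hr
    by_cases h : ∃ r', VI D I r' ∧ LeQ D r' r ∧ U t r'
    · obtain ⟨r', h3, h4, h5⟩ := h
      exact ⟨r', h3, h4, Or.inl h5⟩
    · refine ⟨r, hr, LeQ.refl r, Or.inr ⟨hr, fun s hs hsr hU => h ⟨s, hs, hsr, hU⟩⟩⟩

/-- **(P1)** -/
theorem realsIn {D : CPD M K} (B : Bs M K) (P : CPP D) (hA : ACL D (PQ M K × PQ M K)) (hK : OrdC M K)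
    {G : Set ZFSet.{0}} (hG : Gen M (QA D) G) : RealsIn M (sdD D) G := by
  intro tE x hx
  have hB : Fact (Bs M K) := ⟨B⟩
  have hP : Fact (CPP D) := ⟨P⟩
  obtain ⟨U, iU, -, hU2, hU3⟩ := exists_name (T := K) B P hG x.2
  have tG := tgen (isT_VI B P (allK M K)) hG
  let Dn : K → St M (PQ M K) := fun n =>
    ⟨{p | U n p ∨ (VI D (allK M K) p ∧ ∀ r, VI D (allK M K) r → LeQ D r p → ¬ U n r)}, by
      refine IP.or (iU.comp (IF.pair (IF.const n) IF.id)) (IP.and (ip_VI (IF.const _) IF.id) (IP.all (IP.imp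
        (ip_VI (IF.const _) IF.snd) (IP.imp (ip_LeQ IF.snd IF.fst) (IP.not
          (iU.comp (IF.pair (IF.const n) IF.snd)))))))⟩
  have hDn : IF M Dn := by
    apply IF.compr'
    show IP M (fun z : K × PQ M K => U z.1 z.2 ∨ (VI D (allK M K) z.2 ∧ ∀ r, VI D (allK M K) r →
      LeQ D r z.2 → ¬ U z.1 r))
    exact IP.or iU (IP.and (ip_VI (IF.const _) IF.snd) (IP.all (IP.imp
        (ip_VI (IF.const _) IF.snd) (IP.imp (ip_LeQ IF.snd (IF.snd.comp IF.fst)) (IP.not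
          (iU.comp (IF.pair (IF.fst.comp IF.fst) IF.snd)))))))
  have h0 : NL M (nx M (⊥ : K)) := nl_nx (Or.inl rfl)
  have h1 : nx M (⊥ : K) ≠ ⊥ := cd_ne (cd_nx B ⊥)
  obtain ⟨q, J, W, hq, ⟨-, hJ, -, -, -, hW, -⟩, hWG⟩ := FLG B P hA h0 h1 (I := allK M K) (Or.inr rfl) hDn
    (fun n _ w t hw ht hwt => (decide P hU2 n).1 w t hw ht hwt)
    (fun n _ r hr => (decide P hU2 n).2 r hr) tG
  let a : Idx M K := ⟨J, hJ⟩
  have hS := isSys_sdD B P
  have hQ := QP_isPo B P (allK M K)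
  have hGa := sys_gen hM.out hQ hS hG a
  have hQa := hS.poR a
  have hR : zst M (fun z : K × PQ M K => z.1 < nx M (⊥ : K) ∧ z.2 ∈ W z.1 ∧ U z.1 z.2) ∈ M :=
    zst_mem (IP.and (ip_ltK IF.fst (IF.const _)) (IP.and (IP.mem IF.snd (IF.app (IF.const W) IF.fst)) iU))
  obtain ⟨y, hy, hy1⟩ := ext_sel hM.out hQa hGa hR (by
    intro w hw
    obtain ⟨⟨n, p⟩, -, rfl⟩ := mem_zst.1 hw
    exact ⟨_, _, zc_pair n p⟩)
  have hsel : ∀ z, z ∈ y ↔ ∃ n p, z = zc M n ∧ n < nx M (⊥ : K) ∧ p ∈ W n ∧ U n p ∧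
      zc M p ∈ (sdD D).r a '' G := by
    intro z
    rw [hy1]
    constructor
    · rintro ⟨s, hs, h⟩
      obtain ⟨⟨n, p⟩, ⟨h3, h4, h5⟩, h6⟩ := mem_zst.1 h
      rw [zc_pair, ZFSet.pair_inj] at h6
      obtain ⟨rfl, rfl⟩ := h6
      exact ⟨n, p, rfl, h3, h4, h5, hs⟩
    · rintro ⟨n, p, rfl, h3, h4, h5, h6⟩
      exact ⟨zc M p, h6, mem_zst.2 ⟨(n, p), ⟨h3, h4, h5⟩, (zc_pair n p).symm⟩⟩
  have hup : ∀ n, n < nx M (⊥ : K) → ∀ w, w ∈ W n → (zc M w ∈ G ↔ zc M w ∈ (sdD D).r a '' G) := by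
    intro n hn w hw
    obtain ⟨-, hwV, hwJ, -⟩ := hW n hn w hw
    have hgl : glu J w oneQ = w := by
      refine Fn.ext (funext fun c => ?_)
      by_cases hc : c ∈ J
      · exact glu_mem w oneQ hc
      · exact (glu_not w oneQ hc).trans (hwJ c hc).symm
    constructor
    · intro h
      refine ⟨zc M w, h, ?_⟩
      show zmap M (fun q => glu J q oneQ) (zc M w) = zc M w
      rw [zmap_zc, hgl]
    · rintro ⟨z, hz, h⟩
      obtain ⟨g, hg, rfl⟩ := exists_of_P (hG.sub z hz)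
      have h3 : zmap M (fun q => glu J q oneQ) (zc M g) = zc M w := h
      rw [zmap_zc, zc_inj] at h3
      refine hG.up _ hz _ (le_iff.2 ⟨hg, hwV, ?_⟩)
      rw [← h3]
      exact LeQ.res J g
  refine ⟨a, ?_⟩
  have : x.1 = y := by
    apply ZFSet.ext
    intro z
    rw [hsel]
    constructor
    · intro hz
      have hz' : (⟨z, tE.tr _ x.2 _ hz⟩ : Ext M G) ∈ (ZU.om : Ext M G) := hx _ hz
      obtain ⟨n, hn⟩ := ZU.mem_om.1 hz'
      obtain ⟨y', hy', rfl⟩ := (om_iff B hK).1 ⟨n, (congrArg Subtype.val hn).trans (LRS.nat_zn n ▸ LRS.nat_val n)⟩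
      obtain ⟨g, hg, hUg⟩ := (hU3 y').1 hz
      obtain ⟨w, hw, hwG⟩ := hWG y' hy'
      refine ⟨y', w, rfl, hy', hw, ?_, (hup y' hy' w hw).1 hwG⟩
      rcases (hW y' hy' w hw).1 with h | ⟨-, h⟩
      · exact h
      · obtain ⟨r, -, hr, h4, h5⟩ := gen_two tG (p := g) (q := w) hg hwG
        exact absurd (hU2 y' r g hr hUg h4) (h r hr h5)
    · rintro ⟨n, p, rfl, h3, h4, h5, h6⟩
      exact (hU3 n).2 ⟨p, (hup n h3 p h4).2 h6, h5⟩
  rw [this]
  exact hy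

end LRT
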