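import Pool.Agent.LRM.AbsC
import Pool.Agent.LRM.Dec
import Pool.Agent.LRM.TyP
import Pool.Agent.LRM.TyK
import Pool.Agent.LRM.PFour
import Pool.Agent.COD.Gnb
import Pool.Agent.COD.Kc

/-! # LRM: the data for the final theorem

(library; problem MP_328cd5_lc; no sorry in this file) -/

set_option autoImplicit false

universe u v w

namespace LRT

open WCal CPY COD ZU LRS

variable {M : Set ZFSet.{0}} [hM : Fact (CPY.Mod M)] {K : Type v} [WTy M K] [KTy M K] {D : CPD M K}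
  {G : Set ZFSet.{0}}

/-- the generic reals are in the extension -/
theorem dg_real (B : Bs M K) (P : CPP D) (hG : Gen M (QA D) G) (x : K) :
    ∃ r ∈ Ext M G, ∀ z, z ∈ r ↔ ∃ n, z = zc M n ∧ Dg D {p | zc M p ∈ G} x ⊥ n := by
  have hB : Fact (Bs M K) := ⟨B⟩
  have hP : Fact (CPP D) := ⟨P⟩
  have hi : IP M (fun z : K × PQ M K => z.1 < nx M (⊥ : K) ∧ Bit D (z.2 x) ⊥ z.1) := by
    simp (maxDischargeDepth := 99)
  obtain ⟨r, hr, h⟩ := ext_sel hM.out (QP_isPo B P (allK M K)) hG (zst_mem hi) (by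
    intro w hw
    obtain ⟨⟨a, b⟩, -, rfl⟩ := mem_zst.1 hw
    exact ⟨_, _, zc_pair a b⟩)
  have hll : ¬ LL M (⊥ : K) := fun h => not_nl_ll (Or.inl rfl) h
  refine ⟨r, hr, fun z => (h z).trans ?_⟩
  constructor
  · rintro ⟨p, hp, h1⟩
    obtain ⟨⟨a, b⟩, h2, h3⟩ := mem_zst.1 h1
    rw [zc_pair, ZFSet.pair_inj] at h3
    refine ⟨a, h3.1, h2.1, b, ?_, fun h => (hll h).elim, h2.2⟩
    show zc M b ∈ G
    rw [← h3.2]
    exact hp
  · rintro ⟨n, rfl, hn, q, hq, -, hb⟩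
    refine ⟨zc M q, hq, ?_⟩
    rw [← zc_pair]
    exact zc_mem_zst.2 ⟨hn, hb⟩

/-- the natural numbers are an element of `κ` -/
theorem om_kap (B : Bs M K) (hK : OrdC M K) : ZFSet.omega ∈ (WCal.rg M K).1 := by
  refine mem_kap.2 ⟨nx M ⊥, ?_⟩
  apply ZFSet.ext
  intro z
  rw [hK]
  rw [← om_iff B hK]
  constructor
  · intro hz
    obtain ⟨n, hn⟩ := LRS.mem_omega.1 hz
    exact ⟨n, hn.trans (nat_zn n)⟩
  · rintro ⟨n, hn⟩
    exact LRS.mem_omega.2 ⟨n, hn.trans (nat_zn n).symm⟩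

/-- every level below `κ` is decoded from the reals in every model of ZF between `M` and the extension -/
theorem dec_in (B : Bs M K) (P : CPP D) (hK : OrdC M K) (hG : Gen M (QA D) G) {N : Set ZFSet.{0}} [TM N]
    (hN : M ⊆ N) (hr : ∀ x ∈ Ext M G, x ⊆ ZFSet.omega → x ∈ N) {β : ZFSet.{0}} (hβ : β ∈ (WCal.rg M K).1) :
    ∃ F ∈ N, (∀ x ξ η, ZFSet.pair x ξ ∈ F → ZFSet.pair x η ∈ F → ξ = η) ∧
      ∀ y ∈ β, ∃ x ∈ Ext M G, x ⊆ ZFSet.omega ∧ ZFSet.pair x y ∈ F := by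
  obtain ⟨b, rfl⟩ := mem_kap.1 hβ
  obtain ⟨m0, h0, h1, hb0⟩ := exists_nl B b
  have hlv : Lv M m0 := by
    rcases h0 with h | ⟨c, hc, h⟩
    · exact Or.inl h
    · exact Or.inr (h ▸ cd_nx B c)
  have tG := tgen (isT_VI B P (allK M K)) hG
  have hI : ∀ x : K, x ∈ allK M K := fun x => trivial
  obtain ⟨F, hF, hF1, hF2⟩ := decode (N := N) hN hK B P hlv
  refine ⟨F, hF, hF1, fun y hy => ?_⟩
  obtain ⟨n, hn, rfl⟩ := (hK _ _).1 hy
  obtain ⟨x, hx1, hx2⟩ := D3 B P hI tG h0 (n := n) ((hn.trans hb0).trans (lt_nx B m0))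
  obtain ⟨r, hr1, hr2⟩ := dg_real B P hG x
  have hr3 : r ⊆ ZFSet.omega := by
    intro z hz
    obtain ⟨k, rfl, hk⟩ := (hr2 z).1 hz
    obtain ⟨j, hj⟩ := (om_iff B hK).2 ⟨k, hk.1, rfl⟩
    exact LRS.mem_omega.2 ⟨j, hj.trans (nat_zn j).symm⟩
  exact ⟨r, hr1, hr3, hF2 (fun m k => Dg D {p | zc M p ∈ G} x m k) (fun m k h => h.1)
    (fun m hm k hk => D1 B P tG (hI x) hm hk) (fun l hl k hk => D2 B P tG (hI x) hl hk) r (hr r hr1 hr3) hr2 n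
    hx1 hx2⟩

/-- **The data** -/
theorem dat (hc : M.Countable) (B : Bs M K) (P : CPP D) (hA : ACL D (PQ M K × PQ M K)) (hK : OrdC M K)
    (hG : Gen M (QA D) G) (hL : M ⊆ LRs (Ext M G))
    (h6 : ∀ F ∈ Ext M G, ∃ z ∈ M, z ⊆ ZFSet.omega ∧ ∀ n : ℕ, ∃ i : ℕ,
      ¬ (LRS.nat i ∈ z ↔ ZFSet.pair (LRS.nat n) (LRS.nat i) ∈ F))
    (h7 : ∀ a : Idx M K, ∃ x ∈ Ext M G, x ⊆ ZFSet.omega ∧ x ∉ Sma M (sdD D) G a) :
    Dat M (Ext M G) (WCal.rg M K).1 (Sma M (sdD D) G) := by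
  have hPo := QP_isPo B P (allK M K)
  have hS := isSys_sdD B P
  have mW : CPY.Mod (Ext M G) := hM.out.ext hPo hG
  have tM := hM.out.tm
  have tW : TM (Ext M G) := mW.tm
  have tN : TM (LRs (Ext M G)) := LRs_tm
  have hreg := regK_of (M := M) B hK
  have hcc := ccK_of B P hK fun A h1 h2 => kcc B P h1 h2
  have hP1 : RealsIn M (sdD D) G := realsIn B P hA hK hG
  refine ⟨hM.out, mW, hM.out.sub_ext hPo hG, fun α h1 h2 => hM.out.ord h1 h2, Ext_cnt hc, (WCal.rg M K).2, ?_,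
    om_kap B hK, hL, ?_, ?_, fun a => sys_mod hM.out hPo hS hG a, fun a => sys_sub hM.out hPo hS hG a, ?_, h7, h6⟩
  · intro _ k hk
    have h1 := hM.out.regK_ext hc hPo hreg hcc hG
    have h2 : k = inM hM.out hPo hG (WCal.rg M K) := Subtype.ext hk
    rw [h2]
    exact h1
  · intro α hα F hF hfun
    have hF' : LRM.InL (ZU.pw ZU.om) (⟨F, LRs_sub hF⟩ : Ext M G) :=
      (mem_LRs (x := (⟨F, LRs_sub hF⟩ : Ext M G))).1 hF
    obtain ⟨b, hb, h⟩ := bdd_fun hM.out hc hPo hS hreg hcc (fun G hG => pwIn B P hA hK hG) hG hP1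
      (α := ⟨α, hM.out.trans _ (WCal.rg M K).2 _ hα⟩) hα hF' hfun
    refine ⟨b, hb, fun x hx hxα ξ hξ h1 => ?_⟩
    have hxW : x ∈ Ext M G := LRs_sub hx
    have hξW : ξ ∈ Ext M G := hM.out.sub_ext hPo hG (hM.out.trans _ (WCal.rg M K).2 _ hξ)
    refine h ⟨x, hxW⟩ ⟨ξ, hξW⟩ ((mem_LRs (x := (⟨x, hxW⟩ : Ext M G))).1 hx) (fun z hz => hxα hz) hξ ?_
    exact mop_mem.2 h1
  · intro β hβ
    exact dec_in B P hK hG hL (fun x hx hxo => LRs_om (x := ⟨x, hx⟩) (by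
      rw [val_sub, val_om]
      exact hxo)) hβ
  · intro x hx hxo
    exact hP1 tW ⟨x, hx⟩ (by
      rw [val_sub, val_om]
      exact hxo)

end LRT
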