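import Pool.Agent.LRM.Ev

/-! # LRM: dependent choice in `L(ℝ)`

(library; no sorry in this file) -/

universe v w

namespace LRM

open STP STP.Fml ZU ZL

/-! ### Sets of codes -/

section

variable {N : Type v} [ZM N]

/-- the set of codes of level `x` -/
noncomputable def CZ (x : N) : N := Rec (fun x f => cup (sg ∅) (bU x fun y =>
  cup (ap f y) (cup (sg (op (nt 10) y)) (prd (nt 10) (prd (ap f y) (ap f y)))))) x

@[simp] theorem df_CZ {s : (ℕ → N) → N} (hs : DF s) : DF fun v => CZ (s v) :=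
  df1 (F := CZ) (by
    unfold CZ
    refine df_rec (G := fun x f _ => cup (sg ∅) (bU x fun y =>
      cup (ap f y) (cup (sg (op (nt 10) y)) (prd (nt 10) (prd (ap f y) (ap f y)))))) ?_ (df_var 0)
    simp (maxDischargeDepth := 99)) hs

theorem mem_CZ {x z : N} : z ∈ CZ x ↔ z = ∅ ∨ ∃ y, y ∈ x ∧ (z ∈ CZ y ∨ z = op (nt 10) y ∨
    ∃ i t u, i ∈ (nt 10 : N) ∧ t ∈ CZ y ∧ u ∈ CZ y ∧ z = op i (op t u)) := by
  have h : CZ x = cup (sg ∅) (bU x fun y => cup (ap (lam x CZ) y) (cup (sg (op (nt 10) y))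
      (prd (nt 10) (prd (ap (lam x CZ) y) (ap (lam x CZ) y))))) :=
    rec_eq (G := fun x f => cup (sg ∅) (bU x fun y =>
      cup (ap f y) (cup (sg (op (nt 10) y)) (prd (nt 10) (prd (ap f y) (ap f y))))))
      (by simp (maxDischargeDepth := 99)) x
  rw [h, mem_cup, mem_sg, mem_bU (by simp (maxDischargeDepth := 99))]
  refine or_congr_right (exists_congr fun y => and_congr_right fun hy => ?_)
  rw [ap_lam (df_CZ (df_var 0)) hy, mem_cup, mem_cup, mem_sg, mem_prd]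
  refine or_congr_right (or_congr_right ?_)
  constructor
  · rintro ⟨i, b, hi, hb, rfl⟩
    obtain ⟨t, u, ht, hu, rfl⟩ := mem_prd.1 hb
    exact ⟨i, t, u, hi, ht, hu, rfl⟩
  · rintro ⟨i, t, u, hi, ht, hu, rfl⟩
    exact ⟨i, op t u, hi, op_mem_prd.2 ⟨ht, hu⟩, rfl⟩

/-- **Codes**, with a bound for the code -/
theorem ev_surjZ {M : Type w} [ZM M] {j : M → N} (h : TrEmb j) :
    ∀ α : M, ∀ z : N, z ∈ Sh (pw om) (j α) →
      ∃ (s : M) (r : N), s ∈ CZ α ∧ r ∈ (pw om : N) ∧ z = ev (pw om) (j s) r := by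
  intro α
  refine ind (P := fun α : M => ∀ z : N, z ∈ Sh (pw om) (j α) →
      ∃ (s : M) (r : N), s ∈ CZ α ∧ r ∈ (pw om : N) ∧ z = ev (pw om) (j s) r) ?_ α
  intro α ih z hz
  rcases mem_Sh.1 hz with h1 | ⟨β, hβ, h1⟩
  · exact ⟨∅, z, mem_CZ.2 (Or.inl rfl), h1, by rw [h.em, ev_em]⟩
  · obtain ⟨β, hβ1, rfl⟩ := h.mem_j.1 hβ
    rcases mem_Nx.1 h1 with h1 | rfl | ⟨i, x, y, hi, hx, hy, rfl⟩
    · obtain ⟨s, r, hs, hr, h2⟩ := ih β hβ1 z h1
      exact ⟨s, r, mem_CZ.2 (Or.inr ⟨β, hβ1, Or.inl hs⟩), hr, h2⟩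
    · exact ⟨op (nt 10) β, ∅, mem_CZ.2 (Or.inr ⟨β, hβ1, Or.inr (Or.inl rfl)⟩),
        mem_pw.2 (em_sub _), by rw [h.op, h.nt, ev_Sh]⟩
    · obtain ⟨s, r, hs, hr, rfl⟩ := ih β hβ1 x hx
      obtain ⟨s', r', hs', hr', rfl⟩ := ih β hβ1 y hy
      obtain ⟨n, hn, rfl⟩ := mem_nt.1 hi
      have hn' : (nt n : M) ∈ (nt 10 : M) := nt_mem.2 hn
      rw [mem_pw] at hr hr'
      refine ⟨op (nt n) (op s s'), jn r r', mem_CZ.2 (Or.inr ⟨β, hβ1, Or.inr (Or.inr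
        ⟨nt n, s, s', hn', hs, hs', rfl⟩)⟩), mem_pw.2 (jn_sub hr hr'), ?_⟩
      rw [h.op, h.op, h.nt, ev_op hi, re0_jn hr hr', re1_jn hr hr']

/-! ### Sequences of reals -/

/-- the section `n` of the real `t` -/
noncomputable def sl (t n : N) : N := sep om fun m => ∃ l, l ∈ t ∧ enp l = op n m

@[simp] theorem df_sl {s t : (ℕ → N) → N} (hs : DF s) (ht : DF t) : DF fun v => sl (s v) (t v) :=
  df2 (F := sl) (by unfold sl; simp (maxDischargeDepth := 99)) hs ht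

/-- the real which codes the sequence `F` -/
noncomputable def sq (F : N → N) : N := sep om fun l => snd (enp l) ∈ F (fst (enp l))

theorem sq_sub {F : N → N} (hF : DF fun v => F (v 0)) : sq F ⊆ om := fun z hz => by
  have hD : Dfn fun v : ℕ → N => snd (enp (v 0)) ∈ F (fst (enp (v 0))) :=
    dfn_mem (df_snd (df_enp (df_var 0))) (df1 hF (df_fst (df_enp (df_var 0))))
  unfold sq at hz
  rw [mem_sep hD] at hz
  exact hz.1

theorem sl_sq {F : N → N} (hF : DF fun v => F (v 0)) {n : N} (hn : n ∈ (om : N))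
    (h : F n ⊆ om) : sl (sq F) n = F n := by
  refine om_ext (fun z hz => ((mem_sep (by simp (maxDischargeDepth := 99))).1 hz).1) h
    fun m => ?_
  unfold sl
  rw [mem_sep (by simp (maxDischargeDepth := 99))]
  have hD : Dfn fun v : ℕ → N => snd (enp (v 0)) ∈ F (fst (enp (v 0))) :=
    dfn_mem (df_snd (df_enp (df_var 0))) (df1 hF (df_fst (df_enp (df_var 0))))
  constructor
  · rintro ⟨-, l, hl, h1⟩
    unfold sq at hl
    rw [mem_sep hD, h1, snd_op, fst_op] at hl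
    exact hl.2
  · intro h1
    obtain ⟨k, rfl⟩ := mem_om.1 hn
    obtain ⟨l, hl⟩ := enp_surj (N := N) k m
    refine ⟨nt_mem_om m, nt l, ?_, hl⟩
    unfold sq
    rw [mem_sep hD, hl, snd_op, fst_op]
    exact ⟨nt_mem_om l, h1⟩

theorem sl_sub (t n : N) : sl t n ⊆ om := fun _ hz =>
  ((mem_sep (by simp (maxDischargeDepth := 99))).1 hz).1

/-- the next element of the sequence: `x ↦ ev A (g ξ) ρ`, `ξ` least such that this is an `R`-successor
of `x` in `X` -/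
noncomputable def nx (A X R g o x ρ : N) : N :=
  ev A (ap g (lst fun ξ => ξ ∈ o ∧ ev A (ap g ξ) ρ ∈ X ∧ op x (ev A (ap g ξ) ρ) ∈ R)) ρ

theorem df_nx {A X R g o : N} {x ρ : (ℕ → N) → N} (hx : DF x) (hρ : DF ρ) :
    DF fun v => nx A X R g o (x v) (ρ v) :=
  df2 (F := nx A X R g o) (by unfold nx; simp (maxDischargeDepth := 99)) hx hρ

theorem nx_spec {A X R g o x ρ : N} (ho : ZU.Ord o)
    (h : ∃ ξ, ξ ∈ o ∧ ev A (ap g ξ) ρ ∈ X ∧ op x (ev A (ap g ξ) ρ) ∈ R) :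
    nx A X R g o x ρ ∈ X ∧ op x (nx A X R g o x ρ) ∈ R := by
  obtain ⟨ξ, h1, h2, h3⟩ := h
  have := (lst_spec (P := fun ξ => ξ ∈ o ∧ ev A (ap g ξ) ρ ∈ X ∧ op x (ev A (ap g ξ) ρ) ∈ R)
    ⟨ξ, ho.mem h1, h1, h2, h3⟩).2.1
  exact this.2

end

section

variable {N : Type v} {N' : Type w} [ZM N] [ZM N'] {k : N → N'} (h : TrEmb k)
include h

theorem emb_enp (x : N) : k (enp x) = enp (k x) := by
  have h1 : ∀ p : N, k (nxp p) = nxp (k p) := by
    intro p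
    unfold nxp
    rw [h.ife (p' := fst (k p) = ∅) (by rw [← h.fst, ← h.em, h.eq_iff])]
    simp only [h.op, h.sc, h.snd, h.uni, h.fst, h.em]
  unfold enp
  rw [h.itr (F' := fun _ y => nxp y) df_enpF df_enpF fun _ y => h1 y, h.op, h.em]

theorem emb_sl (t n : N) : k (sl t n) = sl (k t) (k n) := by
  unfold sl
  rw [h.sep (P' := fun m => ∃ l, l ∈ k t ∧ enp l = op (k n) m) (by simp (maxDischargeDepth := 99))
    (by simp (maxDischargeDepth := 99)) fun z _ => ?_, h.om]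
  constructor
  · rintro ⟨l, hl, h1⟩
    exact ⟨k l, (h.mem_iff _ _).2 hl, by rw [← emb_enp h, h1, h.op]⟩
  · rintro ⟨l, hl, h1⟩
    obtain ⟨l, hl1, rfl⟩ := h.mem_j.1 hl
    rw [← emb_enp h, ← h.op, h.eq_iff] at h1
    exact ⟨l, hl1, h1⟩

theorem emb_lst {P : N → Prop} {P' : N' → Prop} (hP : ∀ z, P' z ↔ ∃ y, P y ∧ z = k y) :
    k (lst P) = lst P' := by
  refine h.the fun z => ?_
  constructor
  · rintro ⟨h1, h2, h3⟩
    obtain ⟨y, hy, rfl⟩ := (hP z).1 h2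
    refine ⟨y, ⟨(emb_ord h y).1 h1, hy, fun u hu hPu => ?_⟩, rfl⟩
    exact h3 (k u) ((h.mem_iff _ _).2 hu) ((hP _).2 ⟨u, hPu, rfl⟩)
  · rintro ⟨y, ⟨h1, h2, h3⟩, rfl⟩
    refine ⟨(emb_ord h y).2 h1, (hP _).2 ⟨y, h2, rfl⟩, fun u hu hPu => ?_⟩
    obtain ⟨u', hu', rfl⟩ := (hP u).1 hPu
    exact h3 u' ((h.mem_iff _ _).1 hu) hu'

theorem emb_nx (A X R g o x ρ : N) :
    k (nx A X R g o x ρ) = nx (k A) (k X) (k R) (k g) (k o) (k x) (k ρ) := by
  have h1 : ∀ ξ : N, k (ev A (ap g ξ) ρ) = ev (k A) (ap (k g) (k ξ)) (k ρ) := fun ξ => by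
    rw [emb_ev h, h.ap]
  unfold nx
  rw [emb_ev h, h.ap]
  congr 2
  refine emb_lst h fun z => ?_
  constructor
  · rintro ⟨h2, h3, h4⟩
    obtain ⟨ξ, hξ, rfl⟩ := h.mem_j.1 h2
    rw [← h1, h.mem_iff] at h3
    rw [← h1, h.op_mem] at h4
    exact ⟨ξ, ⟨hξ, h3, h4⟩, rfl⟩
  · rintro ⟨ξ, ⟨h2, h3, h4⟩, rfl⟩
    rw [← h1, h.mem_iff, h.mem_iff, h.op_mem]
    exact ⟨h2, h3, h4⟩

end

/-! ### Dependent choice -/

/-- the axiom of dependent choice in a model -/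
def DCm (N : Type v) [ZM N] : Prop := ∀ X R x0 : N, x0 ∈ X → (∀ x, x ∈ X → ∃ y, y ∈ X ∧ op x y ∈ R) →
  ∃ f, IsF f om ∧ ap f ∅ = x0 ∧ ∀ n, n ∈ (om : N) → ap f n ∈ X ∧ op (ap f n) (ap f (sc n)) ∈ R

/-- **Dependent choice in `L(ℝ)`.** `M ⊆ L(ℝ) ⊆ W`, where `M` and `W` are models of choice with the same
ordinals. -/
theorem dc_LR {M N W : Type v} [ZM M] [ZM N] [ZM W] {j : M → W} {k : N → W} (hj : TrEmb j)
    (hk : TrEmb k) (ho : ∀ α : W, ZU.Ord α → ∃ β, α = j β)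
    (hN : ∀ z : W, InL (pw om) z ↔ ∃ x, z = k x) (hjk : ∀ s : M, ∃ t : N, j s = k t)
    (hM : WO M) (hW : WO W) : DCm N := by
  intro X R x0 hx0 htot
  -- a bound for the levels of the elements of `X`
  obtain ⟨α, hα, hXα⟩ := inL_au (A := (pw om : W)) (X := k X) fun x hx => by
    obtain ⟨y, -, rfl⟩ := hk.mem_j.1 hx
    exact (hN _).2 ⟨y, rfl⟩
  obtain ⟨α, rfl⟩ := ho α hα
  -- a wellordered set of codes
  obtain ⟨o, g, hoo, hg, hZ⟩ := hM (CZ α)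
  obtain ⟨A', hA'⟩ := (hN (pw om)).1 inL_self
  obtain ⟨g', hg'⟩ := hjk g
  obtain ⟨o', ho'⟩ := hjk o
  have hoW : ZU.Ord (j o) := (emb_ord hj o).2 hoo
  -- every element of `X` has successors with codes
  let P : W → W → Prop := fun x ρ => ρ ∈ (pw om : W) ∧ ∃ ξ, ξ ∈ j o ∧
    ev (pw om) (ap (j g) ξ) ρ ∈ k X ∧ op x (ev (pw om) (ap (j g) ξ) ρ) ∈ k R
  have hP : Dfn fun v : ℕ → W => P (v 0) (v 1) := by
    simp (maxDischargeDepth := 99) [P]
  obtain ⟨F, hF, hF1⟩ := choice hW hP (A := k X) (by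
    intro x hx
    obtain ⟨x, hx1, rfl⟩ := hk.mem_j.1 hx
    obtain ⟨y, hy, hxy⟩ := htot x hx1
    obtain ⟨s, r, hs, hr, h1⟩ := ev_surjZ hj α (k y) (hXα _ ((hk.mem_iff _ _).2 hy))
    obtain ⟨ξ, hξ, rfl⟩ := hg.mem_rg.1 (hZ s hs)
    refine ⟨r, hr, j ξ, (hj.mem_iff _ _).2 hξ, ?_⟩
    rw [← hj.ap, ← h1, hk.op_mem, hk.mem_iff]
    exact ⟨hy, hxy⟩)
  -- the sequence in `W`
  let Φ : W → W → W := nx (pw om) (k X) (k R) (j g) (j o)
  have hΦ : DF fun v : ℕ → W => Φ (v 0) (v 1) := df_nx (df_var 0) (df_var 1)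
  have hG : DF fun v : ℕ → W => (fun _ x => Φ x (F x)) (v 0) (v 1) :=
    df2 hΦ (df_var 1) (df1 hF (df_var 1))
  let xs : W → W := fun n => itr (fun _ x => Φ x (F x)) (k x0) n
  have hxs : DF fun v : ℕ → W => xs (v 0) :=
    df_itr (F := fun n x _ => Φ x (F x)) (a := fun _ => k x0) hG (df_const _) (df_var 0)
  have h0 : xs ∅ = k x0 := itr_zero hG _
  have h1 : ∀ n, n ∈ (om : W) → xs (sc n) = Φ (xs n) (F (xs n)) := fun n hn => itr_sc hG _ hn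
  have h2 : ∀ n, n ∈ (om : W) → xs n ∈ k X := by
    refine om_ind ?_ ?_
    · rw [h0, hk.mem_iff]
      exact hx0
    · intro n hn ih
      rw [h1 n hn]
      exact (nx_spec hoW (hF1 _ ih).2).1
  -- the real which codes the choices
  let ρ : W → W := fun n => F (xs n)
  have hρ : DF fun v : ℕ → W => ρ (v 0) := df1 hF hxs
  have hρo : ∀ n, n ∈ (om : W) → ρ n ⊆ om := fun n hn => mem_pw.1 (hF1 _ (h2 n hn)).1
  obtain ⟨t, ht⟩ := (hN (sq ρ)).1 ((inn_L (fun x hx y hy => by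
    rw [mem_pw] at hx ⊢
    obtain ⟨n, rfl⟩ := mem_om.1 (hx y hy)
    exact ord_om.1 _ (nt_mem_om n))).tr _ _ (inL_self (A := (pw om : W)))
      (mem_pw.2 (sq_sub hρ)))
  -- the sequence in `N`
  have hΨ : DF fun v : ℕ → N => (fun n x => nx A' X R g' o' x (sl t n)) (v 0) (v 1) :=
    df_nx (df_var 1) (df_sl (df_const t) (df_var 0))
  have hΨ' : DF fun v : ℕ → W => (fun n x => Φ x (sl (sq ρ) n)) (v 0) (v 1) :=
    df2 hΦ (df_var 1) (df_sl (df_const _) (df_var 0))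
  let ys : N → N := fun n => itr (fun n x => nx A' X R g' o' x (sl t n)) x0 n
  have hys : DF fun v : ℕ → N => ys (v 0) :=
    df_itr (F := fun n x _ => nx A' X R g' o' x (sl t n)) (a := fun _ => x0) hΨ (df_const _)
      (df_var 0)
  have hky : ∀ n : N, k (ys n) = itr (fun n x => Φ x (sl (sq ρ) n)) (k x0) (k n) := by
    intro n
    refine hk.itr hΨ hΨ' (fun n x => ?_) x0 n
    beta_reduce
    rw [emb_nx hk, emb_sl hk, ← hA', ← hg', ← ho', ← ht]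
  have hxy : ∀ n : W, n ∈ (om : W) → itr (fun n x => Φ x (sl (sq ρ) n)) (k x0) n = xs n := by
    refine om_ind ?_ ?_
    · rw [itr_zero hΨ', h0]
    · intro n hn ih
      rw [itr_sc hΨ' _ hn, h1 n hn, ih, sl_sq hρ hn (hρo n hn)]
  have hkx : ∀ n : N, n ∈ (om : N) → k (ys n) = xs (k n) := fun n hn => by
    rw [hky, hxy]
    rw [← hk.om, hk.mem_iff]
    exact hn
  refine ⟨lam om ys, isF_lam hys _, ?_, fun n hn => ?_⟩
  · rw [ap_lam hys ind_om.1]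
    exact itr_zero hΨ _
  · have hn' : k n ∈ (om : W) := by
      rw [← hk.om, hk.mem_iff]
      exact hn
    rw [ap_lam hys hn, ap_lam hys (ind_om.2 n hn), ← hk.mem_iff, ← hk.op_mem, hkx n hn,
      hkx _ (ind_om.2 n hn), hk.sc, h1 _ hn']
    exact ⟨h2 _ hn', (nx_spec hoW (hF1 _ (h2 _ hn')).2).2⟩

end LRM
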