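import Pool.Agent.ZL.UOps

/-! # LRM: inner models generated by basic operations (definitions)

(library on top of ZU and ZL; no sorry in this file)

`opI i x y` (`i = nt 0, ..., nt 9`) are ten basic operations (pair, union, product, difference, domain,
converse, composition, membership relation, the two projections). `Nx X` is `X`, `{X}` and all values of
the basic operations on `X`; `Sh A α` is the level `α` of the hierarchy over the set `A`:
`Sh A α = A ∪ ⋃ {Nx (Sh A β) | β ∈ α}`, and `InL A z` says that `z` is in some level (the class `L(A)`).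
`Inn K`: the class `K` is transitive, closed under the basic operations and almost universal.
`satR K φ v`: satisfaction with quantifiers over `K`. `TS a n` is the set of `n`-tuples, `dc n s` the
valuation coded by the tuple `s`, `tp n v` the tuple of `v`. -/

universe v

namespace LRM

open STP STP.Fml ZU ZL

variable {N : Type v} [ZM N]

/-! ### The basic operations -/

/-- the converse relation -/
noncomputable def cv (x : N) : N := sep (prd (rg x) (dm x)) fun p => op (snd p) (fst p) ∈ x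

/-- composition: `{(a, c) | (a, b) ∈ x, (b, c) ∈ y}` -/
noncomputable def cmp (x y : N) : N :=
  sep (prd (dm x) (rg y)) fun p => ∃ b, op (fst p) b ∈ x ∧ op b (snd p) ∈ y

/-- the membership relation on `x` -/
noncomputable def eps (x : N) : N := sep (prd x x) fun p => fst p ∈ snd p

/-- the first projection of `x × y` as a set -/
noncomputable def gf (x y : N) : N := lam (prd x y) fst

/-- the second projection of `x × y` as a set -/
noncomputable def gs (x y : N) : N := lam (prd x y) snd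

/-- the basic operation number `i` -/
noncomputable def opI (i x y : N) : N :=
  ife (i = nt 0) (up x y) (ife (i = nt 1) (uni x) (ife (i = nt 2) (prd x y)
    (ife (i = nt 3) (dif x y) (ife (i = nt 4) (dm x) (ife (i = nt 5) (cv x)
      (ife (i = nt 6) (cmp x y) (ife (i = nt 7) (eps x) (ife (i = nt 8) (gf x y) (gs x y)))))))))

theorem mem_cv {x p : N} : p ∈ cv x ↔ ∃ a b, op a b ∈ x ∧ p = op b a := by
  unfold cv
  rw [mem_sep (by simp (maxDischargeDepth := 99))]
  constructor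
  · rintro ⟨h, h1⟩
    obtain ⟨b, a, hb, ha, rfl⟩ := mem_prd.1 h
    rw [fst_op, snd_op] at h1
    exact ⟨a, b, h1, rfl⟩
  · rintro ⟨a, b, h, rfl⟩
    rw [fst_op, snd_op]
    exact ⟨op_mem_prd.2 ⟨mem_rg.2 ⟨a, h⟩, mem_dm.2 ⟨b, h⟩⟩, h⟩

theorem op_mem_cv {x a b : N} : op a b ∈ cv x ↔ op b a ∈ x := by
  rw [mem_cv]
  constructor
  · rintro ⟨c, d, h, h1⟩
    obtain ⟨rfl, rfl⟩ := op_inj.1 h1
    exact h
  · exact fun h => ⟨b, a, h, rfl⟩

theorem mem_cmp {x y p : N} : p ∈ cmp x y ↔ ∃ a b c, op a b ∈ x ∧ op b c ∈ y ∧ p = op a c := by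
  unfold cmp
  rw [mem_sep (by simp (maxDischargeDepth := 99))]
  constructor
  · rintro ⟨h, b, h1, h2⟩
    obtain ⟨a, c, ha, hc, rfl⟩ := mem_prd.1 h
    rw [fst_op] at h1
    rw [snd_op] at h2
    exact ⟨a, b, c, h1, h2, rfl⟩
  · rintro ⟨a, b, c, h1, h2, rfl⟩
    rw [fst_op, snd_op]
    exact ⟨op_mem_prd.2 ⟨mem_dm.2 ⟨b, h1⟩, mem_rg.2 ⟨b, h2⟩⟩, b, h1, h2⟩

theorem op_mem_cmp {x y a c : N} : op a c ∈ cmp x y ↔ ∃ b, op a b ∈ x ∧ op b c ∈ y := by
  rw [mem_cmp]
  constructor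
  · rintro ⟨a', b, c', h, h', h1⟩
    obtain ⟨rfl, rfl⟩ := op_inj.1 h1
    exact ⟨b, h, h'⟩
  · rintro ⟨b, h, h'⟩
    exact ⟨a, b, c, h, h', rfl⟩

theorem mem_eps {x p : N} : p ∈ eps x ↔ ∃ a b, a ∈ x ∧ b ∈ x ∧ a ∈ b ∧ p = op a b := by
  unfold eps
  rw [mem_sep (by simp (maxDischargeDepth := 99))]
  constructor
  · rintro ⟨h, h1⟩
    obtain ⟨a, b, ha, hb, rfl⟩ := mem_prd.1 h
    rw [fst_op, snd_op] at h1
    exact ⟨a, b, ha, hb, h1, rfl⟩
  · rintro ⟨a, b, ha, hb, h, rfl⟩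
    rw [fst_op, snd_op]
    exact ⟨op_mem_prd.2 ⟨ha, hb⟩, h⟩

theorem op_mem_eps {x a b : N} : op a b ∈ eps x ↔ a ∈ x ∧ b ∈ x ∧ a ∈ b := by
  rw [mem_eps]
  constructor
  · rintro ⟨a', b', ha, hb, h, h1⟩
    obtain ⟨rfl, rfl⟩ := op_inj.1 h1
    exact ⟨ha, hb, h⟩
  · rintro ⟨ha, hb, h⟩
    exact ⟨a, b, ha, hb, h, rfl⟩

theorem mem_gf {x y p : N} : p ∈ gf x y ↔ ∃ a b, a ∈ x ∧ b ∈ y ∧ p = op (op a b) a := by
  unfold gf
  rw [mem_lam (df_fst (df_var 0))]
  constructor
  · rintro ⟨z, hz, rfl⟩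
    obtain ⟨a, b, ha, hb, rfl⟩ := mem_prd.1 hz
    exact ⟨a, b, ha, hb, by rw [fst_op]⟩
  · rintro ⟨a, b, ha, hb, rfl⟩
    exact ⟨op a b, op_mem_prd.2 ⟨ha, hb⟩, by rw [fst_op]⟩

theorem mem_gs {x y p : N} : p ∈ gs x y ↔ ∃ a b, a ∈ x ∧ b ∈ y ∧ p = op (op a b) b := by
  unfold gs
  rw [mem_lam (df_snd (df_var 0))]
  constructor
  · rintro ⟨z, hz, rfl⟩
    obtain ⟨a, b, ha, hb, rfl⟩ := mem_prd.1 hz
    exact ⟨a, b, ha, hb, by rw [snd_op]⟩
  · rintro ⟨a, b, ha, hb, rfl⟩
    exact ⟨op a b, op_mem_prd.2 ⟨ha, hb⟩, by rw [snd_op]⟩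

theorem op_mem_gf {x y p c : N} : op p c ∈ gf x y ↔ p ∈ prd x y ∧ c = fst p :=
  op_mem_lam (df_fst (df_var 0))

theorem op_mem_gs {x y p c : N} : op p c ∈ gs x y ↔ p ∈ prd x y ∧ c = snd p :=
  op_mem_lam (df_snd (df_var 0))

@[simp] theorem df_cv {s : (ℕ → N) → N} (hs : DF s) : DF fun v => cv (s v) :=
  df1 (F := cv) (by unfold cv; simp (maxDischargeDepth := 99)) hs

@[simp] theorem df_cmp {s t : (ℕ → N) → N} (hs : DF s) (ht : DF t) :
    DF fun v => cmp (s v) (t v) :=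
  df2 (F := cmp) (by unfold cmp; simp (maxDischargeDepth := 99)) hs ht

@[simp] theorem df_eps {s : (ℕ → N) → N} (hs : DF s) : DF fun v => eps (s v) :=
  df1 (F := eps) (by unfold eps; simp (maxDischargeDepth := 99)) hs

@[simp] theorem df_gf {s t : (ℕ → N) → N} (hs : DF s) (ht : DF t) :
    DF fun v => gf (s v) (t v) :=
  df_lam (F := fun z _ => fst z) (df_prd hs ht) (df_fst (df_var 0))

@[simp] theorem df_gs {s t : (ℕ → N) → N} (hs : DF s) (ht : DF t) :
    DF fun v => gs (s v) (t v) :=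
  df_lam (F := fun z _ => snd z) (df_prd hs ht) (df_snd (df_var 0))

@[simp] theorem df_opI {s t r : (ℕ → N) → N} (hs : DF s) (ht : DF t) (hr : DF r) :
    DF fun v => opI (s v) (t v) (r v) :=
  df3 (F := opI) (by unfold opI; simp (maxDischargeDepth := 99)) hs ht hr

@[simp] theorem uf_cv {s : ∀ m : Mdl.{v}, (ℕ → m.N) → m.N} (hs : UF s) :
    UF fun m v => cv (s m v) :=
  uf1 (F := fun m => cv (N := m.N)) (by unfold cv; simp (maxDischargeDepth := 99)) hs

@[simp] theorem uf_cmp {s t : ∀ m : Mdl.{v}, (ℕ → m.N) → m.N} (hs : UF s) (ht : UF t) :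
    UF fun m v => cmp (s m v) (t m v) :=
  uf2 (F := fun m => cmp (N := m.N)) (by unfold cmp; simp (maxDischargeDepth := 99)) hs ht

@[simp] theorem uf_eps {s : ∀ m : Mdl.{v}, (ℕ → m.N) → m.N} (hs : UF s) :
    UF fun m v => eps (s m v) :=
  uf1 (F := fun m => eps (N := m.N)) (by unfold eps; simp (maxDischargeDepth := 99)) hs

@[simp] theorem uf_gf {s t : ∀ m : Mdl.{v}, (ℕ → m.N) → m.N} (hs : UF s) (ht : UF t) :
    UF fun m v => gf (s m v) (t m v) :=
  uf_lam (F := fun _ z _ => fst z) (uf_prd hs ht) (uf_fst (uf_var 0))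

@[simp] theorem uf_gs {s t : ∀ m : Mdl.{v}, (ℕ → m.N) → m.N} (hs : UF s) (ht : UF t) :
    UF fun m v => gs (s m v) (t m v) :=
  uf_lam (F := fun _ z _ => snd z) (uf_prd hs ht) (uf_snd (uf_var 0))

@[simp] theorem uf_opI {s t r : ∀ m : Mdl.{v}, (ℕ → m.N) → m.N} (hs : UF s) (ht : UF t)
    (hr : UF r) : UF fun m v => opI (s m v) (t m v) (r m v) :=
  uf3 (F := fun m => opI (N := m.N)) (by unfold opI; simp (maxDischargeDepth := 99)) hs ht hr

/-! ### The hierarchy -/

/-- the next level -/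
noncomputable def Nx (X : N) : N :=
  cup X (cup (sg X) (bU (nt 10) fun i => bU X fun x => img X fun y => opI i x y))

/-- the level `x` over `A` -/
noncomputable def Sh (A x : N) : N := Rec (fun x f => cup A (bU x fun y => Nx (ap f y))) x

/-- the class `L(A)` -/
def InL (A z : N) : Prop := ∃ α, ZU.Ord α ∧ z ∈ Sh A α

@[simp] theorem df_Nx {s : (ℕ → N) → N} (hs : DF s) : DF fun v => Nx (s v) :=
  df1 (F := Nx) (by unfold Nx; simp (maxDischargeDepth := 99)) hs

@[simp] theorem uf_Nx {s : ∀ m : Mdl.{v}, (ℕ → m.N) → m.N} (hs : UF s) :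
    UF fun m v => Nx (s m v) :=
  uf1 (F := fun m => Nx (N := m.N)) (by unfold Nx; simp (maxDischargeDepth := 99)) hs

@[simp] theorem df_Sh {s t : (ℕ → N) → N} (hs : DF s) (ht : DF t) :
    DF fun v => Sh (s v) (t v) :=
  df2 (F := Sh) (by unfold Sh; simp (maxDischargeDepth := 99)) hs ht

@[simp] theorem uf_Sh {s t : ∀ m : Mdl.{v}, (ℕ → m.N) → m.N} (hs : UF s) (ht : UF t) :
    UF fun m v => Sh (s m v) (t m v) :=
  uf2 (F := fun m => Sh (N := m.N)) (by unfold Sh; simp (maxDischargeDepth := 99)) hs ht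

@[simp] theorem dfn_InL {s t : (ℕ → N) → N} (hs : DF s) (ht : DF t) :
    Dfn fun v => InL (s v) (t v) :=
  dfn2 (P := InL) (by unfold InL; simp (maxDischargeDepth := 99)) hs ht

@[simp] theorem ud_InL {s t : ∀ m : Mdl.{v}, (ℕ → m.N) → m.N} (hs : UF s) (ht : UF t) :
    UD fun m v => InL (s m v) (t m v) :=
  ud2 (P := fun m => InL (N := m.N)) (by unfold InL; simp (maxDischargeDepth := 99)) hs ht

theorem mem_Nx {X z : N} : z ∈ Nx X ↔ z ∈ X ∨ z = X ∨
    ∃ i x y, i ∈ (nt 10 : N) ∧ x ∈ X ∧ y ∈ X ∧ z = opI i x y := by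
  unfold Nx
  rw [mem_cup, mem_cup, mem_sg, mem_bU (by simp (maxDischargeDepth := 99))]
  refine or_congr_right (or_congr_right ?_)
  constructor
  · rintro ⟨i, hi, h⟩
    rw [mem_bU (by simp (maxDischargeDepth := 99))] at h
    obtain ⟨x, hx, h⟩ := h
    rw [mem_img (by simp (maxDischargeDepth := 99))] at h
    obtain ⟨y, hy, h⟩ := h
    exact ⟨i, x, y, hi, hx, hy, h⟩
  · rintro ⟨i, x, y, hi, hx, hy, h⟩
    refine ⟨i, hi, ?_⟩
    rw [mem_bU (by simp (maxDischargeDepth := 99))]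
    refine ⟨x, hx, ?_⟩
    rw [mem_img (by simp (maxDischargeDepth := 99))]
    exact ⟨y, hy, h⟩

theorem mem_Sh {A x z : N} : z ∈ Sh A x ↔ z ∈ A ∨ ∃ y, y ∈ x ∧ z ∈ Nx (Sh A y) := by
  have h : Sh A x = cup A (bU x fun y => Nx (ap (lam x (Sh A)) y)) :=
    rec_eq (G := fun x f => cup A (bU x fun y => Nx (ap f y))) (by simp (maxDischargeDepth := 99)) x
  have hd : DF fun v : ℕ → N => Sh A (v 0) := df_Sh (df_const A) (df_var 0)
  rw [h, mem_cup, mem_bU (by simp (maxDischargeDepth := 99))]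
  refine or_congr_right (exists_congr fun y => and_congr_right fun hy => ?_)
  rw [ap_lam hd hy]

/-! ### Inner models -/

/-- `K` is an inner model: transitive, closed under the basic operations, almost universal -/
structure Inn (K : N → Prop) : Prop where
  dfn : Dfn fun v => K (v 0)
  tr : ∀ x y, K x → y ∈ x → K y
  cl : ∀ i x y, i ∈ (nt 10 : N) → K x → K y → K (opI i x y)
  au : ∀ X : N, (∀ x, x ∈ X → K x) → ∃ b, K b ∧ X ⊆ b
  inf : ∃ b, K b ∧ Ind b

/-- satisfaction with quantifiers over `K` -/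
def satR (K : N → Prop) : Fml → (ℕ → N) → Prop
  | .mem i j, v => v i ∈ v j
  | .eq i j, v => v i = v j
  | .bot, _ => False
  | .imp φ ψ, v => satR K φ v → satR K ψ v
  | .all φ, v => ∀ x, K x → satR K φ (cns x v)

/-- the set of `n`-tuples of elements of `a` -/
noncomputable def TS (a : N) : ℕ → N
  | 0 => sg ∅
  | n + 1 => prd (TS a n) a

/-- the valuation coded by the `n`-tuple `s` (and `∅` for the variables `≥ n`) -/
noncomputable def dc : ℕ → N → ℕ → N
  | 0, _ => fun _ => ∅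
  | n + 1, s => cns (snd s) (dc n (fst s))

/-- the `n`-tuple of the valuation `v` -/
noncomputable def tp : ℕ → (ℕ → N) → N
  | 0, _ => ∅
  | n + 1, v => op (tp n fun i => v (i + 1)) (v 0)

/-- all free variables of `φ` are less than `fb φ` -/
def fb : Fml → ℕ
  | .mem i j => max i j + 1
  | .eq i j => max i j + 1
  | .bot => 0
  | .imp φ ψ => max (fb φ) (fb ψ)
  | .all φ => fb φ

end LRM
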