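import Pool.Agent.LRM.Lev

/-! # LRM: every set of `L(ℝ)` is computed from a code of the ground model and a real

(library; no sorry in this file)

`re0 r`, `re1 r` are the two halves of the real `r ⊆ om`, `jn r s` is the join. `ev A s r` is computed by
recursion on the code `s`: `op (nt i) (op t u)` (`i < 10`) stands for the basic operation `i` of the values
of `t` (at `re0 r`) and `u` (at `re1 r`), `op (nt 10) α` for the level `Sh A α`, all other codes for `r`
itself. -/

universe v w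

namespace LRM

open STP STP.Fml ZU ZL

variable {N : Type v} [ZM N]

/-! ### Halves of reals -/

/-- doubling of natural numbers -/
noncomputable def dbl (x : N) : N := itr (fun _ y => sc (sc y)) ∅ x

@[simp] theorem df_dbl {s : (ℕ → N) → N} (hs : DF s) : DF fun v => dbl (s v) :=
  df_itr (F := fun _ y _ => sc (sc y)) (a := fun _ => ∅) (df_sc (df_sc (df_var 1))) (df_const _) hs

@[simp] theorem uf_dbl {s : ∀ m : Mdl.{v}, (ℕ → m.N) → m.N} (hs : UF s) :
    UF fun m v => dbl (s m v) :=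
  uf_itr (F := fun _ _ y _ => sc (sc y)) (a := fun _ _ => ∅) (uf_sc (uf_sc (uf_var 1))) uf_em hs

theorem df_dblF : DF fun v : ℕ → N => (fun _ y => sc (sc y)) (v 0) (v 1) := df_sc (df_sc (df_var 1))

theorem dbl_nt (n : ℕ) : dbl (nt n : N) = nt (2 * n) := by
  induction n with
  | zero => exact itr_zero df_dblF _
  | succ n ih =>
    have : dbl (nt (n + 1) : N) = sc (sc (dbl (nt n))) := itr_succ df_dblF _ n
    rw [this, ih]
    rfl

/-- the even half -/
noncomputable def re0 (r : N) : N := sep om fun n => dbl n ∈ r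

/-- the odd half -/
noncomputable def re1 (r : N) : N := sep om fun n => sc (dbl n) ∈ r

/-- the join of two reals -/
noncomputable def jn (r s : N) : N := cup (img r dbl) (img s fun n => sc (dbl n))

@[simp] theorem df_re0 {s : (ℕ → N) → N} (hs : DF s) : DF fun v => re0 (s v) :=
  df1 (F := re0) (by unfold re0; simp (maxDischargeDepth := 99)) hs

@[simp] theorem df_re1 {s : (ℕ → N) → N} (hs : DF s) : DF fun v => re1 (s v) :=
  df1 (F := re1) (by unfold re1; simp (maxDischargeDepth := 99)) hs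

@[simp] theorem df_jn {s t : (ℕ → N) → N} (hs : DF s) (ht : DF t) :
    DF fun v => jn (s v) (t v) :=
  df_cup (df_img (F := fun n _ => dbl n) hs (df_dbl (df_var 0)))
    (df_img (F := fun n _ => sc (dbl n)) ht (df_sc (df_dbl (df_var 0))))

@[simp] theorem uf_re0 {s : ∀ m : Mdl.{v}, (ℕ → m.N) → m.N} (hs : UF s) :
    UF fun m v => re0 (s m v) :=
  uf1 (F := fun m => re0 (N := m.N)) (by unfold re0; simp (maxDischargeDepth := 99)) hs

@[simp] theorem uf_re1 {s : ∀ m : Mdl.{v}, (ℕ → m.N) → m.N} (hs : UF s) :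
    UF fun m v => re1 (s m v) :=
  uf1 (F := fun m => re1 (N := m.N)) (by unfold re1; simp (maxDischargeDepth := 99)) hs

theorem mem_re0 {r : N} {n : ℕ} : nt n ∈ re0 r ↔ nt (2 * n) ∈ r := by
  unfold re0
  rw [mem_sep (by simp (maxDischargeDepth := 99)), dbl_nt]
  exact and_iff_right (nt_mem_om n)

theorem mem_re1 {r : N} {n : ℕ} : nt n ∈ re1 r ↔ nt (2 * n + 1) ∈ r := by
  unfold re1
  rw [mem_sep (by simp (maxDischargeDepth := 99)), dbl_nt, ← nt_succ]
  exact and_iff_right (nt_mem_om n)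

theorem re0_sub (r : N) : re0 r ⊆ om := fun _ hz =>
  ((mem_sep (by simp (maxDischargeDepth := 99))).1 hz).1

theorem re1_sub (r : N) : re1 r ⊆ om := fun _ hz =>
  ((mem_sep (by simp (maxDischargeDepth := 99))).1 hz).1

theorem mem_jn {r s : N} (hr : r ⊆ om) (hs : s ⊆ om) {k : ℕ} :
    nt k ∈ jn r s ↔ (∃ n, k = 2 * n ∧ nt n ∈ r) ∨ ∃ n, k = 2 * n + 1 ∧ nt n ∈ s := by
  unfold jn
  rw [mem_cup, mem_img (df_dbl (df_var 0)),
    mem_img (F := fun n => sc (dbl n)) (df_sc (df_dbl (df_var 0)))]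
  refine or_congr ?_ ?_
  · constructor
    · rintro ⟨z, hz, h⟩
      obtain ⟨n, rfl⟩ := mem_om.1 (hr z hz)
      rw [dbl_nt, nt_inj] at h
      exact ⟨n, h, hz⟩
    · rintro ⟨n, rfl, h⟩
      exact ⟨nt n, h, (dbl_nt n).symm⟩
  · constructor
    · rintro ⟨z, hz, h⟩
      obtain ⟨n, rfl⟩ := mem_om.1 (hs z hz)
      rw [dbl_nt, ← nt_succ, nt_inj] at h
      exact ⟨n, h, hz⟩
    · rintro ⟨n, rfl, h⟩
      exact ⟨nt n, h, by rw [dbl_nt, ← nt_succ]⟩

theorem jn_sub {r s : N} (hr : r ⊆ om) (hs : s ⊆ om) : jn r s ⊆ om := by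
  intro z hz
  unfold jn at hz
  rw [mem_cup, mem_img (df_dbl (df_var 0)),
    mem_img (F := fun n => sc (dbl n)) (df_sc (df_dbl (df_var 0)))] at hz
  rcases hz with ⟨y, hy, rfl⟩ | ⟨y, hy, rfl⟩
  · obtain ⟨n, rfl⟩ := mem_om.1 (hr y hy)
    rw [dbl_nt]
    exact nt_mem_om _
  · obtain ⟨n, rfl⟩ := mem_om.1 (hs y hy)
    rw [dbl_nt, ← nt_succ]
    exact nt_mem_om _

/-- two sets of natural numbers are equal if they have the same numerals -/
theorem om_ext {r s : N} (hr : r ⊆ om) (hs : s ⊆ om) (h : ∀ n, nt n ∈ r ↔ nt n ∈ s) : r = s :=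
  ZU.ext fun z => by
    constructor
    · intro hz
      obtain ⟨n, rfl⟩ := mem_om.1 (hr z hz)
      exact (h n).1 hz
    · intro hz
      obtain ⟨n, rfl⟩ := mem_om.1 (hs z hz)
      exact (h n).2 hz

theorem re0_jn {r s : N} (hr : r ⊆ om) (hs : s ⊆ om) : re0 (jn r s) = r := by
  refine om_ext (re0_sub _) hr fun n => ?_
  rw [mem_re0, mem_jn hr hs]
  constructor
  · rintro (⟨m, h, h1⟩ | ⟨m, h, h1⟩)
    · have : m = n := by omega
      rwa [this] at h1
    · omega
  · exact fun h => Or.inl ⟨n, rfl, h⟩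

theorem re1_jn {r s : N} (hr : r ⊆ om) (hs : s ⊆ om) : re1 (jn r s) = s := by
  refine om_ext (re1_sub _) hs fun n => ?_
  rw [mem_re1, mem_jn hr hs]
  constructor
  · rintro (⟨m, h, h1⟩ | ⟨m, h, h1⟩)
    · omega
    · have : m = n := by omega
      rwa [this] at h1
  · exact fun h => Or.inr ⟨n, rfl, h⟩

/-! ### Codes -/

/-- `s` is a code of a basic operation -/
def IsC (s : N) : Prop := ∃ i t u, i ∈ (nt 10 : N) ∧ s = op i (op t u)

@[simp] theorem dfn_IsC {s : (ℕ → N) → N} (hs : DF s) : Dfn fun v => IsC (s v) :=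
  dfn1 (P := IsC) (by unfold IsC; simp (maxDischargeDepth := 99)) hs

@[simp] theorem ud_IsC {s : ∀ m : Mdl.{v}, (ℕ → m.N) → m.N} (hs : UF s) :
    UD fun m v => IsC (s m v) :=
  ud1 (P := fun m => IsC (N := m.N)) (by unfold IsC; simp (maxDischargeDepth := 99)) hs

/-- the predecessors of the pair `p = (code, real)` -/
noncomputable def prE (p : N) : N := ife (IsC (fst p))
  (up (op (fst (snd (fst p))) (re0 (snd p))) (op (snd (snd (fst p))) (re1 (snd p)))) ∅

@[simp] theorem df_prE {s : (ℕ → N) → N} (hs : DF s) : DF fun v => prE (s v) :=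
  df1 (F := prE) (by unfold prE; simp (maxDischargeDepth := 99)) hs

@[simp] theorem uf_prE {s : ∀ m : Mdl.{v}, (ℕ → m.N) → m.N} (hs : UF s) :
    UF fun m v => prE (s m v) :=
  uf1 (F := fun m => prE (N := m.N)) (by unfold prE; simp (maxDischargeDepth := 99)) hs

/-- the step of the recursion -/
noncomputable def stE (A p f : N) : N := ife (IsC (fst p))
  (opI (fst (fst p)) (ap f (op (fst (snd (fst p))) (re0 (snd p))))
    (ap f (op (snd (snd (fst p))) (re1 (snd p)))))
  (ife (∃ a, fst p = op (nt 10) a) (Sh A (snd (fst p))) (snd p))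

@[simp] theorem df_stE {a s t : (ℕ → N) → N} (ha : DF a) (hs : DF s) (ht : DF t) :
    DF fun v => stE (a v) (s v) (t v) :=
  df3 (F := stE) (by unfold stE; simp (maxDischargeDepth := 99)) ha hs ht

@[simp] theorem uf_stE {a s t : ∀ m : Mdl.{v}, (ℕ → m.N) → m.N} (ha : UF a) (hs : UF s)
    (ht : UF t) : UF fun m v => stE (a m v) (s m v) (t m v) :=
  uf3 (F := fun m => stE (N := m.N)) (by
    unfold stE
    simp (maxDischargeDepth := 99) [-nt_zero]) ha hs ht

/-- the value of the code `s` at the real `r` -/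
noncomputable def ev (A s r : N) : N := WRec prE (stE A) (op s r)

@[simp] theorem df_ev {a s t : (ℕ → N) → N} (ha : DF a) (hs : DF s) (ht : DF t) :
    DF fun v => ev (a v) (s v) (t v) :=
  df3 (F := ev) (by
    unfold ev
    exact df_wrec (pr := fun x _ => prE x) (G := fun x f v => stE (v 0) x f) (df_prE (df_var 0))
      (df_stE (df_var 2) (df_var 0) (df_var 1)) (df_op (df_var 1) (df_var 2))) ha hs ht

@[simp] theorem uf_ev {a s t : ∀ m : Mdl.{v}, (ℕ → m.N) → m.N} (ha : UF a) (hs : UF s)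
    (ht : UF t) : UF fun m v => ev (a m v) (s m v) (t m v) :=
  uf3 (F := fun m => ev (N := m.N)) (by
    unfold ev
    exact uf_wrec (pr := fun _ x _ => prE x) (G := fun _ x f v => stE (v 0) x f)
      (uf_prE (uf_var 0)) (uf_stE (uf_var 2) (uf_var 0) (uf_var 1))
      (uf_op (uf_var 1) (uf_var 2))) ha hs ht

theorem nrk_op (a b : N) : nrk a < nrk (op a b) ∧ nrk b < nrk (op a b) := by
  have h1 : up a a ∈ op a b := mem_up.2 (Or.inl rfl)
  have h2 : up a b ∈ op a b := mem_up.2 (Or.inr rfl)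
  exact ⟨(nrk_lt (mem_up.2 (Or.inl rfl))).trans (nrk_lt h1),
    (nrk_lt (mem_up.2 (Or.inr rfl))).trans (nrk_lt h2)⟩

theorem prE_wf : WellFounded fun y x : N => y ∈ prE x := by
  refine Subrelation.wf (r := InvImage (· < ·) fun x : N => nrk (fst x)) ?_
    (InvImage.wf _ Ordinal.lt_wf)
  intro y x h
  change nrk (fst y) < nrk (fst x)
  unfold prE at h
  by_cases hc : IsC (fst x)
  · rw [ife_pos hc] at h
    obtain ⟨i, t, u, -, h1⟩ := hc
    rw [h1] at h ⊢
    rw [snd_op, fst_op, snd_op] at h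
    have h2 := (nrk_op t u).1.trans (nrk_op i (op t u)).2
    have h3 := (nrk_op t u).2.trans (nrk_op i (op t u)).2
    rcases mem_up.1 h with rfl | rfl
    · rw [fst_op]
      exact h2
    · rw [fst_op]
      exact h3
  · rw [ife_neg hc] at h
    exact absurd h (not_mem_em y)

theorem indP_prE : IndP (prE : N → N) := indP_of_wf prE_wf

theorem ev_eq (A s r : N) : ev A s r = stE A (op s r) (lam (prE (op s r)) (WRec prE (stE A))) :=
  wrec_eq (df_prE (df_var 0)) (df_stE (df_const A) (df_var 0) (df_var 1)) indP_prE (op s r)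

theorem stE_op {A i t u r f : N} (hi : i ∈ (nt 10 : N)) :
    stE A (op (op i (op t u)) r) f = opI i (ap f (op t (re0 r))) (ap f (op u (re1 r))) := by
  have hc : IsC (op i (op t u)) := ⟨i, t, u, hi, rfl⟩
  unfold stE
  rw [fst_op, ife_pos hc, fst_op, snd_op, snd_op, fst_op, snd_op]

/-- codes of basic operations -/
theorem ev_op {A i t u r : N} (hi : i ∈ (nt 10 : N)) :
    ev A (op i (op t u)) r = opI i (ev A t (re0 r)) (ev A u (re1 r)) := by
  have hc : IsC (op i (op t u)) := ⟨i, t, u, hi, rfl⟩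
  have hW : DF fun v : ℕ → N => WRec prE (stE A) (v 0) :=
    df_wrec (pr := fun x _ => prE x) (G := fun x f _ => stE A x f) (df_prE (df_var 0))
      (df_stE (df_const A) (df_var 0) (df_var 1)) (df_var 0)
  have hp : prE (op (op i (op t u)) r) = up (op t (re0 r)) (op u (re1 r)) := by
    unfold prE
    rw [fst_op, ife_pos hc, snd_op, snd_op, fst_op, snd_op]
  rw [ev_eq, hp, stE_op hi, ap_lam hW (mem_up.2 (Or.inl rfl)), ap_lam hW (mem_up.2 (Or.inr rfl))]
  rfl

theorem not_IsC {a : N} : ¬ IsC (op (nt 10) a) := by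
  rintro ⟨i, t, u, hi, h⟩
  obtain ⟨rfl, -⟩ := op_inj.1 h
  exact not_mem_self _ hi

/-- codes of levels -/
theorem ev_Sh (A a r : N) : ev A (op (nt 10) a) r = Sh A a := by
  rw [ev_eq]
  unfold stE
  rw [fst_op, ife_neg not_IsC, ife_pos ⟨a, rfl⟩, snd_op]

/-- the code `∅` of the real itself -/
theorem ev_em (A r : N) : ev A ∅ r = r := by
  have h1 : ∀ a b : N, (∅ : N) ≠ op a b := fun a b h => by
    have : up a a ∈ (∅ : N) := by
      rw [h]
      exact mem_up.2 (Or.inl rfl)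
    exact not_mem_em _ this
  rw [ev_eq]
  unfold stE
  rw [fst_op, ife_neg, ife_neg, snd_op]
  · rintro ⟨a, h⟩
    exact h1 _ _ h
  · rintro ⟨i, t, u, -, h⟩
    exact h1 _ _ h

/-! ### Absoluteness -/

section

variable {N' : Type w} [ZM N'] {j : N → N'} (h : TrEmb j)
include h

theorem emb_dbl (x : N) : j (dbl x) = dbl (j x) := by
  unfold dbl
  rw [h.itr (F' := fun _ y => sc (sc y)) df_dblF df_dblF fun _ y => by rw [h.sc, h.sc], h.em]

theorem emb_re0 (r : N) : j (re0 r) = re0 (j r) := by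
  unfold re0
  rw [h.sep (P' := fun n => dbl n ∈ j r) (by simp (maxDischargeDepth := 99))
    (by simp (maxDischargeDepth := 99)) fun z _ => ?_, h.om]
  rw [← emb_dbl h, h.mem_iff]

theorem emb_re1 (r : N) : j (re1 r) = re1 (j r) := by
  unfold re1
  rw [h.sep (P' := fun n => sc (dbl n) ∈ j r) (by simp (maxDischargeDepth := 99))
    (by simp (maxDischargeDepth := 99)) fun z _ => ?_, h.om]
  rw [← emb_dbl h, ← h.sc, h.mem_iff]

theorem emb_jn (r s : N) : j (jn r s) = jn (j r) (j s) := by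
  unfold jn
  rw [h.cup, h.img (F' := dbl) (df_dbl (df_var 0)) (df_dbl (df_var 0)) fun z _ => emb_dbl h z,
    h.img (F := fun n => sc (dbl n)) (F' := fun n => sc (dbl n)) (df_sc (df_dbl (df_var 0)))
      (df_sc (df_dbl (df_var 0))) fun z _ => by rw [h.sc, emb_dbl h]]

theorem emb_IsC (s : N) : IsC s ↔ IsC (j s) := by
  constructor
  · rintro ⟨i, t, u, hi, rfl⟩
    exact ⟨j i, j t, j u, by rw [← h.nt, h.mem_iff]; exact hi, by rw [h.op, h.op]⟩
  · rintro ⟨i, t, u, hi, h1⟩
    obtain ⟨i', b, rfl, hb, rfl⟩ := h.of_op h1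
    obtain ⟨t', u', rfl, rfl, rfl⟩ := h.of_op hb.symm
    refine ⟨i', t', u', ?_, rfl⟩
    rwa [← h.nt, h.mem_iff] at hi

theorem emb_prE (p : N) : j (prE p) = prE (j p) := by
  unfold prE
  rw [h.ife (p' := IsC (fst (j p))) (by rw [emb_IsC h, h.fst]), h.up, h.em]
  simp only [h.fst, h.snd, h.op, emb_re0 h, emb_re1 h]

theorem emb_stE (A p f : N) : j (stE A p f) = stE (j A) (j p) (j f) := by
  have e : (∃ a, fst p = op (nt 10) a) ↔ ∃ a, fst (j p) = op (nt 10) a := by
    constructor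
    · rintro ⟨a, ha⟩
      exact ⟨j a, by rw [← h.fst, ha, h.op, h.nt]⟩
    · rintro ⟨a, ha⟩
      rw [← h.fst] at ha
      obtain ⟨i, b, h1, h2, h3⟩ := h.of_op ha
      rw [← h.nt, h.eq_iff] at h1
      exact ⟨b, by rw [h3, h1]⟩
  unfold stE
  rw [h.ife (p' := IsC (fst (j p))) (by rw [emb_IsC h, h.fst]), h.ife e, emb_opI h, emb_Sh h]
  simp only [h.fst, h.snd, h.ap, h.op, emb_re0 h, emb_re1 h]

/-- **Absoluteness of the values of codes** -/
theorem emb_ev (A s r : N) : j (ev A s r) = ev (j A) (j s) (j r) := by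
  unfold ev
  rw [h.wrec (G' := stE (j A)) (df_prE (df_var 0)) (df_stE (df_const A) (df_var 0) (df_var 1))
    (df_prE (df_var 0)) (df_stE (df_const _) (df_var 0) (df_var 1)) indP_prE indP_prE (emb_prE h)
    (emb_stE h A), h.op]

end

/-! ### Every set of `L(ℝ)` has a code -/

/-- **Codes.** If `j : M → N` is an embedding of models with the same ordinals, every set of `L(ℝ)` is the
value of a code of `M` at a real. -/
theorem ev_surj {M : Type w} [ZM M] {j : M → N} (h : TrEmb j)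
    (ho : ∀ α : N, ZU.Ord α → ∃ β, α = j β) {z : N} (hz : InL (pw om) z) :
    ∃ (s : M) (r : N), r ∈ (pw om : N) ∧ z = ev (pw om) (j s) r := by
  obtain ⟨α, hα, hz⟩ := hz
  revert hα z
  refine ind (P := fun α => ∀ {z : N}, ZU.Ord α → z ∈ Sh (pw om) α →
    ∃ (s : M) (r : N), r ∈ (pw om : N) ∧ z = ev (pw om) (j s) r) ?_ α
  intro α ih z hα hz
  rcases mem_Sh.1 hz with h1 | ⟨β, hβ, h1⟩
  · exact ⟨∅, z, h1, by rw [h.em, ev_em]⟩
  · have hO := hα.mem hβ
    rcases mem_Nx.1 h1 with h1 | rfl | ⟨i, x, y, hi, hx, hy, rfl⟩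
    · exact ih β hβ hO h1
    · obtain ⟨β', rfl⟩ := ho β hO
      exact ⟨op (nt 10) β', ∅, mem_pw.2 (em_sub _), by rw [h.op, h.nt, ev_Sh]⟩
    · obtain ⟨s, r, hr, rfl⟩ := ih β hβ hO hx
      obtain ⟨s', r', hr', rfl⟩ := ih β hβ hO hy
      obtain ⟨n, hn, rfl⟩ := mem_nt.1 hi
      rw [mem_pw] at hr hr'
      refine ⟨op (nt n) (op s s'), jn r r', mem_pw.2 (jn_sub hr hr'), ?_⟩
      rw [h.op, h.op, h.nt, ev_op hi, re0_jn hr hr', re1_jn hr hr']

end LRM
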