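import Pool.Agent.LRM.AbsA
import Pool.Agent.LBB.GmS

/-! # LRM: a transitive model of ZF in which all sets are covered by functions on ordinals is a model of ZFC

(problem MP_328cd5_lc; L(R) side; architect helper16)

PROOF of `mod_of_wo`. Apply `LBB.mod_of_zfc`. The axioms of ZF are `LRS.zf_of` (fields of the same form; see `STP.ZFC` in `STP/Fml.lean`). Choice:
let `x : W`, all `y ∈ x` nonempty and pairwise disjoint. `h (uni x)` gives `o`, `f` with `Ord o`, `IsF f o`, `uni x ⊆ rg f`. For `y ∈ x` let `g y` be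
`ap f ξ` for the least `ξ ∈ o` with `ap f ξ ∈ y` (or use `ZU.choice h`: applied to the relation `R y z := z ∈ y` on the set `x`, it gives a
definable function `F` with `F y ∈ y` for all `y ∈ x`). The set `c = img x F` (`mem_img`) has exactly one element in common with every `y ∈ x`. The
relation `CPY.Em W a b` is `a ∈ b` for `a b : W` (`Iff.rfl`). -/

set_option autoImplicit false

namespace LRM

open STP STP.Fml ZU ZL

theorem mod_of_wo {W : Set ZFSet.{0}} [TM W] (h : WO W) : CPY.Mod W := by
  have z := LRS.zf_of W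
  refine LBB.mod_of_zfc (TM.tr (M := W)) ⟨z.ext, z.found, z.pair, z.union, z.power, z.infinity,
    z.separation, z.replacement, ?_⟩
  intro x hne hdj
  obtain ⟨F, hF, h1⟩ := ZU.choice h (R := fun y z : W => z ∈ y)
    (dfn_mem (df_var 1) (df_var 0)) (A := x) (fun y hy => hne y hy)
  refine ⟨img x F, fun y hy => ⟨F y, ⟨(mem_img hF).2 ⟨y, hy, rfl⟩, h1 y hy⟩, ?_⟩⟩
  rintro w ⟨hw, hwy⟩
  obtain ⟨y', hy', rfl⟩ := (mem_img hF).1 hw
  by_cases e : y' = y
  · subst e
    rfl
  · exact absurd ⟨F y', h1 y' hy', hwy⟩ (hdj y' y hy' hy e)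

end LRM
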