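import Pool.Agent.LRM.Sep
import Pool.Agent.ZU.Trans

/-! # LRM: inner models are models of ZF

(library; no sorry in this file) -/

universe u v w

namespace LRM

open STP STP.Fml ZU ZL

/-! ### Transport of the axioms -/

section

variable {N : Type v} {N' : Type w} (e : N ≃ N') {E : N → N → Prop}

theorem sat_equiv (φ : Fml) : ∀ v : ℕ → N',
    sat (fun x y => E (e.symm x) (e.symm y)) φ v ↔ sat E φ fun i => e.symm (v i) := by
  induction φ with
  | mem i j => exact fun v => Iff.rfl
  | eq i j => exact fun v => e.symm.injective.eq_iff.symm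
  | bot => exact fun v => Iff.rfl
  | imp φ ψ h1 h2 => exact fun v => imp_congr (h1 v) (h2 v)
  | all φ h1 =>
    intro v
    have h2 : ∀ x : N', (fun i => e.symm (cns x v i)) = cns (e.symm x) fun i => e.symm (v i) :=
      fun x => by
        funext i
        cases i <;> rfl
    constructor
    · intro h x
      have := (h1 _).1 (h (e x))
      rwa [h2, e.symm_apply_apply] at this
    · intro h x
      refine (h1 _).2 ?_
      rw [h2]
      exact h (e.symm x)

theorem zfa_equiv (h : ZFA E) : ZFA fun x y : N' => E (e.symm x) (e.symm y) where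
  ext x y hxy := e.symm.injective (h.ext _ _ fun z => by
    have := hxy (e z)
    rwa [e.symm_apply_apply] at this)
  pair x y := by
    obtain ⟨z, hz⟩ := h.pair (e.symm x) (e.symm y)
    refine ⟨e z, fun w => ?_⟩
    rw [e.symm_apply_apply, hz, e.symm.injective.eq_iff, e.symm.injective.eq_iff]
  union x := by
    obtain ⟨y, hy⟩ := h.union (e.symm x)
    refine ⟨e y, fun z => ?_⟩
    rw [e.symm_apply_apply, hy]
    constructor
    · rintro ⟨w, h1, h2⟩
      exact ⟨e w, by rwa [e.symm_apply_apply], by rwa [e.symm_apply_apply]⟩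
    · rintro ⟨w, h1, h2⟩
      exact ⟨_, h1, h2⟩
  power x := by
    obtain ⟨y, hy⟩ := h.power (e.symm x)
    refine ⟨e y, fun z => ?_⟩
    rw [e.symm_apply_apply, hy]
    constructor
    · exact fun h1 w => h1 _
    · intro h1 w hw
      have := h1 (e w)
      rw [e.symm_apply_apply] at this
      exact this hw
  infinity := by
    obtain ⟨x, ⟨y, h1, h2⟩, h3⟩ := h.infinity
    refine ⟨e x, ⟨e y, by rwa [e.symm_apply_apply, e.symm_apply_apply], fun z => ?_⟩,
      fun y hy => ?_⟩
    · rw [e.symm_apply_apply]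
      exact h2 _
    · rw [e.symm_apply_apply] at hy
      obtain ⟨z, h4, h5⟩ := h3 _ hy
      refine ⟨e z, by rwa [e.symm_apply_apply, e.symm_apply_apply], fun w => ?_⟩
      rw [e.symm_apply_apply, h5, e.symm.injective.eq_iff]
  separation φ v x := by
    obtain ⟨y, hy⟩ := h.separation φ (fun i => e.symm (v i)) (e.symm x)
    refine ⟨e y, fun z => ?_⟩
    rw [e.symm_apply_apply, hy, sat_equiv]
    have : (fun i => e.symm (cns z v i)) = cns (e.symm z) fun i => e.symm (v i) := by
      funext i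
      cases i <;> rfl
    rw [this]
  replacement φ v x hx := by
    have h2 : ∀ x y : N', (fun i => e.symm (cns x (cns y v) i)) =
        cns (e.symm x) (cns (e.symm y) fun i => e.symm (v i)) := fun x y => by
      funext i
      rcases i with _ | _ | i <;> rfl
    obtain ⟨y, hy⟩ := h.replacement φ (fun i => e.symm (v i)) (e.symm x) (by
      intro z hz
      obtain ⟨w, hw, hw'⟩ := hx (e z) (by rwa [e.symm_apply_apply])
      beta_reduce at hw
      rw [sat_equiv, h2, e.symm_apply_apply] at hw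
      refine ⟨e.symm w, hw, fun u hu => ?_⟩
      have := hw' (e u) (by
        beta_reduce
        rw [sat_equiv, h2, e.symm_apply_apply, e.symm_apply_apply]
        exact hu)
      rw [← this, e.symm_apply_apply])
    refine ⟨e y, fun w => ?_⟩
    rw [e.symm_apply_apply, hy]
    constructor
    · rintro ⟨z, h3, h4⟩
      refine ⟨e z, by rwa [e.symm_apply_apply], ?_⟩
      rw [sat_equiv, h2, e.symm_apply_apply]
      exact h4
    · rintro ⟨z, h3, h4⟩
      refine ⟨_, h3, ?_⟩
      rw [sat_equiv, h2] at h4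
      exact h4

end

/-! ### The axioms in an inner model -/

variable {N : Type v} [ZM N] {K : N → Prop}

theorem Inn.sepS (h : Inn K) (φ : Fml) (v : ℕ → {z : N // K z}) (x : {z : N // K z}) :
    ∃ y : {z : N // K z}, ∀ z : {z : N // K z}, z.1 ∈ y.1 ↔ z.1 ∈ x.1 ∧
      sat (fun x y : {z : N // K z} => x.1 ∈ y.1) φ (cns z v) := by
  obtain ⟨y, hy, h1⟩ := h.sepK φ (fun i => (v i).1) (fun i => (v i).2) x.2
  refine ⟨⟨y, hy⟩, fun z => (h1 z.1).trans (and_congr_right fun _ => ?_)⟩
  rw [← satR_iff]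
  have : (fun i => (cns z v i).1) = cns z.1 fun i => (v i).1 := by
    funext i
    cases i <;> rfl
  rw [this]

/-- **An inner model is a model of ZF** -/
theorem Inn.zfa (h : Inn K) : ZFA fun x y : {z : N // K z} => x.1 ∈ y.1 where
  ext x y hxy := Subtype.ext (ZU.ext fun z =>
    ⟨fun hz => (hxy ⟨z, h.tr _ _ x.2 hz⟩).1 hz, fun hz => (hxy ⟨z, h.tr _ _ y.2 hz⟩).2 hz⟩)
  pair x y := ⟨⟨up x.1 y.1, h.kup x.2 y.2⟩, fun w => by
    simp only [mem_up, Subtype.ext_iff]⟩
  union x := ⟨⟨uni x.1, h.kuni x.2⟩, fun z => by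
    simp only [mem_uni]
    constructor
    · rintro ⟨w, hw, hz⟩
      exact ⟨⟨w, h.tr _ _ x.2 hw⟩, hw, hz⟩
    · rintro ⟨w, hw, hz⟩
      exact ⟨w.1, hw, hz⟩⟩
  power x := by
    obtain ⟨b, hb, hb'⟩ := h.au (sep (pw x.1) K) fun z hz => ((mem_sep h.dfn).1 hz).2
    obtain ⟨y, hy⟩ := h.sepS (fSub 0 1) (fun _ => x) ⟨b, hb⟩
    refine ⟨y, fun z => (hy z).trans ?_⟩
    rw [sat_fSub]
    refine and_iff_right_of_imp fun h1 => hb' _ ((mem_sep h.dfn).2 ⟨mem_pw.2 fun w hw => ?_, z.2⟩)
    exact h1 ⟨w, h.tr _ _ z.2 hw⟩ hw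
  infinity := by
    obtain ⟨b, hb, h0, h1⟩ := h.inf
    refine ⟨⟨b, hb⟩, ⟨⟨∅, h.kem⟩, h0, fun z => not_mem_em z.1⟩, fun y hy => ?_⟩
    exact ⟨⟨sc y.1, h.ksc y.2⟩, h1 _ hy, fun w => by
      simp only [mem_sc, Subtype.ext_iff]⟩
  separation φ v x := h.sepS φ v x
  replacement φ v x hx := by
    have hR : Dfn fun u : ℕ → N => satR K φ (cns (u 1) (cns (u 0) fun i => (v i).1)) := by
      refine (dfn_satR h.dfn φ (fun i u => match i with
        | 0 => u 1
        | 1 => u 0
        | i + 2 => (v i).1) ?_).congr fun u => ?_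
      · intro i
        rcases i with _ | _ | i
        · exact df_var 1
        · exact df_var 0
        · exact df_const _
      · have : (cns (u 1) (cns (u 0) fun i => (v i).1)) = fun i => (match i with
            | 0 => u 1
            | 1 => u 0
            | i + 2 => (v i).1 : N) := by
          funext i
          rcases i with _ | _ | i <;> rfl
        rw [this]
    have key : ∀ w z : {z : N // K z}, satR K φ (cns w.1 (cns z.1 fun i => (v i).1)) ↔
        sat (fun x y : {z : N // K z} => x.1 ∈ y.1) φ (cns w (cns z v)) := by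
      intro w z
      rw [← satR_iff]
      have : (fun i => (cns w (cns z v) i).1) = cns w.1 (cns z.1 fun i => (v i).1) := by
        funext i
        rcases i with _ | _ | i <;> rfl
      rw [this]
    obtain ⟨b, hb, hb'⟩ := h.collK (R := fun z w => satR K φ (cns w (cns z fun i => (v i).1)))
      hR x.1
    obtain ⟨y, hy⟩ := h.sepS (ex (an (.mem 0 2) (CPI.ren (fun i => match i with
      | 0 => 1
      | 1 => 0
      | i + 2 => i + 3) φ))) (cns x v) ⟨b, hb⟩
    have key2 : ∀ w : {z : N // K z}, sat (fun x y : {z : N // K z} => x.1 ∈ y.1)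
        (ex (an (.mem 0 2) (CPI.ren (fun i => match i with
          | 0 => 1
          | 1 => 0
          | i + 2 => i + 3) φ))) (cns w (cns x v)) ↔
        ∃ z : {z : N // K z}, z.1 ∈ x.1 ∧
          sat (fun x y : {z : N // K z} => x.1 ∈ y.1) φ (cns w (cns z v)) := by
      intro w
      rw [sat_ex]
      refine exists_congr fun z => ?_
      rw [sat_an, CPI.sat_ren]
      have : cns z (cns w (cns x v)) ∘ (fun i => match i with
          | 0 => 1
          | 1 => 0
          | i + 2 => i + 3) = cns w (cns z v) := by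
        funext i
        rcases i with _ | _ | i <;> rfl
      rw [this]
      rfl
    refine ⟨y, fun w => (hy w).trans ?_⟩
    rw [key2]
    refine and_iff_right_of_imp ?_
    rintro ⟨z, hz, h1⟩
    obtain ⟨w', hw', h2⟩ := hb' z.1 hz ⟨w.1, w.2, (key w z).2 h1⟩
    have hw'K : K w' := h.tr _ _ hb hw'
    obtain ⟨u, hu, hu'⟩ := hx z hz
    have e1 := hu' w h1
    have e2 := hu' ⟨w', hw'K⟩ ((key ⟨w', hw'K⟩ z).1 h2)
    rw [e1, ← e2]
    exact hw'

/-! ### Inner models of transitive sets -/

/-- the sets which are in the inner model `K` of `M` -/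
def KS {M : Set ZFSet.{u}} (K : M → Prop) : Set ZFSet.{u} := {z | ∃ h : z ∈ M, K ⟨z, h⟩}

theorem KS_sub {M : Set ZFSet.{u}} (K : M → Prop) : KS K ⊆ M := fun _ h => h.1

theorem mem_KS {M : Set ZFSet.{u}} {K : M → Prop} {x : M} : x.1 ∈ KS K ↔ K x :=
  ⟨fun h => h.2, fun h => ⟨x.2, h⟩⟩

/-- the elements of `KS K` -/
def eKS {M : Set ZFSet.{u}} (K : M → Prop) : {z : M // K z} ≃ KS K where
  toFun x := ⟨x.1.1, x.1.2, x.2⟩
  invFun x := ⟨⟨x.1, x.2.1⟩, x.2.2⟩
  left_inv _ := rfl
  right_inv _ := rfl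

theorem Inn.tm {M : Set ZFSet.{u}} [TM M] {K : M → Prop} (h : Inn K) : TM (KS K) where
  tr x hx y hy := by
    obtain ⟨h1, h2⟩ := hx
    have h3 : y ∈ M := TM.tr x h1 y hy
    exact ⟨h3, h.tr ⟨x, h1⟩ ⟨y, h3⟩ h2 hy⟩
  ax := zfa_equiv (eKS K) h.zfa

end LRM
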