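import Pool.Agent.LRM.Lev
import Pool.Agent.LRM.Zfa

/-! # LRM: ordinals of inner models, the models `L(A)`

(library; no sorry in this file) -/

universe u v w

namespace LRM

open STP STP.Fml ZU ZL

variable {N : Type v} [ZM N] {K : N → Prop} {A : N}

theorem Inn.ord_sat (h : Inn K) (z : {z : N // K z}) :
    IsOrd (fun x y : {z : N // K z} => x.1 ∈ y.1) z ↔ ZU.Ord z.1 := by
  have ht : ∀ z : {z : N // K z}, IsTr (fun x y : {z : N // K z} => x.1 ∈ y.1) z ↔ Tr z.1 := by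
    intro z
    constructor
    · intro h1 x hx y hy
      have hxK := h.tr _ _ z.2 hx
      exact h1 ⟨x, hxK⟩ hx ⟨y, h.tr _ _ hxK hy⟩ hy
    · intro h1 x hx y hy
      exact h1 x.1 hx y.1 hy
  constructor
  · rintro ⟨h1, h2⟩
    refine ⟨(ht z).1 h1, fun y hy => ?_⟩
    exact (ht ⟨y, h.tr _ _ z.2 hy⟩).1 (h2 ⟨y, h.tr _ _ z.2 hy⟩ hy)
  · rintro ⟨h1, h2⟩
    exact ⟨(ht z).2 h1, fun y hy => (ht y).2 (h2 y.1 hy)⟩

/-- an inner model contains all ordinals -/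
theorem Inn.ord (h : Inn K) : ∀ α : N, ZU.Ord α → K α := by
  intro α
  refine ind (P := fun α => ZU.Ord α → K α) ?_ α
  intro α ih hα
  obtain ⟨b, hb, hab⟩ := h.au α fun x hx => ih x hx (hα.mem hx)
  obtain ⟨O, hO⟩ := h.sepS (fOrd 0) (fun _ => ⟨b, hb⟩) ⟨b, hb⟩
  have hO' : ∀ z, K z → (z ∈ O.1 ↔ z ∈ b ∧ ZU.Ord z) := by
    intro z hz
    have := hO ⟨z, hz⟩
    rw [sat_fOrd] at this
    exact this.trans (and_congr_right fun _ => h.ord_sat ⟨z, hz⟩)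
  by_cases hc : ∃ z, z ∈ O.1 ∧ ¬ z ∈ α
  · obtain ⟨z, hz, hzα⟩ := hc
    have hzK := h.tr _ _ O.2 hz
    rcases ord_tri ((hO' z hzK).1 hz).2 hα with h1 | rfl | h1
    · exact absurd h1 hzα
    · exact hzK
    · exact h.tr _ _ hzK h1
  · have : α = O.1 := ext fun z => by
      constructor
      · intro hz
        exact (hO' z (ih z hz (hα.mem hz))).2 ⟨hab z hz, hα.mem hz⟩
      · intro hz
        by_contra h1
        exact hc ⟨z, hz, h1⟩
    rw [this]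
    exact O.2

/-! ### The models `L(A)` of a transitive model -/

variable {M : Set ZFSet.{u}} [TM M]

/-- the class `L(A)` of `M` as a set of sets -/
def LA (A : M) : Set ZFSet.{u} := KS (InL A)

theorem LA_tm {A : M} (hA : Tr A) : TM (LA A) := (inn_L hA).tm

theorem LA_sub (A : M) : LA A ⊆ M := KS_sub _

theorem mem_LA {A x : M} : x.1 ∈ LA A ↔ InL A x := mem_KS

theorem LA_self {A : M} : A.1 ∈ LA A := mem_LA.2 inL_self

theorem LA_ord {A : M} (hA : Tr A) {α : M} (hα : ZU.Ord α) : α.1 ∈ LA A :=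
  mem_LA.2 ((inn_L hA).ord α hα)

/-- **Minimality of `L(A)`** -/
theorem LA_min {W : Set ZFSet.{u}} [TM W] (hW : W ⊆ M) {A : M} (hA : A.1 ∈ W)
    (ho : ∀ α : M, ZU.Ord α → α.1 ∈ W) : LA A ⊆ W := by
  rintro z ⟨hz, h⟩
  have he := emb_incl hW
  have h1 : InL (Set.inclusion hW ⟨A.1, hA⟩) (⟨z, hz⟩ : M) := h
  rw [L_min he fun α hα => ⟨⟨α.1, ho α hα⟩, rfl⟩] at h1
  obtain ⟨w, hw, -⟩ := h1
  have : z = w.1 := congrArg Subtype.val hw
  rw [this]
  exact w.2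

/-- `L(A)` computed in an inner model which contains `A` and all ordinals -/
theorem LA_abs {W : Set ZFSet.{u}} [TM W] (hW : W ⊆ M) {A : M} (hA : A.1 ∈ W)
    (ho : ∀ α : M, ZU.Ord α → α.1 ∈ W) : LA (⟨A.1, hA⟩ : W) = LA A := by
  have he := emb_incl hW
  ext z
  constructor
  · rintro ⟨hz, h⟩
    refine ⟨hW hz, ?_⟩
    exact (L_min he (fun α hα => ⟨⟨α.1, ho α hα⟩, rfl⟩) (A := ⟨A.1, hA⟩)).2 ⟨⟨z, hz⟩, rfl, h⟩
  · rintro ⟨hz, h⟩
    obtain ⟨w, hw, h1⟩ := (L_min he (fun α hα => ⟨⟨α.1, ho α hα⟩, rfl⟩) (A := ⟨A.1, hA⟩)).1 h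
    have : z = w.1 := congrArg Subtype.val hw
    subst this
    exact ⟨w.2, h1⟩

end LRM
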