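import Pool.Agent.LRM.LOnC
import Pool.Agent.LRM.LOnD
import Pool.Agent.LRM.OrdK

/-! # LRM: the constructible sets of a model of ZF are a model of ZFC

(problem MP_328cd5_lc; L(R) side; architect helper16)

`sg ∅ = {∅}`. The class `L({∅})` of a transitive model `N` of ZF is a transitive model of ZFC. -/

set_option autoImplicit false

universe v

namespace LRM

open STP STP.Fml ZU ZL

theorem tr_sg0 {N : Type v} [ZM N] : Tr (sg (∅ : N)) := fun x hx y hy => by
  rw [mem_sg] at hx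
  subst hx
  exact absurd hy (not_mem_em _)

theorem lone_mod (N : Set ZFSet.{0}) [TM N] : CPY.Mod (LA (ZU.sg ∅ : N)) := by
  have tL : TM (LA (ZU.sg ∅ : N)) := LA_tm tr_sg0
  have h0 : (ZU.sg ∅ : N).1 ∈ LA (ZU.sg ∅ : N) := LA_self
  have h1 := LA_abs (M := N) (LA_sub _) h0 fun α hα => LA_ord tr_sg0 hα
  have he : TrEmb (Set.inclusion (LA_sub (ZU.sg ∅ : N))) := emb_incl (LA_sub _)
  have h2 : (⟨(ZU.sg ∅ : N).1, h0⟩ : LA (ZU.sg ∅ : N)) = ZU.sg ∅ := by
    refine he.inj _ _ ?_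
    rw [he.sg, he.em]
  refine mod_of_wo (wo_of fun x => ?_)
  rw [h2] at h1
  have h3 : x.1 ∈ LA (ZU.sg ∅ : LA (ZU.sg ∅ : N)) := by
    rw [h1]
    exact x.2
  exact mem_LA.1 h3

end LRM
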