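import Pool.Agent.LRM.TyD
import Pool.Agent.LRM.BddA
import Pool.Agent.COD.Gna

/-! # LRM: typed names

(problem MP_328cd5_lc; L(R) side, bridge; no sorry in this file)

`ext_sel`: `{z | ∃ p ∈ G, (z, p) ∈ R}` is in `M[G]` for `R` in `M`. `om_iff`: the natural numbers are the codes of the
`y < nx ⊥`. `exists_name`: for `x` in `M[G]` there is an internal family `U t` of open sets of conditions such that
`zc t ∈ x` if and only if some `g ∈ G` is in `U t`. -/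

set_option autoImplicit false

universe u v w

namespace CPY

open STP ZU

theorem ext_sel {M : Set ZFSet.{0}} (hM : Mod M) {Q : Po} {G : Set ZFSet.{0}} (h : IsPo M Q) (hG : Gen M Q G)
    {R : ZFSet.{0}} (hR : R ∈ M) (hR' : ∀ w ∈ R, ∃ a b, w = ZFSet.pair a b) :
    ∃ y ∈ Ext M G, ∀ z, z ∈ y ↔ ∃ p ∈ G, ZFSet.pair z p ∈ R := by
  have tM := hM.tm
  let Rm : M := ⟨R, hR⟩
  have hD : DF fun v : ℕ → M => op (chkM h.om (fst (v 0))) (snd (v 0)) :=
    df_op (df_chkM (df_const _) (df_fst (df_var 0))) (df_snd (df_var 0))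
  let ν : M := img Rm fun w => op (chkM h.om (fst w)) (snd w)
  have hν : ∀ w : M, w ∈ ν ↔ ∃ z, z ∈ Rm ∧ w = op (chkM h.om (fst z)) (snd z) := fun w =>
    mem_img (F := fun w : M => op (chkM h.om (fst w)) (snd w)) hD
  refine ⟨val G ν.1, ⟨ν.1, ν.2, rfl⟩, fun z => ?_⟩
  rw [mem_val]
  constructor
  · rintro ⟨y, p, h1, hp, rfl⟩
    obtain ⟨y, p, rfl, rfl, h2⟩ := mpair_ex h1
    obtain ⟨w, hw, h3⟩ := (hν _).1 h2
    obtain ⟨a, b, hab⟩ := hR' w.1 hw
    have h4 : ZFSet.pair a b ∈ Rm.1 := hab ▸ hw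
    obtain ⟨a, b, rfl, rfl, h5⟩ := mpair_ex h4
    have h6 : w = op a b := Subtype.ext (by rw [hab, mop_val])
    rw [h6, fst_op, snd_op] at h3
    obtain ⟨rfl, rfl⟩ := op_inj.1 h3
    refine ⟨p.1, hp, ?_⟩
    rw [chkM_val (o := h.om) rfl, val_chk hG.one]
    exact hab ▸ hw
  · rintro ⟨p, hp, h1⟩
    have h1' : ZFSet.pair z p ∈ Rm.1 := h1
    obtain ⟨z, p, rfl, rfl, h2⟩ := mpair_ex h1'
    refine ⟨(chkM h.om z).1, p.1, ?_, hp, ?_⟩
    · rw [← mop_val]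
      exact (hν _).2 ⟨op z p, h2, by rw [fst_op, snd_op]⟩
    · rw [chkM_val (o := h.om) rfl, val_chk hG.one]

end CPY

namespace LRT

open WCal CPY COD

variable {M : Set ZFSet.{0}} [hM : Fact (CPY.Mod M)] {K : Type v} [WTy M K] [KTy M K]

theorem zn_zc (hK : OrdC M K) {y : K} (h : (Set.Iio y).Finite) : ∃ n : ℕ, zc M y = zn n := by
  induction y using WellFoundedLT.induction with
  | ind y ih =>
    by_cases hy : y = ⊥
    · refine ⟨0, ?_⟩
      subst hy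
      apply ZFSet.ext
      intro z
      rw [hK]
      refine iff_of_false ?_ (ZFSet.notMem_empty _)
      rintro ⟨x, hx, -⟩
      exact not_lt_bot hx
    · obtain ⟨x, hx, hx'⟩ := Set.Finite.exists_maximalFor (fun x => x) _ h ⟨⊥, bot_lt_iff_ne_bot.2 hy⟩
      have hx1 : x < y := hx
      obtain ⟨n, hn⟩ := ih x hx1 (h.subset fun z hz => lt_trans hz hx1)
      refine ⟨n + 1, ?_⟩
      apply ZFSet.ext
      intro z
      show z ∈ zc M y ↔ z ∈ insert (zn n) (zn n)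
      rw [hK, ZFSet.mem_insert_iff, ← hn, hK]
      constructor
      · rintro ⟨w, hw, rfl⟩
        rcases lt_trichotomy w x with h1 | h1 | h1
        · exact Or.inr ⟨w, h1, rfl⟩
        · exact Or.inl (by rw [h1])
        · exact absurd (hx' (show w ∈ Set.Iio y from hw) h1.le) (not_le.2 h1)
      · rintro (rfl | ⟨w, hw, rfl⟩)
        · exact ⟨x, hx1, rfl⟩
        · exact ⟨w, hw.trans hx1, rfl⟩

theorem zc_zn (B : Bs M K) (hK : OrdC M K) (n : ℕ) : ∃ y : K, y < nx M (⊥ : K) ∧ zc M y = zn n := by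
  induction n with
  | zero =>
    refine ⟨⊥, lt_nx B ⊥, ?_⟩
    apply ZFSet.ext
    intro z
    rw [hK]
    refine iff_of_false ?_ (ZFSet.notMem_empty _)
    rintro ⟨x, hx, -⟩
    exact not_lt_bot hx
  | succ n ih =>
    obtain ⟨x, hx, hxn⟩ := ih
    obtain ⟨y, hy, hy'⟩ := (lim_cd B (cd_nx B (⊥ : K))).2 x hx
    have hne : {y : K | x < y}.Nonempty := ⟨y, hy⟩
    refine ⟨(wellFounded_lt (α := K)).min _ hne, ?_, ?_⟩
    · exact lt_of_le_of_lt (not_lt.1 ((wellFounded_lt (α := K)).not_lt_min _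
        (Set.mem_ofPred.2 hy))) hy'
    · have h1 : x < (wellFounded_lt (α := K)).min _ hne := (wellFounded_lt (α := K)).min_mem _ hne
      apply ZFSet.ext
      intro z
      show _ ↔ z ∈ insert (zn n) (zn n)
      rw [hK, ZFSet.mem_insert_iff, ← hxn, hK]
      constructor
      · rintro ⟨w, hw, rfl⟩
        rcases lt_trichotomy w x with h2 | h2 | h2
        · exact Or.inr ⟨w, h2, rfl⟩
        · exact Or.inl (by rw [h2])
        · exact absurd hw ((wellFounded_lt (α := K)).not_lt_min _ (Set.mem_ofPred.2 h2))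
      · rintro (rfl | ⟨w, hw, rfl⟩)
        · exact ⟨x, h1, rfl⟩
        · exact ⟨w, hw.trans h1, rfl⟩

/-- the natural numbers are the codes of the elements below `nx ⊥` -/
theorem om_iff (B : Bs M K) (hK : OrdC M K) {z : ZFSet.{0}} :
    (∃ n : ℕ, z = zn n) ↔ ∃ y : K, y < nx M (⊥ : K) ∧ z = zc M y := by
  constructor
  · rintro ⟨n, rfl⟩
    obtain ⟨y, hy, h⟩ := zc_zn (K := K) B hK n
    exact ⟨y, hy, h.symm⟩
  · rintro ⟨y, hy, rfl⟩
    exact zn_zc hK (finite_Iio B hy)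

/-- **typed names** -/
theorem exists_name {D : CPD M K} (B : Bs M K) (P : CPP D) {I : St M K} {G : Set ZFSet.{0}}
    (hG : Gen M (QP D I) G) {T : Type w} [WTy M T] {x : ZFSet.{0}} (hx : x ∈ Ext M G) :
    ∃ U : T → PQ M K → Prop, IP M (fun z : T × PQ M K => U z.1 z.2) ∧ (∀ t p, U t p → VI D I p) ∧
      (∀ t p q, VI D I p → U t q → LeQ D p q → U t p) ∧ ∀ t : T, zc M t ∈ x ↔ ∃ p, zc M p ∈ G ∧ U t p := by
  have hB : Fact (Bs M K) := ⟨B⟩
  have hP : Fact (CPP D) := ⟨P⟩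
  obtain ⟨u, hu1, hu2, hu3⟩ := hM.out.nice (QP_isPo B P I) hG (rg M T) hx
  have hi : IP M (fun z : T × PQ M K => ZFSet.pair (zc M z.1) (zc M z.2) ∈ u.1) := by
    refine IP.iff_mem.2 ⟨u.1, u.2, fun z => ?_⟩
    rw [← zc_pair]
    exact Iff.rfl
  refine ⟨fun t p => VI D I p ∧ ∃ q, VI D I q ∧ LeQ D p q ∧ ZFSet.pair (zc M t) (zc M q) ∈ u.1, ?_,
    fun t p h => h.1, ?_, fun t => ?_⟩
  · refine IP.and (ip_VI (IF.const I) IF.snd) (IP.ex (IP.and (ip_VI (IF.const I) IF.snd) (IP.and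
      (ip_LeQ (IF.snd.comp IF.fst) IF.snd) ?_)))
    exact IP.comp2 (P := fun (t : T) (q : PQ M K) => ZFSet.pair (zc M t) (zc M q) ∈ u.1) hi
      (IF.fst.comp IF.fst) IF.snd
  · rintro t p q hp ⟨hq, r, hr, hqr, h⟩ hpq
    exact ⟨hp, r, hr, LeQ.trans P hq.1 hr.1 hpq hqr, h⟩
  · rw [hu3 (zc M t) (cd_mem (N := M) t : WM.E (cd M t) (rg M T))]
    constructor
    · rintro ⟨z, hz, h⟩
      obtain ⟨p, hp, rfl⟩ := exists_of_P (hG.sub z hz)
      exact ⟨p, hz, hp, p, hp, LeQ.refl p, h⟩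
    · rintro ⟨p, hp, hpV, q, hq, hpq, h⟩
      exact ⟨zc M q, hG.up _ hp _ (le_iff.2 ⟨hpV, hq, hpq⟩), h⟩

end LRT
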