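import Pool.Agent.LRM.PSeven
import Pool.Agent.LRM.TyN
import Pool.Agent.LRM.AbsA

/-! # LRM: new reals outside of the submodels (P7), the form for the assembly

(problem MP_328cd5_lc; L(R) side, bridge; helper69; no sorry in this file) -/

set_option autoImplicit false

universe u v w

namespace LRT

open WCal CPY COD

variable {M : Set ZFSet.{0}} [hM : Fact (CPY.Mod M)] {K : Type v} [WTy M K] [KTy M K] {D : CPD M K}

/-- `ω` is the code of `nx ⊥` -/
theorem zc_nx_bot (B : Bs M K) (hK : OrdC M K) : zc M (nx M (⊥ : K)) = ZFSet.omega := by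
  apply ZFSet.ext
  intro z
  rw [hK, LRS.mem_omega]
  refine (om_iff (K := K) B hK (z := z)).symm.trans ?_
  exact exists_congr fun n => by rw [LRS.nat_zn]

/-- **(P7)**: a real of `M[G]` which is not in `M[r a '' G]` -/
theorem new_in (B : Bs M K) (P : CPP D) (hK : OrdC M K) {G : Set ZFSet.{0}} (hG : Gen M (QA D) G) (a : Idx M K) :
    ∃ x ∈ Ext M G, x ⊆ ZFSet.omega ∧ x ∉ Sma M (sdD D) G a := by
  obtain ⟨x, h1, h2, h3⟩ := new_real7 B P hK hG a
  rw [zc_nx_bot B hK] at h2
  exact ⟨x, h1, fun z hz => h2 z hz, h3⟩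

end LRT
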