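import Pool.Agent.LRM.TyC

/-! # LRM: the reals of the ground model are uncountable in the extension, raw form (P6)

(problem MP_328cd5_lc; L(R) side, bridge; no sorry in this file) -/

set_option autoImplicit false

universe u v w

namespace LRT

open WCal CPY COD

variable {M : Set ZFSet.{0}} [hM : Fact (CPY.Mod M)] {K : Type v} [WTy M K] [KTy M K]

theorem zc_sub_om (Z : St M ℕ) : zc M Z ⊆ ZFSet.omega := by
  intro x hx
  have hxM : x ∈ M := hM.out.trans _ (zc_mem Z) _ hx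
  obtain ⟨a, -, ha'⟩ := (cd_st M Z ⟨x, hxM⟩).1 hx
  have h1 : x = zn a := by
    rw [← nt_val (W := M) a]
    have h2 : (cd M a).1 = x := congrArg Subtype.val ha'
    exact h2.symm.trans rfl
  rw [h1, ← LRS.nat_zn]
  exact LRS.mem_omega.2 ⟨a, rfl⟩

/-- **(P6)** raw form: no element of the extension enumerates all reals of the ground model -/
theorem ground_unc {D : CPD M K} (B : Bs M K) (P : CPP D) (hA : ACL D (PQ M K × PQ M K)) (hK : OrdC M K)
    {G : Set ZFSet.{0}} (hG : Gen M (QA D) G) : ∀ F ∈ Ext M G, ∃ z ∈ M, z ⊆ ZFSet.omega ∧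
      ∀ n : ℕ, ∃ i : ℕ, ¬ (LRS.nat i ∈ z ↔ ZFSet.pair (LRS.nat n) (LRS.nat i) ∈ F) := by
  intro F hF
  have hE : Fact (CPY.Mod (Ext M G)) := ⟨hM.out.ext (QP_isPo B P _) hG⟩
  let R : ℕ → ℕ → Prop := fun n i => ZFSet.pair (LRS.nat n) (LRS.nat i) ∈ F
  have hR : IP (Ext M G) (fun p : ℕ × ℕ => R p.1 p.2) := by
    refine IP.iff_mem.2 ⟨F, hF, fun p => ?_⟩
    have h1 : (cd (Ext M G) p).1 = ZFSet.pair (nt (Ext M G) p.1).1 (nt (Ext M G) p.2).1 := op_val _ _
    rw [h1, nt_val, nt_val, ← LRS.nat_zn, ← LRS.nat_zn]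
  obtain ⟨z, hz, hz1⟩ := no_enum B P hA hK hG hR
  let Z : St M ℕ := ⟨{i | z i}, hz⟩
  refine ⟨zc M Z, zc_mem Z, zc_sub_om Z, fun n => ?_⟩
  by_contra hcon
  push Not at hcon
  apply hz1 n
  funext i
  apply propext
  have h2 := hcon i
  rw [LRS.nat_zn i, zn_mem_zc, ← LRS.nat_zn i] at h2
  exact h2

end LRT
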