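import Pool.Agent.LRM.DatF
import Pool.Agent.LRM.TyE
import Pool.Agent.LRM.PSevT
import Pool.Agent.LRM.LOne
import Pool.Agent.LCA.HMain
import Pool.Agent.LBB.AbsL
import Pool.Agent.LBB.MahM

/-! # LRM: the final theorem

(problem MP_328cd5_lc; no sorry in this file) -/

set_option autoImplicit false

universe u v w

namespace LRT

open WCal CPY COD LRS LBB

/-- `L δ` is contained in `L(ℝ)` of every transitive model of ZF with the ordinals below `δ` -/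
theorem L_sub_LRs {δ : Ordinal.{0}} (hδ : Order.IsSuccLimit δ) {W : Set ZFSet.{0}} [tW : ZU.TM W]
    (h : ∀ α < δ, α.toZFSet ∈ W) : LBB.L δ ⊆ LRs W := by
  have tN : ZU.TM (LRs W) := LRs_tm
  have hm : Fact (CPY.Mod (LRM.LA (ZU.sg ∅ : LRs W))) := ⟨LRM.lone_mod (LRs W)⟩
  have h1 : ∀ α < δ, α.toZFSet ∈ LRM.LA (ZU.sg ∅ : LRs W) := by
    intro α hα
    have h2 : ZU.Ord (⟨α.toZFSet, h α hα⟩ : W) := CPY.mord_iff.2 (ZFSet.isOrdinal_toZFSet α)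
    have h3 : α.toZFSet ∈ LRs W := LRs_ord h2
    have h4 : ZU.Ord (⟨α.toZFSet, h3⟩ : LRs W) := CPY.mord_iff.2 (ZFSet.isOrdinal_toZFSet α)
    exact LRM.LA_ord LRM.tr_sg0 h4
  exact (L_sub_of_mod hδ h1).trans (LRM.LA_sub _)

section

variable {δ κ : Ordinal.{0}} [hG : GM δ] [hκ : Fact (κ < δ)] [h0 : Fact (0 < κ)]

theorem ordC_Iio : OrdC (LBB.L δ) (Set.Iio κ) := by
  intro y z
  have h1 : ∀ x : Set.Iio κ, zc (LBB.L δ) x = x.1.toZFSet := fun x => rfl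
  rw [h1, Ordinal.mem_toZFSet_iff]
  constructor
  · rintro ⟨a, ha, rfl⟩
    exact ⟨⟨a, lt_trans ha y.2⟩, ha, rfl⟩
  · rintro ⟨x, hx, rfl⟩
    exact ⟨x.1, hx, (h1 _).symm⟩

theorem final_of (h : MahM δ κ) : LRS.Final := by
  obtain ⟨B, D, P, hF⟩ := LCA.exists_coding h
  have hA : ACL D (PQ (LBB.L δ) (Set.Iio κ) × PQ (LBB.L δ) (Set.Iio κ)) := LCA.acl_of h P hF _
  have hK : OrdC (LBB.L δ) (Set.Iio κ) := ordC_Iio
  have hPo := QP_isPo B P (allK (LBB.L δ) (Set.Iio κ))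
  obtain ⟨G, hGn, -⟩ := gen_exists hG.ct hPo hPo.one_mem
  have mW : CPY.Mod (Ext (LBB.L δ) G) := hG.mod.ext hPo hGn
  have tW : ZU.TM (Ext (LBB.L δ) G) := mW.tm
  have hL : LBB.L δ ⊆ LRs (Ext (LBB.L δ) G) := L_sub_LRs hG.lim fun α hα =>
    hG.mod.sub_ext hPo hGn ((ord_mem_L hG.lim).2 hα)
  exact (dat hG.ct B P hA hK hGn hL (ground_unc B P hA hK hGn) (new_in B P hK hGn)).final

end

theorem final_mahlo (h : ∃ κ : Cardinal.{0}, IsMahlo κ) : LRS.Final := by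
  obtain ⟨δ, κ, h1, h2, h3, h4⟩ := LBB.exists_model h
  exact final_of h4

end LRT
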