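import Pool.Agent.LRM.Dc

/-! # LRM: a pairing function for ordinals in a model of ZF

(problem MP_328cd5_lc; L(R) side; architect helper16)

`mx x = fst x ∪ snd x` (the maximum, for a pair of ordinals); `gL y x`: the pair `y` is before the pair `x` in the order of Goedel;
`gP x`: the set of the predecessors of `x`; `gpr a b`: the Mostowski collapse of the pair `(a, b)`.

PROOFS.
* `gL`, `gP`, `gpr` definable: as `df_prE`, `df_ev` of `LRM/Ev.lean` (`df_wrec` with `pr := fun x _ => gP x`,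
  `G := fun x f _ => img (gP x) (ap f)`).
* `gP_wf`: `Subrelation.wf` for `InvImage (Prod.Lex (· < ·) (Prod.Lex (· < ·) (· < ·))) fun x => (nrk (mx x), nrk (fst x), nrk (snd x))`
  (`nrk` is the native rank, `nrk_lt`), no assumption on `x`. `indP_of_wf` (see `indP_prE` in `LRM/Ev.lean`).
* `mem_gpr` (for ordinals `a`, `b`): `wrec_eq`, `mem_img`, `ap_lam`; the elements of `gP (op a b)` are the pairs `op c d` of
  ordinals with `gL (op c d) (op a b)`: if `gL (op c d) (op a b)` then `c`, `d` are `⊆ cup a b`, so they are elements of `sc (cup a b)`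
  (`ord_tri`; the union of two ordinals is one of them).
* `ord_gpr`: by well-founded induction: a set of ordinals which is transitive (`gL` is transitive on pairs of ordinals).
* `gpr_inj`: trichotomy of `gL` on pairs of ordinals (`ord_tri`); if `gL (op a b) (op c d)` then `gpr a b ∈ gpr c d`, `not_mem_self`. -/

set_option autoImplicit false

universe v

namespace LRM

open STP STP.Fml ZU ZL

variable {N : Type v} [ZM N]

noncomputable def mx (x : N) : N := cup (fst x) (snd x)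

/-- `y` is before `x` -/
def gL (y x : N) : Prop := mx y ∈ mx x ∨ (mx y = mx x ∧ (fst y ∈ fst x ∨ (fst y = fst x ∧ snd y ∈ snd x)))

/-- the set of the predecessors -/
noncomputable def gP (x : N) : N := sep (prd (sc (mx x)) (sc (mx x))) fun y => gL y x

/-- the pairing function for ordinals -/
noncomputable def gpr (a b : N) : N := WRec gP (fun x f => img (gP x) (ap f)) (op a b)

private theorem Gpr_mx {s : (ℕ → N) → N} (hs : DF s) : DF fun v => mx (s v) :=
  df_cup (df_fst hs) (df_snd hs)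

private theorem Gpr_gL {s t : (ℕ → N) → N} (hs : DF s) (ht : DF t) :
    Dfn fun v => gL (s v) (t v) :=
  dfn_or (dfn_mem (Gpr_mx hs) (Gpr_mx ht)) (dfn_and (dfn_eq (Gpr_mx hs) (Gpr_mx ht))
    (dfn_or (dfn_mem (df_fst hs) (df_fst ht)) (dfn_and (dfn_eq (df_fst hs) (df_fst ht))
      (dfn_mem (df_snd hs) (df_snd ht)))))

private theorem Gpr_gP {s : (ℕ → N) → N} (hs : DF s) : DF fun v => gP (s v) :=
  df_sep (x := fun v => prd (sc (mx (s v))) (sc (mx (s v)))) (R := fun y v => gL y (s v))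
    (df_prd (df_sc (Gpr_mx hs)) (df_sc (Gpr_mx hs))) (Gpr_gL (df_var 0) hs.wk)

private theorem Gpr_G : DF fun v : ℕ → N => img (gP (v 0)) (ap (v 1)) :=
  df_img (x := fun v => gP (v 0)) (F := fun z v => ap (v 1) z) (Gpr_gP (df_var 0))
    (df_ap (df_var 2) (df_var 0))

private theorem Gpr_mem {x z : N} :
    z ∈ gP x ↔ z ∈ prd (sc (mx x)) (sc (mx x)) ∧ gL z x :=
  mem_sep (P := fun y => gL y x) (Gpr_gL (df_var 0) (df_const x))

private theorem Gpr_wf : WellFounded fun y x : N => y ∈ gP x := by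
  refine Subrelation.wf (r := InvImage (Prod.Lex (· < ·) (Prod.Lex (· < ·) (· < ·)))
    fun x : N => (nrk (mx x), nrk (fst x), nrk (snd x))) ?_
    (InvImage.wf _ (WellFounded.prod_lex Ordinal.lt_wf
      (WellFounded.prod_lex Ordinal.lt_wf Ordinal.lt_wf)))
  intro y x h
  rcases (Gpr_mem.1 h).2 with h1 | ⟨h1, h2 | ⟨h2, h3⟩⟩
  · exact Prod.Lex.left _ _ (nrk_lt h1)
  · change Prod.Lex _ _ (nrk (mx y), nrk (fst y), nrk (snd y))
      (nrk (mx x), nrk (fst x), nrk (snd x))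
    rw [h1]
    exact Prod.Lex.right _ (Prod.Lex.left _ _ (nrk_lt h2))
  · change Prod.Lex _ _ (nrk (mx y), nrk (fst y), nrk (snd y))
      (nrk (mx x), nrk (fst x), nrk (snd x))
    rw [h1, h2]
    exact Prod.Lex.right _ (Prod.Lex.right _ (nrk_lt h3))

private noncomputable def Gpr_W (x : N) : N := WRec gP (fun x f => img (gP x) (ap f)) x

private theorem Gpr_dW : DF fun v : ℕ → N => Gpr_W (v 0) :=
  df_wrec (pr := fun x _ => gP x) (G := fun x f _ => img (gP x) (ap f)) (Gpr_gP (df_var 0))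
    Gpr_G (df_var 0)

private theorem Gpr_memW {x w : N} : w ∈ Gpr_W x ↔ ∃ z, z ∈ gP x ∧ w = Gpr_W z := by
  have h1 : Gpr_W x = img (gP x) (ap (lam (gP x) Gpr_W)) :=
    wrec_eq (Gpr_gP (df_var 0)) Gpr_G (indP_of_wf Gpr_wf) x
  rw [h1, mem_img (df_ap_c _)]
  refine exists_congr fun z => and_congr_right fun hz => ?_
  rw [ap_lam Gpr_dW hz]

private theorem Gpr_cup {a b : N} (ha : ZU.Ord a) (hb : ZU.Ord b) : ZU.Ord (cup a b) := by
  refine ⟨fun y hy z hz => ?_, fun y hy => ?_⟩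
  · rcases mem_cup.1 hy with h | h
    · exact mem_cup.2 (Or.inl (ha.trans h hz))
    · exact mem_cup.2 (Or.inr (hb.trans h hz))
  · rcases mem_cup.1 hy with h | h
    · exact ha.2 y h
    · exact hb.2 y h

private theorem Gpr_sc {a b m : N} (ha : ZU.Ord a) (hb : ZU.Ord b) (hm : ZU.Ord m)
    (h : cup a b ∈ m ∨ cup a b = m) : a ∈ sc m ∧ b ∈ sc m := by
  have hc := Gpr_cup ha hb
  have key : ∀ c : N, ZU.Ord c → c ⊆ cup a b → c ∈ sc m := by
    intro c hcO hcs
    rcases (ord_sub hcO hc).1 hcs with h1 | h1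
    · rcases h with h2 | h2
      · exact mem_sc.2 (Or.inl (hm.trans h2 h1))
      · rw [h2] at h1
        exact mem_sc.2 (Or.inl h1)
    · rw [h1]
      exact mem_sc.2 h
  exact ⟨key a ha fun z hz => mem_cup.2 (Or.inl hz), key b hb fun z hz => mem_cup.2 (Or.inr hz)⟩

private theorem Gpr_gLop {a b c d : N} : gL (op c d) (op a b) ↔ cup c d ∈ cup a b ∨
    (cup c d = cup a b ∧ (c ∈ a ∨ (c = a ∧ d ∈ b))) := by
  unfold gL mx
  rw [fst_op, snd_op, fst_op, snd_op]

private theorem Gpr_memP {a b z : N} (ha : ZU.Ord a) (hb : ZU.Ord b) :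
    z ∈ gP (op a b) ↔ ∃ c d, ZU.Ord c ∧ ZU.Ord d ∧ z = op c d ∧ gL (op c d) (op a b) := by
  have hm : mx (op a b) = cup a b := by
    unfold mx
    rw [fst_op, snd_op]
  have hO := Gpr_cup ha hb
  rw [Gpr_mem, hm]
  constructor
  · rintro ⟨h1, h2⟩
    obtain ⟨c, d, hc, hd, rfl⟩ := mem_prd.1 h1
    have key : ∀ e : N, e ∈ sc (cup a b) → ZU.Ord e := by
      intro e he
      rcases mem_sc.1 he with h | h
      · exact hO.mem h
      · rw [h]
        exact hO
    exact ⟨c, d, key c hc, key d hd, rfl, h2⟩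
  · rintro ⟨c, d, hc, hd, rfl, h2⟩
    refine ⟨?_, h2⟩
    have h3 : cup c d ∈ cup a b ∨ cup c d = cup a b := by
      rcases Gpr_gLop.1 h2 with h | ⟨h, -⟩
      · exact Or.inl h
      · exact Or.inr h
    exact op_mem_prd.2 (Gpr_sc hc hd hO h3)

private theorem Gpr_trans {a b c d e f : N} (ha : ZU.Ord a) (hb : ZU.Ord b)
    (h1 : gL (op e f) (op c d)) (h2 : gL (op c d) (op a b)) : gL (op e f) (op a b) := by
  have hO := Gpr_cup ha hb
  rw [Gpr_gLop] at h1 h2 ⊢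
  rcases h2 with h2 | ⟨h2, h3⟩
  · rcases h1 with h1 | ⟨h1, -⟩
    · exact Or.inl (hO.trans h2 h1)
    · rw [h1]
      exact Or.inl h2
  · rcases h1 with h1 | ⟨h1, h4⟩
    · rw [h2] at h1
      exact Or.inl h1
    · refine Or.inr ⟨h1.trans h2, ?_⟩
      rcases h3 with h3 | ⟨h3, h5⟩
      · rcases h4 with h4 | ⟨h4, -⟩
        · exact Or.inl (ha.trans h3 h4)
        · rw [h4]
          exact Or.inl h3
      · rcases h4 with h4 | ⟨h4, h6⟩
        · rw [h3] at h4
          exact Or.inl h4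
        · exact Or.inr ⟨h4.trans h3, hb.trans h5 h6⟩

private theorem Gpr_ordW : ∀ x : N, (∃ a b, ZU.Ord a ∧ ZU.Ord b ∧ x = op a b) →
    ZU.Ord (Gpr_W x) := by
  intro x
  refine Gpr_wf.induction (C := fun x : N => (∃ a b, ZU.Ord a ∧ ZU.Ord b ∧ x = op a b) →
    ZU.Ord (Gpr_W x)) x ?_
  rintro _ ih ⟨a, b, ha, hb, rfl⟩
  refine ⟨fun y hy w hw => ?_, fun y hy => ?_⟩
  · obtain ⟨z, hz, rfl⟩ := Gpr_memW.1 hy
    obtain ⟨c, d, hc, hd, rfl, h1⟩ := (Gpr_memP ha hb).1 hz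
    obtain ⟨z', hz', rfl⟩ := Gpr_memW.1 hw
    obtain ⟨e, f, he, hf, rfl, h2⟩ := (Gpr_memP hc hd).1 hz'
    exact Gpr_memW.2 ⟨op e f, (Gpr_memP ha hb).2 ⟨e, f, he, hf, rfl, Gpr_trans ha hb h2 h1⟩,
      rfl⟩
  · obtain ⟨z, hz, rfl⟩ := Gpr_memW.1 hy
    obtain ⟨c, d, hc, hd, h0, h1⟩ := (Gpr_memP ha hb).1 hz
    exact (ih z hz ⟨c, d, hc, hd, h0⟩).1

private theorem Gpr_lt {a b c d : N} (ha : ZU.Ord a) (hb : ZU.Ord b) (hc : ZU.Ord c)
    (hd : ZU.Ord d) (h : gL (op a b) (op c d)) : gpr a b ∈ gpr c d :=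
  Gpr_memW.2 ⟨op a b, (Gpr_memP hc hd).2 ⟨a, b, ha, hb, rfl, h⟩, rfl⟩

private theorem Gpr_tri {a b c d : N} (ha : ZU.Ord a) (hb : ZU.Ord b) (hc : ZU.Ord c)
    (hd : ZU.Ord d) : gL (op a b) (op c d) ∨ (a = c ∧ b = d) ∨ gL (op c d) (op a b) := by
  rw [Gpr_gLop, Gpr_gLop]
  rcases ord_tri (Gpr_cup ha hb) (Gpr_cup hc hd) with h | h | h
  · exact Or.inl (Or.inl h)
  · rcases ord_tri ha hc with h1 | h1 | h1
    · exact Or.inl (Or.inr ⟨h, Or.inl h1⟩)
    · rcases ord_tri hb hd with h2 | h2 | h2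
      · exact Or.inl (Or.inr ⟨h, Or.inr ⟨h1, h2⟩⟩)
      · exact Or.inr (Or.inl ⟨h1, h2⟩)
      · exact Or.inr (Or.inr (Or.inr ⟨h.symm, Or.inr ⟨h1.symm, h2⟩⟩))
    · exact Or.inr (Or.inr (Or.inr ⟨h.symm, Or.inl h1⟩))
  · exact Or.inr (Or.inr (Or.inl h))

theorem df_gpr {s t : (ℕ → N) → N} (hs : DF s) (ht : DF t) : DF fun v => gpr (s v) (t v) := by
  exact df2 (F := gpr) (df_wrec (pr := fun x _ => gP x) (G := fun x f _ => img (gP x) (ap f))
    (Gpr_gP (df_var 0)) Gpr_G (df_op (df_var 0) (df_var 1))) hs ht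

theorem ord_gpr {a b : N} (ha : ZU.Ord a) (hb : ZU.Ord b) : ZU.Ord (gpr a b) := by
  exact Gpr_ordW (op a b) ⟨a, b, ha, hb, rfl⟩

theorem gpr_inj {a b c d : N} (ha : ZU.Ord a) (hb : ZU.Ord b) (hc : ZU.Ord c) (hd : ZU.Ord d)
    (h : gpr a b = gpr c d) : a = c ∧ b = d := by
  rcases Gpr_tri ha hb hc hd with h1 | h1 | h1
  · have h2 := Gpr_lt ha hb hc hd h1
    rw [h] at h2
    exact absurd h2 (not_mem_self _)
  · exact h1
  · have h2 := Gpr_lt hc hd ha hb h1
    rw [h] at h2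
    exact absurd h2 (not_mem_self _)

end LRM
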