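import Pool.Agent.LRM.Iso
import Pool.Agent.LRM.OrdK

/-! # LRM: homogeneous forcing

(library; no sorry in this file)

`Hmg M Q`: the partial order `Q` is homogeneous in `M`. Then the truth of a formula with parameters in `M`
does not depend on the generic filter, and the definable subsets of sets of `M` are in `M`. -/

universe v

namespace CPY

open STP ZU

/-- `Q` is homogeneous in `M` -/
def Hmg (M : Set ZFSet.{0}) (Q : Po) : Prop := ∀ p ∈ Q.P, ∀ q ∈ Q.P,
  ∃ e, IsIso M Q Q e ∧ ∃ r, Q.le r (e p) ∧ Q.le r q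

variable {M : Set ZFSet.{0}} {Q : Po} {G : Set ZFSet.{0}}

/-- the canonical names of the values of an assignment -/
noncomputable def ckv (hM : Mod M) (h : IsPo M Q) (v : ℕ → M) : ℕ → M :=
  fun i => ⟨chk Q (v i).1, hM.chk_mem h (v i).2⟩

/-- the inclusion `M → M[G]` -/
def inM (hM : Mod M) (h : IsPo M Q) (hG : Gen M Q G) (x : M) : Ext M G :=
  ⟨x.1, hM.sub_ext h hG x.2⟩

theorem vals_ckv (hM : Mod M) (h : IsPo M Q) (hG : Gen M Q G) (v : ℕ → M) :
    vals G (ckv hM h v) = fun i => inM hM h hG (v i) :=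
  funext fun i => Subtype.ext (val_chk hG.one (v i).1)

theorem ckv_cns (hM : Mod M) (h : IsPo M Q) (x : M) (v : ℕ → M) :
    ckv hM h (cns x v) = cns ⟨chk Q x.1, hM.chk_mem h x.2⟩ (ckv hM h v) := by
  funext i
  cases i <;> rfl

/-- **Homogeneity.** The greatest condition decides all formulas with parameters in `M`. -/
theorem Mod.hmg (hM : Mod M) (hc : M.Countable) (h : IsPo M Q) (hh : Hmg M Q) (φ : Fml)
    (v : ℕ → M) {G H : Set ZFSet.{0}} (hG : Gen M Q G) (hH : Gen M Q H)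
    (h1 : sat (Em (Ext M G)) φ fun i => inM hM h hG (v i)) :
    sat (Em (Ext M H)) φ fun i => inM hM h hH (v i) := by
  have tM := hM.tm
  by_contra h2
  rw [← vals_ckv] at h1 h2
  obtain ⟨p, hp, h3⟩ := (hM.truth h hG φ _).1 h1
  obtain ⟨q, hq, h4⟩ := (hM.truth h hH φ.no _).1 h2
  have hpP := hG.sub p hp
  have hqP := hH.sub q hq
  obtain ⟨e, hi, r, hr1, hr2⟩ := hh p hpP q hqP
  obtain ⟨K, hK, hrK⟩ := gen_exists hc h (h.left_mem hr1)
  have hqK : q ∈ K := hK.up r hrK q hr2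
  have hpK : p ∈ preI Q e K := ⟨hpP, hK.up r hrK _ hr1⟩
  have h5 := (hM.ff_iff hc h φ.no _ hqP).1 h4 K hK hqK
  have hK' := hK.pre h h hi
  have h6 := (hM.ff_iff hc h φ _ hpP).1 h3 _ hK' hpK
  have h7 := ext_preI hK h h hi
  have key : ∀ {W W' : Set ZFSet.{0}} (e : W = W') (φ : Fml) (u : ℕ → W) (u' : ℕ → W'),
      (∀ i, (u i).1 = (u' i).1) → (sat (Em W) φ u ↔ sat (Em W') φ u') := by
    rintro W W' rfl φ u u' hu
    have : u = u' := funext fun i => Subtype.ext (hu i)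
    rw [this]
  refine h5 ((key h7 φ _ _ fun i => ?_).1 h6)
  rw [vals_ckv hM h hK', vals_ckv hM h hK]
  rfl

/-- the sets defined in `M[G]` with parameters from `M` -/
theorem Mod.hmg_sep (hM : Mod M) (hc : M.Countable) (h : IsPo M Q) (hh : Hmg M Q) (φ : Fml)
    (v : ℕ → M) (hG : Gen M Q G) (A : M) : ∃ y : M, ∀ x : M, x.1 ∈ y.1 ↔ x.1 ∈ A.1 ∧
      sat (Em (Ext M G)) φ fun i => inM hM h hG (cns x v i) := by
  have tM := hM.tm
  have hD : Dfn fun u : ℕ → M => ff M Q φ (fun i => ckv hM h (cns (u 0) v) i) (h.om).1 := by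
    refine (dfn_ff h φ (w := fun i u => match i with
      | 0 => chkM h.om (u 0)
      | n + 1 => ⟨chk Q (v n).1, hM.chk_mem h (v n).2⟩) (p := fun _ => h.om) ?_
      (df_const _)).congr fun u => ?_
    · intro i
      cases i with
      | zero => exact df_chkM (df_const _) (df_var 0)
      | succ n => exact df_const _
    · have : (fun i => ckv hM h (cns (u 0) v) i) = fun i => (match i with
          | 0 => chkM h.om (u 0)
          | n + 1 => ⟨chk Q (v n).1, hM.chk_mem h (v n).2⟩ : M) := by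
        funext i
        cases i with
        | zero => exact Subtype.ext (chkM_val (o := h.om) rfl (u 0)).symm
        | succ n => rfl
      beta_reduce
      rw [this]
  refine ⟨sep A fun x => ff M Q φ (ckv hM h (cns x v)) (h.om).1, fun x => ?_⟩
  have h1 : x ∈ sep A (fun x => ff M Q φ (ckv hM h (cns x v)) (h.om).1) ↔
      x ∈ A ∧ ff M Q φ (ckv hM h (cns x v)) (h.om).1 := ZU.mem_sep hD
  refine h1.trans (and_congr_right fun _ => ?_)
  constructor
  · intro h2
    have h3 := (hM.truth h hG φ _).2 ⟨_, hG.one, h2⟩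
    rw [vals_ckv] at h3
    exact h3
  · intro h2
    refine (hM.ff_iff hc h φ _ h.one_mem).2 fun K hK _ => ?_
    rw [vals_ckv]
    exact hM.hmg hc h hh φ (cns x v) hG hK h2

/-- the model `M[G]` -/
noncomputable def mExt (hM : Mod M) (h : IsPo M Q) (hG : Gen M Q G) : ZL.Mdl.{1} :=
  ⟨Ext M G, @instZM (Ext M G) (@ext_tm M hM.tm Q G hG h)⟩

/-- uniformly definable predicates in a homogeneous extension -/
theorem Mod.hmg_ud (hM : Mod M) (hc : M.Countable) (h : IsPo M Q) (hh : Hmg M Q)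
    {P : ∀ m : ZL.Mdl.{1}, (ℕ → m.N) → Prop} (hP : ZL.UD P) (v : ℕ → M) (hG : Gen M Q G) (A : M) :
    ∃ y : M, ∀ x : M, x.1 ∈ y.1 ↔ x.1 ∈ A.1 ∧
      P (mExt hM h hG) fun i => inM hM h hG (cns x v i) := by
  obtain ⟨φ, hφ⟩ := hP
  obtain ⟨y, hy⟩ := hM.hmg_sep hc h hh φ v hG A
  refine ⟨y, fun x => (hy x).trans (and_congr_right fun _ => ?_)⟩
  exact (hφ (mExt hM h hG) _).symm

/-- for uniformly definable predicates the forcing relation is definable in `M` -/
theorem Mod.ud_force (hM : Mod M) (h : IsPo M Q)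
    {P : ∀ m : ZL.Mdl.{1}, (ℕ → m.N) → Prop} (hP : ZL.UD P) :
    ∃ F : (ℕ → M) → M → Prop,
      (∀ (w : ℕ → (ℕ → M) → M) (p : (ℕ → M) → M),
        (∀ i, @DF M (@instZM M hM.tm) (w i)) → @DF M (@instZM M hM.tm) p →
        @Dfn M (@instZM M hM.tm) fun v => F (fun i => w i v) (p v)) ∧
      (∀ G (hG : Gen M Q G) (v : ℕ → M),
        P (mExt hM h hG) (vals G v) ↔ ∃ p : M, p.1 ∈ G ∧ F v p) ∧
      ∀ v (p q : M), F v p → Q.le q.1 p.1 → F v q := by
  obtain ⟨φ, hφ⟩ := hP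
  have tM := hM.tm
  refine ⟨fun v p => ff M Q φ v p.1, fun w p hw hp => dfn_ff h φ hw hp, fun G hG v => ?_,
    fun v p q h1 h2 => ff_mono h φ h1 h2⟩
  rw [hφ]
  refine (hM.truth h hG φ v).trans ?_
  constructor
  · rintro ⟨p, hp, h1⟩
    exact ⟨⟨p, h.in_M (hG.sub p hp)⟩, hp, h1⟩
  · rintro ⟨p, hp, h1⟩
    exact ⟨p.1, hp, h1⟩

end CPY
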