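import Pool.Agent.CPY.B.ProdE
import Pool.Agent.ZL.UOps

/-! # LRM: isomorphisms of partial orders in the ground model

(library; no sorry in this file)

`IsIso M Q R e`: the map `e` is an isomorphism of `Q` onto `R` whose graph is in `M`. Images and preimages
of generic filters are generic and give the same extension. -/

namespace CPY

open STP ZU

/-- `e` is an isomorphism of `Q` onto `R` whose graph is in `M` -/
structure IsIso (M : Set ZFSet.{0}) (Q R : Po) (e : ZFSet.{0} → ZFSet.{0}) : Prop where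
  gr : ∃ g ∈ M, ∀ p q, ZFSet.pair p q ∈ g ↔ p ∈ Q.P ∧ q = e p
  map : ∀ p ∈ Q.P, e p ∈ R.P
  surj : ∀ q ∈ R.P, ∃ p ∈ Q.P, e p = q
  le : ∀ p ∈ Q.P, ∀ q ∈ Q.P, R.le (e p) (e q) ↔ Q.le p q

/-- the preimage of a filter -/
def preI (Q : Po) (e : ZFSet.{0} → ZFSet.{0}) (K : Set ZFSet.{0}) : Set ZFSet.{0} :=
  {p | p ∈ Q.P ∧ e p ∈ K}

variable {M : Set ZFSet.{0}} {Q R : Po} {e : ZFSet.{0} → ZFSet.{0}} {G K : Set ZFSet.{0}}

theorem IsIso.mem_img (hi : IsIso M Q R e) (h : IsPo M Q) (hG : Gen M Q G) {p : ZFSet.{0}}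
    (hp : p ∈ Q.P) : e p ∈ e '' G ↔ p ∈ G := by
  constructor
  · rintro ⟨q, hq, h1⟩
    have hqP := hG.sub q hq
    refine hG.up q hq p ((hi.le q hqP p hp).1 ?_)
    rw [← h1]
    exact (hi.le q hqP q hqP).2 (h.refl q hqP)
  · exact fun h => ⟨p, h, rfl⟩

theorem img_preI (hi : IsIso M Q R e) (hK : Gen M R K) : e '' preI Q e K = K := by
  ext q
  constructor
  · rintro ⟨p, ⟨-, h⟩, rfl⟩
    exact h
  · intro hq
    obtain ⟨p, hp, rfl⟩ := hi.surj q (hK.sub q hq)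
    exact ⟨p, ⟨hp, hq⟩, rfl⟩

section

variable [tM : TM M]

/-- the image of a generic filter under an isomorphism -/
theorem Gen.img (hG : Gen M Q G) (h : IsPo M Q) (k : IsPo M R) (hi : IsIso M Q R e) :
    Gen M R (e '' G) where
  sub := by
    rintro q ⟨p, hp, rfl⟩
    exact hi.map p (hG.sub p hp)
  one := by
    obtain ⟨p, hp, h1⟩ := hi.surj R.one k.one_mem
    refine ⟨p, hG.up _ hG.one p ?_, h1⟩
    rw [← hi.le _ h.one_mem p hp, h1]
    exact k.le_one _ (hi.map _ h.one_mem)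
  up := by
    rintro q ⟨p, hp, rfl⟩ q' hq'
    obtain ⟨p', hp', rfl⟩ := hi.surj q' (k.right_mem hq')
    exact ⟨p', hG.up p hp p' ((hi.le p (hG.sub p hp) p' hp').1 hq'), rfl⟩
  dir := by
    rintro q ⟨p, hp, rfl⟩ q' ⟨p', hp', rfl⟩
    obtain ⟨r, hr, h1, h2⟩ := hG.dir p hp p' hp'
    have hrP := hG.sub r hr
    exact ⟨e r, ⟨r, hr, rfl⟩, (hi.le r hrP p (hG.sub p hp)).2 h1,
      (hi.le r hrP p' (hG.sub p' hp')).2 h2⟩
  gen := by
    intro D hD hd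
    obtain ⟨g, hgM, hg⟩ := hi.gr
    let gm : M := ⟨g, hgM⟩
    let Dm : M := ⟨D, hD⟩
    have hE : Dfn fun v : ℕ → M => ∃ q, op (v 0) q ∈ gm ∧ q ∈ Dm := by
      simp (maxDischargeDepth := 99) [-Subtype.exists, -Subtype.forall]
    have hmem : ∀ p : M, p ∈ sep h.Pm (fun p => ∃ q, op p q ∈ gm ∧ q ∈ Dm) ↔
        p.1 ∈ Q.P ∧ e p.1 ∈ D := by
      intro p
      rw [ZU.mem_sep hE]
      refine and_congr_right fun hp => ?_
      constructor
      · rintro ⟨q, h1, h2⟩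
        have h3 := (hg p.1 q.1).1 (mop_mem.1 h1)
        rw [← h3.2]
        exact h2
      · intro h1
        have h2 : e p.1 ∈ M := k.in_M (hi.map _ hp)
        exact ⟨⟨e p.1, h2⟩, mop_mem.2 ((hg _ _).2 ⟨hp, rfl⟩), h1⟩
    obtain ⟨p, hp, hp1⟩ := hG.gen (sep h.Pm (fun p => ∃ q, op p q ∈ gm ∧ q ∈ Dm)).1
      (Subtype.property _) (by
      intro p hp
      obtain ⟨q, hq, h1⟩ := hd (e p) (hi.map p hp)
      obtain ⟨p', hp', rfl⟩ := hi.surj q (k.left_mem h1)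
      exact ⟨p', (hmem ⟨p', h.in_M hp'⟩).2 ⟨hp', hq⟩, (hi.le p' hp' p hp).1 h1⟩)
    have := (hmem ⟨p, h.in_M (hG.sub p hp)⟩).1 hp1
    exact ⟨e p, ⟨p, hp, rfl⟩, this.2⟩

/-- the preimage of a generic filter under an isomorphism -/
theorem Gen.pre (hK : Gen M R K) (h : IsPo M Q) (k : IsPo M R) (hi : IsIso M Q R e) :
    Gen M Q (preI Q e K) where
  sub := fun p hp => hp.1
  one := by
    refine ⟨h.one_mem, ?_⟩
    obtain ⟨p, hp, h1⟩ := hi.surj R.one k.one_mem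
    refine hK.up _ hK.one _ ?_
    rw [← h1]
    exact (hi.le p hp _ h.one_mem).2 (h.le_one p hp)
  up := by
    rintro p ⟨hp, h1⟩ q hq
    have hqP := h.right_mem hq
    exact ⟨hqP, hK.up _ h1 _ ((hi.le p hp q hqP).2 hq)⟩
  dir := by
    rintro p ⟨hp, h1⟩ q ⟨hq, h2⟩
    obtain ⟨r, hr, h3, h4⟩ := hK.dir _ h1 _ h2
    obtain ⟨r, hrP, rfl⟩ := hi.surj r (hK.sub r hr)
    exact ⟨r, ⟨hrP, hr⟩, (hi.le r hrP p hp).1 h3, (hi.le r hrP q hq).1 h4⟩
  gen := by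
    intro D hD hd
    obtain ⟨g, hgM, hg⟩ := hi.gr
    let gm : M := ⟨g, hgM⟩
    let Dm : M := ⟨D, hD⟩
    have hE : Dfn fun v : ℕ → M => ∃ p, op p (v 0) ∈ gm ∧ p ∈ Dm := by
      simp (maxDischargeDepth := 99) [-Subtype.exists, -Subtype.forall]
    have hmem : ∀ q : M, q ∈ sep k.Pm (fun q => ∃ p, op p q ∈ gm ∧ p ∈ Dm) ↔
        q.1 ∈ R.P ∧ ∃ p ∈ Q.P, p ∈ D ∧ q.1 = e p := by
      intro q
      rw [ZU.mem_sep hE]
      refine and_congr_right fun hq => ?_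
      constructor
      · rintro ⟨p, h1, h2⟩
        have h3 := (hg p.1 q.1).1 (mop_mem.1 h1)
        exact ⟨p.1, h3.1, h2, h3.2⟩
      · rintro ⟨p, h1, h2, h3⟩
        exact ⟨⟨p, h.in_M h1⟩, mop_mem.2 ((hg _ _).2 ⟨h1, h3⟩), h2⟩
    obtain ⟨q, hq, hq1⟩ := hK.gen (sep k.Pm (fun q => ∃ p, op p q ∈ gm ∧ p ∈ Dm)).1
      (Subtype.property _) (by
      intro q hq
      obtain ⟨p, hp, rfl⟩ := hi.surj q hq
      obtain ⟨p', hp', h1⟩ := hd p hp
      have hp'P := h.left_mem h1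
      have h2 := hi.map _ hp'P
      exact ⟨e p', (hmem ⟨e p', k.in_M h2⟩).2 ⟨h2, p', hp'P, hp', rfl⟩, (hi.le _ hp'P p hp).2 h1⟩)
    obtain ⟨-, p, hp, hpD, h1⟩ := (hmem ⟨q, k.in_M (hK.sub q hq)⟩).1 hq1
    have h1' : q = e p := h1
    exact ⟨p, ⟨hp, by rw [← h1']; exact hq⟩, hpD⟩

/-- **Isomorphic filters give the same extension.** -/
theorem ext_img (hG : Gen M Q G) (h : IsPo M Q) (k : IsPo M R) (hi : IsIso M Q R e) :
    Ext M (e '' G) = Ext M G := by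
  have hG' := hG.img h k hi
  obtain ⟨g, hgM, hg⟩ := hi.gr
  have t := ext_tm hG h
  have t' := ext_tm hG' k
  have s : M ⊆ Ext M G := sub_ext hG fun _ hx => chk_mem h hx
  have s' : M ⊆ Ext M (e '' G) := sub_ext hG' fun _ hx => chk_mem k hx
  refine subset_antisymm ?_ ?_
  · have hg0 : gset Q G ∈ Ext M G := gset_ext hG (gnm_mem h)
    let g0 : Ext M G := ⟨_, hg0⟩
    let gm : Ext M G := ⟨g, s hgM⟩
    let Rm : Ext M G := ⟨R.P, s k.P_mem⟩
    have hE : Dfn fun v : ℕ → Ext M G => ∃ p, p ∈ g0 ∧ op p (v 0) ∈ gm :=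
      dfn_ex (dfn_and (dfn_mem (df_var 0) (df_const _)) (dfn_mem (df_op (df_var 0) (df_var 1))
        (df_const _)))
    refine ext_min s (g := (sep Rm fun q => ∃ p, p ∈ g0 ∧ op p q ∈ gm).1) (Subtype.property _)
      fun q => ?_
    constructor
    · intro hq
      obtain ⟨q', hq', rfl⟩ := ex_val hq
      obtain ⟨-, p, hp, h1⟩ := (ZU.mem_sep hE).1 hq'
      have h2 := (hg p.1 q'.1).1 (mop_mem.1 h1)
      exact ⟨p.1, (mem_gset hG).1 hp, h2.2.symm⟩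
    · rintro ⟨p, hp, rfl⟩
      have hpP := hG.sub p hp
      have hpM : p ∈ Ext M G := s (h.in_M hpP)
      have hqM : e p ∈ Ext M G := s (k.in_M (hi.map p hpP))
      have : (⟨e p, hqM⟩ : Ext M G) ∈ sep Rm fun q => ∃ p, p ∈ g0 ∧ op p q ∈ gm := by
        rw [ZU.mem_sep hE]
        exact ⟨hi.map p hpP, ⟨p, hpM⟩, (mem_gset hG).2 hp, mop_mem.2 ((hg _ _).2 ⟨hpP, rfl⟩)⟩
      exact this
  · have hg0 : gset R (e '' G) ∈ Ext M (e '' G) := gset_ext hG' (gnm_mem k)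
    let g0 : Ext M (e '' G) := ⟨_, hg0⟩
    let gm : Ext M (e '' G) := ⟨g, s' hgM⟩
    let Qm : Ext M (e '' G) := ⟨Q.P, s' h.P_mem⟩
    have hE : Dfn fun v : ℕ → Ext M (e '' G) => ∃ q, q ∈ g0 ∧ op (v 0) q ∈ gm :=
      dfn_ex (dfn_and (dfn_mem (df_var 0) (df_const _)) (dfn_mem (df_op (df_var 1) (df_var 0))
        (df_const _)))
    refine ext_min s' (g := (sep Qm fun p => ∃ q, q ∈ g0 ∧ op p q ∈ gm).1) (Subtype.property _)
      fun p => ?_
    constructor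
    · intro hp
      obtain ⟨p', hp', rfl⟩ := ex_val hp
      obtain ⟨-, q, hq, h1⟩ := (ZU.mem_sep hE).1 hp'
      have h2 := (hg p'.1 q.1).1 (mop_mem.1 h1)
      have h3 : q.1 ∈ e '' G := (mem_gset hG').1 hq
      rw [h2.2] at h3
      exact (hi.mem_img h hG h2.1).1 h3
    · intro hp
      have hpP := hG.sub p hp
      have hpM : p ∈ Ext M (e '' G) := s' (h.in_M hpP)
      have hqM : e p ∈ Ext M (e '' G) := s' (k.in_M (hi.map p hpP))
      have : (⟨p, hpM⟩ : Ext M (e '' G)) ∈ sep Qm fun p => ∃ q, q ∈ g0 ∧ op p q ∈ gm := by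
        rw [ZU.mem_sep hE]
        exact ⟨hpP, ⟨e p, hqM⟩, (mem_gset hG').2 ⟨p, hp, rfl⟩, mop_mem.2 ((hg _ _).2 ⟨hpP, rfl⟩)⟩
      exact this

theorem ext_preI (hK : Gen M R K) (h : IsPo M Q) (k : IsPo M R) (hi : IsIso M Q R e) :
    Ext M (preI Q e K) = Ext M K := by
  have := ext_img (hK.pre h k hi) h k hi
  rwa [img_preI hi hK, eq_comm] at this

end

end CPY
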