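import Pool.Agent.LRM.Dc

/-! # LRM: the constructible sets have codes

(problem MP_328cd5_lc; L(R) side; architect helper16)

PROOF of `ev_sg`: copy the proof of `ev_surjZ` of `LRM/Dc.lean` with `j` = identity and `r = ∅` everywhere: induction on `α` (`ZU.ind`);
`mem_Sh`, `mem_Nx`, `mem_CZ`. `z ∈ sg ∅`: `z = ∅ = ev (sg ∅) ∅ ∅` (`ev_em`). The level: `op (nt 10) β`, `ev_Sh`. Operations:
`op (nt n) (op s s')`, `ev_op`, and `re0 ∅ = ∅`, `re1 ∅ = ∅` (`ZU.ext`, `re0_sub`, `mem_om`, `mem_re0`, `not_mem_em`). -/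

set_option autoImplicit false

universe v

namespace LRM

open STP STP.Fml ZU ZL

variable {N : Type v} [ZM N]

theorem re0_em : re0 (∅ : N) = ∅ := by
  refine om_ext (re0_sub _) (fun z hz => (not_mem_em z hz).elim) fun n => ?_
  rw [mem_re0]
  exact ⟨fun h => (not_mem_em _ h).elim, fun h => (not_mem_em _ h).elim⟩

theorem re1_em : re1 (∅ : N) = ∅ := by
  refine om_ext (re1_sub _) (fun z hz => (not_mem_em z hz).elim) fun n => ?_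
  rw [mem_re1]
  exact ⟨fun h => (not_mem_em _ h).elim, fun h => (not_mem_em _ h).elim⟩

theorem ev_sg {α z : N} (hz : z ∈ Sh (sg ∅) α) : ∃ s, s ∈ CZ α ∧ z = ev (sg ∅) s ∅ := by
  revert z
  refine ind (P := fun α : N => ∀ {z : N}, z ∈ Sh (sg ∅) α →
      ∃ s, s ∈ CZ α ∧ z = ev (sg ∅) s ∅) ?_ α
  intro α ih z hz
  rcases mem_Sh.1 hz with h1 | ⟨β, hβ1, h1⟩
  · refine ⟨∅, mem_CZ.2 (Or.inl rfl), ?_⟩
    rw [ev_em]
    exact mem_sg.1 h1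
  · rcases mem_Nx.1 h1 with h1 | rfl | ⟨i, x, y, hi, hx, hy, rfl⟩
    · obtain ⟨s, hs, h2⟩ := ih β hβ1 h1
      exact ⟨s, mem_CZ.2 (Or.inr ⟨β, hβ1, Or.inl hs⟩), h2⟩
    · exact ⟨op (nt 10) β, mem_CZ.2 (Or.inr ⟨β, hβ1, Or.inr (Or.inl rfl)⟩),
        by rw [ev_Sh]⟩
    · obtain ⟨s, hs, rfl⟩ := ih β hβ1 hx
      obtain ⟨s', hs', rfl⟩ := ih β hβ1 hy
      refine ⟨op i (op s s'), mem_CZ.2 (Or.inr ⟨β, hβ1, Or.inr (Or.inr
        ⟨i, s, s', hi, hs, hs', rfl⟩)⟩), ?_⟩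
      rw [ev_op hi, re0_em, re1_em]

end LRM
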