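import Pool.Agent.LRM.Gpr

/-! # LRM: ordinals for codes

(problem MP_328cd5_lc; L(R) side; architect helper16)

`rho s` is computed by recursion on the code `s`: `rho (op i (op t u)) = gpr i (gpr (rho t) (rho
u))` for `i ∈ nt 10`;
`rho (op (nt 10) β) = gpr (nt 10) β`; `rho s = gpr (nt 11) ∅` otherwise.

PROOFS.
* `df_rho`: as `df_ev` of `LRM/Ev.lean` (`df_wrec`, `df_gpr`).
* `prR_wf`: as `prE_wf` of `LRM/Ev.lean` (an element of `prR s` is `fst (snd s)` or `snd (snd s)`,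
  where `s = op i (op t u)`; native rank).
* `rho_eq` from `wrec_eq`, `ap_lam`; equations `rho_op`, `rho_Sh`, `rho_em`.
* `ord_rho`: by induction on `α` with `mem_CZ`, `ord_gpr` (`nt n` are ordinals: `ord_nt` or
  similar; `Ord.mem`).
* `rho_inj`: by induction on `α` for `s`, with `t` and `β` arbitrary: cases by `mem_CZ` (three
  kinds), `gpr_inj`; the first components are `i ∈ nt 10`,
  `nt 10`, `nt 11` (`nt_inj`, `mem_nt`). -/

set_option autoImplicit false

universe v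

namespace LRM

open STP STP.Fml ZU ZL

variable {N : Type v} [ZM N]

/-- the set of the parts of a code -/
noncomputable def prR (s : N) : N := ife (IsC s) (up (fst (snd s)) (snd (snd s))) ∅

/-- the recursion step -/
noncomputable def stR (s f : N) : N :=
  ife (IsC s) (gpr (fst s) (gpr (ap f (fst (snd s))) (ap f (snd (snd s)))))
    (ife (∃ β, s = op (nt 10) β) (gpr (nt 10) (snd s)) (gpr (nt 11) ∅))

/-- the ordinal of a code -/
noncomputable def rho (s : N) : N := WRec prR stR s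

theorem df_prR {s : (ℕ → N) → N} (hs : DF s) : DF fun v => prR (s v) :=
  df1 (F := prR) (by unfold prR; simp (maxDischargeDepth := 99)) hs

theorem df_stR {s t : (ℕ → N) → N} (hs : DF s) (ht : DF t) : DF fun v => stR (s v) (t v) :=
  df2 (F := stR) (by
    unfold stR
    exact df_ife (dfn_IsC (df_var 0))
      (df_gpr (df_fst (df_var 0)) (df_gpr (df_ap (df_var 1) (df_fst (df_snd (df_var 0))))
        (df_ap (df_var 1) (df_snd (df_snd (df_var 0))))))
      (df_ife (by simp (maxDischargeDepth := 99)) (df_gpr (df_const _) (df_snd (df_var 0)))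
        (df_gpr (df_const _) (df_const _)))) hs ht

theorem df_rho {s : (ℕ → N) → N} (hs : DF s) : DF fun v => rho (s v) :=
  df1 (F := rho) (by
    unfold rho
    exact df_wrec (pr := fun x _ => prR x) (G := fun x f _ => stR x f) (df_prR (df_var 0))
      (df_stR (df_var 0) (df_var 1)) (df_var 0)) hs

theorem prR_wf : WellFounded fun y x : N => y ∈ prR x := by
  refine Subrelation.wf (r := InvImage (· < ·) fun x : N => nrk x) ?_
    (InvImage.wf _ Ordinal.lt_wf)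
  intro y x h
  change nrk y < nrk x
  unfold prR at h
  by_cases hc : IsC x
  · rw [ife_pos hc] at h
    obtain ⟨i, t, u, -, h1⟩ := hc
    rw [h1] at h ⊢
    rw [snd_op, fst_op, snd_op] at h
    have h2 := (nrk_op t u).1.trans (nrk_op i (op t u)).2
    have h3 := (nrk_op t u).2.trans (nrk_op i (op t u)).2
    rcases mem_up.1 h with rfl | rfl
    · exact h2
    · exact h3
  · rw [ife_neg hc] at h
    exact absurd h (not_mem_em y)

theorem indP_prR : IndP (prR : N → N) := indP_of_wf prR_wf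

theorem rho_eq (s : N) : rho s = stR s (lam (prR s) (WRec prR stR)) :=
  wrec_eq (df_prR (df_var 0)) (df_stR (df_var 0) (df_var 1)) indP_prR s

theorem stR_op {i t u f : N} (hi : i ∈ (nt 10 : N)) :
    stR (op i (op t u)) f = gpr i (gpr (ap f t) (ap f u)) := by
  have hc : IsC (op i (op t u)) := ⟨i, t, u, hi, rfl⟩
  unfold stR
  rw [ife_pos hc, fst_op, snd_op, fst_op, snd_op]

/-- codes of basic operations -/
theorem rho_op {i t u : N} (hi : i ∈ (nt 10 : N)) :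
    rho (op i (op t u)) = gpr i (gpr (rho t) (rho u)) := by
  have hc : IsC (op i (op t u)) := ⟨i, t, u, hi, rfl⟩
  have hW : DF fun v : ℕ → N => WRec prR stR (v 0) :=
    df_wrec (pr := fun x _ => prR x) (G := fun x f _ => stR x f) (df_prR (df_var 0))
      (df_stR (df_var 0) (df_var 1)) (df_var 0)
  have hp : prR (op i (op t u)) = up t u := by
    unfold prR
    rw [ife_pos hc, snd_op, fst_op, snd_op]
  rw [rho_eq, hp, stR_op hi, ap_lam hW (mem_up.2 (Or.inl rfl)), ap_lam hW (mem_up.2 (Or.inr rfl))]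
  rfl

/-- codes of levels -/
theorem rho_Sh (a : N) : rho (op (nt 10) a) = gpr (nt 10) a := by
  rw [rho_eq]
  unfold stR
  rw [ife_neg not_IsC, ife_pos ⟨a, rfl⟩, snd_op]

theorem em_ne_op (a b : N) : (∅ : N) ≠ op a b := fun h => by
  have : up a a ∈ (∅ : N) := by
    rw [h]
    exact mem_up.2 (Or.inl rfl)
  exact not_mem_em _ this

theorem rho_em : rho (∅ : N) = gpr (nt 11) ∅ := by
  rw [rho_eq]
  unfold stR
  rw [ife_neg, ife_neg]
  · rintro ⟨a, h⟩
    exact em_ne_op _ _ h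
  · rintro ⟨i, t, u, -, h⟩
    exact em_ne_op _ _ h

/-- the three kinds of codes -/
theorem CZ_kinds {α : N} (hα : ZU.Ord α) {s : N} (hs : s ∈ CZ α) :
    s = ∅ ∨ (∃ β, β ∈ α ∧ s = op (nt 10) β) ∨
      ∃ i t u y, i ∈ (nt 10 : N) ∧ y ∈ α ∧ t ∈ CZ y ∧ u ∈ CZ y ∧ s = op i (op t u) := by
  revert hα s
  refine ind (P := fun α => ZU.Ord α → ∀ {s : N}, s ∈ CZ α →
    s = ∅ ∨ (∃ β, β ∈ α ∧ s = op (nt 10) β) ∨
      ∃ i t u y, i ∈ (nt 10 : N) ∧ y ∈ α ∧ t ∈ CZ y ∧ u ∈ CZ y ∧ s = op i (op t u)) ?_ α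
  intro α ih hα s hs
  rcases mem_CZ.1 hs with h | ⟨y, hy, h | h | ⟨i, t, u, hi, ht, hu, h⟩⟩
  · exact Or.inl h
  · rcases ih y hy (hα.mem hy) h with h | ⟨β, hβ, h⟩ | ⟨i, t, u, z, hi, hz, ht, hu, h⟩
    · exact Or.inl h
    · exact Or.inr (Or.inl ⟨β, hα.1 y hy β hβ, h⟩)
    · exact Or.inr (Or.inr ⟨i, t, u, z, hi, hα.1 y hy z hz, ht, hu, h⟩)
  · exact Or.inr (Or.inl ⟨y, hy, h⟩)
  · exact Or.inr (Or.inr ⟨i, t, u, y, hi, hy, ht, hu, h⟩)

theorem ord_rho {α s : N} (hα : ZU.Ord α) (hs : s ∈ CZ α) : ZU.Ord (rho s) := by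
  revert hα s
  refine ind (P := fun α => ∀ {s : N}, ZU.Ord α → s ∈ CZ α → ZU.Ord (rho s)) ?_ α
  intro α ih s hα hs
  rcases CZ_kinds hα hs with h | ⟨β, hβ, h⟩ | ⟨i, t, u, z, hi, hz, ht, hu, h⟩
  · rw [h, rho_em]
    exact ord_gpr (ord_nt 11) ord_em
  · rw [h, rho_Sh]
    exact ord_gpr (ord_nt 10) (hα.mem hβ)
  · rw [h, rho_op hi]
    exact ord_gpr ((ord_nt 10).mem hi)
      (ord_gpr (ih z hz (hα.mem hz) ht) (ih z hz (hα.mem hz) hu))

theorem nt10_ne : (nt 10 : N) ≠ nt 11 := fun h => absurd (nt_inj.1 h) (by norm_num)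

theorem mem_nt10_ne {i : N} (hi : i ∈ (nt 10 : N)) : i ≠ nt 10 := fun h => by
  rw [h] at hi
  exact not_mem_self _ hi

theorem mem_nt10_ne' {i : N} (hi : i ∈ (nt 10 : N)) : i ≠ nt 11 := fun h => by
  obtain ⟨m, hm, rfl⟩ := mem_nt.1 hi
  have := nt_inj.1 h
  omega

theorem rho_inj {α β s t : N} (hα : ZU.Ord α) (hβ : ZU.Ord β) (hs : s ∈ CZ α) (ht : t ∈ CZ β)
    (h : rho s = rho t) : s = t := by
  revert hα s t β
  refine ind (P := fun α => ∀ {β s t : N}, ZU.Ord α → ZU.Ord β → s ∈ CZ α → t ∈ CZ β →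
    rho s = rho t → s = t) ?_ α
  intro α ih β s t hα hβ hs ht h
  have o10 := ord_nt (N := N) 10
  have o11 := ord_nt (N := N) 11
  rcases CZ_kinds hα hs with hs | ⟨γ, hγ, hs⟩ | ⟨i, a, b, y, hi, hy, ha, hb, hs⟩
  · rw [hs, rho_em] at h
    rcases CZ_kinds hβ ht with ht | ⟨δ, hδ, ht⟩ | ⟨k, c, d, z, hk, hz, hc, hd, ht⟩
    · rw [hs, ht]
    · rw [ht, rho_Sh] at h
      exact absurd (gpr_inj o11 ord_em o10 (hβ.mem hδ) h).1.symm nt10_ne
    · rw [ht, rho_op hk] at h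
      have hz' := hβ.mem hz
      exact absurd (gpr_inj o11 ord_em (o10.mem hk) (ord_gpr (ord_rho hz' hc) (ord_rho hz' hd))
        h).1.symm (mem_nt10_ne' hk)
  · rw [hs, rho_Sh] at h
    rcases CZ_kinds hβ ht with ht | ⟨δ, hδ, ht⟩ | ⟨k, c, d, z, hk, hz, hc, hd, ht⟩
    · rw [ht, rho_em] at h
      exact absurd (gpr_inj o10 (hα.mem hγ) o11 ord_em h).1 nt10_ne
    · rw [ht, rho_Sh] at h
      rw [hs, ht, (gpr_inj o10 (hα.mem hγ) o10 (hβ.mem hδ) h).2]
    · rw [ht, rho_op hk] at h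
      have hz' := hβ.mem hz
      exact absurd (gpr_inj o10 (hα.mem hγ) (o10.mem hk)
        (ord_gpr (ord_rho hz' hc) (ord_rho hz' hd)) h).1.symm (mem_nt10_ne hk)
  · rw [hs, rho_op hi] at h
    have hy' := hα.mem hy
    have oa := ord_rho hy' ha
    have ob := ord_rho hy' hb
    rcases CZ_kinds hβ ht with ht | ⟨δ, hδ, ht⟩ | ⟨k, c, d, z, hk, hz, hc, hd, ht⟩
    · rw [ht, rho_em] at h
      exact absurd (gpr_inj (o10.mem hi) (ord_gpr oa ob) o11 ord_em h).1 (mem_nt10_ne' hi)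
    · rw [ht, rho_Sh] at h
      exact absurd (gpr_inj (o10.mem hi) (ord_gpr oa ob) o10 (hβ.mem hδ) h).1 (mem_nt10_ne hi)
    · rw [ht, rho_op hk] at h
      have hz' := hβ.mem hz
      have oc := ord_rho hz' hc
      have od := ord_rho hz' hd
      obtain ⟨h1, h2⟩ := gpr_inj (o10.mem hi) (ord_gpr oa ob) (o10.mem hk) (ord_gpr oc od) h
      obtain ⟨h3, h4⟩ := gpr_inj oa ob oc od h2
      rw [hs, ht, h1, ih y hy hy' hz' ha hc h3, ih y hy hy' hz' hb hd h4]

end LRM
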