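import Pool.Agent.LRM.LOnA
import Pool.Agent.LRM.LOnB

/-! # LRM: if all sets are constructible then all sets are covered by functions on ordinals

(problem MP_328cd5_lc; L(R) side; architect helper16)

PROOF of `wo_of`. Let `X : N`. By `inL_au` there is `α` with `Ord α`, `X ⊆ Sh (sg ∅) α`. Let `o = uni (img (CZ α) fun s => sc (rho s))`, an
ordinal (`ord_uni`, `ord_sc`, `ord_rho`, `df_rho`, `mem_img`) which contains all `rho s`, `s ∈ CZ α`. Let
`f = lam o fun ξ => ev (sg ∅) (the fun s => s ∈ CZ α ∧ rho s = ξ) ∅` (`lam_isF` or similar). For `x ∈ X` there is `s ∈ CZ α` with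
`x = ev (sg ∅) s ∅` (`ev_sg`), and `the (fun s' => s' ∈ CZ α ∧ rho s' = rho s) = s` by `the_eq` and `rho_inj`; so `x = ap f (rho s) ∈ rg f`. -/

set_option autoImplicit false

universe v

namespace LRM

open STP STP.Fml ZU ZL

variable {N : Type v} [ZM N]

theorem wo_of (h : ∀ x : N, InL (sg ∅) x) : WO N := by
  intro X
  obtain ⟨α, hα, hX⟩ := inL_au (A := sg ∅) (X := X) fun x _ => h x
  have hF1 : DF fun v : ℕ → N => sc (rho (v 0)) := df_sc (df_rho (df_var 0))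
  have hF : DF fun v : ℕ → N =>
      ev (sg ∅) (the fun s => s ∈ CZ α ∧ rho s = v 0) ∅ :=
    df_ev (df_const _) (df_the (R := fun s v => s ∈ CZ α ∧ rho s = v 0)
      (dfn_and (dfn_mem (df_var 0) (df_const _))
        (dfn_eq (df_rho (df_var 0)) (df_var 1)))) (df_const _)
  refine ⟨uni (img (CZ α) fun s => sc (rho s)),
    lam (uni (img (CZ α) fun s => sc (rho s)))
      fun ξ => ev (sg ∅) (the fun s => s ∈ CZ α ∧ rho s = ξ) ∅,
    ord_uni fun x hx => ?_, isF_lam hF _, fun x hx => ?_⟩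
  · obtain ⟨s, hs, rfl⟩ := (mem_img hF1).1 hx
    exact ord_sc (ord_rho hα hs)
  · obtain ⟨s, hs, hz⟩ := ev_sg (hX x hx)
    refine mem_rg.2 ⟨rho s, (op_mem_lam hF).2 ⟨mem_uni.2 ⟨sc (rho s),
      (mem_img hF1).2 ⟨s, hs, rfl⟩, mem_sc.2 (Or.inr rfl)⟩, ?_⟩⟩
    rw [the_eq (P := fun s' => s' ∈ CZ α ∧ rho s' = rho s) (a := s) ⟨hs, rfl⟩
      fun z hz => rho_inj hα hα hz.1 hs hz.2]
    exact hz

end LRM
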