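import Pool.Agent.LRM.Sep
import Pool.Agent.ZU.Emb

/-! # LRM: the class `L(A)` is an inner model

(library; no sorry in this file) -/

universe v w

namespace LRM

open STP STP.Fml ZU ZL

variable {N : Type v} [ZM N] {A : N}

/-! ### Ordinals -/

theorem ord_sc {x : N} (h : ZU.Ord x) : ZU.Ord (sc x) := by
  refine ⟨fun y hy => ?_, fun y hy => ?_⟩
  · rcases mem_sc.1 hy with hy | rfl
    · exact fun z hz => mem_sc.2 (Or.inl (h.1 y hy z hz))
    · exact fun z hz => mem_sc.2 (Or.inl hz)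
  · rcases mem_sc.1 hy with hy | rfl
    · exact h.2 y hy
    · exact h.1

theorem ord_uni {X : N} (h : ∀ x, x ∈ X → ZU.Ord x) : ZU.Ord (uni X) := by
  refine ⟨fun y hy z hz => ?_, fun y hy => ?_⟩
  · obtain ⟨x, hx, hy⟩ := mem_uni.1 hy
    exact mem_uni.2 ⟨x, hx, (h x hx).1 y hy z hz⟩
  · obtain ⟨x, hx, hy⟩ := mem_uni.1 hy
    exact (h x hx).2 y hy

theorem ord_em : ZU.Ord (∅ : N) :=
  ⟨fun x hx => absurd hx (not_mem_em x), fun x hx => absurd hx (not_mem_em x)⟩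

theorem ord_nt (n : ℕ) : ZU.Ord (nt n : N) := by
  induction n with
  | zero => exact ord_em
  | succ n ih => exact ord_sc ih

theorem ord_om : ZU.Ord (om : N) := by
  refine ⟨fun y hy z hz => ?_, fun y hy => ?_⟩
  · obtain ⟨n, rfl⟩ := mem_om.1 hy
    obtain ⟨m, -, rfl⟩ := mem_nt.1 hz
    exact nt_mem_om m
  · obtain ⟨n, rfl⟩ := mem_om.1 hy
    exact (ord_nt n).1

/-! ### Levels -/

theorem Sh_base (x : N) : A ⊆ Sh A x := fun _ hz => mem_Sh.2 (Or.inl hz)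

theorem Sh_mono {x y : N} (h : x ⊆ y) : Sh A x ⊆ Sh A y := fun z hz => by
  rcases mem_Sh.1 hz with h1 | ⟨u, hu, h1⟩
  · exact Sh_base y z h1
  · exact mem_Sh.2 (Or.inr ⟨u, h u hu, h1⟩)

theorem Sh_lt {x y : N} (h : y ∈ x) : Sh A y ⊆ Sh A x := fun _ hz =>
  mem_Sh.2 (Or.inr ⟨y, h, mem_Nx.2 (Or.inl hz)⟩)

theorem Sh_mem {x y : N} (h : y ∈ x) : Sh A y ∈ Sh A x :=
  mem_Sh.2 (Or.inr ⟨y, h, mem_Nx.2 (Or.inr (Or.inl rfl))⟩)

theorem Sh_op {x y i u w : N} (h : y ∈ x) (hi : i ∈ (nt 10 : N)) (hu : u ∈ Sh A y)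
    (hw : w ∈ Sh A y) : opI i u w ∈ Sh A x :=
  mem_Sh.2 (Or.inr ⟨y, h, mem_Nx.2 (Or.inr (Or.inr ⟨i, u, w, hi, hu, hw, rfl⟩))⟩)

/-- two sets of `L(A)` are in a common level -/
theorem InL.common {x y : N} (hx : InL A x) (hy : InL A y) :
    ∃ α, ZU.Ord α ∧ x ∈ Sh A α ∧ y ∈ Sh A α := by
  obtain ⟨α, hα, h1⟩ := hx
  obtain ⟨β, hβ, h2⟩ := hy
  rcases ord_tri hα hβ with h | rfl | h
  · exact ⟨β, hβ, Sh_lt h x h1, h2⟩
  · exact ⟨α, hα, h1, h2⟩
  · exact ⟨α, hα, h1, Sh_lt h y h2⟩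

theorem InL.opI {x y i : N} (hi : i ∈ (nt 10 : N)) (hx : InL A x) (hy : InL A y) :
    InL A (opI i x y) := by
  obtain ⟨α, hα, h1, h2⟩ := hx.common hy
  exact ⟨sc α, ord_sc hα, Sh_op (mem_sc.2 (Or.inr rfl)) hi h1 h2⟩

theorem inL_Sh {α : N} (h : ZU.Ord α) : InL A (Sh A α) :=
  ⟨sc α, ord_sc h, Sh_mem (mem_sc.2 (Or.inr rfl))⟩

/-! ### Transitivity -/

/-- all sets of the transitive closure of `x` are in `L(A)` -/
def HL (A x : N) : Prop := ∀ z, z ∈ tcs x → InL A z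

theorem HL.inL {x : N} (h : HL A x) : InL A x := h x (self_mem_tcs x)

theorem HL.mem {x y : N} (h : HL A x) (hy : y ∈ x) : HL A y := fun z hz =>
  h z (tcs_sub (tr_tcs x) (tr_tcs x x (self_mem_tcs x) y hy) z hz)

theorem HL.intro {x : N} (h : InL A x) (h' : ∀ y, y ∈ x → HL A y) : HL A x := fun z hz => by
  rw [tcs_eq, mem_cup, mem_sg, mem_bU (df_tcs (df_var 0))] at hz
  rcases hz with rfl | ⟨y, hy, hz⟩
  · exact h
  · exact h' y hy z hz

theorem inL_up {x y : N} (hx : InL A x) (hy : InL A y) : InL A (up x y) := by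
  have := InL.opI (nt_mem.2 (show 0 < 10 by omega)) hx hy
  simpa [LRM.opI, ife] using this

theorem HL.up {x y : N} (hx : HL A x) (hy : HL A y) : HL A (up x y) :=
  HL.intro (inL_up hx.inL hy.inL) fun z hz => by
    rcases mem_up.1 hz with rfl | rfl
    · exact hx
    · exact hy

theorem HL.op {x y : N} (hx : HL A x) (hy : HL A y) : HL A (op x y) := (hx.up hx).up (hx.up hy)

theorem HL.of_op {x y : N} (h : HL A (ZU.op x y)) : HL A x ∧ HL A y :=
  ⟨(h.mem (y := ZU.up x x) (mem_up.2 (Or.inl rfl))).mem (mem_up.2 (Or.inl rfl)),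
    (h.mem (y := ZU.up x y) (mem_up.2 (Or.inr rfl))).mem (mem_up.2 (Or.inr rfl))⟩

theorem HL.opI {x y i : N} (hi : i ∈ (nt 10 : N)) (hx : HL A x) (hy : HL A y) :
    HL A (opI i x y) := by
  refine HL.intro (InL.opI hi hx.inL hy.inL) fun z hz => ?_
  obtain ⟨n, hn, rfl⟩ := mem_nt.1 hi
  have hp : ∀ {u a b : N}, HL A u → ZU.op a b ∈ u → HL A a ∧ HL A b :=
    fun hu h => (hu.mem h).of_op
  interval_cases n
  · simp only [LRM.opI, ife, if_true] at hz
    rcases mem_up.1 hz with rfl | rfl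
    · exact hx
    · exact hy
  · simp only [LRM.opI, ife, nt_inj] at hz
    norm_num at hz
    obtain ⟨w, hw, hz⟩ := hz
    exact (hx.mem hw).mem hz
  · simp only [LRM.opI, ife, nt_inj] at hz
    norm_num at hz
    obtain ⟨a, b, ha, hb, rfl⟩ := mem_prd.1 hz
    exact (hx.mem ha).op (hy.mem hb)
  · simp only [LRM.opI, ife, nt_inj] at hz
    norm_num at hz
    exact hx.mem hz.1
  · simp only [LRM.opI, ife, nt_inj] at hz
    norm_num at hz
    obtain ⟨b, hb⟩ := hz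
    exact (hp hx hb).1
  · simp only [LRM.opI, ife, nt_inj] at hz
    norm_num at hz
    obtain ⟨a, b, h, rfl⟩ := mem_cv.1 hz
    exact (hp hx h).2.op (hp hx h).1
  · simp only [LRM.opI, ife, nt_inj] at hz
    norm_num at hz
    obtain ⟨a, b, c, h, h', rfl⟩ := mem_cmp.1 hz
    exact (hp hx h).1.op (hp hy h').2
  · simp only [LRM.opI, ife, nt_inj] at hz
    norm_num at hz
    obtain ⟨a, b, ha, hb, -, rfl⟩ := mem_eps.1 hz
    exact (hx.mem ha).op (hx.mem hb)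
  · simp only [LRM.opI, ife, nt_inj] at hz
    norm_num at hz
    obtain ⟨a, b, ha, hb, rfl⟩ := mem_gf.1 hz
    exact ((hx.mem ha).op (hy.mem hb)).op (hx.mem ha)
  · simp only [LRM.opI, ife, nt_inj] at hz
    norm_num at hz
    obtain ⟨a, b, ha, hb, rfl⟩ := mem_gs.1 hz
    exact ((hx.mem ha).op (hy.mem hb)).op (hy.mem hb)

theorem HL_of_tr (hA : Tr A) : ∀ x, x ∈ A → HL A x := by
  intro x
  refine ind (P := fun x => x ∈ A → HL A x) ?_ x
  intro x ih hx
  exact HL.intro ⟨∅, ord_em, Sh_base _ x hx⟩ fun y hy => ih y hy (hA x hx y hy)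

theorem HL_Sh (hA : Tr A) : ∀ α, ZU.Ord α → ∀ x, x ∈ Sh A α → HL A x := by
  intro α
  refine ind (P := fun α => ZU.Ord α → ∀ x, x ∈ Sh A α → HL A x) ?_ α
  intro α ih hα x hx
  rcases mem_Sh.1 hx with h | ⟨β, hβ, h⟩
  · exact HL_of_tr hA x h
  · have hO := hα.mem hβ
    rcases mem_Nx.1 h with h | rfl | ⟨i, u, w, hi, hu, hw, rfl⟩
    · exact ih β hβ hO x h
    · exact HL.intro (inL_Sh hO) fun y hy => ih β hβ hO y hy
    · exact HL.opI hi (ih β hβ hO u hu) (ih β hβ hO w hw)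

theorem InL.mem (hA : Tr A) {x y : N} (h : InL A x) (hy : y ∈ x) : InL A y := by
  obtain ⟨α, hα, hx⟩ := h
  exact ((HL_Sh hA α hα x hx).mem hy).inL

/-! ### `L(A)` is an inner model -/

theorem inL_au {X : N} (h : ∀ x, x ∈ X → InL A x) : ∃ α, ZU.Ord α ∧ X ⊆ Sh A α := by
  have hR : Dfn fun v : ℕ → N => ZU.Ord (v 1) ∧ v 0 ∈ Sh A (v 1) := by
    simp (maxDischargeDepth := 99)
  obtain ⟨C, hC⟩ := CPY.coll (R := fun x α => ZU.Ord α ∧ x ∈ Sh A α) hR X
  have hO : Dfn fun v : ℕ → N => ZU.Ord (v 0) := dfn_ord (df_var 0)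
  refine ⟨uni (sep C ZU.Ord), ord_uni fun x hx => ((mem_sep hO).1 hx).2, fun x hx => ?_⟩
  obtain ⟨α, hα, h1, h2⟩ := hC x hx (h x hx)
  exact Sh_mono (fun z hz => mem_uni.2 ⟨α, (mem_sep hO).2 ⟨hα, h1⟩, hz⟩) x h2

theorem mem_Sh_om {x : N} : x ∈ Sh A om ↔ ∃ n, x ∈ Sh A (nt n) := by
  constructor
  · intro h
    rcases mem_Sh.1 h with h | ⟨y, hy, h⟩
    · exact ⟨0, Sh_base _ x h⟩
    · obtain ⟨n, rfl⟩ := mem_om.1 hy
      exact ⟨n + 1, mem_Sh.2 (Or.inr ⟨nt n, nt_mem.2 (by omega), h⟩)⟩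
  · rintro ⟨n, h⟩
    exact Sh_lt (nt_mem_om n) x h

theorem ind_Sh_om : Ind (Sh A om) := by
  have hs : ∀ {n : ℕ} {i u w : N}, i ∈ (nt 10 : N) → u ∈ Sh A (nt n) → w ∈ Sh A (nt n) →
      LRM.opI i u w ∈ Sh A (nt (n + 1)) := fun hi hu hw => Sh_op (nt_mem.2 (by omega)) hi hu hw
  have hm : ∀ {n : ℕ} {u : N}, u ∈ Sh A (nt n) → u ∈ Sh A (nt (n + 1)) := fun hu =>
    Sh_lt (nt_mem.2 (by omega)) _ hu
  refine ⟨?_, fun y hy => ?_⟩
  · have h0 : Sh A (nt 0) ∈ Sh A (nt 1) := Sh_mem (nt_mem.2 (by omega))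
    have h1 := hs (nt_mem.2 (show 3 < 10 by omega)) h0 h0
    have h2 : LRM.opI (nt 3) (Sh A (nt 0)) (Sh A (nt 0)) = (∅ : N) := by
      refine eq_em fun z hz => ?_
      simp only [LRM.opI, ife, nt_inj] at hz
      norm_num at hz
    rw [h2] at h1
    exact mem_Sh_om.2 ⟨_, h1⟩
  · obtain ⟨n, hn⟩ := mem_Sh_om.1 hy
    have e0 : ∀ u w : N, LRM.opI (nt 0) u w = up u w := fun u w => by simp [LRM.opI, ife]
    have e1 : ∀ u w : N, LRM.opI (nt 1) u w = uni u := fun u w => by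
      simp only [LRM.opI, ife, nt_inj]
      norm_num
    have h1 := hs (nt_mem.2 (show 0 < 10 by omega)) hn hn
    rw [e0] at h1
    have h2 := hs (nt_mem.2 (show 0 < 10 by omega)) (hm hn) h1
    rw [e0] at h2
    have h3 := hs (nt_mem.2 (show 1 < 10 by omega)) h2 h2
    rw [e1] at h3
    exact mem_Sh_om.2 ⟨_, h3⟩

/-- **`L(A)` is an inner model** for transitive `A` -/
theorem inn_L (hA : Tr A) : Inn (InL A) where
  dfn := by simp (maxDischargeDepth := 99)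
  tr _ _ hx hy := hx.mem hA hy
  cl _ _ _ hi hx hy := InL.opI hi hx hy
  au X h := by
    obtain ⟨α, hα, h1⟩ := inL_au h
    exact ⟨Sh A α, inL_Sh hα, h1⟩
  inf := ⟨Sh A om, inL_Sh ord_om, ind_Sh_om⟩

theorem inL_self : InL A A := by
  have h : Sh A ∅ = A := ext fun z => by
    rw [mem_Sh]
    constructor
    · rintro (h | ⟨y, hy, -⟩)
      · exact h
      · exact absurd hy (not_mem_em y)
    · exact Or.inl
  have := inL_Sh (A := A) ord_em
  rwa [h] at this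

/-! ### Absoluteness -/

section

variable {N' : Type w} [ZM N'] {j : N → N'} (h : TrEmb j)
include h

theorem emb_cv (x : N) : j (cv x) = cv (j x) := by
  unfold cv
  rw [h.sep (P' := fun p => op (snd p) (fst p) ∈ j x) (by simp (maxDischargeDepth := 99))
    (by simp (maxDischargeDepth := 99)) fun z _ => ?_, h.prd, h.rg, h.dm]
  rw [← h.fst, ← h.snd, ← h.op, h.mem_iff]

theorem emb_eps (x : N) : j (eps x) = eps (j x) := by
  unfold eps
  rw [h.sep (P' := fun p => fst p ∈ snd p) (by simp (maxDischargeDepth := 99))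
    (by simp (maxDischargeDepth := 99)) fun z _ => ?_, h.prd]
  rw [← h.fst, ← h.snd, h.mem_iff]

theorem emb_cmp (x y : N) : j (cmp x y) = cmp (j x) (j y) := by
  unfold cmp
  rw [h.sep (P' := fun p => ∃ b, op (fst p) b ∈ j x ∧ op b (snd p) ∈ j y)
    (by simp (maxDischargeDepth := 99)) (by simp (maxDischargeDepth := 99)) fun z _ => ?_, h.prd,
    h.rg, h.dm]
  rw [← h.fst, ← h.snd]
  constructor
  · rintro ⟨b, h1, h2⟩
    exact ⟨j b, h.op_mem.2 h1, h.op_mem.2 h2⟩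
  · rintro ⟨b, h1, h2⟩
    obtain ⟨a, b', ha, rfl, h3⟩ := h.of_op_mem h1
    rw [h.eq_iff] at ha
    subst ha
    exact ⟨b', h3, h.op_mem.1 h2⟩

theorem emb_gf (x y : N) : j (gf x y) = gf (j x) (j y) := by
  unfold gf
  rw [h.lam (F' := fst) (df_fst (df_var 0)) (df_fst (df_var 0)) fun z _ => h.fst, h.prd]

theorem emb_gs (x y : N) : j (gs x y) = gs (j x) (j y) := by
  unfold gs
  rw [h.lam (F' := snd) (df_snd (df_var 0)) (df_snd (df_var 0)) fun z _ => h.snd, h.prd]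

theorem emb_opI (i x y : N) : j (opI i x y) = opI (j i) (j x) (j y) := by
  have e : ∀ n : ℕ, i = nt n ↔ j i = nt n := fun n => by rw [← h.nt n, h.eq_iff]
  unfold opI
  rw [h.ife (e 0), h.ife (e 1), h.ife (e 2), h.ife (e 3), h.ife (e 4), h.ife (e 5), h.ife (e 6),
    h.ife (e 7), h.ife (e 8), h.up, h.uni, h.prd, h.dif, h.dm, emb_cv h, emb_cmp h, emb_eps h,
    emb_gf h, emb_gs h]

theorem emb_Nx (X : N) : j (Nx X) = Nx (j X) := by
  have h1 : ∀ i x : N, j (img X fun y => opI i x y) = img (j X) fun y => opI (j i) (j x) y :=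
    fun i x => h.img (by simp (maxDischargeDepth := 99)) (by simp (maxDischargeDepth := 99))
      fun y _ => emb_opI h i x y
  have h2 : ∀ i : N, j (bU X fun x => img X fun y => opI i x y) =
      bU (j X) fun x => img (j X) fun y => opI (j i) x y :=
    fun i => h.bU (by simp (maxDischargeDepth := 99)) (by simp (maxDischargeDepth := 99))
      fun x _ => h1 i x
  unfold Nx
  rw [h.cup, h.cup, h.sg, h.bU (F' := fun i => bU (j X) fun x => img (j X) fun y => opI i x y)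
    (by simp (maxDischargeDepth := 99)) (by simp (maxDischargeDepth := 99)) fun i _ => h2 i, h.nt]

theorem emb_Sh (A x : N) : j (Sh A x) = Sh (j A) (j x) := by
  unfold Sh
  refine h.recE (by simp (maxDischargeDepth := 99)) (by simp (maxDischargeDepth := 99))
    (fun x f _ => ?_) x
  rw [h.cup, h.bU (F' := fun y => Nx (ap (j f) y)) (by simp (maxDischargeDepth := 99))
    (by simp (maxDischargeDepth := 99)) fun y _ => ?_]
  rw [emb_Nx h, h.ap]

theorem emb_ord (x : N) : ZU.Ord (j x) ↔ ZU.Ord x := by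
  unfold ZU.Ord
  refine and_congr h.trs ?_
  constructor
  · intro h1 y hy
    exact h.trs.1 (h1 _ ((h.mem_iff _ _).2 hy))
  · intro h1 y hy
    obtain ⟨y, hy1, rfl⟩ := h.mem_j.1 hy
    exact h.trs.2 (h1 y hy1)

/-- **Minimality**: an inner model which contains `A` and all ordinals contains `L(A)` -/
theorem L_min (ho : ∀ α : N', ZU.Ord α → ∃ β, α = j β) {A : N} {z : N'} :
    InL (j A) z ↔ ∃ w, z = j w ∧ InL A w := by
  constructor
  · rintro ⟨α, hα, hz⟩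
    obtain ⟨β, rfl⟩ := ho α hα
    rw [← emb_Sh h] at hz
    obtain ⟨w, hw, rfl⟩ := h.mem_j.1 hz
    exact ⟨w, rfl, β, (emb_ord h β).1 hα, hw⟩
  · rintro ⟨w, rfl, β, hβ, hw⟩
    refine ⟨j β, (emb_ord h β).2 hβ, ?_⟩
    rw [← emb_Sh h, h.mem_iff]
    exact hw

end

end LRM
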