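import Pool.Agent.LRM.TyA

/-! # LRM: typed nice names

(problem MP_328cd5_lc; L(R) side, bridge; helper69; no sorry in this file)

`M` a transitive model of ZFC, `V, le, o` an internal preorder of the type `T`, `G` generic for the partial order `tPo M V le o`. Every
set `x` of `M[G]` is on the type `X` given by an internal family `A1 : X → St M T` of open sets: `n ∈ x` iff `A1 n` meets `G`
(`nice`). `neg A1 n`: the conditions without extension in `A1 n`. -/

set_option autoImplicit false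

universe u v w

namespace LRT

open WCal CPY

variable {M : Set ZFSet.{0}} [hM : Fact (CPY.Mod M)] {T : Type v} [WTy M T] {X : Type w} [WTy M X]
  {V : T → Prop} {le : T → T → Prop} {o : T}

/-- membership of pairs in a set of the model is internal -/
theorem ip_pair_mem {u : ZFSet.{0}} (hu : u ∈ M) :
    IP M (fun z : X × T => ZFSet.pair (zc M z.1) (zc M z.2) ∈ u) := by
  refine IP.iff_mem.2 ⟨u, hu, fun z => ?_⟩
  obtain ⟨n, q⟩ := z
  show ZFSet.pair (zc M n) (zc M q) ∈ u ↔ zc M ((n, q) : X × T) ∈ u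
  rw [zc_pair]

/-- `A` is an internal family of open sets -/
structure OpenF (M : Set ZFSet.{0}) [Fact (CPY.Mod M)] {T : Type v} [WTy M T] {X : Type w} [WTy M X] (V : T → Prop)
    (le : T → T → Prop) (A : X → St M T) : Prop where
  int : IF M A
  val : ∀ n p, p ∈ A n → V p
  opn : ∀ n p q, V p → q ∈ A n → le p q → p ∈ A n

/-- **typed nice names** -/
theorem nice (h : IsT M V le o) {G : Set ZFSet.{0}} (hG : Gen M (tPo M V le o) G) {x : ZFSet.{0}} (hx : x ∈ Ext M G)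
    (X : Type w) [WTy M X] : ∃ A1 : X → St M T, OpenF M V le A1 ∧
      ∀ n : X, zc M n ∈ x ↔ ∃ p : T, zc M p ∈ G ∧ p ∈ A1 n := by
  obtain ⟨u, h1, -, h3⟩ := hM.out.nice (tPo_isPo h) hG (rg M X) hx
  have hR : IP M (fun z : X × T => ZFSet.pair (zc M z.1) (zc M z.2) ∈ u.1) := ip_pair_mem u.2
  have hA : IP M (fun z : X × T => V z.2 ∧ ∃ q : T, V q ∧ ZFSet.pair (zc M z.1) (zc M q) ∈ u.1 ∧ le z.2 q) :=
    IP.and (h.iV.comp IF.snd) (IP.ex (IP.and (h.iV.comp IF.snd) (IP.and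
      (hR.comp (f := fun t : (X × T) × T => (t.1.1, t.2)) (IF.pair (IF.fst.comp IF.fst) IF.snd))
      (h.il.comp (f := fun t : (X × T) × T => (t.1.2, t.2)) (IF.pair (IF.snd.comp IF.fst) IF.snd)))))
  refine ⟨fun n => ⟨{p | V p ∧ ∃ q : T, V q ∧ ZFSet.pair (zc M n) (zc M q) ∈ u.1 ∧ le p q}, IP.sec hA n⟩,
    ⟨IF.compr' hA, fun n p hp => hp.1, ?_⟩, fun n => ?_⟩
  · rintro n p q hp ⟨hq, r, hr, h4, h5⟩ hpq
    exact ⟨hp, r, hr, h4, h.trans p q r hp hq hr hpq h5⟩
  · refine (h3 (zc M n) (cd_mem n : WM.E (cd M n) (rg M X))).trans ?_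
    constructor
    · rintro ⟨z, hz, h4⟩
      obtain ⟨q, hq, rfl⟩ := exists_of_P (hG.sub z hz)
      exact ⟨q, hz, hq, q, hq, h4, h.refl q hq⟩
    · rintro ⟨p, hp, hpV, q, hq, h4, h5⟩
      exact ⟨zc M q, hG.up _ hp _ (le_iff.2 ⟨hpV, hq, h5⟩), h4⟩

/-- the conditions without extension in `A n` -/
def neg (V : T → Prop) (le : T → T → Prop) (h : IsT M V le o) {A : X → St M T} (hA : OpenF M V le A) (n : X) : St M T :=
  ⟨{p | V p ∧ ∀ r, V r → le r p → ¬ r ∈ A n}, IP.and h.iV (IP.all (IP.imp (h.iV.comp IF.snd)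
    (IP.imp (h.il.comp (f := fun t : T × T => (t.2, t.1)) (IF.pair IF.snd IF.fst))
      (IP.not (IP.mem IF.snd (IF.const (A n)))))))⟩

theorem neg_open (h : IsT M V le o) {A : X → St M T} (hA : OpenF M V le A) : OpenF M V le (neg V le h hA) := by
  refine ⟨IF.compr' ?_, fun n p hp => hp.1, ?_⟩
  · show IP M (fun z : X × T => V z.2 ∧ ∀ r, V r → le r z.2 → ¬ r ∈ A z.1)
    exact IP.and (h.iV.comp IF.snd) (IP.all (IP.imp (h.iV.comp IF.snd)
      (IP.imp (h.il.comp (f := fun t : (X × T) × T => (t.2, t.1.2)) (IF.pair IF.snd (IF.snd.comp IF.fst)))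
        (IP.not (IP.mem IF.snd (hA.int.comp (IF.fst.comp IF.fst)))))))
  · rintro n p q hp ⟨hq, h1⟩ hpq
    exact ⟨hp, fun r hr hrp => h1 r hr (h.trans r p q hr hp hq hrp hpq)⟩

theorem neg_dis (h : IsT M V le o) {A : X → St M T} (hA : OpenF M V le A) {n : X} {p : T} (hp : p ∈ A n)
    (hp' : p ∈ neg V le h hA n) : False :=
  hp'.2 p hp'.1 (h.refl p hp'.1) hp

theorem neg_den (h : IsT M V le o) {A : X → St M T} (hA : OpenF M V le A) (n : X) {p : T} (hp : V p) :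
    ∃ r, V r ∧ le r p ∧ (r ∈ A n ∨ r ∈ neg V le h hA n) := by
  by_cases h1 : ∃ r, V r ∧ le r p ∧ r ∈ A n
  · obtain ⟨r, hr, h2, h3⟩ := h1
    exact ⟨r, hr, h2, Or.inl h3⟩
  · refine ⟨p, hp, h.refl p hp, Or.inr ⟨hp, fun r hr hrp hrA => h1 ⟨r, hr, hrp, hrA⟩⟩⟩

/-- a condition of the generic filter which decides `n` decides it correctly -/
theorem dec_iff (h : IsT M V le o) {G : Set ZFSet.{0}} (hG : Gen M (tPo M V le o) G) {A : X → St M T}
    (hA : OpenF M V le A) {n : X} {w : T} (hw : zc M w ∈ G) (hwd : w ∈ A n ∨ w ∈ neg V le h hA n) :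
    w ∈ A n ↔ ∃ p : T, zc M p ∈ G ∧ p ∈ A n := by
  constructor
  · exact fun h1 => ⟨w, hw, h1⟩
  · rintro ⟨p, hp, hpA⟩
    rcases hwd with h1 | h1
    · exact h1
    · have hT := tgen h hG
      obtain ⟨r, hr, h2, h3⟩ := hT.dir p w hp hw
      exact absurd (hA.opn n r p (hT.val r hr) hpA h2) (h1.2 r (hT.val r hr) h3)

end LRT
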