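import Pool.Agent.LRM.PFour
import Pool.Agent.COD.Gp

/-! # LRM: new reals outside of the submodels (P7)

(problem MP_328cd5_lc; L(R) side, bridge; helper69; no sorry in this file) -/

set_option autoImplicit false

universe u v w

namespace LRT

open WCal CPY COD ZU

variable {M : Set ZFSet.{0}} [hM : Fact (CPY.Mod M)] {K : Type v} [WTy M K] [KTy M K] {D : CPD M K}

theorem upd_eq (q : PQ M K) {x y : K} (h : y = x) (p : Pre M K) : upd q x p y = p := by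
  rw [h]
  exact upd_same q x p

theorem dens7 (B : Bs M K) (P : CPP D) {a : St M K} {i : K} (hi : i ∉ a) {A1 : K → St M (PQ M K)}
    (hA1 : OpenF M (VI D a) (LeQ D) A1) {p : PQ M K} (hp : VI D (allK M K) p) :
    ∃ q, VI D (allK M K) q ∧ LeQ D q p ∧ ∃ n, n < nx M (⊥ : K) ∧
      ((glu a q oneQ ∈ A1 n ∧ n < (q i).2.1 ⊥ ∧ (⊥, n) ∉ (q i).2.2.1) ∨
        (glu a q oneQ ∈ neg _ _ (isT_VI B P a) hA1 n ∧ (⊥, n) ∈ (q i).2.2.1)) := by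
  obtain ⟨n, p0, p1, -, hn, v0, l0, v1, l1, h1, h2, h3, h4⟩ := split B P (hp.1.val i) (e := ⊥)
    (bot_lt_iff_ne_bot.2 (cd_ne (cd_nx B ⊥)))
  obtain ⟨r, hr, hrp, hd⟩ := neg_den (isT_VI B P a) hA1 n (VQ.res B a hp.1)
  have key : ∀ p' : Pre M K, Val D p' → Le D p' (p i) → VI D (allK M K) (upd (glu a r p) i p') ∧
      LeQ D (upd (glu a r p) i p') p ∧ glu a (upd (glu a r p) i p') oneQ = r := by
    intro p' hv hl
    refine ⟨⟨VQ.upd (VQ.glu hr.1 hp.1) hv i, fun x hx => absurd trivial hx⟩, fun x => ?_, fn_ext fun x => ?_⟩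
    · by_cases hx : x = i
      · rw [upd_eq _ hx, hx]
        exact hl
      · rw [upd_ne _ hx]
        by_cases hxa : x ∈ a
        · rw [glu_mem _ _ hxa]
          have h5 := hrp x
          rwa [glu_one_mem hxa] at h5
        · rw [glu_not _ _ hxa]
          exact Le.refl _
    · by_cases hxa : x ∈ a
      · have hx : x ≠ i := fun h => hi (h ▸ hxa)
        rw [glu_one_mem hxa, upd_ne _ hx, glu_mem _ _ hxa]
      · rw [glu_one_not hxa, hr.2 x hxa]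
  rcases hd with hd | hd
  · obtain ⟨k1, k2, k3⟩ := key p0 v0 l0
    refine ⟨_, k1, k2, n, hn, Or.inl ⟨?_, ?_, ?_⟩⟩
    · rw [k3]
      exact hd
    · rw [upd_same]
      exact h1
    · rw [upd_same]
      exact h2
  · obtain ⟨k1, k2, k3⟩ := key p1 v1 l1
    refine ⟨_, k1, k2, n, hn, Or.inr ⟨?_, ?_⟩⟩
    · rw [k3]
      exact hd
    · rw [upd_same]
      exact h4

/-- **(P7)**: a real of `M[G]` which is not in `M[r a '' G]` -/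
theorem new_real7 (B : Bs M K) (P : CPP D) (hK : OrdC M K) {G : Set ZFSet.{0}} (hG : Gen M (QA D) G) (a : Idx M K) :
    ∃ x ∈ Ext M G, (∀ z ∈ x, z ∈ zc M (nx M (⊥ : K))) ∧ x ∉ Sma M (sdD D) G a := by
  have fB : Fact (Bs M K) := ⟨B⟩
  have fP : Fact (CPP D) := ⟨P⟩
  have hS := isSys_sdD B P
  have hPo := QP_isPo B P (allK M K)
  have hGa : Gen M (QP D a.1) ((sdD D).r a '' G) := sys_gen hM.out hPo hS hG a
  have hsub : M ⊆ Ext M G := hM.out.sub_ext hPo hG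
  have tG : TM (Ext M G) := (hM.out.ext hPo hG).tm
  have hT := tgen (isT_VI B P (allK M K)) hG
  obtain ⟨i, hi⟩ := exists_not_mem B a.2
  have hE : IP M (fun z : K × PQ M K => z.1 < nx M (⊥ : K) ∧ (⊥, z.1) ∈ (z.2 i).2.2.1) :=
    IP.and (ip_ltK IF.fst (IF.const _)) (IP.mem (IF.pair (IF.const ⊥) IF.fst)
      (IF.fst' (IF.snd' (IF.snd' (IF.app IF.snd (IF.const i))))))
  have hc : ∀ (n : K) (g : PQ M K), ZFSet.pair (zc M n) (zc M g) ∈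
      zst M (fun z : K × PQ M K => z.1 < nx M (⊥ : K) ∧ (⊥, z.1) ∈ (z.2 i).2.2.1) ↔
      n < nx M (⊥ : K) ∧ (⊥, n) ∈ (g i).2.2.1 := by
    intro n g
    rw [← zc_pair]
    exact zc_mem_zst
  obtain ⟨cm, hcm⟩ : ∃ cm : Ext M G, cm.1 = zst M (fun z : K × PQ M K => z.1 < nx M (⊥ : K) ∧
      (⊥, z.1) ∈ (z.2 i).2.2.1) := ⟨⟨_, hsub (zst_mem hE)⟩, rfl⟩
  obtain ⟨gm, hgm⟩ : ∃ gm : Ext M G, ∀ p, p ∈ gm.1 ↔ p ∈ G :=
    ⟨⟨gset (QA D) G, gset_ext hG (hM.out.gnm_mem hPo)⟩, fun p => mem_gset hG⟩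
  obtain ⟨em, hem⟩ : ∃ em : Ext M G, em.1 = zc M (nx M (⊥ : K)) := ⟨⟨_, hsub (zc_mem _)⟩, rfl⟩
  have hR : Dfn fun v : ℕ → Ext M G => ∃ g, g ∈ gm ∧ ZU.op (v 0) g ∈ cm := by
    simp (maxDischargeDepth := 99) [-Subtype.exists, -Subtype.forall]
  obtain ⟨x, hx⟩ : ∃ x : Ext M G, ∀ n : K, zc M n ∈ x.1 ↔ n < nx M (⊥ : K) ∧ ∃ q : PQ M K, zc M q ∈ G ∧
      (⊥, n) ∈ (q i).2.2.1 := by
    refine ⟨sep em fun n => ∃ g, g ∈ gm ∧ ZU.op n g ∈ cm, fun n => ?_⟩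
    constructor
    · intro hz
      obtain ⟨zm, hzm, hzm'⟩ := ex_val hz
      obtain ⟨h5, g1, hg1, h6⟩ := (ZU.mem_sep hR).1 hzm
      have h8 : g1.1 ∈ G := (hgm _).1 hg1
      obtain ⟨g, hg, hg'⟩ := exists_of_P (hG.sub _ h8)
      rw [mop_mem, hzm', hg', hcm, hc] at h6
      exact ⟨h6.1, g, by rw [← hg']; exact h8, h6.2⟩
    · rintro ⟨hn, q, hq, hqn⟩
      have h7 : zc M n ∈ em.1 := by
        rw [hem]
        exact (hK _ _).2 ⟨n, hn, rfl⟩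
      obtain ⟨zm, hzm, hzm'⟩ := ex_val h7
      obtain ⟨g1, hg1, hg1'⟩ := ex_val ((hgm _).2 hq)
      have h5 : zm ∈ sep em fun n => ∃ g, g ∈ gm ∧ ZU.op n g ∈ cm := by
        rw [ZU.mem_sep hR]
        refine ⟨hzm, g1, hg1, ?_⟩
        rw [mop_mem, hzm', hg1', hcm]
        exact (hc n q).2 ⟨hn, hqn⟩
      rw [← hzm']
      exact h5
  -- the part of `x` below `nx ⊥`
  have hR2 : Dfn fun v : ℕ → Ext M G => v 0 ∈ x := by
    simp (maxDischargeDepth := 99) [-Subtype.exists, -Subtype.forall]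
  obtain ⟨x', hx', hx''⟩ : ∃ x' : Ext M G, (∀ n : K, zc M n ∈ x'.1 ↔ n < nx M (⊥ : K) ∧ ∃ q : PQ M K, zc M q ∈ G ∧
      (⊥, n) ∈ (q i).2.2.1) ∧ ∀ z ∈ x'.1, z ∈ zc M (nx M (⊥ : K)) := by
    refine ⟨sep em fun n => n ∈ x, fun n => ?_, fun z hz => ?_⟩
    · rw [← hx n]
      constructor
      · intro hz
        obtain ⟨zm, hzm, hzm'⟩ := ex_val hz
        rw [← hzm']
        exact ((ZU.mem_sep hR2).1 hzm).2
      · intro hz
        obtain ⟨zm, hzm, hzm'⟩ := ex_val hz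
        rw [← hzm']
        refine (ZU.mem_sep hR2).2 ⟨?_, hzm⟩
        show zm.1 ∈ em.1
        rw [hzm', hem]
        exact (hK _ _).2 ⟨n, ((hx n).1 hz).1, rfl⟩
    · obtain ⟨zm, hzm, rfl⟩ := ex_val hz
      have h5 := ((ZU.mem_sep hR2).1 hzm).1
      rw [← hem]
      exact h5
  refine ⟨x'.1, x'.2, hx'', fun hxa => ?_⟩
  obtain ⟨A1, hA1, hA1'⟩ := nice (isT_VI B P a.1) hGa hxa K
  have hN := neg_open (isT_VI B P a.1) hA1
  have hS1 : IP M (fun q : PQ M K => ∃ n, n < nx M (⊥ : K) ∧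
      ((glu a.1 q oneQ ∈ A1 n ∧ n < (q i).2.1 ⊥ ∧ (⊥, n) ∉ (q i).2.2.1) ∨
        (glu a.1 q oneQ ∈ neg _ _ (isT_VI B P a.1) hA1 n ∧ (⊥, n) ∈ (q i).2.2.1))) := by
    have hq : IF M (fun z : PQ M K × K => z.1 i) := IF.app IF.fst (IF.const i)
    have hg : IF M (fun z : PQ M K × K => glu a.1 z.1 oneQ) := if_glu (IF.const a.1) IF.fst (IF.const oneQ)
    have hm : IP M (fun z : PQ M K × K => (⊥, z.2) ∈ (z.1 i).2.2.1) :=
      IP.mem (IF.pair (IF.const ⊥) IF.snd) (IF.fst' (IF.snd' (IF.snd' hq)))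
    exact IP.ex (IP.and (ip_ltK IF.snd (IF.const _)) (IP.or (IP.and (IP.mem hg (hA1.int.comp IF.snd))
      (IP.and (ip_ltK IF.snd (IF.app (IF.fst' (IF.snd' hq)) (IF.const ⊥))) (IP.not hm)))
      (IP.and (IP.mem hg (hN.int.comp IF.snd)) hm)))
  obtain ⟨q, hq, n, hn, hd⟩ := hT.gen ⟨{q : PQ M K | ∃ n, n < nx M (⊥ : K) ∧
      ((glu a.1 q oneQ ∈ A1 n ∧ n < (q i).2.1 ⊥ ∧ (⊥, n) ∉ (q i).2.2.1) ∨
        (glu a.1 q oneQ ∈ neg _ _ (isT_VI B P a.1) hA1 n ∧ (⊥, n) ∈ (q i).2.2.1))}, hS1⟩ (by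
    intro p hp
    obtain ⟨q, h1, h2, h3⟩ := dens7 B P hi hA1 hp
    exact ⟨q, h3, h1, h2⟩)
  have hqa : zc M (glu a.1 q oneQ) ∈ (sdD D).r a '' G := ⟨zc M q, hq, zmap_glu q⟩
  rcases hd with ⟨h1, h2, h3⟩ | ⟨h1, h2⟩
  · have h4 : zc M n ∈ x'.1 := (hA1' n).2 ⟨_, hqa, h1⟩
    obtain ⟨-, q', hq', h5⟩ := (hx' n).1 h4
    obtain ⟨t, ht, htq, htq'⟩ := hT.dir q q' hq hq'
    have h6 := ((htq' i).s ⊥ n (((hT.val q' hq').1.val i).s_lt _ _ h5)).1 h5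
    exact h3 (((htq i).s ⊥ n h2).2 h6)
  · have h4 : zc M n ∈ x'.1 := (hx' n).2 ⟨hn, q, hq, h2⟩
    have h5 := (dec_iff (isT_VI B P a.1) hGa hA1 hqa (Or.inr h1)).2 ((hA1' n).1 h4)
    exact neg_dis (isT_VI B P a.1) hA1 h5 h1

end LRT
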