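import Pool.Agent.LRM.Tup
import Pool.Agent.CPY.B.Coll

/-! # LRM: separation and collection in inner models

(library; no sorry in this file) -/

universe v

namespace LRM

open STP STP.Fml ZU ZL

variable {N : Type v} [ZM N] {K : N → Prop}

theorem Inn.proj (h : Inn K) {a : N} (ha : K a) (n : ℕ) : ∀ i, ∃ P, K P ∧
    ∀ s y, op s y ∈ P ↔ s ∈ TS a n ∧ y = dc n s i := by
  induction n with
  | zero =>
    intro i
    refine ⟨prd (sg ∅) (sg ∅), h.kprd (h.ksg h.kem) (h.ksg h.kem), fun s y => ?_⟩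
    rw [op_mem_prd]
    exact and_congr_right fun _ => mem_sg
  | succ n ih =>
    intro i
    rcases i with _ | i
    · exact ⟨gs (TS a n) a, h.kgs (h.kTS ha n) ha, fun s y => op_mem_gs⟩
    · obtain ⟨P, hP, h1⟩ := ih i
      refine ⟨cmp (gf (TS a n) a) P, h.kcmp (h.kgf (h.kTS ha n) ha) hP, fun s y => ?_⟩
      rw [op_mem_cmp]
      constructor
      · rintro ⟨b, h2, h3⟩
        obtain ⟨h4, rfl⟩ := op_mem_gf.1 h2
        exact ⟨h4, ((h1 _ _).1 h3).2⟩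
      · rintro ⟨h2, h3⟩
        refine ⟨fst s, op_mem_gf.2 ⟨h2, rfl⟩, (h1 _ _).2 ⟨?_, h3⟩⟩
        obtain ⟨t, x, ht, hx, rfl⟩ := mem_TS_succ.1 h2
        rw [fst_op]
        exact ht

/-- **Separation for tuples** in an inner model -/
theorem Inn.sepT (h : Inn K) (φ : Fml) : ∀ (n : ℕ) (a : N), K a → ∃ B, K B ∧
    ∀ s, s ∈ B ↔ s ∈ TS a n ∧ satR K φ (dc n s) := by
  induction φ with
  | mem i j =>
    intro n a ha
    obtain ⟨P, hP, h1⟩ := h.proj ha n i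
    obtain ⟨P', hP', h2⟩ := h.proj ha n j
    have ha' : K (cup a (sg ∅)) := h.kcup ha (h.ksg h.kem)
    refine ⟨dm (cap (cmp P (eps (cup a (sg ∅)))) P'), h.kdm (h.kcap (h.kcmp hP (h.keps ha')) hP'),
      fun s => ?_⟩
    rw [mem_dm]
    simp only [satR]
    have hm : s ∈ TS a n → ∀ i, dc n s i ∈ cup a (sg ∅) := by
      intro hs i
      rw [mem_cup, mem_sg]
      rcases Nat.lt_or_ge i n with hi | hi
      · exact Or.inl (dc_mem hs hi)
      · exact Or.inr (dc_ge hi s)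
    constructor
    · rintro ⟨y, hy⟩
      rw [mem_cap, op_mem_cmp, h2] at hy
      obtain ⟨⟨b, hb, h3⟩, hs, rfl⟩ := hy
      rw [h1] at hb
      obtain ⟨-, rfl⟩ := hb
      exact ⟨hs, (op_mem_eps.1 h3).2.2⟩
    · rintro ⟨hs, h3⟩
      refine ⟨dc n s j, mem_cap.2 ⟨op_mem_cmp.2 ⟨dc n s i, (h1 _ _).2 ⟨hs, rfl⟩,
        op_mem_eps.2 ⟨hm hs i, hm hs j, h3⟩⟩, (h2 _ _).2 ⟨hs, rfl⟩⟩⟩
  | eq i j =>
    intro n a ha
    obtain ⟨P, hP, h1⟩ := h.proj ha n i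
    obtain ⟨P', hP', h2⟩ := h.proj ha n j
    refine ⟨dm (cap P P'), h.kdm (h.kcap hP hP'), fun s => ?_⟩
    rw [mem_dm]
    simp only [satR]
    constructor
    · rintro ⟨y, hy⟩
      rw [mem_cap, h1, h2] at hy
      exact ⟨hy.1.1, hy.1.2.symm.trans hy.2.2⟩
    · rintro ⟨hs, h3⟩
      exact ⟨dc n s i, mem_cap.2 ⟨(h1 _ _).2 ⟨hs, rfl⟩, (h2 _ _).2 ⟨hs, h3⟩⟩⟩
  | bot =>
    intro n a ha
    exact ⟨∅, h.kem, fun s => ⟨fun hs => absurd hs (not_mem_em s), fun hs => hs.2.elim⟩⟩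
  | imp φ ψ h1 h2 =>
    intro n a ha
    obtain ⟨B, hB, h3⟩ := h1 n a ha
    obtain ⟨C, hC, h4⟩ := h2 n a ha
    refine ⟨dif (TS a n) (dif B C), h.kdif (h.kTS ha n) (h.kdif hB hC), fun s => ?_⟩
    rw [mem_dif, mem_dif, h3, h4]
    simp only [satR]
    tauto
  | all φ ih =>
    intro n a ha
    have hR : Dfn fun v : ℕ → N => K (v 1) ∧ ¬ satR K φ (cns (v 1) (dc n (v 0))) := by
      refine dfn_and (dfn1 h.dfn (df_var 1)) (dfn_not ?_)
      refine (dfn_satR h.dfn φ (fun i v => match i with | 0 => v 1 | i + 1 => dc n (v 0) i)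
        ?_).congr fun v => ?_
      · intro i
        cases i with
        | zero => exact df_var 1
        | succ i => exact df_dc (df_var 0) n i
      · have : (cns (v 1) (dc n (v 0))) = fun i => (match i with
            | 0 => v 1 | i + 1 => dc n (v 0) i : N) := by
          funext i
          cases i <;> rfl
        rw [this]
    obtain ⟨C, hC⟩ := CPY.coll (R := fun s x => K x ∧ ¬ satR K φ (cns x (dc n s))) hR (TS a n)
    obtain ⟨b, hb, hb'⟩ := h.au (sep C K) fun x hx => ((mem_sep h.dfn).1 hx).2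
    have hab : K (cup a b) := h.kcup ha hb
    obtain ⟨B, hB, h1⟩ := ih (n + 1) (cup a b) hab
    refine ⟨dif (TS a n) (dm (dif (TS (cup a b) (n + 1)) B)), h.kdif (h.kTS ha n)
      (h.kdm (h.kdif (h.kTS hab _) hB)), fun s => ?_⟩
    have hsub : TS a n ⊆ TS (cup a b) n := TS_mono (fun z hz => mem_cup.2 (Or.inl hz)) n
    rw [mem_dif]
    refine and_congr_right fun hs => ?_
    simp only [satR]
    constructor
    · intro h2 x hx
      by_contra h3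
      obtain ⟨y, hy, h4, h5⟩ := hC s hs ⟨x, hx, h3⟩
      refine h2 (mem_dm.2 ⟨y, mem_dif.2 ⟨mem_TS_succ.2 ⟨s, y, hsub s hs, ?_, rfl⟩, fun h6 => ?_⟩⟩)
      · exact mem_cup.2 (Or.inr (hb' y ((mem_sep h.dfn).2 ⟨hy, h4⟩)))
      · have := ((h1 _).1 h6).2
        rw [dc_op] at this
        exact h5 this
    · intro h2 h3
      obtain ⟨y, hy⟩ := mem_dm.1 h3
      rw [mem_dif] at hy
      obtain ⟨h4, h5⟩ := hy
      obtain ⟨t, x, ht, hx, h6⟩ := mem_TS_succ.1 h4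
      obtain ⟨rfl, rfl⟩ := op_inj.1 h6
      refine h5 ((h1 _).2 ⟨h4, ?_⟩)
      rw [dc_op]
      exact h2 y (h.tr _ _ hab hx)

/-- **Separation** in an inner model -/
theorem Inn.sepK (h : Inn K) (φ : Fml) (v : ℕ → N) (hv : ∀ i, K (v i)) {x : N} (hx : K x) :
    ∃ y, K y ∧ ∀ z, z ∈ y ↔ z ∈ x ∧ satR K φ (cns z v) := by
  let n := fb φ
  -- all parameters which occur are in one set of `K`
  obtain ⟨a, ha, hxa, hva⟩ : ∃ a, K a ∧ x ⊆ a ∧ ∀ i, i < n → v i ∈ a := by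
    have : ∀ m, ∃ a, K a ∧ x ⊆ a ∧ ∀ i, i < m → v i ∈ a := by
      intro m
      induction m with
      | zero => exact ⟨x, hx, sub_rfl x, fun i hi => absurd hi (by omega)⟩
      | succ m ih =>
        obtain ⟨a, ha, h1, h2⟩ := ih
        refine ⟨ZU.cup a (ZU.sg (v m)), h.kcup ha (h.ksg (hv m)), fun z hz => mem_cup.2 (Or.inl (h1 z hz)),
          fun i hi => ?_⟩
        rcases Nat.lt_succ_iff_lt_or_eq.1 hi with h3 | rfl
        · exact mem_cup.2 (Or.inl (h2 i h3))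
        · exact mem_cup.2 (Or.inr (mem_sg.2 rfl))
    exact this n
  obtain ⟨B, hB, h1⟩ := h.sepT φ (n + 1) a ha
  have htp : K (tp n v) := h.ktp fun i _ => hv i
  refine ⟨rg (cap B (prd (sg (tp n v)) x)), h.krg (h.kcap hB (h.kprd (h.ksg htp) hx)), fun z => ?_⟩
  rw [mem_rg]
  have key : satR K φ (dc (n + 1) (op (tp n v) z)) ↔ satR K φ (cns z v) := by
    rw [dc_op]
    refine satR_congr φ _ _ fun i hi => ?_
    rcases i with _ | i
    · rfl
    · exact dc_tp v (by omega)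
  constructor
  · rintro ⟨s, hs⟩
    rw [mem_cap, op_mem_prd, mem_sg] at hs
    obtain ⟨h2, rfl, h3⟩ := hs
    exact ⟨h3, key.1 ((h1 _).1 h2).2⟩
  · rintro ⟨h2, h3⟩
    refine ⟨tp n v, mem_cap.2 ⟨(h1 _).2 ⟨mem_TS_succ.2 ⟨_, z, tp_mem hva, hxa z h2, rfl⟩,
      key.2 h3⟩, op_mem_prd.2 ⟨mem_sg.2 rfl, h2⟩⟩⟩

/-- **Collection** in an inner model -/
theorem Inn.collK (h : Inn K) {R : N → N → Prop} (hR : Dfn fun v => R (v 0) (v 1)) (A : N) :
    ∃ b, K b ∧ ∀ w, w ∈ A → (∃ z, K z ∧ R w z) → ∃ z, z ∈ b ∧ R w z := by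
  have hR' : Dfn fun v : ℕ → N => K (v 1) ∧ R (v 0) (v 1) :=
    dfn_and (dfn1 h.dfn (df_var 1)) hR
  obtain ⟨C, hC⟩ := CPY.coll (R := fun w z => K z ∧ R w z) hR' A
  obtain ⟨b, hb, hb'⟩ := h.au (sep C K) fun x hx => ((mem_sep h.dfn).1 hx).2
  refine ⟨b, hb, fun w hw hz => ?_⟩
  obtain ⟨z, h1, h2, h3⟩ := hC w hw hz
  exact ⟨z, hb' z ((mem_sep h.dfn).2 ⟨h1, h2⟩), h3⟩

end LRM
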