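import Pool.Agent.LRM.Cc
import Pool.Agent.LRM.Dc

/-! # LRM: symmetric systems of subforcings

(library; no sorry in this file)

`SD ι`: for every `a : ι` partial orders `R a`, `C a` and maps `r a`, `c a` such that
`p ↦ (r a p, c a p)` is an isomorphism of `Q` with `R a × C a` (in `M`); `big e a` is a relation. `IsSys`:
the orders `C a` are homogeneous, the system is directed, and any two `a`, `a'` with `big e a`,
`big e a'` are conjugate over `e`. For a generic filter `G` the model `Sma S G a` is `M[r a '' G]`. -/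

universe u

namespace CPY

open STP ZU LRM

/-- the data of a system of subforcings -/
structure SD (ι : Type u) where
  R : ι → Po
  C : ι → Po
  r : ι → ZFSet.{0} → ZFSet.{0}
  c : ι → ZFSet.{0} → ZFSet.{0}
  big : ι → ι → Prop

/-- the graph of the restriction of `f` to the set `D` is in `M` -/
def GrM (M : Set ZFSet.{0}) (D : ZFSet.{0}) (f : ZFSet.{0} → ZFSet.{0}) : Prop :=
  ∃ g ∈ M, ∀ p q, ZFSet.pair p q ∈ g ↔ p ∈ D ∧ q = f p

/-- a symmetric system of subforcings of `Q` in `M` -/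
structure IsSys (M : Set ZFSet.{0}) (Q : Po) {ι : Type u} (S : SD ι) : Prop where
  poR : ∀ a, IsPo M (S.R a)
  poC : ∀ a, IsPo M (S.C a)
  iso : ∀ a, IsIso M Q (prodPo (S.R a) (S.C a)) fun p => ZFSet.pair (S.r a p) (S.c a p)
  hmg : ∀ a, Hmg M (S.C a)
  dir : ∀ e b, ∃ a, S.big e a ∧ ∃ ρ, GrM M (S.R a).P ρ ∧ ∀ p ∈ Q.P, S.r b p = ρ (S.r a p)
  sym : ∀ e a a', S.big e a → S.big e a' → ∃ σ τ, IsIso M Q Q σ ∧ IsIso M (S.R a) (S.R a') τ ∧
    (∀ p ∈ Q.P, S.r e (σ p) = S.r e p) ∧ ∀ p ∈ Q.P, S.r a' (σ p) = τ (S.r a p)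

/-- the model `M[r a '' G]` -/
noncomputable def Sma (M : Set ZFSet.{0}) {ι : Type u} (S : SD ι) (G : Set ZFSet.{0}) (a : ι) :
    Set ZFSet.{0} := Ext M (S.r a '' G)

variable {M : Set ZFSet.{0}} {Q : Po} {ι : Type u} {S : SD ι} {G : Set ZFSet.{0}}

theorem pfst_iso (a : ι) : pfst ((fun p => ZFSet.pair (S.r a p) (S.c a p)) '' G) = S.r a '' G := by
  ext p
  constructor
  · rintro ⟨q, x, hx, h⟩
    rw [ZFSet.pair_inj] at h
    exact ⟨x, hx, h.1⟩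
  · rintro ⟨x, hx, rfl⟩
    exact ⟨S.c a x, x, hx, rfl⟩

theorem psnd_iso (a : ι) : psnd ((fun p => ZFSet.pair (S.r a p) (S.c a p)) '' G) = S.c a '' G := by
  ext p
  constructor
  · rintro ⟨q, x, hx, h⟩
    rw [ZFSet.pair_inj] at h
    exact ⟨x, hx, h.2⟩
  · rintro ⟨x, hx, rfl⟩
    exact ⟨S.r a x, x, hx, rfl⟩

section

variable (hM : Mod M) (h : IsPo M Q) (hS : IsSys M Q S) (hG : Gen M Q G)
include hM h hS hG

theorem sys_K (a : ι) : Gen M (prodPo (S.R a) (S.C a))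
    ((fun p => ZFSet.pair (S.r a p) (S.c a p)) '' G) := by
  have tM := hM.tm
  exact hG.img h (prodPo_isPo (hS.poR a) (hS.poC a)) (hS.iso a)

/-- the filter `r a '' G` is generic -/
theorem sys_gen (a : ι) : Gen M (S.R a) (S.r a '' G) := by
  have tM := hM.tm
  have := (sys_K hM h hS hG a).gfst (hS.poR a) (hS.poC a)
  rwa [pfst_iso] at this

theorem sys_mod (a : ι) : Mod (Sma M S G a) := hM.ext (hS.poR a) (sys_gen hM h hS hG a)

omit h hS hG in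
theorem sys_ctb (hc : M.Countable) (a : ι) : (Sma M S G a).Countable := by
  have : Sma M S G a = val (S.r a '' G) '' M := by
    ext z
    rfl
  rw [this]
  exact hc.image _

theorem sys_sub (a : ι) : M ⊆ Sma M S G a := hM.sub_ext (hS.poR a) (sys_gen hM h hS hG a)

/-- the filter `c a '' G` is generic over `M[r a '' G]` -/
theorem sys_gen2 (a : ι) : Gen (Sma M S G a) (S.C a) (S.c a '' G) := by
  have tM := hM.tm
  have := (sys_K hM h hS hG a).gsnd (hS.poR a) (hS.poC a)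
  rwa [pfst_iso, psnd_iso] at this

/-- `M[G] = M[r a '' G][c a '' G]` -/
theorem sys_ext (a : ι) : Ext (Sma M S G a) (S.c a '' G) = Ext M G := by
  have tM := hM.tm
  have h1 := ext_prod (sys_K hM h hS hG a) (hS.poR a) (hS.poC a)
  rw [pfst_iso, psnd_iso] at h1
  rw [← ext_img hG h (prodPo_isPo (hS.poR a) (hS.poC a)) (hS.iso a)]
  exact h1

theorem sys_poC (a : ι) : IsPo (Sma M S G a) (S.C a) := by
  have tM := hM.tm
  exact (hS.poR a).ext (hS.poC a) (sys_gen hM h hS hG a)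

theorem sys_hmg (a : ι) : Hmg (Sma M S G a) (S.C a) := by
  intro p hp q hq
  obtain ⟨e, he, h1⟩ := hS.hmg a p hp q hq
  obtain ⟨g, hg, hg1⟩ := he.gr
  exact ⟨e, ⟨⟨g, sys_sub hM h hS hG a hg, hg1⟩, he.map, he.surj, he.le⟩, h1⟩

/-- `M[r a '' G] ⊆ M[G]` -/
theorem sys_le (a : ι) : Sma M S G a ⊆ Ext M G := by
  rw [← sys_ext hM h hS hG a]
  exact (sys_mod hM h hS hG a).sub_ext (sys_poC hM h hS hG a) (sys_gen2 hM h hS hG a)

/-- images of sets of a transitive model under functions of the model -/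
theorem sys_mono {a b : ι} {ρ : ZFSet.{0} → ZFSet.{0}} (hρ : GrM M (S.R a).P ρ)
    (hb : ∀ p ∈ Q.P, S.r b p = ρ (S.r a p)) : Sma M S G b ⊆ Sma M S G a := by
  have tM := hM.tm
  have hGa := sys_gen hM h hS hG a
  have t := ext_tm hGa (hS.poR a)
  have s : M ⊆ Ext M (S.r a '' G) := sys_sub hM h hS hG a
  obtain ⟨g, hgM, hg⟩ := hρ
  have hg0 : gset (S.R a) (S.r a '' G) ∈ Ext M (S.r a '' G) := gset_ext hGa (gnm_mem (hS.poR a))
  let g0 : Ext M (S.r a '' G) := ⟨_, hg0⟩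
  let gm : Ext M (S.r a '' G) := ⟨g, s hgM⟩
  let Bm : Ext M (S.r a '' G) := ⟨(S.R b).P, s (hS.poR b).P_mem⟩
  have hE : Dfn fun v : ℕ → Ext M (S.r a '' G) => ∃ p, p ∈ g0 ∧ op p (v 0) ∈ gm :=
    dfn_ex (dfn_and (dfn_mem (df_var 0) (df_const _)) (dfn_mem (df_op (df_var 0) (df_var 1))
      (df_const _)))
  have hmapA : ∀ p ∈ G, S.r a p ∈ (S.R a).P := fun p hp => hGa.sub _ ⟨p, hp, rfl⟩
  have hmapB : ∀ p ∈ G, S.r b p ∈ (S.R b).P := fun p hp =>
    (sys_gen hM h hS hG b).sub _ ⟨p, hp, rfl⟩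
  change Ext M (S.r b '' G) ⊆ Ext M (S.r a '' G)
  refine ext_min s (g := (sep Bm fun q => ∃ p, p ∈ g0 ∧ op p q ∈ gm).1) (Subtype.property _)
    fun q => ?_
  constructor
  · intro hq
    obtain ⟨q', hq', rfl⟩ := ex_val hq
    obtain ⟨-, p, hp, h1⟩ := (ZU.mem_sep hE).1 hq'
    have h2 := (hg p.1 q'.1).1 (mop_mem.1 h1)
    obtain ⟨x, hx, h3⟩ := (mem_gset hGa).1 hp
    refine ⟨x, hx, ?_⟩
    rw [h2.2, hb x (hG.sub x hx), h3]
  · rintro ⟨x, hx, rfl⟩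
    have hxP := hG.sub x hx
    have hpM : S.r a x ∈ Ext M (S.r a '' G) := s ((hS.poR a).in_M (hmapA x hx))
    have hqM : S.r b x ∈ Ext M (S.r a '' G) := s ((hS.poR b).in_M (hmapB x hx))
    have : (⟨S.r b x, hqM⟩ : Ext M (S.r a '' G)) ∈ sep Bm fun q => ∃ p, p ∈ g0 ∧ op p q ∈ gm := by
      rw [ZU.mem_sep hE]
      exact ⟨hmapB x hx, ⟨S.r a x, hpM⟩, (mem_gset hGa).2 ⟨x, hx, rfl⟩,
        mop_mem.2 ((hg _ _).2 ⟨hmapA x hx, hb x hxP⟩)⟩
    exact this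

end

/-! ### Values of codes -/

/-- `z` is an element of the value of the code `s` at the real `r`, computed in `W` -/
def InEv (W : Set ZFSet.{0}) (z s r : ZFSet.{0}) : Prop :=
  ∃ (t : TM W) (hz : z ∈ W) (hs : s ∈ W) (hr : r ∈ W),
    (⟨z, hz⟩ : W) ∈ ev (pw (om : W)) ⟨s, hs⟩ ⟨r, hr⟩

theorem inEv_iff {W : Set ZFSet.{0}} [TM W] {z s r : W} :
    InEv W z.1 s.1 r.1 ↔ z ∈ ev (pw om) s r :=
  ⟨fun ⟨_, _, _, _, h⟩ => h, fun h => ⟨inferInstance, z.2, s.2, r.2, h⟩⟩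

/-- **Values of codes and homogeneity**: if the code and the real are in `M[r a '' G]` then the
intersection of the value with a set of `M[r a '' G]` is in `M[r a '' G]`. -/
theorem sys_cap (hM : Mod M) (hc : M.Countable) (h : IsPo M Q) (hS : IsSys M Q S) (hG : Gen M Q G)
    {a : ι} {s r A : ZFSet.{0}} (hs : s ∈ Sma M S G a) (hr : r ∈ Sma M S G a)
    (hA : A ∈ Sma M S G a) :
    ∃ y ∈ Sma M S G a, ∀ x, x ∈ y ↔ x ∈ A ∧ InEv (Ext M G) x s r := by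
  have hMa := sys_mod hM h hS hG a
  have hk := sys_poC hM h hS hG a
  have hGc := sys_gen2 hM h hS hG a
  have hE : ZL.UD.{1} fun m v => v 0 ∈ ev (pw (om : m.N)) (v 1) (v 2) :=
    ZL.ud_mem (ZL.uf_var 0) (uf_ev (ZL.uf_pw ZL.uf_om) (ZL.uf_var 1) (ZL.uf_var 2))
  obtain ⟨y, hy⟩ := hMa.hmg_ud (sys_ctb hM hc a) hk (sys_hmg hM h hS hG a) hE
    (cns ⟨s, hs⟩ (cns ⟨r, hr⟩ fun _ => ⟨s, hs⟩)) hGc ⟨A, hA⟩
  refine ⟨y.1, y.2, fun x => ?_⟩
  rw [← sys_ext hM h hS hG a]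
  have tE : TM (Ext (Sma M S G a) (S.c a '' G)) := @ext_tm _ hMa.tm _ _ hGc hk
  constructor
  · intro hx
    have hxM : x ∈ Sma M S G a := hMa.trans _ y.2 _ hx
    have h1 := (hy ⟨x, hxM⟩).1 hx
    exact ⟨h1.1, tE, _, _, _, h1.2⟩
  · rintro ⟨hx, h1⟩
    have hxM : x ∈ Sma M S G a := hMa.trans _ hA _ hx
    refine (hy ⟨x, hxM⟩).2 ⟨hx, ?_⟩
    obtain ⟨_, _, _, _, h2⟩ := h1
    exact h2

end CPY
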