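import Pool.Agent.LRM.Def

/-! # LRM: tuples, relativised satisfaction, closure of inner models

(library; no sorry in this file) -/

universe v

namespace LRM

open STP STP.Fml ZU ZL

variable {N : Type v} [ZM N] {K : N → Prop}

/-! ### Relativised satisfaction -/

theorem satR_congr (φ : Fml) : ∀ v w : ℕ → N, (∀ i, i < fb φ → v i = w i) →
    (satR K φ v ↔ satR K φ w) := by
  induction φ with
  | mem i j =>
    intro v w h
    have h1 : v i = w i := h i (by simp only [fb]; omega)
    have h2 : v j = w j := h j (by simp only [fb]; omega)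
    simp only [satR, h1, h2]
  | eq i j =>
    intro v w h
    have h1 : v i = w i := h i (by simp only [fb]; omega)
    have h2 : v j = w j := h j (by simp only [fb]; omega)
    simp only [satR, h1, h2]
  | bot => exact fun v w _ => Iff.rfl
  | imp φ ψ h1 h2 =>
    intro v w h
    refine imp_congr (h1 v w fun i hi => h i ?_) (h2 v w fun i hi => h i ?_)
    · simp only [fb]; omega
    · simp only [fb]; omega
  | all φ h1 =>
    intro v w h
    refine forall_congr' fun x => imp_congr_right fun _ => h1 _ _ fun i hi => ?_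
    rcases i with _ | i
    · rfl
    · exact h i (by simp only [fb]; omega)

theorem dfn_satR (hK : Dfn fun v => K (v 0)) (φ : Fml) : ∀ w : ℕ → (ℕ → N) → N, (∀ i, DF (w i)) →
    Dfn fun v => satR K φ fun i => w i v := by
  induction φ with
  | mem i j => exact fun w hw => dfn_mem (hw i) (hw j)
  | eq i j => exact fun w hw => dfn_eq (hw i) (hw j)
  | bot => exact fun w hw => dfn_const False
  | imp φ ψ h1 h2 => exact fun w hw => dfn_imp (h1 w hw) (h2 w hw)
  | all φ h1 =>
    intro w hw
    refine (dfn_all (R := fun x v => K x → satR K φ (cns x fun i => w i v)) (dfn_imp ?_ ?_)).congr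
      fun v => Iff.rfl
    · exact dfn1 hK (df_var 0)
    refine (h1 (fun i v => match i with | 0 => v 0 | n + 1 => w n fun j => v (j + 1)) ?_).congr
      fun v => ?_
    · intro i
      cases i with
      | zero => exact df_var 0
      | succ n => exact (hw n).wk
    · have : (cns (v 0) fun i => w i fun j => v (j + 1)) = fun i => (match i with
          | 0 => v 0 | n + 1 => w n fun j => v (j + 1) : N) := by
        funext i
        cases i <;> rfl
      beta_reduce
      rw [this]

/-- satisfaction in the structure `K` -/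
theorem satR_iff (φ : Fml) : ∀ v : ℕ → {z : N // K z},
    satR K φ (fun i => (v i).1) ↔ sat (fun x y : {z : N // K z} => x.1 ∈ y.1) φ v := by
  induction φ with
  | mem i j => exact fun v => Iff.rfl
  | eq i j => exact fun v => Subtype.ext_iff.symm
  | bot => exact fun v => Iff.rfl
  | imp φ ψ h1 h2 => exact fun v => imp_congr (h1 v) (h2 v)
  | all φ h1 =>
    intro v
    have h2 : ∀ x : {z : N // K z}, (fun i => (cns x v i).1) = cns x.1 fun i => (v i).1 :=
      fun x => by
        funext i
        cases i <;> rfl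
    constructor
    · intro h x
      refine (h1 _).1 ?_
      rw [h2]
      exact h x.1 x.2
    · intro h x hx
      have := (h1 (cns ⟨x, hx⟩ v)).2 (h ⟨x, hx⟩)
      rwa [h2] at this

/-! ### Tuples -/

@[simp] theorem df_dc {s : (ℕ → N) → N} (hs : DF s) (n : ℕ) : ∀ i, DF fun v => dc n (s v) i := by
  induction n generalizing s with
  | zero => exact fun i => df_const ∅
  | succ n ih =>
    intro i
    rcases i with _ | i
    · exact df_snd hs
    · exact ih (df_fst hs) i

theorem dc_op (n : ℕ) (s x : N) : dc (n + 1) (op s x) = cns x (dc n s) := by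
  simp only [dc, fst_op, snd_op]

theorem dc_ge {n : ℕ} : ∀ {i : ℕ} (_ : n ≤ i) (s : N), dc n s i = ∅ := by
  induction n with
  | zero => exact fun _ _ => rfl
  | succ n ih =>
    intro i h s
    rcases i with _ | i
    · omega
    · exact ih (by omega) (fst s)

theorem mem_TS_succ {a s : N} {n : ℕ} : s ∈ TS a (n + 1) ↔ ∃ t x, t ∈ TS a n ∧ x ∈ a ∧ s = op t x :=
  mem_prd

theorem dc_mem {a : N} {n : ℕ} : ∀ {s : N} (_ : s ∈ TS a n) {i : ℕ} (_ : i < n), dc n s i ∈ a := by
  induction n with
  | zero => exact fun _ i hi => absurd hi (by omega)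
  | succ n ih =>
    intro s hs i hi
    obtain ⟨t, x, ht, hx, rfl⟩ := mem_TS_succ.1 hs
    rw [dc_op]
    rcases i with _ | i
    · exact hx
    · exact ih ht (by omega)

theorem TS_mono {a b : N} (h : a ⊆ b) (n : ℕ) : TS a n ⊆ TS b n := by
  induction n with
  | zero => exact sub_rfl _
  | succ n ih =>
    intro s hs
    obtain ⟨t, x, ht, hx, rfl⟩ := mem_TS_succ.1 hs
    exact mem_TS_succ.2 ⟨t, x, ih t ht, h x hx, rfl⟩

theorem tp_mem {a : N} {n : ℕ} : ∀ {v : ℕ → N} (_ : ∀ i, i < n → v i ∈ a), tp n v ∈ TS a n := by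
  induction n with
  | zero => exact fun _ => mem_sg.2 rfl
  | succ n ih =>
    intro v h
    exact mem_TS_succ.2 ⟨_, _, ih fun i hi => h (i + 1) (by omega), h 0 (by omega), rfl⟩

theorem dc_tp {n : ℕ} : ∀ (v : ℕ → N) {i : ℕ} (_ : i < n), dc n (tp n v) i = v i := by
  induction n with
  | zero => exact fun v i hi => absurd hi (by omega)
  | succ n ih =>
    intro v i hi
    simp only [tp, dc_op]
    rcases i with _ | i
    · rfl
    · exact ih (fun i => v (i + 1)) (by omega)

/-! ### Closure of inner models -/

section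

variable (h : Inn K) {x y z : N}
include h

theorem Inn.kup (hx : K x) (hy : K y) : K (up x y) := by
  have := h.cl (nt 0) x y (nt_mem.2 (by omega)) hx hy
  simpa [opI, ife] using this

theorem Inn.kuni (hx : K x) : K (uni x) := by
  have := h.cl (nt 1) x x (nt_mem.2 (by omega)) hx hx
  simpa [opI, ife, -nt_zero] using this

theorem Inn.kprd (hx : K x) (hy : K y) : K (prd x y) := by
  have := h.cl (nt 2) x y (nt_mem.2 (by omega)) hx hy
  simpa [opI, ife, -nt_zero] using this

theorem Inn.kdif (hx : K x) (hy : K y) : K (dif x y) := by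
  have := h.cl (nt 3) x y (nt_mem.2 (by omega)) hx hy
  simpa [opI, ife, -nt_zero] using this

theorem Inn.kdm (hx : K x) : K (dm x) := by
  have := h.cl (nt 4) x x (nt_mem.2 (by omega)) hx hx
  simpa [opI, ife, -nt_zero] using this

theorem Inn.kcv (hx : K x) : K (cv x) := by
  have := h.cl (nt 5) x x (nt_mem.2 (by omega)) hx hx
  simpa [opI, ife, -nt_zero] using this

theorem Inn.kcmp (hx : K x) (hy : K y) : K (cmp x y) := by
  have := h.cl (nt 6) x y (nt_mem.2 (by omega)) hx hy
  simpa [opI, ife, -nt_zero] using this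

theorem Inn.keps (hx : K x) : K (eps x) := by
  have := h.cl (nt 7) x x (nt_mem.2 (by omega)) hx hx
  simpa [opI, ife, -nt_zero] using this

theorem Inn.kgf (hx : K x) (hy : K y) : K (gf x y) := by
  have := h.cl (nt 8) x y (nt_mem.2 (by omega)) hx hy
  simpa [opI, ife, -nt_zero] using this

theorem Inn.kgs (hx : K x) (hy : K y) : K (gs x y) := by
  have := h.cl (nt 9) x y (nt_mem.2 (by omega)) hx hy
  simpa [opI, ife, -nt_zero] using this

theorem Inn.kem : K (∅ : N) := by
  obtain ⟨b, hb, hi⟩ := h.inf
  exact h.tr b ∅ hb hi.1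

theorem Inn.ksg (hx : K x) : K (sg x) := h.kup hx hx

theorem Inn.kop (hx : K x) (hy : K y) : K (op x y) := h.kup (h.kup hx hx) (h.kup hx hy)

theorem Inn.kcup (hx : K x) (hy : K y) : K (cup x y) := h.kuni (h.kup hx hy)

theorem Inn.ksc (hx : K x) : K (sc x) := h.kcup hx (h.ksg hx)

theorem Inn.kcap (hx : K x) (hy : K y) : K (cap x y) := by
  have : ZU.cap x y = ZU.dif x (ZU.dif x y) := ext fun z => by
    rw [mem_cap, mem_dif, mem_dif]
    tauto
  rw [this]
  exact h.kdif hx (h.kdif hx hy)

theorem Inn.krg (hx : K x) : K (rg x) := by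
  have : ZU.rg x = ZU.dm (LRM.cv x) := ext fun z => by
    rw [ZU.mem_rg, ZU.mem_dm]
    exact exists_congr fun y => op_mem_cv.symm
  rw [this]
  exact h.kdm (h.kcv hx)

theorem Inn.knt (n : ℕ) : K (nt n : N) := by
  induction n with
  | zero => exact h.kem
  | succ n ih => exact h.ksc ih

theorem Inn.kTS (hx : K x) (n : ℕ) : K (TS x n) := by
  induction n with
  | zero => exact h.ksg h.kem
  | succ n ih => exact h.kprd ih hx

theorem Inn.ktp {n : ℕ} : ∀ {v : ℕ → N} (_ : ∀ i, i < n → K (v i)), K (tp n v) := by
  induction n with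
  | zero => exact fun _ => h.kem
  | succ n ih => exact fun hv => h.kop (ih fun i hi => hv (i + 1) (by omega)) (hv 0 (by omega))

end

end LRM
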