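import Pool.Agent.LRM.BddB
import Pool.Agent.WCal.Tm
import Pool.Agent.COD.Df

/-! # LRM: typed posets of a transitive model as partial orders of the model

(problem MP_328cd5_lc; L(R) side, bridge; architect helper16, proofs helper69)

`M` is a transitive model of ZFC, `T` a type of the model `M` (class `WTy M T`). `zc p` is the code of `p : T` as a set. `zst M V`: the
set of the codes of the elements with `V` (an element of `M` if `V` is internal). `tPo M V le o`: the partial order of `M` given by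
the internal predicate `V`, the internal relation `le` and the greatest element `o`. `zmap f`: the map of codes given by `f`. -/

set_option autoImplicit false

universe u v w

namespace LRT

open WCal CPY

variable {M : Set ZFSet.{0}} [hM : Fact (CPY.Mod M)] {T : Type v} {T' : Type w} [WTy M T] [WTy M T']

/-- the code of a typed element as a set -/
noncomputable def zc (M : Set ZFSet.{0}) [Fact (CPY.Mod M)] {T : Type v} [WTy M T] (p : T) : ZFSet.{0} :=
  (cd (N := M) p).1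

/-- the set of the codes of all elements with `V` -/
noncomputable def zst (M : Set ZFSet.{0}) [Fact (CPY.Mod M)] {T : Type v} [WTy M T] (V : T → Prop) :
    ZFSet.{0} := (rg M T).1.sep fun z => ∃ p : T, V p ∧ z = zc M p

/-- the partial order given by `V`, `le`, `o` -/
noncomputable def tPo (M : Set ZFSet.{0}) [Fact (CPY.Mod M)] {T : Type v} [WTy M T] (V : T → Prop)
    (le : T → T → Prop) (o : T) : Po where
  P := zst M V
  L := zst M fun z : T × T => V z.1 ∧ V z.2 ∧ le z.1 z.2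
  one := zc M o

/-- the data of an internal preorder with greatest element -/
structure IsT (M : Set ZFSet.{0}) [Fact (CPY.Mod M)] {T : Type v} [WTy M T] (V : T → Prop)
    (le : T → T → Prop) (o : T) : Prop where
  iV : IP M V
  il : IP M (fun p : T × T => le p.1 p.2)
  ho : V o
  refl : ∀ p, V p → le p p
  trans : ∀ p q r, V p → V q → V r → le p q → le q r → le p r
  top : ∀ p, V p → le p o

open Classical in
/-- the map of codes -/
noncomputable def zmap (M : Set ZFSet.{0}) [Fact (CPY.Mod M)] {T : Type v} {T' : Type w} [WTy M T] [WTy M T']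
    (f : T → T') (z : ZFSet.{0}) : ZFSet.{0} :=
  if h : ∃ p : T, zc M p = z then zc M (f h.choose) else ∅

variable {V : T → Prop} {le : T → T → Prop} {o : T} {V' : T' → Prop} {le' : T' → T' → Prop} {o' : T'}

theorem zc_inj {p q : T} : zc M p = zc M q ↔ p = q :=
  ⟨fun h => cd_inj.1 (Subtype.ext h), fun h => h ▸ rfl⟩

theorem mem_zst {z : ZFSet.{0}} : z ∈ zst M V ↔ ∃ p : T, V p ∧ z = zc M p := by
  unfold zst
  rw [ZFSet.mem_sep]
  constructor
  · exact fun h => h.2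
  · rintro ⟨p, hp, rfl⟩
    exact ⟨(cd_mem p : WM.E (cd M p) (rg M T)), p, hp, rfl⟩

theorem zst_mem (h : IP M V) : zst M V ∈ M := by
  obtain ⟨x, hx⟩ := exists_sub M V h
  have h1 : x.1 = zst M V := by
    apply ZFSet.ext
    intro z
    rw [mem_zst]
    constructor
    · intro hz
      obtain ⟨p, hp, hp'⟩ := (hx ⟨z, hM.out.trans x.1 x.2 z hz⟩).1 hz
      exact ⟨p, hp, (congrArg Subtype.val hp').symm⟩
    · rintro ⟨p, hp, rfl⟩
      exact (hx (cd M p)).2 ⟨p, hp, rfl⟩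
  rw [← h1]
  exact x.2

theorem zc_mem_zst {p : T} : zc M p ∈ zst M V ↔ V p := by
  rw [mem_zst]
  constructor
  · rintro ⟨q, hq, h⟩
    rw [zc_inj] at h
    rwa [h]
  · exact fun h => ⟨p, h, rfl⟩

theorem zc_pair (p : T) (q : T') : zc M ((p, q) : T × T') = ZFSet.pair (zc M p) (zc M q) := op_val _ _

theorem zc_mem (p : T) : zc M p ∈ M := (cd (N := M) p).2

theorem le_iff {p q : T} : (tPo M V le o).le (zc M q) (zc M p) ↔ V q ∧ V p ∧ le q p := by
  unfold Po.le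
  rw [← zc_pair]
  exact zc_mem_zst

theorem exists_of_P {z : ZFSet.{0}} (h : z ∈ (tPo M V le o).P) : ∃ p : T, V p ∧ z = zc M p := mem_zst.1 h

theorem exists_of_le {z w : ZFSet.{0}} (h : (tPo M V le o).le z w) :
    ∃ p q : T, V p ∧ V q ∧ le p q ∧ z = zc M p ∧ w = zc M q := by
  obtain ⟨⟨p, q⟩, ⟨h1, h2, h3⟩, h4⟩ := mem_zst.1 h
  rw [zc_pair, ZFSet.pair_inj] at h4
  exact ⟨p, q, h1, h2, h3, h4.1, h4.2⟩

theorem tPo_isPo (h : IsT M V le o) : IsPo M (tPo M V le o) where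
  P_mem := zst_mem h.iV
  L_mem := zst_mem (IP.and (h.iV.comp IF.fst) (IP.and (h.iV.comp IF.snd) h.il))
  one_mem := zc_mem_zst.2 h.ho
  sub := by
    intro z hz
    obtain ⟨⟨p, q⟩, ⟨h1, h2, -⟩, rfl⟩ := mem_zst.1 hz
    exact ⟨_, zc_mem_zst.2 h1, _, zc_mem_zst.2 h2, zc_pair p q⟩
  refl := by
    intro z hz
    obtain ⟨p, hp, rfl⟩ := exists_of_P hz
    exact le_iff.2 ⟨hp, hp, h.refl p hp⟩
  trans := by
    intro a b c h1 h2
    obtain ⟨p, q, hp, hq, h3, rfl, rfl⟩ := exists_of_le h1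
    obtain ⟨q', r, hq', hr, h4, h5, rfl⟩ := exists_of_le h2
    rw [zc_inj] at h5
    subst h5
    exact le_iff.2 ⟨hp, hr, h.trans p q r hp hq hr h3 h4⟩
  le_one := by
    intro z hz
    obtain ⟨p, hp, rfl⟩ := exists_of_P hz
    exact le_iff.2 ⟨hp, h.ho, h.top p hp⟩

/-- native generic filters are typed generic filters -/
theorem tgen (h : IsT M V le o) {G : Set ZFSet.{0}} (hG : Gen M (tPo M V le o) G) :
    COD.TGen M V le {p | zc M p ∈ G} where
  val := fun p hp => zc_mem_zst.1 (hG.sub _ hp)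
  up := fun p q hp hq hle => hG.up _ hp _ (le_iff.2 ⟨zc_mem_zst.1 (hG.sub _ hp), hq, hle⟩)
  dir := by
    intro p q hp hq
    obtain ⟨z, hz, h1, h2⟩ := hG.dir _ hp _ hq
    obtain ⟨r, hr, rfl⟩ := exists_of_P (hG.sub _ hz)
    exact ⟨r, hz, (le_iff.1 h1).2.2, (le_iff.1 h2).2.2⟩
  gen := by
    intro S hS
    obtain ⟨z, hz, h1⟩ := hG.gen (zst M fun p => p ∈ S ∧ V p) (zst_mem (IP.and S.int h.iV)) (by
      intro z hz
      obtain ⟨p, hp, rfl⟩ := exists_of_P hz
      obtain ⟨q, hq, hqV, hle⟩ := hS p hp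
      exact ⟨zc M q, zc_mem_zst.2 ⟨hq, hqV⟩, le_iff.2 ⟨hqV, hp, hle⟩⟩)
    obtain ⟨p, hp, rfl⟩ := mem_zst.1 h1
    exact ⟨p, hz, hp.1⟩

theorem zmap_zc (f : T → T') (p : T) : zmap M f (zc M p) = zc M (f p) := by
  have h : ∃ q : T, zc M q = zc M p := ⟨p, rfl⟩
  unfold zmap
  rw [dif_pos h, zc_inj.1 h.choose_spec]

theorem grM_of {f : T → T'} (hf : IF M f) (h : IP M V) : GrM M (tPo M V le o).P (zmap M f) := by
  refine ⟨zst M fun z : T × T' => V z.1 ∧ z.2 = f z.1, zst_mem (IP.and (h.comp IF.fst)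
    (IP.eq IF.snd (hf.comp IF.fst))), fun a b => ?_⟩
  rw [mem_zst]
  constructor
  · rintro ⟨⟨p, q⟩, ⟨h1, h2⟩, h3⟩
    rw [zc_pair, ZFSet.pair_inj] at h3
    obtain ⟨rfl, rfl⟩ := h3
    have h2 : q = f p := h2
    exact ⟨zc_mem_zst.2 h1, by rw [zmap_zc, h2]⟩
  · rintro ⟨h1, rfl⟩
    obtain ⟨p, hp, rfl⟩ := exists_of_P h1
    exact ⟨(p, f p), ⟨hp, rfl⟩, by rw [zmap_zc, zc_pair]⟩

theorem isIso_of (_h : IsT M V le o) (_h' : IsT M V' le' o') {f : T → T'} (hf : IF M f)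
    (hmap : ∀ p, V p → V' (f p)) (hsurj : ∀ q, V' q → ∃ p, V p ∧ f p = q)
    (hle : ∀ p q, V p → V q → (le' (f p) (f q) ↔ le p q)) :
    IsIso M (tPo M V le o) (tPo M V' le' o') (zmap M f) where
  gr := grM_of hf _h.iV
  map := by
    intro z hz
    obtain ⟨p, hp, rfl⟩ := exists_of_P hz
    rw [zmap_zc]
    exact zc_mem_zst.2 (hmap p hp)
  surj := by
    intro z hz
    obtain ⟨q, hq, rfl⟩ := exists_of_P hz
    obtain ⟨p, hp, rfl⟩ := hsurj q hq
    exact ⟨zc M p, zc_mem_zst.2 hp, zmap_zc f p⟩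
  le := by
    intro z hz w hw
    obtain ⟨p, hp, rfl⟩ := exists_of_P hz
    obtain ⟨q, hq, rfl⟩ := exists_of_P hw
    rw [zmap_zc, zmap_zc, le_iff, le_iff]
    constructor
    · rintro ⟨-, -, h⟩
      exact ⟨hp, hq, (hle p q hp hq).1 h⟩
    · rintro ⟨-, -, h⟩
      exact ⟨hmap p hp, hmap q hq, (hle p q hp hq).2 h⟩

/-- the product of two typed partial orders -/
theorem isIso_prod (_h : IsT M V le o) (_h' : IsT M V' le' o') {T'' : Type u} [WTy M T''] {V'' : T'' → Prop}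
    {le'' : T'' → T'' → Prop} {o'' : T''} (_h'' : IsT M V'' le'' o'') {f : T'' → T} {g : T'' → T'} (hf : IF M f)
    (hg : IF M g) (hmap : ∀ p, V'' p → V (f p) ∧ V' (g p))
    (hsurj : ∀ q q', V q → V' q' → ∃ p, V'' p ∧ f p = q ∧ g p = q')
    (hle : ∀ p q, V'' p → V'' q → (le (f p) (f q) ∧ le' (g p) (g q) ↔ le'' p q)) :
    IsIso M (tPo M V'' le'' o'') (prodPo (tPo M V le o) (tPo M V' le' o'))
      fun z => ZFSet.pair (zmap M f z) (zmap M g z) where
  gr := by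
    refine ⟨zst M fun z : T'' × T × T' => V'' z.1 ∧ z.2.1 = f z.1 ∧ z.2.2 = g z.1, zst_mem
      (IP.and (_h''.iV.comp IF.fst) (IP.and (IP.eq (IF.fst.comp IF.snd) (hf.comp IF.fst))
        (IP.eq (IF.snd.comp IF.snd) (hg.comp IF.fst)))), fun a b => ?_⟩
    rw [mem_zst]
    constructor
    · rintro ⟨⟨p, q, q'⟩, ⟨h1, h2, h3⟩, h4⟩
      rw [zc_pair, ZFSet.pair_inj, zc_pair] at h4
      obtain ⟨rfl, rfl⟩ := h4
      have h2 : q = f p := h2
      have h3 : q' = g p := h3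
      exact ⟨zc_mem_zst.2 h1, by rw [zmap_zc, zmap_zc, h2, h3]⟩
    · rintro ⟨h1, rfl⟩
      obtain ⟨p, hp, rfl⟩ := exists_of_P h1
      exact ⟨(p, f p, g p), ⟨hp, rfl, rfl⟩, by rw [zmap_zc, zmap_zc, zc_pair, zc_pair]⟩
  map := by
    intro z hz
    obtain ⟨p, hp, rfl⟩ := exists_of_P hz
    show ZFSet.pair (zmap M f (zc M p)) (zmap M g (zc M p)) ∈ ZFSet.prod _ _
    rw [zmap_zc, zmap_zc, ZFSet.pair_mem_prod]
    exact ⟨zc_mem_zst.2 (hmap p hp).1, zc_mem_zst.2 (hmap p hp).2⟩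
  surj := by
    intro z hz
    obtain ⟨a, ha, b, hb, rfl⟩ := ZFSet.mem_prod.1 hz
    obtain ⟨q, hq, rfl⟩ := exists_of_P ha
    obtain ⟨q', hq', rfl⟩ := exists_of_P hb
    obtain ⟨p, hp, rfl, rfl⟩ := hsurj q q' hq hq'
    exact ⟨zc M p, zc_mem_zst.2 hp, by rw [zmap_zc, zmap_zc]⟩
  le := by
    intro z hz w hw
    obtain ⟨p, hp, rfl⟩ := exists_of_P hz
    obtain ⟨q, hq, rfl⟩ := exists_of_P hw
    simp only [zmap_zc]
    rw [prodPo_le (zc_mem_zst.2 (hmap p hp).1) (zc_mem_zst.2 (hmap p hp).2) (zc_mem_zst.2 (hmap q hq).1)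
      (zc_mem_zst.2 (hmap q hq).2), le_iff, le_iff, le_iff]
    constructor
    · rintro ⟨⟨-, -, h1⟩, -, -, h2⟩
      exact ⟨hp, hq, (hle p q hp hq).1 ⟨h1, h2⟩⟩
    · rintro ⟨-, -, h⟩
      have h1 := (hle p q hp hq).2 h
      exact ⟨⟨(hmap p hp).1, (hmap q hq).1, h1.1⟩, (hmap p hp).2, (hmap q hq).2, h1.2⟩

end LRT
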