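import Pool.Agent.LRM.TyP

/-! # LRM: countable covering, the reals of the ground model are uncountable

(problem MP_328cd5_lc; L(R) side, bridge; no sorry in this file) -/

set_option autoImplicit false

universe u v w

namespace LRT

open WCal CPY COD

variable {M : Set ZFSet.{0}} [hM : Fact (CPY.Mod M)] {K : Type v} [WTy M K] [KTy M K]

/-- a sequence of elements of a type of `M` is covered by a countable set of `M` -/
theorem cover {D : CPD M K} (B : Bs M K) (P : CPP D) (hA : ACL D (PQ M K × PQ M K))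
    {G : Set ZFSet.{0}} (hG : Gen M (QA D) G) {T : Type w} [WTy M T] (t0 : T) {x : ZFSet.{0}}
    (hx : x ∈ Ext M G) (hf : ∀ (n : K) (t t' : T), ZFSet.pair (zc M n) (zc M t) ∈ x →
      ZFSet.pair (zc M n) (zc M t') ∈ x → t = t') :
    ∃ S : St M T, Cnt S ∧ ∀ (n : K) (t : T), n < nx M (⊥ : K) → ZFSet.pair (zc M n) (zc M t) ∈ x → t ∈ S := by
  have hB : Fact (Bs M K) := ⟨B⟩
  have hP : Fact (CPP D) := ⟨P⟩
  have : Nonempty T := ⟨t0⟩
  obtain ⟨U, iU, -, hU2, hU3⟩ := exists_name (T := K × T) B P hG hx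
  have tG := tgen (isT_VI B P (allK M K)) hG
  let U' : K → PQ M K → Prop := fun n p => ∃ t, U (n, t) p
  have iU0 : IP M (fun z : (K × PQ M K) × T => U (z.1.1, z.2) z.1.2) :=
    iU.comp (IF.pair (IF.pair (IF.fst.comp IF.fst) IF.snd) (IF.snd.comp IF.fst))
  have iU' : IP M (fun z : K × PQ M K => U' z.1 z.2) := IP.ex iU0
  have hU2' : ∀ n p q, VI D (allK M K) p → U' n q → LeQ D p q → U' n p :=
    fun n p q hp ⟨t, ht⟩ hpq => ⟨t, hU2 _ p q hp ht hpq⟩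
  let Dn : K → St M (PQ M K) := fun n =>
    ⟨{p | U' n p ∨ (VI D (allK M K) p ∧ ∀ r, VI D (allK M K) r → LeQ D r p → ¬ U' n r)}, by
      refine IP.or (iU'.comp (IF.pair (IF.const n) IF.id)) (IP.and (ip_VI (IF.const _) IF.id) (IP.all (IP.imp
        (ip_VI (IF.const _) IF.snd) (IP.imp (ip_LeQ IF.snd IF.fst) (IP.not
          (iU'.comp (IF.pair (IF.const n) IF.snd)))))))⟩
  have hDn : IF M Dn := by
    apply IF.compr'
    show IP M (fun z : K × PQ M K => U' z.1 z.2 ∨ (VI D (allK M K) z.2 ∧ ∀ r, VI D (allK M K) r →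
      LeQ D r z.2 → ¬ U' z.1 r))
    exact IP.or iU' (IP.and (ip_VI (IF.const _) IF.snd) (IP.all (IP.imp
        (ip_VI (IF.const _) IF.snd) (IP.imp (ip_LeQ IF.snd (IF.snd.comp IF.fst)) (IP.not
          (iU'.comp (IF.pair (IF.fst.comp IF.fst) IF.snd)))))))
  have h0 : NL M (nx M (⊥ : K)) := nl_nx (Or.inl rfl)
  have h1 : nx M (⊥ : K) ≠ ⊥ := cd_ne (cd_nx B ⊥)
  obtain ⟨q, J, W, hq, ⟨-, -, -, -, hC, hW, -⟩, hWG⟩ := FLG B P hA h0 h1 (I := allK M K) (Or.inr rfl) hDn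
    (fun n _ w t hw ht hwt => (decide P hU2' n).1 w t hw ht hwt)
    (fun n _ r hr => (decide P hU2' n).2 r hr) tG
  obtain ⟨f, hf1, hf2⟩ := choice' (P := fun (z : K × PQ M K) (t : T) => U (z.1, t) z.2) iU0 t0
  have hS : IP M (fun t : T => ∃ n, n < nx M (⊥ : K) ∧ ∃ w, w ∈ W n ∧ f (n, w) = t) :=
    IP.ex (IP.and (ip_ltK IF.snd (IF.const _)) (IP.ex (IP.and (IP.mem IF.snd (IF.app (IF.const W)
      (IF.snd.comp IF.fst))) (IP.eq (hf1.comp (IF.pair (IF.snd.comp IF.fst) IF.snd)) (IF.fst.comp IF.fst)))))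
  refine ⟨⟨{t | ∃ n, n < nx M (⊥ : K) ∧ ∃ w, w ∈ W n ∧ f (n, w) = t}, hS⟩, ?_, ?_⟩
  · rw [cnt_iff_cov B]
    refine Cov.iUnion B (cd_nx B ⊥) (I := fun n : K => n < nx M (⊥ : K))
      (A := fun (n : K) (t : T) => ∃ w, w ∈ W n ∧ f (n, w) = t)
      ⟨fun x => x, IF.id, fun a ha => ⟨a, ha, rfl⟩⟩ ?_ fun n _ => ?_
    · exact IP.ex (IP.and (IP.mem IF.snd (IF.app (IF.const W) (IF.fst.comp IF.fst))) (IP.eq
        (hf1.comp (IF.pair (IF.fst.comp IF.fst) IF.snd)) (IF.snd.comp IF.fst)))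
    · exact Cov.image (hC n) (f := fun w => f (n, w)) (hf1.comp (IF.pair (IF.const n) IF.id))
  · intro n t hn ht
    rw [← zc_pair] at ht
    obtain ⟨g, hg, hUg⟩ := (hU3 (n, t)).1 ht
    obtain ⟨w, hw, hwG⟩ := hWG n hn
    have h3 : U' n w := by
      rcases (hW n hn w hw).1 with h | ⟨-, h⟩
      · exact h
      · obtain ⟨r, -, hr, h4, h5⟩ := gen_two tG (p := g) (q := w) hg hwG
        exact absurd (hU2' n r g hr ⟨t, hUg⟩ h4) (h r hr h5)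
    have h4 : U (n, f (n, w)) w := hf2 (n, w) h3
    have h6 : t = f (n, w) := hf n t _ (by rw [← zc_pair]; exact ht) (by
      rw [← zc_pair]
      exact (hU3 _).2 ⟨w, hwG, h4⟩)
    exact ⟨n, hn, w, hw, h6.symm⟩

theorem zn_mem_zc {Z : St M ℕ} {k : ℕ} : zn k ∈ zc M Z ↔ k ∈ Z := by
  rw [← nt_val (W := M) k]
  constructor
  · intro h
    obtain ⟨a, ha, ha'⟩ := (cd_st M Z (nt M k)).1 h
    have h1 : a = k := cd_inj.1 (ha'.trans (rfl : nt M k = cd M k))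
    exact h1 ▸ ha
  · intro h
    exact (cd_st M Z (nt M k)).2 ⟨k, h, rfl⟩

/-- **(P6)** no sequence of reals of the extension contains all reals of the ground model -/
theorem no_enum {D : CPD M K} (B : Bs M K) (P : CPP D) (hA : ACL D (PQ M K × PQ M K)) (hK : OrdC M K)
    {G : Set ZFSet.{0}} (hG : Gen M (QA D) G) [hE : Fact (CPY.Mod (Ext M G))] {R : ℕ → ℕ → Prop}
    (hR : IP (Ext M G) (fun p : ℕ × ℕ => R p.1 p.2)) : ∃ z : ℕ → Prop, IP M z ∧ ∀ n, z ≠ R n := by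
  have tE : ZU.TM (Ext M G) := hE.out.tm
  obtain ⟨s, hs, hs1⟩ := IP.iff_mem.1 hR
  have hs2 : ∀ n i, R n i ↔ ZFSet.pair (zn n) (zn i) ∈ s := by
    intro n i
    rw [hs1 (n, i)]
    have h1 : (cd (Ext M G) (n, i)).1 = ZFSet.pair (nt (Ext M G) n).1 (nt (Ext M G) i).1 := op_val _ _
    rw [h1, nt_val, nt_val]
  have hAE : (rg M (St M ℕ)).1 ∈ Ext M G := hM.out.sub_ext (QP_isPo B P _) hG (rg M (St M ℕ)).2
  let A : Ext M G := ⟨_, hAE⟩
  let s' : Ext M G := ⟨s, hs⟩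
  let X : Ext M G := ZU.sep (ZU.prd (ZU.om : Ext M G) A) fun p =>
    ∀ i, i ∈ (ZU.om : Ext M G) → (i ∈ ZU.snd p ↔ ZU.op (ZU.fst p) i ∈ s')
  have hX : ∀ p, p ∈ X ↔ p ∈ ZU.prd (ZU.om : Ext M G) A ∧ ∀ i, i ∈ (ZU.om : Ext M G) →
      (i ∈ ZU.snd p ↔ ZU.op (ZU.fst p) i ∈ s') := fun p => ZU.mem_sep (P := fun p =>
        ∀ i, i ∈ (ZU.om : Ext M G) → (i ∈ ZU.snd p ↔ ZU.op (ZU.fst p) i ∈ s'))
      (ZU.dfn_all (ZU.dfn_imp (ZU.dfn_mem (ZU.df_var 0) (ZU.df_const _)) (ZU.dfn_iff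
        (ZU.dfn_mem (ZU.df_var 0) (ZU.df_snd (ZU.df_var 1))) (ZU.dfn_mem (ZU.df_op (ZU.df_fst (ZU.df_var 1))
          (ZU.df_var 0)) (ZU.df_const _)))))
  have hX2 : ∀ (n : ℕ) (Z : St M ℕ), ZFSet.pair (zn n) (zc M Z) ∈ X.1 ↔ ∀ i, i ∈ Z ↔ R n i := by
    intro n Z
    have hZ : zc M Z ∈ Ext M G := hM.out.sub_ext (QP_isPo B P _) hG (zc_mem Z)
    let Z' : Ext M G := ⟨zc M Z, hZ⟩
    have h1 : (ZU.op (ZU.nt n) Z' : Ext M G).1 = ZFSet.pair (zn n) (zc M Z) := by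
      rw [mop_val, LRS.nat_val, LRS.nat_zn]
    have h2 : ZFSet.pair (zn n) (zc M Z) ∈ X.1 ↔ (ZU.op (ZU.nt n) Z' : Ext M G) ∈ X := by
      rw [← h1]
      exact Iff.rfl
    have h3 : (ZU.op (ZU.nt n) Z' : Ext M G) ∈ ZU.prd (ZU.om : Ext M G) A :=
      ZU.op_mem_prd.2 ⟨ZU.nt_mem_om n, (cd_mem (N := M) Z : WM.E (cd M Z) (rg M (St M ℕ)))⟩
    have h4 : ∀ k : ℕ, (ZU.nt k : Ext M G) ∈ Z' ↔ k ∈ Z := by
      intro k
      rw [← zn_mem_zc, ← LRS.nat_zn, ← LRS.nat_val (W := Ext M G)]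
      exact Iff.rfl
    have h5 : ∀ k : ℕ, (ZU.op (ZU.nt n) (ZU.nt k) : Ext M G) ∈ s' ↔ R n k := by
      intro k
      rw [hs2]
      have h6 : (ZU.op (ZU.nt n) (ZU.nt k) : Ext M G).1 = ZFSet.pair (zn n) (zn k) := by
        rw [mop_val, LRS.nat_val, LRS.nat_zn, LRS.nat_val, LRS.nat_zn]
      rw [← h6]
      exact Iff.rfl
    rw [h2, hX]
    constructor
    · rintro ⟨-, h⟩ i
      have h6 := h (ZU.nt i) (ZU.nt_mem_om i)
      rw [ZU.snd_op, ZU.fst_op, h4, h5] at h6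
      exact h6
    · intro h
      refine ⟨h3, fun i hi => ?_⟩
      obtain ⟨k, rfl⟩ := ZU.mem_om.1 hi
      rw [ZU.snd_op, ZU.fst_op, h4, h5]
      exact h k
  have hX3 : ∀ (a b : ZFSet.{0}), ZFSet.pair a b ∈ X.1 → ∃ k : ℕ, a = zn k := by
    intro a b hab
    let p : Ext M G := ⟨ZFSet.pair a b, tE.tr _ X.2 _ hab⟩
    have h1 : p ∈ X := hab
    obtain ⟨h2, -⟩ := (hX p).1 h1
    obtain ⟨c, d, hc, -, h3⟩ := ZU.mem_prd.1 h2
    obtain ⟨k, rfl⟩ := ZU.mem_om.1 hc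
    have h4 : p.1 = ZFSet.pair (zn k) d.1 := by
      rw [h3, mop_val, LRS.nat_val, LRS.nat_zn]
    exact ⟨k, (ZFSet.pair_inj.1 h4).1⟩
  obtain ⟨S, hS, hS1⟩ := cover B P hA hG (T := St M ℕ) ⟨∅, IP.const False⟩ X.2 (by
    intro n t t' ht ht'
    obtain ⟨k, hk⟩ := hX3 _ _ ht
    rw [hk] at ht ht'
    apply St.ext
    apply Set.ext
    intro i
    show i ∈ t ↔ i ∈ t'
    rw [(hX2 k t).1 ht i, (hX2 k t').1 ht' i])
  by_contra hcon
  push Not at hcon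
  refine not_cnt_univ S (fun A0 => ?_) hS
  obtain ⟨n, hn⟩ := hcon (fun i => i ∈ A0) A0.int
  obtain ⟨y, hy, hyn⟩ := zc_zn (K := K) B hK n
  refine hS1 y A0 hy ?_
  rw [hyn]
  exact (hX2 n A0).2 fun i => iff_of_eq (congrFun hn i)

end LRT
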