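import Pool.Agent.LRM.TyA
import Pool.Agent.COD.Kc

/-! # LRM: the coding poset as a system of subforcings: definitions

(problem MP_328cd5_lc; L(R) side, bridge; architect helper16, helper69)

Index set: the countable (in `M`) internal subsets `I` of `K`. `R I`: families with support in `I`; `C I`: families with support in
the complement; `big e a`: `e ⊆ a` and `a - e` is infinite. -/

set_option autoImplicit false

universe u v w

namespace LRT

open WCal CPY COD

variable {M : Set ZFSet.{0}} [hM : Fact (CPY.Mod M)] {K : Type v} [WTy M K] [KTy M K]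

/-- the countable internal subsets of `K` -/
def Idx (M : Set ZFSet.{0}) [Fact (CPY.Mod M)] (K : Type v) [WTy M K] : Type v := {I : St M K // Cnt I}

/-- the set of all elements of `K` -/
def allK (M : Set ZFSet.{0}) [Fact (CPY.Mod M)] (K : Type v) [WTy M K] : St M K := ⟨Set.univ, IP.const True⟩

/-- the complement -/
def cpl (I : St M K) : St M K := ⟨{x | x ∉ I}, IP.not (IP.mem IF.id (IF.const I))⟩

/-- the partial order of the families with support in `I` -/
noncomputable def QP (D : CPD M K) (I : St M K) : Po := tPo M (VI D I) (LeQ D) oneQ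

/-- the whole partial order -/
noncomputable def QA (D : CPD M K) : Po := QP D (allK M K)

/-- the system -/
noncomputable def sdD (D : CPD M K) : SD (Idx M K) where
  R a := QP D a.1
  C a := QP D (cpl a.1)
  r a := zmap M fun q => glu a.1 q oneQ
  c a := zmap M fun q => glu a.1 oneQ q
  big e a := (∀ x, x ∈ e.1 → x ∈ a.1) ∧ {x | x ∈ a.1 ∧ x ∉ e.1}.Infinite

theorem isT_VI {D : CPD M K} (B : Bs M K) (P : CPP D) (I : St M K) : IsT M (VI D I) (LeQ D) oneQ := by
  have hB : Fact (Bs M K) := ⟨B⟩
  have hP : Fact (CPP D) := ⟨P⟩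
  exact ⟨ip_VI (IF.const I) IF.id, ip_LeQ IF.fst IF.snd, ⟨oneQ_val B, fun _ _ => rfl⟩, fun p _ => LeQ.refl p,
    fun p q r _ hq hr h1 h2 => LeQ.trans P hq.1 hr.1 h1 h2, fun p _ => LeQ.one p⟩

theorem QP_isPo {D : CPD M K} (B : Bs M K) (P : CPP D) (I : St M K) : IsPo M (QP D I) :=
  tPo_isPo (isT_VI B P I)

/-- the codes of the elements of `K` are the ordinals below `rg M K` -/
def OrdC (M : Set ZFSet.{0}) [Fact (CPY.Mod M)] (K : Type v) [WTy M K] [KTy M K] : Prop :=
  ∀ (y : K) (z : ZFSet.{0}), z ∈ zc M y ↔ ∃ x, x < y ∧ z = zc M x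

end LRT
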