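import Pool.Agent.LRM.TyD
import Pool.Agent.WCal.Bij

/-! # LRM: permutations of the index set

(problem MP_328cd5_lc; L(R) side, bridge; helper69; package TyS, 1.5 h; other files are black boxes)

Typed calculus over the model `M` (library WCal; `open WCal`; cardinal arithmetic of `K`: COD/Kf.lean, countable sets: WCal/Cho.lean, COD/Qa.lean). PROOFS.
`exists_shift`: let `m` be an infinite cardinal above `c` (`B.unb`), `g` the pairing function on `m` (`exists_pair`). There is `y0 < m` with `c ≤ g y0 x` for all `x < m`: otherwise every `y < m` is the first component of some element of `c`, and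
`Cov M c (· < m)` by the internal function `z ↦` the `y < m` with `z = g y x` for some `x < m` (unique by injectivity; use `choice'`), contradicting `Cd m` (`hm.2 c`). `ψ x := g y0 x` for `x < m`.
`exists_bij2`: two internal sets `X, Y` which are countable and infinite: internal `f, g : K → K` inverse to each other between `X` and `Y`. Let `X` be nonempty; `Cnt.enum` gives an internal surjection `ℕ → X`; on the type `Sb X` (WCal) `exists_bij` (WCal/Bij.lean) gives a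
bijection with `ℕ` (read its statement), same for `Y`; compose. (Or: `WCal.exists_bij` for a direct construction on `ℕ`.)
`exists_swap`: `I`, `S`, `T` are bounded by `c` (`cnt_bdd`, maximum). Let `ψ`, `m` from `exists_shift` (`c ≤ m` so elements below `c` are below `m`). `π x := ψ x` for `x ∈ S`; `π x := s` if `x = ψ s`, `s ∈ S` (`s` unique); `π x = x` otherwise. It is internal (`IF.ofP` or `IF.unique` with the graph
`(x ∈ S ∧ y = ψ x) ∨ (y ∈ S ∧ x = ψ y) ∨ (x ∉ S ∧ (∀ s ∈ S, x ≠ ψ s) ∧ y = x)`). As `S ⊆ c` and `ψ[S]` is disjoint from `c`: `π` is an involution, `π x = x` for `x ∈ I` (`x < c`, `x ∉ S`), `π x = ψ x ≥ c` is not in `T` for `x ∈ S`.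
`exists_room`: for countable `S` there is a countable infinite internal `Z` disjoint from `S`: `Z = {ψ x | x < nx ⊥}` with `ψ` for a bound `c` of `S` with `nx ⊥ ≤ c` (infinite: `cd_nx`, `ψ` injective; countable: `cnt_iff_cov`, `Cov.image`).
`exists_conj`: let `Z` be countable infinite and disjoint from `S ∪ T`, `U = S ∪ T ∪ Z`. `exists_bij2` gives a bijection `β` of `S - I` and `T - I`, and a bijection `γ` of `U - S` and `U - T` (both contain `Z`, so infinite; countable: `Cnt.union`, `Cnt.mono`). `π := id` on `I`, `β` on `S - I`, `γ` on `U - S`, `id` outside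
`U`; `ρ` the same with the inverses (`id` on `I`, `β⁻¹` on `T - I`, `γ⁻¹` on `U - T`, `id` outside `U`); internal by `if_cit` (COD/Df.lean) or `IF.ite`. -/

set_option autoImplicit false

universe u v w

namespace LRT

open WCal CPY COD

variable {M : Set ZFSet.{0}} [hM : Fact (CPY.Mod M)] {K : Type v} [WTy M K] [KTy M K]

omit [KTy M K] in
/-- injective enumerations of countable infinite sets -/
private theorem bijN {X : St M K} (hX : Cnt X) (hXi : {x | x ∈ X}.Infinite) :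
    ∃ u : ℕ → K, IF M u ∧ Function.Injective u ∧ ∀ x, x ∈ X ↔ ∃ n, u n = x := by
  obtain ⟨x0, hx0⟩ := hXi.nonempty
  obtain ⟨e, he, he'⟩ := hX.enum ⟨x0, hx0⟩
  have hinf : Infinite {x | x ∈ X} := hXi.to_subtype
  have hinf' : Infinite (Sb X) :=
    Infinite.of_injective (fun x : {x | x ∈ X} => (⟨x.1, x.2⟩ : Sb X)) fun x y h =>
      Subtype.ext (congrArg Sb.v h)
  have hm : ∀ n, e n ∈ X := fun n => (he' _).2 ⟨n, rfl⟩
  obtain ⟨f, hf, hf1, hf2⟩ := exists_bij (e := fun n => (⟨e n, hm n⟩ : Sb X)) (IF.toSb he hm)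
    fun x => by
      obtain ⟨n, hn⟩ := (he' x.v).1 x.h
      exact ⟨n, Sb.ext hn⟩
  refine ⟨fun n => (f n).v, IF.val.comp hf, fun a b h => hf1 (Sb.ext h), fun x => ⟨fun hx => ?_, ?_⟩⟩
  · obtain ⟨n, hn⟩ := hf2 ⟨x, hx⟩
    exact ⟨n, congrArg Sb.v hn⟩
  · rintro ⟨n, rfl⟩
    exact (f n).h

omit [KTy M K] in
/-- a bijective internal relation gives inverse internal functions -/
private theorem glue {R : K → K → Prop} (hR : IP M (fun p : K × K => R p.1 p.2))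
    (h1 : ∀ x, ∃ y, R x y) (h2 : ∀ y, ∃ x, R x y) (h3 : ∀ x y y', R x y → R x y' → y = y')
    (h4 : ∀ x x' y, R x y → R x' y → x = x') :
    ∃ π ρ : Fn M K K, (∀ x, π (ρ x) = x) ∧ (∀ x, ρ (π x) = x) ∧ ∀ x, R x (π x) := by
  obtain ⟨f, hf, hf'⟩ := choice hR h1
  obtain ⟨g, hg, hg'⟩ := choice (P := fun y x => R x y) (IP.sw hR) h2
  exact ⟨⟨f, hf⟩, ⟨g, hg⟩, fun x => h3 _ _ _ (hf' (g x)) (hg' x),
    fun x => h4 _ _ _ (hg' (f x)) (hf' x), hf'⟩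

omit [KTy M K] in
private theorem exists_union {S T : St M K} (hS : Cnt S) (hT : Cnt T) :
    ∃ U : St M K, Cnt U ∧ ∀ x, x ∈ U ↔ x ∈ S ∨ x ∈ T := by
  have h : IP M (fun x : K => x ∈ S ∨ x ∈ T) :=
    IP.or (IP.mem IF.id (IF.const S)) (IP.mem IF.id (IF.const T))
  exact ⟨⟨{x | x ∈ S ∨ x ∈ T}, h⟩, Cnt.union hS hT fun x hx => hx, fun x => Iff.rfl⟩

omit [KTy M K] in
private theorem exists_diff {S : St M K} (hS : Cnt S) (T : St M K) :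
    ∃ U : St M K, Cnt U ∧ ∀ x, x ∈ U ↔ x ∈ S ∧ x ∉ T := by
  have h : IP M (fun x : K => x ∈ S ∧ x ∉ T) :=
    IP.and (IP.mem IF.id (IF.const S)) (IP.not (IP.mem IF.id (IF.const T)))
  exact ⟨⟨{x | x ∈ S ∧ x ∉ T}, h⟩, Cnt.mono (fun x hx => hx.1) hS, fun x => Iff.rfl⟩

/-- a shift beyond `c` -/
theorem exists_shift (B : Bs M K) (c : K) : ∃ (m : K) (ψ : Fn M K K), c < m ∧ (∀ x, x < m → c ≤ ψ x) ∧
    ∀ x y, x < m → y < m → ψ x = ψ y → x = y := by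
  obtain ⟨m, hcm, hm⟩ := B.unb c
  obtain ⟨g, hg, -, hg2⟩ := exists_pair B hm
  have key : ∃ y, y < m ∧ ∀ x, x < m → c ≤ g y x := by
    by_contra hcon
    push Not at hcon
    have hP : IP M (fun p : K × K => p.2 < m ∧ ∃ x, x < m ∧ g p.2 x = p.1) := by
      refine IP.and (ip_ltK IF.snd (IF.const m)) (IP.ex (P := fun (p : K × K) (x : K) =>
        x < m ∧ g p.2 x = p.1) (IP.and (ip_ltK IF.snd (IF.const m)) (IP.eq ?_ (IF.fst' IF.fst))))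
      exact IF.comp2 (h := g) hg (IF.snd' IF.fst) IF.snd
    obtain ⟨f, hf, hf'⟩ := choice' (P := fun (z y : K) => y < m ∧ ∃ x, x < m ∧ g y x = z) hP c
    refine hm.2 c hcm ⟨f, hf, fun y hy => ?_⟩
    obtain ⟨x, hx, hxc⟩ := hcon y hy
    refine ⟨g y x, hxc, ?_⟩
    obtain ⟨h1, x', hx', h2⟩ := hf' (g y x) ⟨y, hy, x, hx, rfl⟩
    exact (hg2 _ _ _ _ h1 hx' hy hx h2).1
  obtain ⟨y, hy, hyc⟩ := key
  exact ⟨m, ⟨fun x => g y x, IF.comp2 (h := g) hg (IF.const y) IF.id⟩, hcm, hyc,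
    fun x x' hx hx' h => (hg2 _ _ _ _ hy hx hy hx' h).2⟩

/-- countable infinite sets are equipotent -/
theorem exists_bij2 {X Y : St M K} (hX : Cnt X) (hY : Cnt Y) (hXi : {x | x ∈ X}.Infinite) (hYi : {x | x ∈ Y}.Infinite) :
    ∃ f g : Fn M K K, (∀ x, x ∈ X → f x ∈ Y ∧ g (f x) = x) ∧ ∀ y, y ∈ Y → g y ∈ X ∧ f (g y) = y := by
  obtain ⟨u, hu, hu1, hu2⟩ := bijN hX hXi
  obtain ⟨w, hw, hw1, hw2⟩ := bijN hY hYi
  have hR : ∀ {u w : ℕ → K} {X : St M K}, IF M u → IF M w →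
      IP M (fun p : K × K => (∃ n, u n = p.1 ∧ w n = p.2) ∨ (p.1 ∉ X ∧ p.2 = p.1)) := by
    intro u w X hu hw
    refine IP.or (IP.ex (P := fun (p : K × K) (n : ℕ) => u n = p.1 ∧ w n = p.2) (IP.and
      (IP.eq (hu.comp IF.snd) (IF.fst' IF.fst)) (IP.eq (hw.comp IF.snd) (IF.snd' IF.fst))))
      (IP.and (IP.not (IP.mem IF.fst (IF.const X))) (IP.eq IF.snd IF.fst))
  obtain ⟨f, hf, hf'⟩ := choice (P := fun (x y : K) => (∃ n, u n = x ∧ w n = y) ∨ (x ∉ X ∧ y = x))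
    (hR hu hw) fun x => by
      by_cases hx : x ∈ X
      · obtain ⟨n, hn⟩ := (hu2 x).1 hx
        exact ⟨w n, Or.inl ⟨n, hn, rfl⟩⟩
      · exact ⟨x, Or.inr ⟨hx, rfl⟩⟩
  obtain ⟨g, hg, hg'⟩ := choice (P := fun (x y : K) => (∃ n, w n = x ∧ u n = y) ∨ (x ∉ Y ∧ y = x))
    (hR hw hu) fun x => by
      by_cases hx : x ∈ Y
      · obtain ⟨n, hn⟩ := (hw2 x).1 hx
        exact ⟨u n, Or.inl ⟨n, hn, rfl⟩⟩
      · exact ⟨x, Or.inr ⟨hx, rfl⟩⟩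
  have kf : ∀ n, f (u n) = w n := by
    intro n
    rcases hf' (u n) with ⟨k, h1, h2⟩ | ⟨h1, -⟩
    · rw [← h2, hu1 h1]
    · exact absurd ((hu2 _).2 ⟨n, rfl⟩) h1
  have kg : ∀ n, g (w n) = u n := by
    intro n
    rcases hg' (w n) with ⟨k, h1, h2⟩ | ⟨h1, -⟩
    · rw [← h2, hw1 h1]
    · exact absurd ((hw2 _).2 ⟨n, rfl⟩) h1
  refine ⟨⟨f, hf⟩, ⟨g, hg⟩, fun x hx => ?_, fun y hy => ?_⟩
  · obtain ⟨n, rfl⟩ := (hu2 x).1 hx
    change f (u n) ∈ Y ∧ g (f (u n)) = u n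
    rw [kf, kg]
    exact ⟨(hw2 _).2 ⟨n, rfl⟩, rfl⟩
  · obtain ⟨n, rfl⟩ := (hw2 y).1 hy
    change g (w n) ∈ X ∧ f (g (w n)) = w n
    rw [kg, kf]
    exact ⟨(hu2 _).2 ⟨n, rfl⟩, rfl⟩

/-- room for countable sets -/
theorem exists_room (B : Bs M K) {S : St M K} (hS : Cnt S) : ∃ Z : St M K, Cnt Z ∧ {x | x ∈ Z}.Infinite ∧
    ∀ x, x ∈ Z → x ∉ S := by
  obtain ⟨c, hc⟩ := cnt_bdd B hS
  obtain ⟨m, ψ, hm, hψ, hi⟩ := exists_shift B (max c (nx M (⊥ : K)))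
  have hZ : IP M (fun y : K => ∃ x, x < nx M (⊥ : K) ∧ ψ x = y) :=
    IP.ex (P := fun (y x : K) => x < nx M (⊥ : K) ∧ ψ x = y) (IP.and
      (ip_ltK IF.snd (IF.const _)) (IP.eq (ψ.int.comp IF.snd) IF.fst))
  have hlt : ∀ x, x < nx M (⊥ : K) → x < m := fun x hx =>
    hx.trans ((le_max_right _ _).trans_lt hm)
  have : Nonempty K := ⟨⊥⟩
  refine ⟨⟨{y | ∃ x, x < nx M (⊥ : K) ∧ ψ x = y}, hZ⟩,
    (cnt_iff_cov B).2 ⟨ψ, ψ.int, fun a ha => ha⟩, ?_, ?_⟩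
  · have h1 : (Set.Iio (nx M (⊥ : K))).Infinite := (cd_nx B ⊥).1
    refine (h1.image (f := ψ.f) fun x hx y hy h => hi x y (hlt x hx) (hlt y hy) h).mono ?_
    rintro _ ⟨x, hx, rfl⟩
    exact ⟨x, hx, rfl⟩
  · rintro y ⟨x, hx, rfl⟩ hy
    exact absurd ((hc _ hy).trans_le ((le_max_left _ _).trans (hψ x (hlt x hx)))) (lt_irrefl _)

/-- two countable sets outside of a countable set can be made disjoint by an involution -/
theorem exists_swap (B : Bs M K) {I S T : St M K} (hI : Cnt I) (hS : Cnt S) (hT : Cnt T)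
    (h : ∀ x, x ∈ S → x ∉ I) :
    ∃ π : Fn M K K, (∀ x, π (π x) = x) ∧ (∀ x, x ∈ I → π x = x) ∧ ∀ x, x ∈ S → π x ∉ T := by
  obtain ⟨c1, hc1⟩ := cnt_bdd B hI
  obtain ⟨c2, hc2⟩ := cnt_bdd B hS
  obtain ⟨c3, hc3⟩ := cnt_bdd B hT
  obtain ⟨m, ψ, hm, hψ, hi⟩ := exists_shift B (max c1 (max c2 c3))
  have l2 : ∀ x, x ∈ S → x < max c1 (max c2 c3) := fun x hx =>
    (hc2 x hx).trans_le ((le_max_left _ _).trans (le_max_right _ _))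
  have k2 : ∀ x, x ∈ S → max c1 (max c2 c3) ≤ ψ x := fun x hx => hψ x ((l2 x hx).trans hm)
  have hR : IP M (fun p : K × K => (p.1 ∈ S ∧ p.2 = ψ p.1) ∨ (p.2 ∈ S ∧ p.1 = ψ p.2) ∨
      (p.1 ∉ S ∧ (∀ s, s ∈ S → ψ s ≠ p.1) ∧ p.2 = p.1)) := by
    refine IP.or (IP.and (IP.mem IF.fst (IF.const S)) (IP.eq IF.snd (ψ.int.comp IF.fst)))
      (IP.or (IP.and (IP.mem IF.snd (IF.const S)) (IP.eq IF.fst (ψ.int.comp IF.snd)))
        (IP.and (IP.not (IP.mem IF.fst (IF.const S))) (IP.and ?_ (IP.eq IF.snd IF.fst))))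
    exact IP.all (P := fun (p : K × K) (s : K) => s ∈ S → ψ s ≠ p.1) (IP.imp
      (IP.mem IF.snd (IF.const S)) (IP.not (IP.eq (ψ.int.comp IF.snd) (IF.fst' IF.fst))))
  obtain ⟨f, hf, hf'⟩ := choice (P := fun (x y : K) => (x ∈ S ∧ y = ψ x) ∨ (y ∈ S ∧ x = ψ y) ∨
      (x ∉ S ∧ (∀ s, s ∈ S → ψ s ≠ x) ∧ y = x)) hR fun x => by
    by_cases hx : x ∈ S
    · exact ⟨ψ x, Or.inl ⟨hx, rfl⟩⟩
    · by_cases h2 : ∃ s, s ∈ S ∧ ψ s = x
      · obtain ⟨s, hs, h3⟩ := h2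
        exact ⟨s, Or.inr (Or.inl ⟨hs, h3.symm⟩)⟩
      · exact ⟨x, Or.inr (Or.inr ⟨hx, fun s hs h3 => h2 ⟨s, hs, h3⟩, rfl⟩)⟩
  have hno : ∀ s t, s ∈ S → t ∈ S → s ≠ ψ t := fun s t hs ht h =>
    absurd ((l2 s hs).trans_le (k2 t ht)) (by rw [← h]; exact lt_irrefl _)
  have hfS : ∀ x, x ∈ S → f x = ψ x := by
    intro x hx
    rcases hf' x with ⟨-, h1⟩ | ⟨h1, h2⟩ | ⟨h1, -⟩
    · exact h1
    · exact absurd h2 (hno x _ hx h1)
    · exact absurd hx h1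
  have hfψ : ∀ x, x ∈ S → f (ψ x) = x := by
    intro x hx
    rcases hf' (ψ x) with ⟨h1, -⟩ | ⟨h1, h2⟩ | ⟨-, h1, -⟩
    · exact absurd rfl (hno _ x h1 hx)
    · exact (hi _ _ ((l2 x hx).trans hm) ((l2 _ h1).trans hm) h2).symm
    · exact absurd rfl (h1 x hx)
  refine ⟨⟨f, hf⟩, fun x => ?_, fun x hx => ?_, fun x hx => ?_⟩
  · change f (f x) = x
    rcases hf' x with ⟨h1, h2⟩ | ⟨h1, h2⟩ | ⟨-, -, h2⟩
    · rw [h2, hfψ x h1]
    · rw [hfS _ h1, ← h2]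
    · rw [h2, h2]
  · change f x = x
    rcases hf' x with ⟨h1, -⟩ | ⟨h1, h2⟩ | ⟨-, -, h2⟩
    · exact absurd hx (h x h1)
    · exact absurd ((hc1 x hx).trans_le ((le_max_left _ _).trans (k2 _ h1)))
        (by rw [← h2]; exact lt_irrefl _)
    · exact h2
  · change f x ∉ T
    rw [hfS x hx]
    intro h2
    exact absurd ((hc3 _ h2).trans_le (((le_max_right _ _).trans (le_max_right _ _)).trans
      (k2 x hx))) (lt_irrefl _)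

/-- two countable sets which are big over `I` are conjugate over `I` -/
theorem exists_conj (B : Bs M K) {I S T : St M K} (hS : Cnt S) (hT : Cnt T)
    (hIS : ∀ x, x ∈ I → x ∈ S) (hIT : ∀ x, x ∈ I → x ∈ T) (hSi : {x | x ∈ S ∧ x ∉ I}.Infinite)
    (hTi : {x | x ∈ T ∧ x ∉ I}.Infinite) :
    ∃ π ρ : Fn M K K, (∀ x, π (ρ x) = x) ∧ (∀ x, ρ (π x) = x) ∧ (∀ x, x ∈ I → π x = x) ∧
      ∀ x, (π x ∈ T ↔ x ∈ S) := by
  obtain ⟨V, hV, hV'⟩ := exists_union hS hT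
  obtain ⟨Z, hZ, hZi, hZV⟩ := exists_room B hV
  obtain ⟨U, hU, hU'⟩ := exists_union hV hZ
  obtain ⟨S1, hS1, hS1'⟩ := exists_diff hS I
  obtain ⟨T1, hT1, hT1'⟩ := exists_diff hT I
  obtain ⟨S2, hS2, hS2'⟩ := exists_diff hU S
  obtain ⟨T2, hT2, hT2'⟩ := exists_diff hU T
  obtain ⟨u1, i1, j1, k1⟩ := bijN hS1 (hSi.mono fun x hx => (hS1' x).2 hx)
  obtain ⟨w1, i2, j2, k2⟩ := bijN hT1 (hTi.mono fun x hx => (hT1' x).2 hx)
  obtain ⟨u2, i3, j3, k3⟩ := bijN hS2 (hZi.mono fun x hx => (hS2' x).2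
    ⟨(hU' x).2 (Or.inr hx), fun h => hZV x hx ((hV' x).2 (Or.inl h))⟩)
  obtain ⟨w2, i4, j4, k4⟩ := bijN hT2 (hZi.mono fun x hx => (hT2' x).2
    ⟨(hU' x).2 (Or.inr hx), fun h => hZV x hx ((hV' x).2 (Or.inr h))⟩)
  have a1 : ∀ n, u1 n ∈ S ∧ u1 n ∉ I := fun n => (hS1' _).1 ((k1 _).2 ⟨n, rfl⟩)
  have a2 : ∀ n, w1 n ∈ T ∧ w1 n ∉ I := fun n => (hT1' _).1 ((k2 _).2 ⟨n, rfl⟩)
  have a3 : ∀ n, u2 n ∈ U ∧ u2 n ∉ S := fun n => (hS2' _).1 ((k3 _).2 ⟨n, rfl⟩)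
  have a4 : ∀ n, w2 n ∈ U ∧ w2 n ∉ T := fun n => (hT2' _).1 ((k4 _).2 ⟨n, rfl⟩)
  have hSU : ∀ x, x ∈ S → x ∈ U := fun x hx => (hU' x).2 (Or.inl ((hV' x).2 (Or.inl hx)))
  have hTU : ∀ x, x ∈ T → x ∈ U := fun x hx => (hU' x).2 (Or.inl ((hV' x).2 (Or.inr hx)))
  have hR : IP M (fun p : K × K => (∃ n, u1 n = p.1 ∧ w1 n = p.2) ∨ (∃ n, u2 n = p.1 ∧ w2 n = p.2) ∨
      ((p.1 ∈ I ∨ p.1 ∉ U) ∧ p.2 = p.1)) := by
    refine IP.or (IP.ex (P := fun (p : K × K) (n : ℕ) => u1 n = p.1 ∧ w1 n = p.2) (IP.and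
      (IP.eq (i1.comp IF.snd) (IF.fst' IF.fst)) (IP.eq (i2.comp IF.snd) (IF.snd' IF.fst))))
      (IP.or (IP.ex (P := fun (p : K × K) (n : ℕ) => u2 n = p.1 ∧ w2 n = p.2) (IP.and
      (IP.eq (i3.comp IF.snd) (IF.fst' IF.fst)) (IP.eq (i4.comp IF.snd) (IF.snd' IF.fst))))
      (IP.and (IP.or (IP.mem IF.fst (IF.const I)) (IP.not (IP.mem IF.fst (IF.const U))))
        (IP.eq IF.snd IF.fst)))
  have g1 : ∀ x, ∃ y, (∃ n, u1 n = x ∧ w1 n = y) ∨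
      (∃ n, u2 n = x ∧ w2 n = y) ∨ ((x ∈ I ∨ x ∉ U) ∧ y = x) := by
    intro x
    by_cases h1 : x ∈ U
    · by_cases h2 : x ∈ S
      · by_cases h3 : x ∈ I
        · exact ⟨x, Or.inr (Or.inr ⟨Or.inl h3, rfl⟩)⟩
        · obtain ⟨n, hn⟩ := (k1 x).1 ((hS1' x).2 ⟨h2, h3⟩)
          exact ⟨w1 n, Or.inl ⟨n, hn, rfl⟩⟩
      · obtain ⟨n, hn⟩ := (k3 x).1 ((hS2' x).2 ⟨h1, h2⟩)
        exact ⟨w2 n, Or.inr (Or.inl ⟨n, hn, rfl⟩)⟩
    · exact ⟨x, Or.inr (Or.inr ⟨Or.inr h1, rfl⟩)⟩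
  have g2 : ∀ y, ∃ x, (∃ n, u1 n = x ∧ w1 n = y) ∨
      (∃ n, u2 n = x ∧ w2 n = y) ∨ ((x ∈ I ∨ x ∉ U) ∧ y = x) := by
    intro x
    by_cases h1 : x ∈ U
    · by_cases h2 : x ∈ T
      · by_cases h3 : x ∈ I
        · exact ⟨x, Or.inr (Or.inr ⟨Or.inl h3, rfl⟩)⟩
        · obtain ⟨n, hn⟩ := (k2 x).1 ((hT1' x).2 ⟨h2, h3⟩)
          exact ⟨u1 n, Or.inl ⟨n, rfl, hn⟩⟩
      · obtain ⟨n, hn⟩ := (k4 x).1 ((hT2' x).2 ⟨h1, h2⟩)
        exact ⟨u2 n, Or.inr (Or.inl ⟨n, rfl, hn⟩)⟩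
    · exact ⟨x, Or.inr (Or.inr ⟨Or.inr h1, rfl⟩)⟩
  have g3 : ∀ x y y', ((∃ n, u1 n = x ∧ w1 n = y) ∨
      (∃ n, u2 n = x ∧ w2 n = y) ∨ ((x ∈ I ∨ x ∉ U) ∧ y = x)) → ((∃ n, u1 n = x ∧ w1 n = y') ∨
      (∃ n, u2 n = x ∧ w2 n = y') ∨ ((x ∈ I ∨ x ∉ U) ∧ y' = x)) → y = y' := by
    rintro x y y' (⟨n, e1, e2⟩ | ⟨n, e1, e2⟩ | ⟨e1, e2⟩) (⟨n', e1', e2'⟩ | ⟨n', e1', e2'⟩ | ⟨e1', e2'⟩)
    · rw [← e2, ← e2', j1 (e1.trans e1'.symm)]
    · exact absurd (a1 n).1 (by rw [e1, ← e1']; exact (a3 n').2)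
    · rw [← e1] at e1'
      exact absurd e1' (not_or.2 ⟨(a1 n).2, not_not.2 (hSU _ (a1 n).1)⟩)
    · exact absurd (a1 n').1 (by rw [e1', ← e1]; exact (a3 n).2)
    · rw [← e2, ← e2', j3 (e1.trans e1'.symm)]
    · rw [← e1] at e1'
      exact absurd e1' (not_or.2 ⟨fun h => (a3 n).2 (hIS _ h), not_not.2 (a3 n).1⟩)
    · rw [← e1'] at e1
      exact absurd e1 (not_or.2 ⟨(a1 n').2, not_not.2 (hSU _ (a1 n').1)⟩)
    · rw [← e1'] at e1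
      exact absurd e1 (not_or.2 ⟨fun h => (a3 n').2 (hIS _ h), not_not.2 (a3 n').1⟩)
    · rw [e2, e2']
  have g4 : ∀ x x' y, ((∃ n, u1 n = x ∧ w1 n = y) ∨
      (∃ n, u2 n = x ∧ w2 n = y) ∨ ((x ∈ I ∨ x ∉ U) ∧ y = x)) → ((∃ n, u1 n = x' ∧ w1 n = y) ∨
      (∃ n, u2 n = x' ∧ w2 n = y) ∨ ((x' ∈ I ∨ x' ∉ U) ∧ y = x')) → x = x' := by
    rintro x x' y (⟨n, e1, e2⟩ | ⟨n, e1, e2⟩ | ⟨e1, e2⟩) (⟨n', e1', e2'⟩ | ⟨n', e1', e2'⟩ | ⟨e1', e2'⟩)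
    · rw [← e1, ← e1', j2 (e2.trans e2'.symm)]
    · exact absurd (a2 n).1 (by rw [e2, ← e2']; exact (a4 n').2)
    · rw [← e2', ← e2] at e1'
      exact absurd e1' (not_or.2 ⟨(a2 n).2, not_not.2 (hTU _ (a2 n).1)⟩)
    · exact absurd (a2 n').1 (by rw [e2', ← e2]; exact (a4 n).2)
    · rw [← e1, ← e1', j4 (e2.trans e2'.symm)]
    · rw [← e2', ← e2] at e1'
      exact absurd e1' (not_or.2 ⟨fun h => (a4 n).2 (hIT _ h), not_not.2 (a4 n).1⟩)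
    · rw [← e2, ← e2'] at e1
      exact absurd e1 (not_or.2 ⟨(a2 n').2, not_not.2 (hTU _ (a2 n').1)⟩)
    · rw [← e2, ← e2'] at e1
      exact absurd e1 (not_or.2 ⟨fun h => (a4 n').2 (hIT _ h), not_not.2 (a4 n').1⟩)
    · rw [← e2, ← e2']
  obtain ⟨π, ρ, h1, h2, h3⟩ := glue (R := fun x y => (∃ n, u1 n = x ∧ w1 n = y) ∨
      (∃ n, u2 n = x ∧ w2 n = y) ∨ ((x ∈ I ∨ x ∉ U) ∧ y = x)) hR g1 g2 g3 g4
  refine ⟨π, ρ, h1, h2, fun x hx => ?_, fun x => ?_⟩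
  · rcases h3 x with ⟨n, e1, -⟩ | ⟨n, e1, -⟩ | ⟨-, e1⟩
    · exact absurd hx (by rw [← e1]; exact (a1 n).2)
    · exact absurd (hIS x hx) (by rw [← e1]; exact (a3 n).2)
    · exact e1
  · rcases h3 x with ⟨n, e1, e2⟩ | ⟨n, e1, e2⟩ | ⟨e1, e2⟩
    · rw [← e2, ← e1]
      exact ⟨fun _ => (a1 n).1, fun _ => (a2 n).1⟩
    · rw [← e2, ← e1]
      exact ⟨fun h => absurd h (a4 n).2, fun h => absurd h (a3 n).2⟩
    · rw [e2]
      rcases e1 with e1 | e1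
      · exact ⟨fun _ => hIS x e1, fun _ => hIT x e1⟩
      · exact ⟨fun h => absurd (hTU x h) e1, fun h => absurd (hSU x h) e1⟩

end LRT
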